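import Mathlib

/-!
Means on sets, invariant means on abelian groups, extreme (ergodic) invariant means.
-/

namespace Pool.Agent.Helper91.Bohr

open Filter Topology

/-- bounded function -/
def Bd {X E : Type*} [SeminormedAddCommGroup E] (f : X → E) : Prop := ∃ C : ℝ, ∀ x, ‖f x‖ ≤ C

section Bd
variable {X Y E : Type*} [SeminormedAddCommGroup E] {f g : X → E}

theorem Bd.add (hf : Bd f) (hg : Bd g) : Bd (fun x => f x + g x) := by
  obtain ⟨C, hC⟩ := hf
  obtain ⟨D, hD⟩ := hg
  exact ⟨C + D, fun x => (norm_add_le _ _).trans (add_le_add (hC x) (hD x))⟩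

theorem Bd.neg (hf : Bd f) : Bd (fun x => - f x) := by
  obtain ⟨C, hC⟩ := hf
  exact ⟨C, fun x => by rw [norm_neg]; exact hC x⟩

theorem Bd.sub (hf : Bd f) (hg : Bd g) : Bd (fun x => f x - g x) := by
  obtain ⟨C, hC⟩ := hf
  obtain ⟨D, hD⟩ := hg
  exact ⟨C + D, fun x => (norm_sub_le _ _).trans (add_le_add (hC x) (hD x))⟩

theorem Bd.const (c : E) : Bd (fun _ : X => c) := ⟨‖c‖, fun _ => le_rfl⟩

theorem Bd.comp (hf : Bd f) (u : Y → X) : Bd (fun y => f (u y)) := by
  obtain ⟨C, hC⟩ := hf
  exact ⟨C, fun y => hC _⟩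

theorem Bd.norm (hf : Bd f) : Bd (fun x => ‖f x‖) := by
  obtain ⟨C, hC⟩ := hf
  exact ⟨C, fun x => by rw [norm_norm]; exact hC x⟩

theorem Bd.sum {ι : Type*} (s : Finset ι) {F : ι → X → E} (h : ∀ i ∈ s, Bd (F i)) :
    Bd (fun x => ∑ i ∈ s, F i x) := by
  classical
  induction s using Finset.induction_on with
  | empty => simpa using Bd.const (0 : E)
  | insert a s ha ih =>
    have h1 := h a (Finset.mem_insert_self a s)
    have h2 := ih (fun i hi => h i (Finset.mem_insert_of_mem hi))
    simpa [Finset.sum_insert ha] using h1.add h2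

theorem Bd.of_le {E' : Type*} [SeminormedAddCommGroup E'] {h : X → E'} (hf : Bd f)
    (H : ∀ x, ‖h x‖ ≤ ‖f x‖) : Bd h := by
  obtain ⟨C, hC⟩ := hf
  exact ⟨C, fun x => (H x).trans (hC x)⟩

theorem Bd.of_bound {C : ℝ} (h : ∀ x, ‖f x‖ ≤ C) : Bd f := ⟨C, h⟩

/-- a bound which is nonnegative -/
theorem Bd.exists_nonneg (hf : Bd f) : ∃ C : ℝ, 0 ≤ C ∧ ∀ x, ‖f x‖ ≤ C := by
  obtain ⟨C, hC⟩ := hf
  exact ⟨max C 0, le_max_right _ _, fun x => (hC x).trans (le_max_left _ _)⟩

end Bd

theorem Bd.mul {X R : Type*} [SeminormedRing R] {f g : X → R} (hf : Bd f) (hg : Bd g) :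
    Bd (fun x => f x * g x) := by
  obtain ⟨C, hC0, hC⟩ := hf.exists_nonneg
  obtain ⟨D, hD0, hD⟩ := hg.exists_nonneg
  exact ⟨C * D, fun x => (norm_mul_le _ _).trans
    (mul_le_mul (hC x) (hD x) (norm_nonneg _) hC0)⟩

theorem Bd.pow {X R : Type*} [SeminormedCommRing R] [NormOneClass R] {f : X → R} (hf : Bd f)
    (n : ℕ) : Bd (fun x => f x ^ n) := by
  induction n with
  | zero => simpa using Bd.const (1 : R)
  | succ n ih => simpa [pow_succ] using ih.mul hf

theorem Bd.smulC {X : Type*} {f : X → ℂ} (c : ℂ) (hf : Bd f) : Bd (fun x => c * f x) :=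
  (Bd.const c).mul hf

theorem Bd.smulR {X : Type*} {f : X → ℝ} (c : ℝ) (hf : Bd f) : Bd (fun x => c * f x) :=
  (Bd.const c).mul hf

theorem Bd.ofReal {X : Type*} {f : X → ℝ} (hf : Bd f) : Bd (fun x => (f x : ℂ)) := by
  obtain ⟨C, hC⟩ := hf
  exact ⟨C, fun x => by rw [Complex.norm_real]; exact hC x⟩

theorem Bd.re {X : Type*} {f : X → ℂ} (hf : Bd f) : Bd (fun x => (f x).re) := by
  obtain ⟨C, hC⟩ := hf
  exact ⟨C, fun x => (Complex.abs_re_le_norm _).trans (hC x)⟩

theorem Bd.im {X : Type*} {f : X → ℂ} (hf : Bd f) : Bd (fun x => (f x).im) := by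
  obtain ⟨C, hC⟩ := hf
  exact ⟨C, fun x => (Complex.abs_im_le_norm _).trans (hC x)⟩

theorem Bd.conj {X : Type*} {f : X → ℂ} (hf : Bd f) : Bd (fun x => (starRingEnd ℂ) (f x)) := by
  obtain ⟨C, hC⟩ := hf
  exact ⟨C, fun x => by rw [RCLike.norm_conj]; exact hC x⟩

/-- the submodule of bounded real functions -/
def BdR (X : Type*) : Submodule ℝ (X → ℝ) where
  carrier := {f | Bd f}
  zero_mem' := Bd.const 0
  add_mem' hf hg := Bd.add hf hg
  smul_mem' c _ hf := Bd.smulR c hf

/-- A mean: a linear functional on all real functions (linear extension by choice), which is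
positive on bounded functions and normalised. -/
structure Mean (X : Type*) where
  I : (X → ℝ) →ₗ[ℝ] ℝ
  nonneg : ∀ f : X → ℝ, Bd f → (∀ x, 0 ≤ f x) → 0 ≤ I f
  one : I (fun _ => 1) = 1

instance {X : Type*} : CoeFun (Mean X) (fun _ => (X → ℝ) → ℝ) := ⟨fun m => m.I⟩

namespace Mean
variable {X : Type*} (m : Mean X)

theorem add' (f g : X → ℝ) : m (fun x => f x + g x) = m f + m g := m.I.map_add f g
theorem sub' (f g : X → ℝ) : m (fun x => f x - g x) = m f - m g := m.I.map_sub f g
theorem smul' (c : ℝ) (f : X → ℝ) : m (fun x => c * f x) = c * m f := m.I.map_smul c f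
theorem neg' (f : X → ℝ) : m (fun x => - f x) = - m f := m.I.map_neg f
theorem const' (c : ℝ) : m (fun _ => c) = c := by
  have := m.smul' c (fun _ => 1)
  simpa [m.one] using this
theorem sum' {ι : Type*} (s : Finset ι) (F : ι → X → ℝ) :
    m (fun x => ∑ i ∈ s, F i x) = ∑ i ∈ s, m (F i) := by
  have : (fun x => ∑ i ∈ s, F i x) = ∑ i ∈ s, F i := by ext x; simp
  rw [this]; exact map_sum m.I F s

theorem mono {f g : X → ℝ} (hf : Bd f) (hg : Bd g) (h : ∀ x, f x ≤ g x) : m f ≤ m g := by
  have := m.nonneg (fun x => g x - f x) (hg.sub hf) (fun x => sub_nonneg.2 (h x))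
  rw [m.sub'] at this
  linarith

theorem le_of_le {f : X → ℝ} {c : ℝ} (hf : Bd f) (h : ∀ x, f x ≤ c) : m f ≤ c := by
  have := m.mono hf (Bd.const c) h
  rwa [m.const'] at this

theorem ge_of_ge {f : X → ℝ} {c : ℝ} (hf : Bd f) (h : ∀ x, c ≤ f x) : c ≤ m f := by
  have := m.mono (Bd.const c) hf h
  rwa [m.const'] at this

theorem abs_le {f : X → ℝ} {c : ℝ} (h : ∀ x, |f x| ≤ c) : |m f| ≤ c := by
  have hf : Bd f := ⟨c, h⟩
  rw [_root_.abs_le]
  exact ⟨m.ge_of_ge hf fun x => (_root_.abs_le.1 (h x)).1,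
    m.le_of_le hf fun x => (_root_.abs_le.1 (h x)).2⟩

end Mean

/-- the restricted functionals: the ambient space for compactness -/
abbrev Fun (X : Type*) := BdR X → ℝ

/-- the set of means inside the product space -/
def KM (X : Type*) : Set (Fun X) :=
  {φ | (∀ f g, φ (f + g) = φ f + φ g) ∧ (∀ (c : ℝ) f, φ (c • f) = c * φ f) ∧
    (∀ f : BdR X, (∀ x, 0 ≤ f.1 x) → 0 ≤ φ f) ∧ φ ⟨fun _ => 1, Bd.const 1⟩ = 1}

/-- restriction of a mean -/
def Mean.restr {X : Type*} (m : Mean X) : Fun X := fun f => m f.1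

theorem Mean.restr_mem {X : Type*} (m : Mean X) : m.restr ∈ KM X :=
  ⟨fun f g => m.I.map_add f.1 g.1, fun c f => m.I.map_smul c f.1,
    fun f hf => m.nonneg f.1 f.2 hf, m.one⟩

theorem exists_mean_of_mem {X : Type*} {φ : Fun X} (h : φ ∈ KM X) :
    ∃ m : Mean X, ∀ (f : X → ℝ) (hf : Bd f), m f = φ ⟨f, hf⟩ := by
  obtain ⟨h1, h2, h3, h4⟩ := h
  let L : (BdR X) →ₗ[ℝ] ℝ :=
    { toFun := φ
      map_add' := h1
      map_smul' := h2 }
  obtain ⟨g, hg⟩ := LinearMap.exists_extend L
  have key : ∀ (f : X → ℝ) (hf : Bd f), g f = φ ⟨f, hf⟩ := by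
    intro f hf
    exact LinearMap.congr_fun hg ⟨f, hf⟩
  refine ⟨⟨g, fun f hf hn => ?_, ?_⟩, key⟩
  · rw [key f hf]; exact h3 _ hn
  · rw [key _ (Bd.const 1)]; exact h4

theorem isClosed_KM (X : Type*) : IsClosed (KM X) := by
  have e : KM X = (⋂ (f : BdR X) (g : BdR X), {φ : Fun X | φ (f + g) = φ f + φ g}) ∩
      (⋂ (c : ℝ) (f : BdR X), {φ : Fun X | φ (c • f) = c * φ f}) ∩
      (⋂ (f : BdR X) (_ : ∀ x, 0 ≤ f.1 x), {φ : Fun X | 0 ≤ φ f}) ∩
      {φ : Fun X | φ ⟨fun _ => 1, Bd.const 1⟩ = 1} := by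
    ext φ
    simp only [KM, Set.mem_ofPred_eq, Set.mem_inter_iff, Set.mem_iInter]
    tauto
  rw [e]
  refine ((IsClosed.inter (IsClosed.inter ?_ ?_) ?_).inter ?_)
  · refine isClosed_iInter fun f => isClosed_iInter fun g => ?_
    exact isClosed_eq (continuous_apply _) (by fun_prop)
  · refine isClosed_iInter fun c => isClosed_iInter fun f => ?_
    exact isClosed_eq (continuous_apply _) (by fun_prop)
  · refine isClosed_iInter fun f => isClosed_iInter fun _ => ?_
    exact isClosed_le continuous_const (continuous_apply _)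
  · exact isClosed_eq (continuous_apply _) continuous_const

theorem KM_abs_le {X : Type*} {φ : Fun X} (h : φ ∈ KM X) (f : BdR X) {C : ℝ}
    (hC : ∀ x, ‖f.1 x‖ ≤ C) : |φ f| ≤ C := by
  obtain ⟨m, hm⟩ := exists_mean_of_mem h
  have := m.abs_le (f := f.1) (c := C) hC
  rwa [hm f.1 f.2] at this

theorem isCompact_KM (X : Type*) : IsCompact (KM X) := by
  have hsub : KM X ⊆ Set.pi Set.univ
      (fun f : BdR X => Set.Icc (-(Classical.choose f.2)) (Classical.choose f.2)) := by
    intro φ hφ f _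
    exact _root_.abs_le.1 (KM_abs_le hφ f (Classical.choose_spec f.2))
  exact (isCompact_univ_pi fun f => isCompact_Icc).of_isClosed_subset (isClosed_KM X) hsub

/-- ultralimits of means -/
theorem exists_ultralimit {X ι : Type*} (m : ι → Mean X) (𝒰 : Ultrafilter ι) :
    ∃ m' : Mean X, ∀ f : X → ℝ, Bd f → Tendsto (fun i => m i f) 𝒰 (𝓝 (m' f)) := by
  have hmem : KM X ∈ (𝒰.map (fun i => (m i).restr)) := by
    have : (fun i => (m i).restr) ⁻¹' (KM X) = Set.univ := by
      ext i; simp [(m i).restr_mem]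
    rw [Ultrafilter.mem_map, this]
    exact Filter.univ_mem
  obtain ⟨φ, hφ, hle⟩ := (isCompact_KM X).ultrafilter_le_nhds (𝒰.map (fun i => (m i).restr))
    (by rwa [Filter.le_principal_iff])
  obtain ⟨m', hm'⟩ := exists_mean_of_mem hφ
  refine ⟨m', fun f hf => ?_⟩
  rw [hm' f hf]
  have h1 : Tendsto (fun i => (m i).restr) 𝒰 (𝓝 φ) := hle
  exact (tendsto_pi_nhds.1 h1) ⟨f, hf⟩

/-- point evaluation -/
def Mean.dirac {X : Type*} (x : X) : Mean X where
  I := LinearMap.proj x
  nonneg _ _ h := h x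
  one := rfl

/-- finite average of means -/
noncomputable def Mean.avg {X ι : Type*} (s : Finset ι) (hs : s.Nonempty) (m : ι → Mean X) :
    Mean X where
  I := (s.card : ℝ)⁻¹ • ∑ i ∈ s, (m i).I
  nonneg f hf h := by
    simp only [LinearMap.smul_apply, LinearMap.sum_apply, smul_eq_mul]
    have : 0 ≤ ∑ i ∈ s, (m i).I f := Finset.sum_nonneg fun i _ => (m i).nonneg f hf h
    positivity
  one := by
    simp only [LinearMap.smul_apply, LinearMap.sum_apply, smul_eq_mul, Mean.one]
    have : (s.card : ℝ) ≠ 0 := by exact_mod_cast hs.card_pos.ne'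
    simp [this]

theorem Mean.avg_apply {X ι : Type*} (s : Finset ι) (hs : s.Nonempty) (m : ι → Mean X)
    (f : X → ℝ) : Mean.avg s hs m f = (s.card : ℝ)⁻¹ * ∑ i ∈ s, m i f := by
  simp [Mean.avg]

/-- push-forward of a mean -/
def Mean.map {X Y : Type*} (m : Mean X) (u : X → Y) : Mean Y where
  I := m.I ∘ₗ (LinearMap.funLeft ℝ ℝ u)
  nonneg _ hf h := m.nonneg _ (hf.comp u) (fun _ => h _)
  one := m.one

theorem Mean.map_apply {X Y : Type*} (m : Mean X) (u : X → Y) (f : Y → ℝ) :
    m.map u f = m (fun x => f (u x)) := rfl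

section Inv
variable {G : Type*} [AddCommGroup G]

/-- invariance under a single translation -/
def Mean.InvAt (m : Mean G) (h : G) : Prop := ∀ f : G → ℝ, Bd f → m (fun x => f (x + h)) = m f

/-- translation invariance -/
def Mean.Inv (m : Mean G) : Prop := ∀ h, m.InvAt h

theorem Mean.InvAt.zero (m : Mean G) : m.InvAt 0 := fun f _ => by simp

theorem exists_invAt_step (m : Mean G) (h : G) :
    ∃ m' : Mean G, m'.InvAt h ∧ ∀ k, m.InvAt k → m'.InvAt k := by
  classical
  let M : ℕ → Mean G := fun n => Mean.avg (Finset.range (n + 1)) (by simp)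
    (fun j => m.map (fun x => x + j • h))
  have hM : ∀ n (f : G → ℝ), M n f = ((n : ℝ) + 1)⁻¹ * ∑ j ∈ Finset.range (n + 1),
      m (fun x => f (x + j • h)) := by
    intro n f
    simp only [M, Mean.avg_apply, Mean.map_apply, Finset.card_range]
    push_cast
    rfl
  obtain ⟨m', hm'⟩ := exists_ultralimit M (hyperfilter ℕ)
  refine ⟨m', fun f hf => ?_, fun k hk f hf => ?_⟩
  · obtain ⟨C, hC0, hC⟩ := hf.exists_nonneg
    have h1 := hm' _ (hf.comp (fun x => x + h))
    have h2 := hm' f hf
    have h3 := h1.sub h2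
    have h4 : Tendsto (fun n => M n (fun x => f (x + h)) - M n f) (hyperfilter ℕ : Filter ℕ)
        (𝓝 0) := by
      have h5 : Tendsto (fun n : ℕ => (2 * C) * ((n : ℝ) + 1)⁻¹) (hyperfilter ℕ : Filter ℕ)
          (𝓝 0) := by
        have : Tendsto (fun n : ℕ => (2 * C) * ((n : ℝ) + 1)⁻¹) atTop (𝓝 (2 * C * 0)) := by
          apply Tendsto.const_mul
          simpa using tendsto_one_div_add_atTop_nhds_zero_nat (𝕜 := ℝ)
        rw [mul_zero] at this
        exact this.mono_left Nat.hyperfilter_le_atTop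
      refine squeeze_zero_norm (fun n => ?_) h5
      rw [hM, hM, ← mul_sub, norm_mul]
      have e1 : ∀ j : ℕ, (fun x => f (x + j • h + h)) = (fun x => f (x + (j + 1) • h)) := by
        intro j; ext x; rw [add_smul, one_smul, add_assoc]
      have e2 : ∑ j ∈ Finset.range (n + 1), m (fun x => f (x + j • h + h)) -
          ∑ j ∈ Finset.range (n + 1), m (fun x => f (x + j • h)) =
          m (fun x => f (x + (n + 1) • h)) - m (fun x => f (x + 0 • h)) := by
        rw [← Finset.sum_sub_distrib]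
        simp_rw [e1]
        exact Finset.sum_range_sub (fun j => m (fun x => f (x + j • h))) (n + 1)
      rw [e2]
      have e3 : ‖m (fun x => f (x + (n + 1) • h)) - m (fun x => f (x + 0 • h))‖ ≤ 2 * C := by
        refine (norm_sub_le _ _).trans ?_
        have a1 : ‖m (fun x => f (x + (n + 1) • h))‖ ≤ C := m.abs_le fun x => hC _
        have a2 : ‖m (fun x => f (x + 0 • h))‖ ≤ C := m.abs_le fun x => hC _
        linarith
      have e4 : ‖((n : ℝ) + 1)⁻¹‖ = ((n : ℝ) + 1)⁻¹ := by
        rw [Real.norm_eq_abs, abs_of_nonneg (by positivity)]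
      rw [e4, mul_comm]
      exact mul_le_mul_of_nonneg_right e3 (by positivity)
    have := tendsto_nhds_unique h3 h4
    linarith
  · have h1 := hm' _ (hf.comp (fun x => x + k))
    have h2 := hm' f hf
    have : (fun n => M n (fun x => f (x + k))) = (fun n => M n f) := by
      funext n
      rw [hM, hM]
      congr 1
      refine Finset.sum_congr rfl fun j _ => ?_
      have := hk (fun x => f (x + j • h)) (hf.comp _)
      rw [← this]
      congr 1
      ext x
      rw [add_right_comm]
    rw [this] at h1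
    exact tendsto_nhds_unique h1 h2

theorem exists_invAt_finset (s : Finset G) : ∃ m : Mean G, ∀ h ∈ s, m.InvAt h := by
  classical
  induction s using Finset.induction_on with
  | empty => exact ⟨Mean.dirac 0, by simp⟩
  | insert a s ha ih =>
    obtain ⟨m, hm⟩ := ih
    obtain ⟨m', h1, h2⟩ := exists_invAt_step m a
    refine ⟨m', fun h hh => ?_⟩
    rcases Finset.mem_insert.1 hh with rfl | hh
    · exact h1
    · exact h2 h (hm h hh)

theorem exists_inv (G : Type*) [AddCommGroup G] : ∃ m : Mean G, m.Inv := by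
  classical
  choose M hM using fun s : Finset G => exists_invAt_finset s
  obtain ⟨m', hm'⟩ := exists_ultralimit M (Ultrafilter.of (atTop : Filter (Finset G)))
  refine ⟨m', fun h f hf => ?_⟩
  have h1 := hm' _ (hf.comp (fun x => x + h))
  have h2 := hm' f hf
  have h3 : (fun s => M s (fun x => f (x + h))) =ᶠ[(Ultrafilter.of (atTop : Filter (Finset G)) :
      Filter (Finset G))] (fun s => M s f) := by
    have : ∀ᶠ s in (atTop : Filter (Finset G)), M s (fun x => f (x + h)) = M s f := by
      filter_upwards [eventually_ge_atTop ({h} : Finset G)] with s hs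
      exact hM s h (hs (Finset.mem_singleton_self h)) f hf
    exact this.filter_mono (Ultrafilter.of_le _)
  exact tendsto_nhds_unique (h1.congr' h3) h2

/-- ergodicity: the double average factorises -/
def Mean.Erg (m : Mean G) : Prop :=
  ∀ ν : Mean G, ν.Inv → ∀ f g : G → ℝ, Bd f → Bd g →
    ν (fun h => m (fun x => g x * f (x + h))) = m g * m f

/-- invariant means inside the product space -/
def KI (G : Type*) [AddCommGroup G] : Set (Fun G) :=
  {φ | φ ∈ KM G ∧ ∀ (h : G) (f : BdR G), φ ⟨fun x => f.1 (x + h), f.2.comp _⟩ = φ f}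

theorem isClosed_KI : IsClosed (KI G) := by
  have e : KI G = KM G ∩ ⋂ (h : G) (f : BdR G),
      {φ : Fun G | φ ⟨fun x => f.1 (x + h), f.2.comp _⟩ = φ f} := by
    ext φ
    simp [KI, Set.mem_iInter]
  rw [e]
  refine (isClosed_KM G).inter (isClosed_iInter fun h => isClosed_iInter fun f => ?_)
  exact isClosed_eq (continuous_apply _) (continuous_apply _)

theorem isCompact_KI : IsCompact (KI G) :=
  (isCompact_KM G).of_isClosed_subset isClosed_KI (fun _ h => h.1)

theorem Mean.Inv.restr_mem {m : Mean G} (hm : m.Inv) : m.restr ∈ KI G :=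
  ⟨m.restr_mem, fun h f => hm h f.1 f.2⟩

/-- the auxiliary functional `g ↦ ν_h m_x (g x * f (x+h))` -/
def aux (ν m : Mean G) (f : G → ℝ) : (G → ℝ) →ₗ[ℝ] ℝ where
  toFun g := ν (fun h => m (fun x => g x * f (x + h)))
  map_add' g g' := by
    have : (fun h => m (fun x => (g + g') x * f (x + h))) =
        (fun h => m (fun x => g x * f (x + h)) + m (fun x => g' x * f (x + h))) := by
      funext h
      rw [← m.add']
      congr 1
      funext x
      simp only [Pi.add_apply]
      ring
    rw [this, ν.add']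
  map_smul' c g := by
    have : (fun h => m (fun x => (c • g) x * f (x + h))) =
        (fun h => c * m (fun x => g x * f (x + h))) := by
      funext h
      rw [← m.smul']
      congr 1
      funext x
      simp only [Pi.smul_apply, smul_eq_mul]
      ring
    rw [this, ν.smul']
    rfl

theorem aux_apply (ν m : Mean G) (f g : G → ℝ) :
    aux ν m f g = ν (fun h => m (fun x => g x * f (x + h))) := rfl

theorem Bd.inner_mean {m : Mean G} {f g : G → ℝ} (hf : Bd f) (hg : Bd g) :
    Bd (fun h => m (fun x => g x * f (x + h))) := by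
  obtain ⟨C, hC0, hC⟩ := hf.exists_nonneg
  obtain ⟨D, hD0, hD⟩ := hg.exists_nonneg
  refine ⟨D * C, fun h => m.abs_le fun x => ?_⟩
  rw [abs_mul]
  exact mul_le_mul (hD x) (hC _) (abs_nonneg _) hD0

theorem aux_nonneg {ν m : Mean G} {f g : G → ℝ} (hf : Bd f) (hg : Bd g)
    (hf0 : ∀ x, 0 ≤ f x) (hg0 : ∀ x, 0 ≤ g x) : 0 ≤ aux ν m f g :=
  ν.nonneg _ (hf.inner_mean hg) fun h => m.nonneg _ (hg.mul (hf.comp _))
    fun x => mul_nonneg (hg0 x) (hf0 _)

theorem aux_le {ν m : Mean G} {f g : G → ℝ} (hf : Bd f) (hg : Bd g)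
    (hf1 : ∀ x, f x ≤ 1) (hg0 : ∀ x, 0 ≤ g x) : aux ν m f g ≤ m g := by
  refine ν.le_of_le (hf.inner_mean hg) fun h => ?_
  refine m.mono (hg.mul (hf.comp _)) hg fun x => ?_
  have := mul_le_mul_of_nonneg_left (hf1 (x + h)) (hg0 x)
  simpa using this

theorem aux_one {ν m : Mean G} (hm : m.Inv) {f : G → ℝ} (hf : Bd f) :
    aux ν m f (fun _ => 1) = m f := by
  rw [aux_apply]
  have : (fun h => m (fun x => 1 * f (x + h))) = fun _ => m f := by
    funext h
    simp only [one_mul]
    exact hm h f hf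
  rw [this, ν.const']

theorem aux_inv {ν m : Mean G} (hν : ν.Inv) (hm : m.Inv) {f g : G → ℝ} (hf : Bd f) (hg : Bd g)
    (k : G) : aux ν m f (fun x => g (x + k)) = aux ν m f g := by
  rw [aux_apply, aux_apply]
  have : (fun h => m (fun x => g (x + k) * f (x + h))) =
      (fun h => (fun h' => m (fun x => g x * f (x + h'))) (h + (-k))) := by
    funext h
    have := hm k (fun x => g x * f (x + (h + -k))) (hg.mul (hf.comp _))
    simp only
    rw [← this]
    congr 1
    funext x
    congr 2
    abel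
  rw [this]
  exact hν (-k) _ (hf.inner_mean hg)

theorem erg_of_extreme {m : Mean G} (hm : m.Inv)
    (hx : m.restr ∈ (KI G).extremePoints ℝ) : m.Erg := by
  intro ν hν
  -- the case `0 ≤ f ≤ 1`
  have key : ∀ f g : G → ℝ, Bd f → Bd g → (∀ x, 0 ≤ f x) → (∀ x, f x ≤ 1) →
      aux ν m f g = m g * m f := by
    intro f g hf hg hf0 hf1
    -- vanishing means
    have hzero : ∀ f g : G → ℝ, Bd f → Bd g → (∀ x, 0 ≤ f x) → m f = 0 →
        aux ν m f g = 0 := by
      intro f g hf hg hf0 h0
      obtain ⟨C, hC0, hC⟩ := hg.exists_nonneg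
      have h1 : ∀ h, m (fun x => g x * f (x + h)) = 0 := by
        intro h
        have hb : Bd (fun x => C * f (x + h)) := (hf.comp _).smulR C
        have h2 : m (fun x => C * f (x + h)) = 0 := by
          rw [m.smul', hm h f hf, h0, mul_zero]
        have h3 : m (fun x => g x * f (x + h)) ≤ m (fun x => C * f (x + h)) := by
          refine m.mono (hg.mul (hf.comp _)) hb fun x => ?_
          exact mul_le_mul_of_nonneg_right ((le_abs_self _).trans (hC x)) (hf0 _)
        have h4 : m (fun x => - (C * f (x + h))) ≤ m (fun x => g x * f (x + h)) := by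
          refine m.mono hb.neg (hg.mul (hf.comp _)) fun x => ?_
          have := mul_le_mul_of_nonneg_right (neg_le_of_neg_le ((neg_le_abs _).trans (hC x)))
            (hf0 (x + h))
          linarith
        rw [m.neg'] at h4
        linarith
      rw [aux_apply]
      simp_rw [h1]
      exact ν.const' 0
    rcases eq_or_lt_of_le (m.ge_of_ge hf hf0) with h0 | h0
    · rw [hzero f g hf hg hf0 h0.symm, ← h0, mul_zero]
    rcases eq_or_lt_of_le (m.le_of_le hf hf1) with h1 | h1
    · have hf' : Bd (fun x => 1 - f x) := (Bd.const 1).sub hf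
      have h2 : m (fun x => 1 - f x) = 0 := by rw [m.sub', m.const', h1, sub_self]
      have h3 := hzero (fun x => 1 - f x) g hf' hg (fun x => sub_nonneg.2 (hf1 x)) h2
      rw [aux_apply] at h3
      have h4 : (fun h => m (fun x => g x * (1 - f (x + h)))) =
          (fun h => m g - m (fun x => g x * f (x + h))) := by
        funext h
        rw [← m.sub']
        congr 1
        funext x
        ring
      rw [h4, ν.sub', ν.const'] at h3
      rw [aux_apply, h1, mul_one]
      linarith
    · set c := m f with hc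
      let φ1 : Fun G := fun u => c⁻¹ * aux ν m f u.1
      let φ2 : Fun G := fun u => (1 - c)⁻¹ * (m u.1 - aux ν m f u.1)
      have hc1 : 0 < 1 - c := sub_pos.2 h1
      have hone : aux ν m f (fun _ => 1) = c := aux_one hm hf
      have h1' : φ1 ∈ KI G := by
        refine ⟨⟨fun u v => ?_, fun a u => ?_, fun u hu => ?_, ?_⟩, fun k u => ?_⟩
        · simp only [φ1]
          have : aux ν m f (u + v).1 = aux ν m f u.1 + aux ν m f v.1 :=
            (aux ν m f).map_add u.1 v.1
          rw [this]; ring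
        · simp only [φ1]
          have : aux ν m f (a • u).1 = a * aux ν m f u.1 := (aux ν m f).map_smul a u.1
          rw [this]; ring
        · exact mul_nonneg (inv_nonneg.2 h0.le) (aux_nonneg hf u.2 hf0 hu)
        · simp only [φ1, hone]
          exact inv_mul_cancel₀ h0.ne'
        · simp only [φ1]
          rw [aux_inv hν hm hf u.2]
      have h2' : φ2 ∈ KI G := by
        refine ⟨⟨fun u v => ?_, fun a u => ?_, fun u hu => ?_, ?_⟩, fun k u => ?_⟩
        · simp only [φ2]
          have : aux ν m f (u + v).1 = aux ν m f u.1 + aux ν m f v.1 :=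
            (aux ν m f).map_add u.1 v.1
          have h2 : m (u + v).1 = m u.1 + m v.1 := m.I.map_add u.1 v.1
          rw [this, h2]; ring
        · simp only [φ2]
          have : aux ν m f (a • u).1 = a * aux ν m f u.1 := (aux ν m f).map_smul a u.1
          have h2 : m (a • u).1 = a * m u.1 := m.I.map_smul a u.1
          rw [this, h2]; ring
        · exact mul_nonneg (inv_nonneg.2 hc1.le) (sub_nonneg.2 (aux_le hf u.2 hf1 hu))
        · simp only [φ2, hone, m.const']
          exact inv_mul_cancel₀ hc1.ne'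
        · simp only [φ2]
          rw [aux_inv hν hm hf u.2, hm k u.1 u.2]
      have hseg : m.restr ∈ openSegment ℝ φ1 φ2 := by
        refine ⟨c, 1 - c, h0, hc1, by ring, ?_⟩
        funext u
        simp only [φ1, φ2, Pi.add_apply, Pi.smul_apply, smul_eq_mul, Mean.restr]
        field_simp
        ring
      have := ((mem_extremePoints.1 hx).2 φ1 h1' φ2 h2' hseg).1
      have h3 : φ1 ⟨g, hg⟩ = m g := congrFun this ⟨g, hg⟩
      simp only [φ1] at h3
      rw [← h3]
      field_simp
  intro f g hf hg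
  obtain ⟨C0, hC00, hC0⟩ := hf.exists_nonneg
  set C := C0 + 1 with hCdef
  have hC : 0 < C := by linarith
  have hCf : ∀ x, |f x| ≤ C := fun x => (hC0 x).trans (by linarith)
  let f' : G → ℝ := fun x => (2 * C)⁻¹ * f x + 1 / 2
  have hf' : Bd f' := (hf.smulR _).add (Bd.const _)
  have hf'0 : ∀ x, 0 ≤ f' x := by
    intro x
    have := (_root_.abs_le.1 (hCf x)).1
    simp only [f']
    have h2 : (2 * C)⁻¹ * (-C) = -(1 / 2) := by field_simp
    have h3 : (2 * C)⁻¹ * (-C) ≤ (2 * C)⁻¹ * f x :=
      mul_le_mul_of_nonneg_left this (by positivity)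
    linarith
  have hf'1 : ∀ x, f' x ≤ 1 := by
    intro x
    have := (_root_.abs_le.1 (hCf x)).2
    simp only [f']
    have h2 : (2 * C)⁻¹ * C = 1 / 2 := by field_simp
    have h3 : (2 * C)⁻¹ * f x ≤ (2 * C)⁻¹ * C :=
      mul_le_mul_of_nonneg_left this (by positivity)
    linarith
  have hff' : ∀ x, f x = 2 * C * f' x - C := by
    intro x
    simp only [f']
    field_simp
    ring
  have h1 := key f' g hf' hg hf'0 hf'1
  have h2 : m f = 2 * C * m f' - C := by
    have : m f = m (fun x => 2 * C * f' x - C) := by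
      congr 1
      funext x
      exact hff' x
    rw [this, m.sub', m.smul', m.const']
  have h3 : (fun h => m (fun x => g x * f (x + h))) =
      (fun h => 2 * C * m (fun x => g x * f' (x + h)) - C * m g) := by
    funext h
    rw [← m.smul', ← m.smul', ← m.sub']
    congr 1
    funext x
    rw [hff']
    ring
  rw [h3, ν.sub', ν.smul', ν.const', h2]
  rw [aux_apply] at h1
  rw [h1]
  ring

/-- existence of ergodic invariant means with a large value at a given function -/
theorem exists_erg_ge (m0 : Mean G) (h0 : m0.Inv) (f : G → ℝ) (hf : Bd f) :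
    ∃ m : Mean G, m.Inv ∧ m.Erg ∧ m0 f ≤ m f := by
  classical
  let l : StrongDual ℝ (Fun G) := ContinuousLinearMap.proj (⟨f, hf⟩ : BdR G)
  have hl : ∀ φ : Fun G, l φ = φ ⟨f, hf⟩ := fun φ => rfl
  have hexp : IsExposed ℝ (KI G) (l.toExposed (KI G)) := ContinuousLinearMap.toExposed.isExposed
  have hcomp : IsCompact (l.toExposed (KI G)) := hexp.isCompact isCompact_KI
  obtain ⟨φ0, hφ0, hmax⟩ := (isCompact_KI (G := G)).exists_isMaxOn ⟨m0.restr, h0.restr_mem⟩
    (f := fun φ => l φ) l.continuous.continuousOn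
  have hne : (l.toExposed (KI G)).Nonempty := ⟨φ0, hφ0, fun y hy => hmax hy⟩
  obtain ⟨φ, hφ⟩ := hcomp.extremePoints_nonempty hne
  have hφ' : φ ∈ (KI G).extremePoints ℝ := hexp.isExtreme.extremePoints_subset_extremePoints hφ
  have hφm := hφ.1
  obtain ⟨m, hm⟩ := exists_mean_of_mem hφm.1.1
  have hrestr : m.restr = φ := by
    funext u
    exact hm u.1 u.2
  have hInv : m.Inv := by
    intro h f hf
    rw [hm _ (hf.comp _), hm _ hf]
    exact hφm.1.2 h ⟨f, hf⟩
  refine ⟨m, hInv, erg_of_extreme hInv (by rw [hrestr]; exact hφ'), ?_⟩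
  rw [hm f hf]
  exact hφm.2 m0.restr h0.restr_mem

end Inv

end Pool.Agent.Helper91.Bohr
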