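import Mathlib
import Pool.Agent.Helper91.BohrA

/-!
Complex-valued means, Cauchy-Schwarz, Fourier coefficients with respect to a mean.
-/

namespace Pool.Agent.Helper91.Bohr

open Filter Topology ComplexConjugate

namespace Mean
variable {X : Type*} (m : Mean X)

/-- complex extension of a mean -/
noncomputable def c : (X → ℂ) →ₗ[ℂ] ℂ where
  toFun f := ⟨m (fun x => (f x).re), m (fun x => (f x).im)⟩
  map_add' f g := by
    apply Complex.ext
    · simp only [Pi.add_apply, Complex.add_re]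
      exact m.add' _ _
    · simp only [Pi.add_apply, Complex.add_im]
      exact m.add' _ _
  map_smul' a f := by
    apply Complex.ext
    · simp only [Pi.smul_apply, smul_eq_mul, Complex.mul_re, RingHom.id_apply]
      rw [m.sub', m.smul', m.smul']
    · simp only [Pi.smul_apply, smul_eq_mul, Complex.mul_im, RingHom.id_apply]
      rw [m.add', m.smul', m.smul']

theorem c_re (f : X → ℂ) : (m.c f).re = m (fun x => (f x).re) := rfl
theorem c_im (f : X → ℂ) : (m.c f).im = m (fun x => (f x).im) := rfl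

theorem c_add (f g : X → ℂ) : m.c (fun x => f x + g x) = m.c f + m.c g := m.c.map_add f g
theorem c_sub (f g : X → ℂ) : m.c (fun x => f x - g x) = m.c f - m.c g := m.c.map_sub f g
theorem c_neg (f : X → ℂ) : m.c (fun x => - f x) = - m.c f := m.c.map_neg f
theorem c_smul (a : ℂ) (f : X → ℂ) : m.c (fun x => a * f x) = a * m.c f := m.c.map_smul a f
theorem c_smul' (a : ℂ) (f : X → ℂ) : m.c (fun x => f x * a) = m.c f * a := by
  rw [mul_comm, ← c_smul]
  congr 1
  funext x
  ring
theorem c_sum {ι : Type*} (s : Finset ι) (F : ι → X → ℂ) :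
    m.c (fun x => ∑ i ∈ s, F i x) = ∑ i ∈ s, m.c (F i) := by
  have : (fun x => ∑ i ∈ s, F i x) = ∑ i ∈ s, F i := by ext x; simp
  rw [this]; exact map_sum m.c F s

theorem c_ofReal (f : X → ℝ) : m.c (fun x => (f x : ℂ)) = (m f : ℂ) := by
  apply Complex.ext
  · rw [c_re]; simp
  · rw [c_im]
    simp only [Complex.ofReal_im]
    exact m.const' 0

theorem c_const (a : ℂ) : m.c (fun _ => a) = a := by
  apply Complex.ext
  · rw [c_re]; exact m.const' _
  · rw [c_im]; exact m.const' _

theorem c_conj (f : X → ℂ) : m.c (fun x => conj (f x)) = conj (m.c f) := by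
  apply Complex.ext
  · rw [c_re]; simp [c_re]
  · rw [c_im]
    simp only [Complex.conj_im, c_im]
    exact m.neg' _

theorem norm_c_le {f : X → ℂ} (hf : Bd f) : ‖m.c f‖ ≤ m (fun x => ‖f x‖) := by
  by_cases h0 : m.c f = 0
  · rw [h0, norm_zero]
    exact m.nonneg _ hf.norm fun x => norm_nonneg _
  · have hn : (‖m.c f‖ : ℂ) ≠ 0 := by exact_mod_cast norm_ne_zero_iff.2 h0
    set u : ℂ := conj (m.c f) / ‖m.c f‖ with hu
    have hu1 : ‖u‖ = 1 := by
      rw [hu, norm_div, RCLike.norm_conj, Complex.norm_real, norm_norm,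
        div_self (norm_ne_zero_iff.2 h0)]
    have hmul : u * m.c f = (‖m.c f‖ : ℂ) := by
      rw [hu, div_mul_eq_mul_div, mul_comm, Complex.mul_conj, Complex.normSq_eq_norm_sq]
      push_cast
      field_simp
    have h2 : ‖m.c f‖ = m (fun x => (u * f x).re) := by
      have := congrArg Complex.re hmul
      rw [← m.c_smul, c_re, Complex.ofReal_re] at this
      exact this.symm
    rw [h2]
    refine m.mono (hf.smulC u).re hf.norm fun x => ?_
    refine (Complex.re_le_norm _).trans ?_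
    rw [norm_mul, hu1, one_mul]

theorem norm_c_le_of_le {f : X → ℂ} {C : ℝ} (h : ∀ x, ‖f x‖ ≤ C) : ‖m.c f‖ ≤ C :=
  (m.norm_c_le ⟨C, h⟩).trans (m.le_of_le (Bd.norm ⟨C, h⟩) h)

/-- real Cauchy-Schwarz -/
theorem cs_real {u v : X → ℝ} (hu : Bd u) (hv : Bd v) :
    m (fun x => u x * v x) ^ 2 ≤ m (fun x => u x ^ 2) * m (fun x => v x ^ 2) := by
  have h : ∀ t : ℝ, 0 ≤ m (fun x => u x ^ 2) * (t * t) + (-2 * m (fun x => u x * v x)) * t +
      m (fun x => v x ^ 2) := by
    intro t
    have h1 := m.nonneg (fun x => (t * u x - v x) ^ 2)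
      (((hu.smulR t).sub hv).pow 2) (fun x => sq_nonneg _)
    have h2 : m (fun x => (t * u x - v x) ^ 2) =
        m (fun x => u x ^ 2) * (t * t) + (-2 * m (fun x => u x * v x)) * t +
          m (fun x => v x ^ 2) := by
      have : (fun x => (t * u x - v x) ^ 2) =
          (fun x => ((t * t) * u x ^ 2 + (-2 * t) * (u x * v x)) + v x ^ 2) := by
        funext x; ring
      rw [this, m.add', m.add', m.smul', m.smul']
      ring
    rwa [h2] at h1
  have := discrim_le_zero h
  unfold discrim at this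
  nlinarith

/-- complex Cauchy-Schwarz -/
theorem cs {f g : X → ℂ} (hf : Bd f) (hg : Bd g) :
    ‖m.c (fun x => f x * g x)‖ ^ 2 ≤ m (fun x => ‖f x‖ ^ 2) * m (fun x => ‖g x‖ ^ 2) := by
  have h1 : ‖m.c (fun x => f x * g x)‖ ≤ m (fun x => ‖f x‖ * ‖g x‖) := by
    refine (m.norm_c_le (hf.mul hg)).trans (le_of_eq ?_)
    congr 1
    funext x
    exact norm_mul _ _
  have h2 := m.cs_real hf.norm hg.norm
  refine (pow_le_pow_left₀ (norm_nonneg _) h1 2).trans h2

/-- Jensen: square of the mean -/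
theorem sq_le {u : X → ℝ} (hu : Bd u) : m u ^ 2 ≤ m (fun x => u x ^ 2) := by
  have := m.cs_real hu (Bd.const 1)
  simpa [m.const'] using this

theorem c_inv {G : Type*} [AddCommGroup G] {m : Mean G} (hm : m.Inv) {f : G → ℂ} (hf : Bd f)
    (h : G) : m.c (fun x => f (x + h)) = m.c f := by
  apply Complex.ext
  · rw [c_re, c_re]; exact hm h _ hf.re
  · rw [c_im, c_im]; exact hm h _ hf.im

end Mean

section Char
variable {G : Type*} [AddCommGroup G]

theorem Bd.char (χ : AddChar G Circle) : Bd (fun x => (χ x : ℂ)) :=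
  ⟨1, fun x => (Circle.norm_coe _).le⟩

theorem char_add (χ : AddChar G Circle) (x y : G) : (χ (x + y) : ℂ) = χ x * χ y := by
  rw [AddChar.map_add_eq_mul, Circle.coe_mul]

theorem char_conj (χ : AddChar G Circle) (x : G) : conj (χ x : ℂ) = (χ⁻¹ x : Circle) := by
  rw [AddChar.inv_apply', Circle.coe_inv_eq_conj]

theorem char_mul_conj (χ : AddChar G Circle) (x : G) : (χ x : ℂ) * conj (χ x : ℂ) = 1 := by
  rw [Complex.mul_conj, Circle.normSq_coe]; simp

theorem char_conj_mul (χ : AddChar G Circle) (x : G) : conj (χ x : ℂ) * (χ x : ℂ) = 1 := by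
  rw [mul_comm, char_mul_conj]

/-- mean of a character -/
theorem Mean.c_char {m : Mean G} (hm : m.Inv) (χ : AddChar G Circle) :
    m.c (fun x => (χ x : ℂ)) = if χ = 1 then 1 else 0 := by
  split_ifs with h
  · subst h
    simp only [AddChar.one_apply, Circle.coe_one]
    exact m.c_const 1
  · obtain ⟨y, hy⟩ := AddChar.ne_one_iff.1 h
    have h1 := Mean.c_inv hm (Bd.char χ) y
    simp_rw [char_add] at h1
    rw [m.c_smul'] at h1
    have hy' : (χ y : ℂ) ≠ 1 := by
      intro h2
      exact hy (by ext; simpa using h2)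
    have : m.c (fun x => (χ x : ℂ)) * ((χ y : ℂ) - 1) = 0 := by
      rw [mul_sub, h1, mul_one, sub_self]
    rcases mul_eq_zero.1 this with h3 | h3
    · exact h3
    · exact absurd (sub_eq_zero.1 h3) hy'

/-- Fourier coefficient with respect to a mean -/
noncomputable def Mean.coef (m : Mean G) (f : G → ℂ) (χ : AddChar G Circle) : ℂ :=
  m.c (fun x => f x * conj (χ x : ℂ))

theorem Bd.mul_char {f : G → ℂ} (hf : Bd f) (χ : AddChar G Circle) :
    Bd (fun x => f x * (χ x : ℂ)) := hf.mul (Bd.char χ)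

theorem Bd.mul_conj_char {f : G → ℂ} (hf : Bd f) (χ : AddChar G Circle) :
    Bd (fun x => f x * conj (χ x : ℂ)) := hf.mul (Bd.char χ).conj

theorem Mean.coef_char {m : Mean G} (hm : m.Inv) (χ ψ : AddChar G Circle) :
    m.coef (fun x => (ψ x : ℂ)) χ = if χ = ψ then 1 else 0 := by
  have : (fun x => (ψ x : ℂ) * conj (χ x : ℂ)) = (fun x => (((ψ * χ⁻¹) x : Circle) : ℂ)) := by
    funext x
    rw [char_conj, ← Circle.coe_mul, ← AddChar.mul_apply]
  rw [Mean.coef, this, Mean.c_char hm]
  have e : (ψ * χ⁻¹ = 1) ↔ (χ = ψ) := by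
    rw [mul_inv_eq_one, eq_comm]
  simp only [e]

theorem Mean.coef_sub (m : Mean G) (f g : G → ℂ) (χ : AddChar G Circle) :
    m.coef (fun x => f x - g x) χ = m.coef f χ - m.coef g χ := by
  rw [Mean.coef, Mean.coef, Mean.coef, ← m.c_sub]
  congr 1
  funext x
  ring

theorem Mean.coef_smul (m : Mean G) (a : ℂ) (f : G → ℂ) (χ : AddChar G Circle) :
    m.coef (fun x => a * f x) χ = a * m.coef f χ := by
  rw [Mean.coef, Mean.coef, ← m.c_smul]
  congr 1
  funext x
  ring

theorem Mean.coef_sum (m : Mean G) {ι : Type*} (s : Finset ι) (F : ι → G → ℂ)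
    (χ : AddChar G Circle) :
    m.coef (fun x => ∑ i ∈ s, F i x) χ = ∑ i ∈ s, m.coef (F i) χ := by
  unfold Mean.coef
  rw [← m.c_sum]
  congr 1
  funext x
  rw [Finset.sum_mul]

theorem Mean.coef_mul_char (m : Mean G) (f : G → ℂ) (ψ χ : AddChar G Circle) :
    m.coef (fun x => f x * (ψ x : ℂ)) χ = m.coef f (χ * ψ⁻¹) := by
  rw [Mean.coef, Mean.coef]
  congr 1
  funext x
  rw [AddChar.mul_apply, Circle.coe_mul, map_mul, ← char_conj]
  simp only [Complex.conj_conj]
  ring

theorem Mean.coef_translate {m : Mean G} (hm : m.Inv) {f : G → ℂ} (hf : Bd f) (k : G)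
    (χ : AddChar G Circle) :
    m.coef (fun x => f (x + k)) χ = (χ k : ℂ) * m.coef f χ := by
  rw [Mean.coef, Mean.coef, ← m.c_smul]
  rw [← Mean.c_inv hm ((Bd.mul_conj_char hf χ).smulC (χ k : ℂ)) k]
  congr 1
  funext x
  rw [char_add, map_mul]
  have := char_mul_conj χ k
  linear_combination (- f (x + k) * conj (χ x : ℂ)) * this

theorem Mean.coef_const_one {m : Mean G} (f : G → ℂ) : m.coef f 1 = m.c f := by
  rw [Mean.coef]
  congr 1
  funext x
  simp

/-- complex ergodicity -/
theorem Mean.Erg.c {m ν : Mean G} (he : m.Erg) (hν : ν.Inv) {f g : G → ℂ} (hf : Bd f)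
    (hg : Bd g) : ν.c (fun h => m.c (fun x => g x * f (x + h))) = m.c g * m.c f := by
  have hrr : ∀ u v : G → ℝ, Bd u → Bd v →
      ν.c (fun h => m.c (fun x => (v x : ℂ) * (u (x + h) : ℂ))) = (m v : ℂ) * (m u : ℂ) := by
    intro u v hu hv
    have h1 := he ν hν u v hu hv
    have : (fun h => m.c (fun x => (v x : ℂ) * (u (x + h) : ℂ))) =
        (fun h => ((m (fun x => v x * u (x + h)) : ℝ) : ℂ)) := by
      funext h
      rw [← m.c_ofReal]
      congr 1
      funext x
      push_cast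
      rfl
    rw [this, ν.c_ofReal, h1]
    push_cast
    rfl
  have hg1 := hg.re
  have hg2 := hg.im
  have hf1 := hf.re
  have hf2 := hf.im
  have e1 : (fun h => m.c (fun x => g x * f (x + h))) = (fun h =>
      ((m.c (fun x => ((g x).re : ℂ) * ((f (x + h)).re : ℂ)) +
        Complex.I * m.c (fun x => ((g x).re : ℂ) * ((f (x + h)).im : ℂ))) +
        Complex.I * m.c (fun x => ((g x).im : ℂ) * ((f (x + h)).re : ℂ))) -
        m.c (fun x => ((g x).im : ℂ) * ((f (x + h)).im : ℂ))) := by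
    funext h
    rw [← m.c_smul, ← m.c_smul, ← m.c_add, ← m.c_add, ← m.c_sub]
    congr 1
    funext x
    conv_lhs => rw [← Complex.re_add_im (g x), ← Complex.re_add_im (f (x + h))]
    linear_combination (((g x).im : ℂ) * ((f (x + h)).im : ℂ)) * Complex.I_mul_I
  have e2 : m.c g = (m (fun x => (g x).re) : ℂ) + Complex.I * (m (fun x => (g x).im) : ℂ) := by
    rw [← m.c_ofReal, ← m.c_ofReal, ← m.c_smul, ← m.c_add]
    congr 1
    funext x
    rw [mul_comm]
    exact (Complex.re_add_im (g x)).symm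
  have e3 : m.c f = (m (fun x => (f x).re) : ℂ) + Complex.I * (m (fun x => (f x).im) : ℂ) := by
    rw [← m.c_ofReal, ← m.c_ofReal, ← m.c_smul, ← m.c_add]
    congr 1
    funext x
    rw [mul_comm]
    exact (Complex.re_add_im (f x)).symm
  rw [e1, ν.c_sub, ν.c_add, ν.c_add, ν.c_smul, ν.c_smul,
    hrr _ _ hf1 hg1, hrr _ _ hf2 hg1, hrr _ _ hf1 hg2, hrr _ _ hf2 hg2, e2, e3]
  linear_combination (-(m (fun x => (g x).im) : ℂ) * (m (fun x => (f x).im) : ℂ)) *
    Complex.I_mul_I

theorem Bd.inner_c {m : Mean G} {f g : G → ℂ} (hf : Bd f) (hg : Bd g) :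
    Bd (fun h => m.c (fun x => g x * f (x + h))) := by
  obtain ⟨C, hC0, hC⟩ := hf.exists_nonneg
  obtain ⟨D, hD0, hD⟩ := hg.exists_nonneg
  refine ⟨D * C, fun h => m.norm_c_le_of_le fun x => ?_⟩
  rw [norm_mul]
  exact mul_le_mul (hD x) (hC _) (norm_nonneg _) hD0

/-- ergodicity twisted by a character -/
theorem Mean.Erg.char {m ν : Mean G} (he : m.Erg) (hν : ν.Inv) {f g : G → ℂ} (hf : Bd f)
    (hg : Bd g) (χ : AddChar G Circle) :
    ν.c (fun h => (χ h : ℂ) * m.c (fun x => g x * f (x + h))) =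
      m.c (fun x => g x * conj (χ x : ℂ)) * m.c (fun x => f x * (χ x : ℂ)) := by
  rw [← he.c hν (hf.mul_char χ) (hg.mul_conj_char χ)]
  congr 1
  funext h
  rw [← m.c_smul]
  congr 1
  funext x
  rw [char_add]
  have := char_conj_mul χ x
  linear_combination (-(χ h : ℂ) * g x * f (x + h)) * this

end Char

end Pool.Agent.Helper91.Bohr
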