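import Mathlib
import Pool.Agent.Helper91.BohrB

/-!
Isometric representations of abelian groups on Hilbert spaces:
the averaged rank one operator, its compactness, joint eigenvectors, and the mean ergodic inequality.
-/

namespace Pool.Agent.Helper91.Bohr

open Filter Topology ComplexConjugate InnerProductSpace

/-- An isometric representation of an abelian group on a Hilbert space. -/
structure URep (G H : Type*) [AddCommGroup G] [NormedAddCommGroup H] [InnerProductSpace ℂ H] where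
  U : G → H →ₗᵢ[ℂ] H
  zero' : ∀ x, U 0 x = x
  add' : ∀ g h x, U (g + h) x = U g (U h x)

section
variable {G H : Type*} [AddCommGroup G] [NormedAddCommGroup H] [InnerProductSpace ℂ H]
variable (R : URep G H)

namespace URep

theorem inner_left (g : G) (x y : H) : ⟪R.U g x, y⟫_ℂ = ⟪x, R.U (-g) y⟫_ℂ := by
  have : y = R.U g (R.U (-g) y) := by rw [← R.add', add_neg_cancel, R.zero']
  conv_lhs => rw [this]
  exact (R.U g).inner_map_map _ _

theorem inner_right (g : G) (x y : H) : ⟪x, R.U g y⟫_ℂ = ⟪R.U (-g) x, y⟫_ℂ := by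
  rw [R.inner_left, neg_neg]

theorem comm (g h : G) (x : H) : R.U g (R.U h x) = R.U h (R.U g x) := by
  rw [← R.add', ← R.add', add_comm]

theorem bd_right (v f : H) : Bd (fun h => ⟪v, R.U h f⟫_ℂ) :=
  ⟨‖v‖ * ‖f‖, fun h => (norm_inner_le_norm _ _).trans (by rw [(R.U h).norm_map])⟩

theorem bd_left (v f : H) : Bd (fun h => ⟪R.U h f, v⟫_ℂ) :=
  ⟨‖f‖ * ‖v‖, fun h => (norm_inner_le_norm _ _).trans (by rw [(R.U h).norm_map])⟩

end URep

variable (ν : Mean G) (f : H)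

/-- the sesquilinear form of the averaged rank one operator -/
noncomputable def Tform : H →L⋆[ℂ] H →L[ℂ] ℂ :=
  LinearMap.mkContinuous₂ (LinearMap.mk₂'ₛₗ (starRingEnd ℂ) (RingHom.id ℂ)
    (fun v w => ν.c (fun h => ⟪v, R.U h f⟫_ℂ * ⟪R.U h f, w⟫_ℂ))
    (fun v v' w => by
      rw [← ν.c_add]
      congr 1
      funext h
      rw [inner_add_left]
      ring)
    (fun a v w => by
      rw [smul_eq_mul, ← ν.c_smul]
      congr 1
      funext h
      rw [inner_smul_left]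
      ring)
    (fun v w w' => by
      rw [← ν.c_add]
      congr 1
      funext h
      rw [inner_add_right]
      ring)
    (fun a v w => by
      rw [smul_eq_mul, RingHom.id_apply, ← ν.c_smul]
      congr 1
      funext h
      rw [inner_smul_right]
      ring)) (‖f‖ * ‖f‖)
    (fun v w => by
      simp only [LinearMap.mk₂'ₛₗ_apply]
      refine ν.norm_c_le_of_le fun h => ?_
      rw [norm_mul]
      have h1 : ‖⟪v, R.U h f⟫_ℂ‖ ≤ ‖v‖ * ‖f‖ :=
        (norm_inner_le_norm _ _).trans (by rw [(R.U h).norm_map])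
      have h2 : ‖⟪R.U h f, w⟫_ℂ‖ ≤ ‖f‖ * ‖w‖ :=
        (norm_inner_le_norm _ _).trans (by rw [(R.U h).norm_map])
      calc ‖⟪v, R.U h f⟫_ℂ‖ * ‖⟪R.U h f, w⟫_ℂ‖ ≤ (‖v‖ * ‖f‖) * (‖f‖ * ‖w‖) :=
            mul_le_mul h1 h2 (norm_nonneg _) (by positivity)
        _ = ‖f‖ * ‖f‖ * ‖v‖ * ‖w‖ := by ring)

theorem Tform_apply (v w : H) :
    Tform R ν f v w = ν.c (fun h => ⟪v, R.U h f⟫_ℂ * ⟪R.U h f, w⟫_ℂ) := rfl

/-- the quadratic form -/
noncomputable def qf (v : H) : ℝ := ν (fun h => ‖⟪v, R.U h f⟫_ℂ‖ ^ 2)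

theorem qf_nonneg (v : H) : 0 ≤ qf R ν f v :=
  ν.nonneg _ ((R.bd_right v f).norm.pow 2) fun _ => sq_nonneg _

theorem qf_le (v : H) : qf R ν f v ≤ ‖f‖ ^ 2 * ‖v‖ ^ 2 := by
  refine ν.le_of_le ((R.bd_right v f).norm.pow 2) fun h => ?_
  have h1 : ‖⟪v, R.U h f⟫_ℂ‖ ≤ ‖v‖ * ‖f‖ :=
    (norm_inner_le_norm _ _).trans (by rw [(R.U h).norm_map])
  calc ‖⟪v, R.U h f⟫_ℂ‖ ^ 2 ≤ (‖v‖ * ‖f‖) ^ 2 := pow_le_pow_left₀ (norm_nonneg _) h1 2
    _ = ‖f‖ ^ 2 * ‖v‖ ^ 2 := by ring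

theorem qf_smul (a : ℂ) (v : H) : qf R ν f (a • v) = ‖a‖ ^ 2 * qf R ν f v := by
  unfold qf
  rw [← ν.smul']
  congr 1
  funext h
  rw [inner_smul_left, norm_mul, RCLike.norm_conj, mul_pow]

variable [CompleteSpace H]

/-- the averaged rank one operator -/
noncomputable def Top : H →L[ℂ] H := continuousLinearMapOfBilin (Tform R ν f)

theorem Top_inner (v w : H) :
    ⟪Top R ν f v, w⟫_ℂ = ν.c (fun h => ⟪v, R.U h f⟫_ℂ * ⟪R.U h f, w⟫_ℂ) := by
  rw [Top, continuousLinearMapOfBilin_apply, Tform_apply]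

theorem Top_inner_self (v : H) : ⟪Top R ν f v, v⟫_ℂ = (qf R ν f v : ℂ) := by
  rw [Top_inner, qf, ← ν.c_ofReal]
  congr 1
  funext h
  rw [← inner_conj_symm (R.U h f) v, Complex.mul_conj, Complex.normSq_eq_norm_sq]

theorem Top_symm : (Top R ν f).IsSymmetric := by
  intro v w
  have h1 : ⟪v, Top R ν f w⟫_ℂ = conj ⟪Top R ν f w, v⟫_ℂ := (inner_conj_symm _ _).symm
  simp only [ContinuousLinearMap.coe_coe]
  rw [h1, Top_inner, Top_inner, ← ν.c_conj]
  congr 1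
  funext h
  rw [map_mul, inner_conj_symm, inner_conj_symm]
  ring

theorem Top_cs (v w : H) : ‖⟪Top R ν f v, w⟫_ℂ‖ ^ 2 ≤ qf R ν f v * qf R ν f w := by
  rw [Top_inner]
  refine (ν.cs (R.bd_right v f) (R.bd_left w f)).trans (le_of_eq ?_)
  unfold qf
  congr 2
  funext h
  rw [norm_inner_symm]

theorem Top_norm_sq_le (v : H) : ‖Top R ν f v‖ ^ 2 ≤ qf R ν f v * ‖f‖ ^ 2 := by
  by_cases h0 : Top R ν f v = 0
  · rw [h0]
    simp only [norm_zero, ne_eq, OfNat.ofNat_ne_zero, not_false_eq_true, zero_pow]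
    exact mul_nonneg (qf_nonneg R ν f v) (sq_nonneg _)
  · have h1 := Top_cs R ν f v (Top R ν f v)
    have h2 := qf_le R ν f (Top R ν f v)
    have h3 : ‖⟪Top R ν f v, Top R ν f v⟫_ℂ‖ = ‖Top R ν f v‖ ^ 2 := by
      rw [inner_self_eq_norm_sq_to_K]
      simp
    rw [h3] at h1
    have hpos : 0 < ‖Top R ν f v‖ ^ 2 := by
      have := norm_pos_iff.2 h0
      positivity
    have h4 := mul_le_mul_of_nonneg_left h2 (qf_nonneg R ν f v)
    have h5 : ‖Top R ν f v‖ ^ 2 * ‖Top R ν f v‖ ^ 2 ≤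
        (qf R ν f v * ‖f‖ ^ 2) * ‖Top R ν f v‖ ^ 2 := by nlinarith
    exact le_of_mul_le_mul_right h5 hpos

theorem exists_finite_qf_small {ε : ℝ} (hε : 0 < ε) :
    ∃ V : Submodule ℂ H, FiniteDimensional ℂ V ∧ ∀ y ∈ Vᗮ, qf R ν f y ≤ ε * ‖y‖ ^ 2 := by
  classical
  let S : Set ℝ := {s | ∃ (n : ℕ) (e : Fin n → H), Orthonormal ℂ e ∧ s = ∑ i, qf R ν f (e i)}
  have hbdd : BddAbove S := by
    refine ⟨‖f‖ ^ 2, ?_⟩
    rintro s ⟨n, e, he, rfl⟩
    have : ∑ i, qf R ν f (e i) = ν (fun h => ∑ i, ‖⟪e i, R.U h f⟫_ℂ‖ ^ 2) := by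
      rw [ν.sum']
      rfl
    rw [this]
    refine ν.le_of_le (Bd.sum _ fun i _ => (R.bd_right (e i) f).norm.pow 2) fun h => ?_
    have := he.sum_inner_products_le (R.U h f) (s := Finset.univ)
    rwa [(R.U h).norm_map] at this
  have hne : S.Nonempty := ⟨0, 0, Fin.elim0, ⟨fun i => i.elim0, fun i => i.elim0⟩, by simp⟩
  obtain ⟨s, ⟨n, e, he, rfl⟩, hs⟩ := exists_lt_of_lt_csSup hne (sub_lt_self (sSup S) hε)
  refine ⟨Submodule.span ℂ (Set.range e),
    FiniteDimensional.span_of_finite ℂ (Set.finite_range e), fun y hy => ?_⟩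
  by_cases hy0 : y = 0
  · subst hy0
    have := qf_le R ν f 0
    simpa using this
  have hny : (0 : ℝ) < ‖y‖ := norm_pos_iff.2 hy0
  set y' : H := ((‖y‖⁻¹ : ℝ) : ℂ) • y with hy'
  have hy'n : ‖y'‖ = 1 := by
    rw [hy', norm_smul, Complex.norm_real, norm_inv, norm_norm]
    exact inv_mul_cancel₀ hny.ne'
  have horth : ∀ i, ⟪y', e i⟫_ℂ = 0 := by
    intro i
    rw [hy', inner_smul_left]
    have : ⟪y, e i⟫_ℂ = 0 := Submodule.inner_left_of_mem_orthogonal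
      (Submodule.subset_span (Set.mem_range_self i)) hy
    rw [this, mul_zero]
  have hon : Orthonormal ℂ (Matrix.vecCons y' e) := orthonormal_vecCons_iff.2 ⟨hy'n, horth, he⟩
  have hmem : qf R ν f y' + ∑ i, qf R ν f (e i) ∈ S := by
    refine ⟨n + 1, Matrix.vecCons y' e, hon, ?_⟩
    rw [Fin.sum_univ_succ]
    rfl
  have h1 := le_csSup hbdd hmem
  have h2 : qf R ν f y' ≤ ε := by linarith
  have h3 : y = ((‖y‖ : ℝ) : ℂ) • y' := by
    rw [hy', smul_smul, ← Complex.ofReal_mul, mul_inv_cancel₀ hny.ne']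
    simp
  have h4 : qf R ν f y = ‖y‖ ^ 2 * qf R ν f y' := by
    conv_lhs => rw [h3]
    rw [qf_smul, Complex.norm_real, norm_norm]
  rw [h4, mul_comm]
  exact mul_le_mul_of_nonneg_right h2 (sq_nonneg _)

theorem Top_compact : IsCompactOperator (Top R ν f) := by
  classical
  choose V hV1 hV2 using fun n : ℕ => exists_finite_qf_small R ν f
    (ε := 1 / ((n : ℝ) + 1)) (by positivity)
  have := hV1
  let F : ℕ → H →L[ℂ] H := fun n => (Top R ν f).comp ((V n).starProjection)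
  have hF : ∀ n, IsCompactOperator (F n) := by
    intro n
    have h1 : IsCompactOperator ((V n).orthogonalProjectionOnto) :=
      isCompactOperator_of_locallyCompactSpace_dom _
    have h2 := h1.clm_comp ((Top R ν f).comp (V n).subtypeL)
    exact h2
  have hlim : Tendsto F atTop (𝓝 (Top R ν f)) := by
    rw [tendsto_iff_norm_sub_tendsto_zero]
    have hb : ∀ n, ‖F n - Top R ν f‖ ≤ Real.sqrt (1 / ((n : ℝ) + 1)) * ‖f‖ := by
      intro n
      refine ContinuousLinearMap.opNorm_le_bound _ (by positivity) fun x => ?_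
      have hx : (F n - Top R ν f) x = - Top R ν f (x - (V n).starProjection x) := by
        simp only [F, sub_apply, ContinuousLinearMap.comp_apply, map_sub]
        abel
      rw [hx, norm_neg]
      set y := x - (V n).starProjection x with hy
      have hyo : y ∈ (V n)ᗮ := Submodule.sub_starProjection_mem_orthogonal x
      have h1 := hV2 n y hyo
      have h2 := Top_norm_sq_le R ν f y
      have h3 : ‖y‖ ≤ ‖x‖ := by
        have h4 := Submodule.norm_sq_eq_add_norm_sq_starProjection x (V n)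
        have h5 : (V n)ᗮ.starProjection x = y := by
          rw [Submodule.starProjection_orthogonal_val]
        rw [h5] at h4
        have : ‖y‖ ^ 2 ≤ ‖x‖ ^ 2 := by nlinarith [sq_nonneg ‖(V n).starProjection x‖]
        exact (sq_le_sq₀ (norm_nonneg _) (norm_nonneg _)).1 this
      have h6 : ‖Top R ν f y‖ ^ 2 ≤ (Real.sqrt (1 / ((n : ℝ) + 1)) * ‖f‖ * ‖x‖) ^ 2 := by
        rw [mul_pow, mul_pow, Real.sq_sqrt (by positivity)]
        calc ‖Top R ν f y‖ ^ 2 ≤ qf R ν f y * ‖f‖ ^ 2 := h2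
          _ ≤ (1 / ((n : ℝ) + 1) * ‖y‖ ^ 2) * ‖f‖ ^ 2 :=
              mul_le_mul_of_nonneg_right h1 (sq_nonneg _)
          _ ≤ (1 / ((n : ℝ) + 1) * ‖x‖ ^ 2) * ‖f‖ ^ 2 := by gcongr
          _ = 1 / ((n : ℝ) + 1) * ‖f‖ ^ 2 * ‖x‖ ^ 2 := by ring
      exact (sq_le_sq₀ (norm_nonneg _) (by positivity)).1 h6
    refine squeeze_zero (fun n => norm_nonneg _) hb ?_
    have h0 : Tendsto (fun n : ℕ => 1 / ((n : ℝ) + 1)) atTop (𝓝 0) :=
      tendsto_one_div_add_atTop_nhds_zero_nat (𝕜 := ℝ)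
    have h1 := (Real.continuous_sqrt.tendsto 0).comp h0
    rw [Real.sqrt_zero] at h1
    have h2 := h1.mul_const ‖f‖
    rw [zero_mul] at h2
    exact h2
  exact isCompactOperator_of_tendsto hlim (Eventually.of_forall hF)

theorem Top_comm (hν : ν.Inv) (k : G) (v : H) : Top R ν f (R.U k v) = R.U k (Top R ν f v) := by
  refine ext_inner_right ℂ fun w => ?_
  rw [R.inner_left, Top_inner, Top_inner]
  have hb : Bd (fun h => ⟪v, R.U (h - k) f⟫_ℂ * ⟪R.U h f, w⟫_ℂ) :=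
    ((R.bd_right v f).comp (fun h => h - k)).mul (R.bd_left w f)
  have h1 := Mean.c_inv hν hb k
  have e1 : (fun h => ⟪R.U k v, R.U h f⟫_ℂ * ⟪R.U h f, w⟫_ℂ) =
      (fun h => ⟪v, R.U (h - k) f⟫_ℂ * ⟪R.U h f, w⟫_ℂ) := by
    funext h
    rw [R.inner_left, ← R.add']
    congr 4
    abel
  have e2 : (fun h => ⟪v, R.U h f⟫_ℂ * ⟪R.U h f, R.U (-k) w⟫_ℂ) =
      (fun h => ⟪v, R.U (h + k - k) f⟫_ℂ * ⟪R.U (h + k) f, w⟫_ℂ) := by
    funext h
    rw [R.inner_right (-k) (R.U h f) w, ← R.add', neg_neg, add_sub_cancel_right, add_comm k h]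
  rw [e1, e2, h1]

end

section Joint
variable {G H : Type*} [AddCommGroup G] [NormedAddCommGroup H] [InnerProductSpace ℂ H]

theorem exists_scalar_subspace (R : URep G H) (V : Submodule ℂ H) [FiniteDimensional ℂ V]
    (hV : V ≠ ⊥) (hinv : ∀ g, ∀ x ∈ V, R.U g x ∈ V) :
    ∃ W : Submodule ℂ H, W ≤ V ∧ W ≠ ⊥ ∧ ∀ g, ∃ μ : ℂ, ∀ x ∈ W, R.U g x = μ • x := by
  classical
  let P : ℕ → Prop := fun n => ∃ W : Submodule ℂ H, W ≤ V ∧ W ≠ ⊥ ∧
    (∀ g, ∀ x ∈ W, R.U g x ∈ W) ∧ Module.finrank ℂ W = n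
  have hP : ∃ n, P n := ⟨_, V, le_rfl, hV, hinv, rfl⟩
  obtain ⟨W, hWV, hW0, hWinv, hWn⟩ := Nat.find_spec hP
  have hmin : ∀ W' : Submodule ℂ H, W' ≤ V → W' ≠ ⊥ → (∀ g, ∀ x ∈ W', R.U g x ∈ W') →
      Module.finrank ℂ W ≤ Module.finrank ℂ W' := by
    intro W' h1 h2 h3
    rw [hWn]
    exact Nat.find_min' hP ⟨W', h1, h2, h3, rfl⟩
  have : FiniteDimensional ℂ W := Submodule.finiteDimensional_of_le hWV
  refine ⟨W, hWV, hW0, fun g => ?_⟩
  have : Nontrivial W := Submodule.nontrivial_iff_ne_bot.2 hW0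
  let L : W →ₗ[ℂ] W := (R.U g).toLinearMap.restrict (hWinv g)
  obtain ⟨μ, hμ⟩ := Module.End.exists_eigenvalue L
  obtain ⟨v, hv⟩ := hμ.exists_hasEigenvector
  let W' : Submodule ℂ H :=
    { carrier := {x | x ∈ W ∧ R.U g x = μ • x}
      zero_mem' := ⟨W.zero_mem, by simp⟩
      add_mem' := by
        rintro a b ⟨ha, ha'⟩ ⟨hb, hb'⟩
        exact ⟨W.add_mem ha hb, by rw [map_add, ha', hb', smul_add]⟩
      smul_mem' := by
        rintro c a ⟨ha, ha'⟩
        exact ⟨W.smul_mem c ha, by rw [map_smul, ha', smul_comm]⟩ }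
  have h1 : W' ≤ W := fun x hx => hx.1
  have hvmem : (v : H) ∈ W' := by
    refine ⟨v.2, ?_⟩
    have := hv.apply_eq_smul
    exact congrArg Subtype.val this
  have h2 : W' ≠ ⊥ := by
    intro h
    rw [h, Submodule.mem_bot] at hvmem
    exact hv.2 (Subtype.ext hvmem)
  have h3 : ∀ h, ∀ x ∈ W', R.U h x ∈ W' := by
    rintro h x ⟨hx, hx'⟩
    refine ⟨hWinv h x hx, ?_⟩
    rw [R.comm, hx', map_smul]
  have h4 := hmin W' (h1.trans hWV) h2 h3
  have h5 : W' = W := Submodule.eq_of_le_of_finrank_le h1 h4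
  exact ⟨μ, fun x hx => by
    rw [← h5] at hx
    exact hx.2⟩

theorem exists_joint_eigenvector (R : URep G H) (V : Submodule ℂ H) [FiniteDimensional ℂ V]
    (hV : V ≠ ⊥) (hinv : ∀ g, ∀ x ∈ V, R.U g x ∈ V) :
    ∃ e ∈ V, ‖e‖ = 1 ∧ ∃ χ : AddChar G Circle, ∀ g, R.U g e = (χ g : ℂ) • e := by
  classical
  obtain ⟨W, hWV, hW0, hW⟩ := exists_scalar_subspace R V hV hinv
  obtain ⟨x, hx, hx0⟩ := Submodule.exists_mem_ne_zero_of_ne_bot hW0
  choose μ hμ using hW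
  set e : H := ((‖x‖⁻¹ : ℝ) : ℂ) • x with he
  have heW : e ∈ W := W.smul_mem _ hx
  have hnx : (0 : ℝ) < ‖x‖ := norm_pos_iff.2 hx0
  have hen : ‖e‖ = 1 := by
    rw [he, norm_smul, Complex.norm_real, norm_inv, norm_norm]
    exact inv_mul_cancel₀ hnx.ne'
  have he0 : e ≠ 0 := by
    intro h
    rw [h, norm_zero] at hen
    exact zero_ne_one hen
  have hμ1 : ∀ g, ‖μ g‖ = 1 := by
    intro g
    have h1 : ‖R.U g e‖ = ‖e‖ := (R.U g).norm_map e
    rw [hμ g e heW, norm_smul, hen, mul_one] at h1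
    exact h1
  have hμ0 : μ 0 = 1 := by
    have h1 := hμ 0 e heW
    rw [R.zero'] at h1
    have h2 : (μ 0 - 1) • e = 0 := by rw [sub_smul, ← h1, one_smul, sub_self]
    rcases smul_eq_zero.1 h2 with h3 | h3
    · exact sub_eq_zero.1 h3
    · exact absurd h3 he0
  have hμadd : ∀ g h, μ (g + h) = μ g * μ h := by
    intro g h
    have h1 := hμ (g + h) e heW
    rw [R.add', hμ h e heW, map_smul, hμ g e heW, smul_smul] at h1
    have h2 : (μ (g + h) - μ h * μ g) • e = 0 := by rw [sub_smul, ← h1, sub_self]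
    rcases smul_eq_zero.1 h2 with h3 | h3
    · rw [sub_eq_zero.1 h3, mul_comm]
    · exact absurd h3 he0
  let χ : AddChar G Circle :=
    { toFun := fun g => ⟨μ g, mem_sphere_zero_iff_norm.2 (hμ1 g)⟩
      map_zero_eq_one' := by
        ext
        exact hμ0
      map_add_eq_mul' := fun g h => by
        ext
        exact hμadd g h }
  exact ⟨e, hWV heW, hen, χ, fun g => hμ g e heW⟩

end Joint

section Main
variable {G H : Type*} [AddCommGroup G] [NormedAddCommGroup H] [InnerProductSpace ℂ H]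
  [CompleteSpace H]

/-- the Hilbert-Schmidt inequality -/
theorem hs_bound (R : URep G H) (ν : Mean G) (hν : ν.Inv) (f : H) {κ : ℝ} (hκ : 0 ≤ κ)
    (h : ∀ e : H, ‖e‖ = 1 → ∀ χ : AddChar G Circle, (∀ g, R.U g e = (χ g : ℂ) • e) →
      ‖⟪e, f⟫_ℂ‖ ^ 2 ≤ κ) (y : H) : ν (fun h => ‖⟪y, R.U h f⟫_ℂ‖ ^ 2) ≤ κ * ‖y‖ ^ 2 := by
  have hcomp := Top_compact R ν f
  have hsymm := Top_symm R ν f
  have hnorm : ‖Top R ν f‖ ≤ κ := by
    have h1 := (Top R ν f).spectralRadius_eq_nnnorm hsymm.isSelfAdjoint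
    have h2 : spectralRadius ℂ (Top R ν f) ≤ (κ.toNNReal : ENNReal) := by
      refine iSup₂_le fun k hk => ?_
      rw [ENNReal.coe_le_coe]
      by_cases hk0 : k = 0
      · subst hk0; simp
      have hev := (hcomp.hasEigenvalue_iff_mem_spectrum hk0).2 hk
      have hfin := ContinuousLinearMap.finite_dimensional_eigenspace hcomp k hk0
      have hne : Module.End.eigenspace (Top R ν f).toLinearMap k ≠ ⊥ := hev
      have hinv : ∀ g, ∀ x ∈ Module.End.eigenspace (Top R ν f).toLinearMap k,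
          R.U g x ∈ Module.End.eigenspace (Top R ν f).toLinearMap k := by
        intro g x hx
        rw [Module.End.mem_eigenspace_iff] at hx ⊢
        simp only [ContinuousLinearMap.coe_coe] at hx ⊢
        rw [Top_comm R ν f hν, hx, map_smul]
      obtain ⟨e, heV, he1, χ, hχ⟩ := exists_joint_eigenvector R _ hne hinv
      rw [Module.End.mem_eigenspace_iff] at heV
      simp only [ContinuousLinearMap.coe_coe] at heV
      have h3 := Top_inner_self R ν f e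
      rw [heV, inner_smul_left, inner_self_eq_norm_sq_to_K, he1] at h3
      have h4 : qf R ν f e = ‖⟪e, f⟫_ℂ‖ ^ 2 := by
        unfold qf
        have : (fun h => ‖⟪e, R.U h f⟫_ℂ‖ ^ 2) = fun _ => ‖⟪e, f⟫_ℂ‖ ^ 2 := by
          funext h
          rw [R.inner_right, hχ, inner_smul_left, norm_mul, RCLike.norm_conj, Circle.norm_coe,
            one_mul]
        rw [this, ν.const']
      have h5 := h e he1 χ hχ
      have h6 : ‖k‖ ≤ κ := by
        have : ‖(conj k : ℂ)‖ = ‖⟪e, f⟫_ℂ‖ ^ 2 := by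
          have h7 : (conj k : ℂ) = (qf R ν f e : ℂ) := by simpa using h3
          rw [h7, h4, Complex.norm_real, Real.norm_of_nonneg (sq_nonneg _)]
        rw [RCLike.norm_conj] at this
        rw [this]
        exact h5
      rw [← NNReal.coe_le_coe, Real.coe_toNNReal κ hκ, coe_nnnorm]
      exact h6
    rw [h1, ENNReal.coe_le_coe, ← NNReal.coe_le_coe, Real.coe_toNNReal κ hκ, coe_nnnorm] at h2
    exact h2
  have h1 : ν (fun h => ‖⟪y, R.U h f⟫_ℂ‖ ^ 2) = (⟪Top R ν f y, y⟫_ℂ).re := by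
    rw [Top_inner_self]; rfl
  rw [h1]
  calc (⟪Top R ν f y, y⟫_ℂ).re ≤ ‖⟪Top R ν f y, y⟫_ℂ‖ := Complex.re_le_norm _
    _ ≤ ‖Top R ν f y‖ * ‖y‖ := norm_inner_le_norm _ _
    _ ≤ (κ * ‖y‖) * ‖y‖ := by
        refine mul_le_mul_of_nonneg_right ?_ (norm_nonneg _)
        exact ((Top R ν f).le_opNorm y).trans (mul_le_mul_of_nonneg_right hnorm (norm_nonneg _))
    _ = κ * ‖y‖ ^ 2 := by ring

/-- mean ergodic inequality -/
theorem ergodic_inequality (R : URep G H) (ν : Mean G) (hν : ν.Inv) (F y : H)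
    (hy : ∀ g, R.U g y = y) :
    ‖⟪y, F⟫_ℂ‖ ^ 2 ≤ ‖y‖ ^ 2 * ‖ν.c (fun h => ⟪F, R.U h F⟫_ℂ)‖ := by
  -- the weak mean
  let ℓ : H →ₗ[ℂ] ℂ :=
    { toFun := fun z => ν.c (fun h => ⟪R.U h F, z⟫_ℂ)
      map_add' := fun z z' => by
        rw [← ν.c_add]
        congr 1
        funext h
        rw [inner_add_right]
      map_smul' := fun a z => by
        rw [smul_eq_mul, RingHom.id_apply, ← ν.c_smul]
        congr 1
        funext h
        rw [inner_smul_right] }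
  have hℓ : ∀ z, ‖ℓ z‖ ≤ ‖F‖ * ‖z‖ := fun z => by
    refine ν.norm_c_le_of_le fun h => ?_
    exact (norm_inner_le_norm _ _).trans (by rw [(R.U h).norm_map])
  let L : StrongDual ℂ H := ℓ.mkContinuous ‖F‖ hℓ
  let q : H := (toDual ℂ H).symm L
  have hq : ∀ z, ⟪q, z⟫_ℂ = ν.c (fun h => ⟪R.U h F, z⟫_ℂ) := fun z => by
    have : ⟪(toDual ℂ H).symm L, z⟫_ℂ = L z := toDual_symm_apply
    exact this
  have hqinv : ∀ k, R.U k q = q := by
    intro k
    refine ext_inner_right ℂ fun z => ?_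
    rw [R.inner_left, hq, hq]
    have h1 := Mean.c_inv hν (R.bd_left z F) k
    rw [← h1]
    congr 1
    funext h
    rw [R.inner_right, neg_neg, ← R.add', add_comm]
  have hqq : ⟪q, q⟫_ℂ = ⟪F, q⟫_ℂ := by
    rw [hq]
    have : (fun h => ⟪R.U h F, q⟫_ℂ) = fun _ => ⟪F, q⟫_ℂ := by
      funext h
      rw [R.inner_left, hqinv]
    rw [this, ν.c_const]
  have hqF : ⟪F, q⟫_ℂ = ν.c (fun h => ⟪F, R.U h F⟫_ℂ) := by
    rw [← inner_conj_symm, hq, ← ν.c_conj]
    congr 1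
    funext h
    rw [inner_conj_symm]
  have hqy : ⟪q, y⟫_ℂ = ⟪F, y⟫_ℂ := by
    rw [hq]
    have : (fun h => ⟪R.U h F, y⟫_ℂ) = fun _ => ⟪F, y⟫_ℂ := by
      funext h
      rw [R.inner_left, hy]
    rw [this, ν.c_const]
  have h1 : ‖q‖ ^ 2 = ‖ν.c (fun h => ⟪F, R.U h F⟫_ℂ)‖ := by
    rw [← hqF, ← hqq, inner_self_eq_norm_sq_to_K]
    simp
  have h2 : ‖⟪y, F⟫_ℂ‖ ≤ ‖q‖ * ‖y‖ := by
    rw [norm_inner_symm, ← hqy]
    exact norm_inner_le_norm _ _
  calc ‖⟪y, F⟫_ℂ‖ ^ 2 ≤ (‖q‖ * ‖y‖) ^ 2 := pow_le_pow_left₀ (norm_nonneg _) h2 2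
    _ = ‖y‖ ^ 2 * ‖ν.c (fun h => ⟪F, R.U h F⟫_ℂ)‖ := by rw [mul_pow, h1]; ring

end Main

end Pool.Agent.Helper91.Bohr
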