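import Mathlib
import Pool.Agent.Helper91.BohrC

/-!
The Hilbert space of a mean, and consequences: Bessel inequality, the inverse theorem for
correlations (U2), and the mean ergodic inequality for means.
-/

namespace Pool.Agent.Helper91.Bohr

open Filter Topology ComplexConjugate InnerProductSpace UniformSpace

/-- bounded complex functions -/
def BdC (X : Type*) : Submodule ℂ (X → ℂ) where
  carrier := {f | Bd f}
  zero_mem' := Bd.const 0
  add_mem' hf hg := Bd.add hf hg
  smul_mem' c _ hf := Bd.smulC c hf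

/-- the pre-Hilbert space attached to a mean: a type synonym of the bounded functions -/
def PreH {X : Type*} (_M : Mean X) : Type _ := BdC X

section
variable {X : Type*} (M : Mean X)

noncomputable instance : AddCommGroup (PreH M) := inferInstanceAs (AddCommGroup (BdC X))
noncomputable instance : Module ℂ (PreH M) := inferInstanceAs (Module ℂ (BdC X))

/-- the element given by a bounded function -/
def PreH.mk (f : X → ℂ) (hf : Bd f) : PreH M := (⟨f, hf⟩ : BdC X)

/-- the underlying function -/
def PreH.fn {M : Mean X} (a : PreH M) : X → ℂ := (show BdC X from a).1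

theorem PreH.bd {M : Mean X} (a : PreH M) : Bd a.fn := (show BdC X from a).2

noncomputable abbrev preCore : PreInnerProductSpace.Core ℂ (PreH M) where
  inner a b := M.c (fun x => conj (a.fn x) * b.fn x)
  conj_inner_symm a b := by
    rw [← M.c_conj]
    congr 1
    funext x
    rw [map_mul, Complex.conj_conj, mul_comm]
  re_inner_nonneg a := by
    have : (fun x => conj (a.fn x) * a.fn x) = (fun x => ((‖a.fn x‖ ^ 2 : ℝ) : ℂ)) := by
      funext x
      rw [mul_comm, Complex.mul_conj, Complex.normSq_eq_norm_sq]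
    rw [this, M.c_ofReal]
    exact M.nonneg _ (a.bd.norm.pow 2) fun x => sq_nonneg _
  add_left a b c := by
    rw [← M.c_add]
    congr 1
    funext x
    change conj (a.fn x + b.fn x) * c.fn x = _
    rw [map_add]
    ring
  smul_left a b r := by
    rw [← M.c_smul]
    congr 1
    funext x
    change conj (r * a.fn x) * b.fn x = _
    rw [map_mul]
    ring

noncomputable instance : SeminormedAddCommGroup (PreH M) :=
  InnerProductSpace.Core.toSeminormedAddCommGroup (c := preCore M)
noncomputable instance : InnerProductSpace ℂ (PreH M) :=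
  InnerProductSpace.ofCore (preCore M)

theorem PreH.inner_def (a b : PreH M) :
    ⟪a, b⟫_ℂ = M.c (fun x => conj (a.fn x) * b.fn x) := rfl

/-- the Hilbert space of a mean -/
abbrev HM := Completion (PreH M)

/-- class of a bounded function -/
noncomputable def cl (f : X → ℂ) (hf : Bd f) : HM M := ((PreH.mk M f hf : PreH M) : HM M)

theorem cl_inner {f g : X → ℂ} (hf : Bd f) (hg : Bd g) :
    ⟪cl M f hf, cl M g hg⟫_ℂ = M.c (fun x => conj (f x) * g x) := by
  rw [cl, cl, Completion.inner_coe]
  rfl

theorem cl_norm_sq {f : X → ℂ} (hf : Bd f) :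
    ‖cl M f hf‖ ^ 2 = M (fun x => ‖f x‖ ^ 2) := by
  have h1 := cl_inner M hf hf
  have h2 : (fun x => conj (f x) * f x) = (fun x => ((‖f x‖ ^ 2 : ℝ) : ℂ)) := by
    funext x
    rw [mul_comm, Complex.mul_conj, Complex.normSq_eq_norm_sq]
  rw [h2, M.c_ofReal, inner_self_eq_norm_sq_to_K] at h1
  have h3 : ((‖cl M f hf‖ ^ 2 : ℝ) : ℂ) = ((M (fun x => ‖f x‖ ^ 2) : ℝ) : ℂ) := by
    rw [← h1]; simp
  exact_mod_cast h3

/-- an action of an abelian group preserving a mean -/
structure Act (Γ : Type*) [AddCommGroup Γ] where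
  σ : Γ → X → X
  zero' : ∀ x, σ 0 x = x
  add' : ∀ g h x, σ (g + h) x = σ g (σ h x)
  pres : ∀ g (f : X → ℝ), Bd f → M (fun x => f (σ g x)) = M f

theorem Act.c_pres {M : Mean X} {Γ : Type*} [AddCommGroup Γ] (A : Act M Γ) (g : Γ) {f : X → ℂ}
    (hf : Bd f) : M.c (fun x => f (A.σ g x)) = M.c f := by
  apply Complex.ext
  · rw [Mean.c_re, Mean.c_re]; exact A.pres g _ hf.re
  · rw [Mean.c_im, Mean.c_im]; exact A.pres g _ hf.im

/-- composition as a continuous linear map of the pre-Hilbert space -/
noncomputable def Act.preU {M : Mean X} {Γ : Type*} [AddCommGroup Γ] (A : Act M Γ) (g : Γ) :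
    PreH M →ₗᵢ[ℂ] PreH M where
  toFun a := PreH.mk M (fun x => a.fn (A.σ g x)) (a.bd.comp _)
  map_add' _ _ := rfl
  map_smul' _ _ := rfl
  norm_map' a := by
    have h : ⟪(PreH.mk M (fun x => a.fn (A.σ g x)) (a.bd.comp _)),
        (PreH.mk M (fun x => a.fn (A.σ g x)) (a.bd.comp _))⟫_ℂ = ⟪a, a⟫_ℂ := by
      rw [PreH.inner_def, PreH.inner_def]
      exact A.c_pres g (a.bd.conj.mul a.bd)
    rw [inner_self_eq_norm_sq_to_K, inner_self_eq_norm_sq_to_K] at h
    have h2 : ‖(PreH.mk M (fun x => a.fn (A.σ g x)) (a.bd.comp _))‖ ^ 2 = ‖a‖ ^ 2 := by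
      exact_mod_cast h
    exact (sq_eq_sq₀ (norm_nonneg _) (norm_nonneg _)).1 h2

/-- the isometry on the completion -/
noncomputable def Act.compU {M : Mean X} {Γ : Type*} [AddCommGroup Γ] (A : Act M Γ) (g : Γ) :
    HM M →ₗᵢ[ℂ] HM M where
  toLinearMap := ((A.preU g).toContinuousLinearMap.completion).toLinearMap
  norm_map' x := by
    induction x using Completion.induction_on with
    | hp =>
      exact isClosed_eq (((A.preU g).toContinuousLinearMap.completion).continuous.norm)
        continuous_norm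
    | ih a =>
      simp only [ContinuousLinearMap.coe_coe]
      rw [ContinuousLinearMap.completion_apply_coe, Completion.norm_coe, Completion.norm_coe]
      exact (A.preU g).norm_map a

theorem Act.compU_coe {M : Mean X} {Γ : Type*} [AddCommGroup Γ] (A : Act M Γ) (g : Γ)
    (a : PreH M) : A.compU g (a : HM M) = ((A.preU g a : PreH M) : HM M) :=
  ContinuousLinearMap.completion_apply_coe _ _

theorem Act.compU_cl {M : Mean X} {Γ : Type*} [AddCommGroup Γ] (A : Act M Γ) (g : Γ)
    {f : X → ℂ} (hf : Bd f) :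
    A.compU g (cl M f hf) = cl M (fun x => f (A.σ g x)) (hf.comp _) :=
  A.compU_coe g _

/-- the representation on the Hilbert space of the mean -/
noncomputable def Act.rep {M : Mean X} {Γ : Type*} [AddCommGroup Γ] (A : Act M Γ) :
    URep Γ (HM M) where
  U := A.compU
  zero' x := by
    induction x using Completion.induction_on with
    | hp => exact isClosed_eq (A.compU 0).continuous continuous_id
    | ih a =>
      rw [A.compU_coe]
      congr 1
      change PreH.mk M (fun x => a.fn (A.σ 0 x)) _ = a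
      apply Subtype.ext
      funext x
      change a.fn (A.σ 0 x) = a.fn x
      rw [A.zero']
  add' g h x := by
    induction x using Completion.induction_on with
    | hp =>
      exact isClosed_eq (A.compU (g + h)).continuous
        ((A.compU g).continuous.comp (A.compU h).continuous)
    | ih a =>
      rw [A.compU_coe, A.compU_coe, A.compU_coe]
      congr 1
      apply Subtype.ext
      funext x
      change a.fn (A.σ (g + h) x) = a.fn (A.σ h (A.σ g x))
      rw [add_comm g h, A.add']

theorem Act.rep_cl {M : Mean X} {Γ : Type*} [AddCommGroup Γ] (A : Act M Γ) (g : Γ)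
    {f : X → ℂ} (hf : Bd f) :
    A.rep.U g (cl M f hf) = cl M (fun x => f (A.σ g x)) (hf.comp _) :=
  A.compU_cl g hf

/-- the mean ergodic (van der Corput) inequality for means -/
theorem vdc {M : Mean X} {Γ : Type*} [AddCommGroup Γ] (A : Act M Γ) (ν : Mean Γ) (hν : ν.Inv)
    {F b : X → ℂ} (hF : Bd F) (hb : Bd b) (hinv : ∀ g x, b (A.σ g x) = b x) :
    ‖M.c (fun x => F x * b x)‖ ^ 2 ≤ M (fun x => ‖b x‖ ^ 2) *
      ‖ν.c (fun h => M.c (fun x => F (A.σ h x) * conj (F x)))‖ := by
  have h1 := ergodic_inequality A.rep ν hν (cl M F hF) (cl M _ hb.conj) (fun g => by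
    rw [A.rep_cl]
    congr 1
    funext x
    rw [hinv])
  have e1 : ⟪cl M _ hb.conj, cl M F hF⟫_ℂ = M.c (fun x => F x * b x) := by
    rw [cl_inner]
    congr 1
    funext x
    rw [Complex.conj_conj, mul_comm]
  have e2 : ‖cl M _ hb.conj‖ ^ 2 = M (fun x => ‖b x‖ ^ 2) := by
    rw [cl_norm_sq]
    congr 1
    funext x
    rw [RCLike.norm_conj]
  have e3 : (fun h => ⟪cl M F hF, A.rep.U h (cl M F hF)⟫_ℂ) =
      (fun h => M.c (fun x => F (A.σ h x) * conj (F x))) := by
    funext h
    rw [A.rep_cl, cl_inner]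
    congr 1
    funext x
    rw [mul_comm]
  rw [e1, e2, e3] at h1
  exact h1

end

section
variable {G : Type*} [AddCommGroup G]

/-- translation action -/
def transAct {m : Mean G} (hm : m.Inv) : Act m G where
  σ h x := x + h
  zero' x := add_zero x
  add' g h x := by
    change x + (g + h) = x + h + g
    abel
  pres g f hf := hm g f hf

theorem char_orthonormal {m : Mean G} (hm : m.Inv) :
    Orthonormal ℂ (fun χ : AddChar G Circle => cl m (fun x => (χ x : ℂ)) (Bd.char χ)) := by
  classical
  rw [orthonormal_iff_ite]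
  intro χ ψ
  rw [cl_inner]
  have h1 := Mean.coef_char hm χ ψ
  rw [Mean.coef] at h1
  rw [← h1]
  congr 1
  funext x
  ring

theorem cl_char_inner {m : Mean G} {f : G → ℂ} (hf : Bd f) (χ : AddChar G Circle) :
    ⟪cl m (fun x => (χ x : ℂ)) (Bd.char χ), cl m f hf⟫_ℂ = m.coef f χ := by
  rw [cl_inner, Mean.coef]
  congr 1
  funext x
  ring

/-- Bessel inequality -/
theorem bessel {m : Mean G} (hm : m.Inv) {f : G → ℂ} (hf : Bd f)
    (S : Finset (AddChar G Circle)) :
    ∑ χ ∈ S, ‖m.coef f χ‖ ^ 2 ≤ m (fun x => ‖f x‖ ^ 2) := by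
  have h1 := (char_orthonormal hm).sum_inner_products_le (cl m f hf) (s := S)
  rw [cl_norm_sq] at h1
  simp_rw [cl_char_inner] at h1
  exact h1

theorem eigen_is_char {m : Mean G} (hm : m.Inv) (he : m.Erg) (e : HM m)
    (χ : AddChar G Circle) (hχ : ∀ g, (transAct hm).rep.U g e = (χ g : ℂ) • e) :
    e = ⟪cl m (fun x => (χ x : ℂ)) (Bd.char χ), e⟫_ℂ • cl m (fun x => (χ x : ℂ)) (Bd.char χ) := by
  set R := (transAct hm).rep with hR
  set X := cl m (fun x => (χ x : ℂ)) (Bd.char χ) with hX
  -- the averaged functional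
  have key : ∀ (z0 : PreH m) (y : HM m),
      m.c (fun h => conj (χ h : ℂ) * ⟪(z0 : HM m), R.U h y⟫_ℂ) = ⟪X, y⟫_ℂ * ⟪(z0 : HM m), X⟫_ℂ := by
    intro z0 y
    let ℓ : HM m →ₗ[ℂ] ℂ :=
      { toFun := fun y => m.c (fun h => conj (χ h : ℂ) * ⟪(z0 : HM m), R.U h y⟫_ℂ)
        map_add' := fun y y' => by
          rw [← m.c_add]
          congr 1
          funext h
          rw [map_add, inner_add_right]
          ring
        map_smul' := fun a y => by
          rw [smul_eq_mul, RingHom.id_apply, ← m.c_smul]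
          congr 1
          funext h
          rw [map_smul, inner_smul_right]
          ring }
    have hℓ : ∀ y, ‖ℓ y‖ ≤ ‖(z0 : HM m)‖ * ‖y‖ := fun y => by
      refine m.norm_c_le_of_le fun h => ?_
      rw [norm_mul, RCLike.norm_conj, Circle.norm_coe, one_mul]
      exact (norm_inner_le_norm _ _).trans (by rw [(R.U h).norm_map])
    have hcont : Continuous ℓ := (ℓ.mkContinuous _ hℓ).continuous
    change ℓ y = _
    induction y using Completion.induction_on with
    | hp =>
      refine isClosed_eq hcont ?_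
      exact (Continuous.inner continuous_const continuous_id).mul continuous_const
    | ih b =>
      change m.c (fun h => conj (χ h : ℂ) * ⟪(z0 : HM m), R.U h (b : HM m)⟫_ℂ) = _
      have hb : (b : HM m) = cl m b.fn b.bd := rfl
      have hz : (z0 : HM m) = cl m z0.fn z0.bd := rfl
      rw [hb, hz, hX, cl_inner, cl_inner]
      have e1 : (fun h => conj (χ h : ℂ) * ⟪cl m z0.fn z0.bd, R.U h (cl m b.fn b.bd)⟫_ℂ) =
          (fun h => (((χ⁻¹ : AddChar G Circle) h : Circle) : ℂ) *
            m.c (fun x => conj (z0.fn x) * b.fn (x + h))) := by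
        funext h
        rw [Act.rep_cl, cl_inner, char_conj]
        rfl
      rw [e1, he.char hm b.bd z0.bd.conj χ⁻¹]
      rw [mul_comm]
      congr 1
      · congr 1
        funext x
        rw [char_conj, mul_comm]
      · congr 1
        funext x
        rw [← char_conj, Complex.conj_conj]
  refine ext_inner_left ℂ fun z => ?_
  induction z using Completion.induction_on with
  | hp =>
    exact isClosed_eq (Continuous.inner continuous_id continuous_const)
      (Continuous.inner continuous_id continuous_const)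
  | ih z0 =>
    have h1 := key z0 e
    have e2 : (fun h => conj (χ h : ℂ) * ⟪(z0 : HM m), R.U h e⟫_ℂ) =
        fun _ => ⟪(z0 : HM m), e⟫_ℂ := by
      funext h
      rw [hχ, inner_smul_right, ← mul_assoc, char_conj_mul, one_mul]
    rw [e2, m.c_const] at h1
    rw [h1, inner_smul_right]

/-- the inverse theorem for correlations -/
theorem u2_bound {m ν : Mean G} (hm : m.Inv) (he : m.Erg) (hν : ν.Inv) {f g : G → ℂ}
    (hf : Bd f) (hg : Bd g) {κ : ℝ} (hκ0 : 0 ≤ κ)
    (hκ : ∀ χ : AddChar G Circle, ‖m.coef f χ‖ ^ 2 ≤ κ) :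
    ν (fun s => ‖m.c (fun x => f (x + s) * conj (g x))‖ ^ 2) ≤ κ * m (fun x => ‖g x‖ ^ 2) := by
  have h1 := hs_bound (transAct hm).rep ν hν (cl m f hf) hκ0 (fun e he1 χ hχ => by
    have h2 := eigen_is_char hm he e χ hχ
    set X := cl m (fun x => (χ x : ℂ)) (Bd.char χ) with hX
    have hXn : ‖X‖ = 1 := (char_orthonormal hm).1 χ
    have h3 : ‖⟪X, e⟫_ℂ‖ ≤ 1 := by
      have := norm_inner_le_norm (𝕜 := ℂ) X e
      rwa [hXn, he1, one_mul] at this
    have h4 : ⟪e, cl m f hf⟫_ℂ = conj ⟪X, e⟫_ℂ * m.coef f χ := by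
      conv_lhs => rw [h2]
      rw [inner_smul_left, cl_char_inner]
    rw [h4, norm_mul, RCLike.norm_conj, mul_pow]
    calc ‖⟪X, e⟫_ℂ‖ ^ 2 * ‖m.coef f χ‖ ^ 2 ≤ 1 * κ := by
          refine mul_le_mul ?_ (hκ χ) (sq_nonneg _) zero_le_one
          exact pow_le_one₀ (norm_nonneg _) h3
      _ = κ := one_mul κ) (cl m g hg)
  rw [cl_norm_sq] at h1
  have e1 : (fun h => ‖⟪cl m g hg, (transAct hm).rep.U h (cl m f hf)⟫_ℂ‖ ^ 2) =
      (fun s => ‖m.c (fun x => f (x + s) * conj (g x))‖ ^ 2) := by
    funext s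
    rw [Act.rep_cl, cl_inner]
    congr 3
    funext x
    rw [mul_comm]
    rfl
  rw [e1] at h1
  exact h1

end

end Pool.Agent.Helper91.Bohr
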