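import Mathlib
import Pool.Agent.Helper91.BohrD

/-!
Finite index subgroups, pushed forward means, extension of characters, the trilinear bound.
-/

namespace Pool.Agent.Helper91.Bohr

open Filter Topology ComplexConjugate

section Extend
variable {A B : Type*} [AddCommGroup A] [AddCommGroup B]

theorem toCircle_surj (z : Circle) : ∃ t : AddCircle (1 : ℝ), AddCircle.toCircle t = z := by
  refine ⟨((Complex.arg z / (2 * Real.pi) : ℝ) : AddCircle (1 : ℝ)), ?_⟩
  rw [AddCircle.toCircle_apply_mk]
  have : 2 * Real.pi / 1 * (Complex.arg (z : ℂ) / (2 * Real.pi)) = Complex.arg (z : ℂ) := by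
    have := Real.pi_ne_zero
    field_simp
  rw [this]
  exact Circle.exp_arg z

theorem char_extend (f : A →+ B) (hf : Function.Injective f) (χ : AddChar A Circle) :
    ∃ ψ : AddChar B Circle, ∀ a, ψ (f a) = χ a := by
  have hinj : Function.Injective (@AddCircle.toCircle (1 : ℝ)) :=
    AddCircle.injective_toCircle one_ne_zero
  choose s hs using toCircle_surj
  let g : A →+ AddCircle (1 : ℝ) :=
    { toFun := fun a => s (χ a)
      map_zero' := by
        apply hinj
        rw [hs, AddChar.map_zero_eq_one, AddCircle.toCircle_zero]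
      map_add' := fun a b => by
        apply hinj
        rw [hs, AddCircle.toCircle_add, hs, hs, AddChar.map_add_eq_mul] }
  obtain ⟨h, hh⟩ := (Module.Baer.of_divisible (AddCircle (1 : ℝ))).extension_property_addMonoidHom
    f hf g
  refine ⟨{ toFun := fun b => AddCircle.toCircle (h b)
            map_zero_eq_one' := by rw [map_zero, AddCircle.toCircle_zero]
            map_add_eq_mul' := fun a b => by rw [map_add, AddCircle.toCircle_add] }, fun a => ?_⟩
  have : h (f a) = g a := DFunLike.congr_fun hh a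
  change AddCircle.toCircle (h (f a)) = χ a
  rw [this]
  exact hs _

/-- a character trivial on the kernel factors through the homomorphism -/
theorem char_factor (φ : A →+ B) (χ : AddChar A Circle) (h : ∀ z, φ z = 0 → χ z = 1) :
    ∃ ψ : AddChar B Circle, ∀ a, ψ (φ a) = χ a := by
  let χ' : AddChar (A ⧸ φ.ker) Circle :=
    AddChar.toAddMonoidHomEquiv.symm (QuotientAddGroup.lift φ.ker χ.toAddMonoidHom (by
      intro z hz
      have := h z hz
      change Additive.ofMul (χ z) = 0
      rw [this]; rfl))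
  have hχ' : ∀ a : A, χ' (QuotientAddGroup.mk a) = χ a := fun a => rfl
  obtain ⟨ψ, hψ⟩ := char_extend (QuotientAddGroup.kerLift φ)
    (QuotientAddGroup.kerLift_injective φ) χ'
  refine ⟨ψ, fun a => ?_⟩
  have := hψ (QuotientAddGroup.mk a)
  rw [hχ'] at this
  exact this

end Extend

section FinIndex
variable {G : Type*} [AddCommGroup G]

/-- the characters trivial on a subgroup of finite index -/
noncomputable def annF (L : AddSubgroup G) [Finite (G ⧸ L)] (ψ : AddChar (G ⧸ L) ℂ) :
    AddChar G Circle :=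
  (AddChar.circleEquivComplex.symm ψ).compAddMonoidHom (QuotientAddGroup.mk' L)

theorem annF_apply (L : AddSubgroup G) [Finite (G ⧸ L)] (ψ : AddChar (G ⧸ L) ℂ) (x : G) :
    (annF L ψ x : ℂ) = ψ (QuotientAddGroup.mk x) := by
  have h := AddChar.circleEquivComplex.apply_symm_apply ψ
  have h2 := DFunLike.congr_fun h (QuotientAddGroup.mk x)
  exact h2

open Classical in
theorem sum_annF (L : AddSubgroup G) [Finite (G ⧸ L)] (x : G) :
    ∑ ψ : AddChar (G ⧸ L) ℂ, (annF L ψ x : ℂ) = if x ∈ L then (L.index : ℂ) else 0 := by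
  have : Fintype (G ⧸ L) := Fintype.ofFinite _
  simp_rw [annF_apply]
  rw [AddChar.sum_apply_eq_ite]
  have h1 : ((QuotientAddGroup.mk x : G ⧸ L) = 0) ↔ x ∈ L := QuotientAddGroup.eq_zero_iff x
  simp only [h1]
  rw [AddSubgroup.index_eq_card, Nat.card_eq_fintype_card]

theorem card_annF (L : AddSubgroup G) [Finite (G ⧸ L)] :
    Fintype.card (AddChar (G ⧸ L) ℂ) = L.index := by
  have : Fintype (G ⧸ L) := Fintype.ofFinite _
  rw [AddChar.card_eq, AddSubgroup.index_eq_card, Nat.card_eq_fintype_card]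

theorem Mean.avg_c {X ι : Type*} (s : Finset ι) (hs : s.Nonempty) (m : ι → Mean X)
    (f : X → ℂ) : (Mean.avg s hs m).c f = (s.card : ℂ)⁻¹ * ∑ i ∈ s, (m i).c f := by
  apply Complex.ext
  · rw [Mean.c_re, Mean.avg_apply]
    have : (s.card : ℂ)⁻¹ = (((s.card : ℝ)⁻¹ : ℝ) : ℂ) := by push_cast; rfl
    rw [this, Complex.re_ofReal_mul, Complex.re_sum]
    rfl
  · rw [Mean.c_im, Mean.avg_apply]
    have : (s.card : ℂ)⁻¹ = (((s.card : ℝ)⁻¹ : ℝ) : ℂ) := by push_cast; rfl
    rw [this, Complex.im_ofReal_mul, Complex.im_sum]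
    rfl

theorem Mean.map_c {X Y : Type*} (m : Mean X) (u : X → Y) (f : Y → ℂ) :
    (m.map u).c f = m.c (fun x => f (u x)) := rfl

variable {N : Type*} [AddCommGroup N]

open Classical in
/-- push forward of an invariant mean along a homomorphism with finite index image -/
theorem exists_push (p : N →+ G) (hp : p.range.index ≠ 0) (ν : Mean N) (hν : ν.Inv) :
    ∃ μ : Mean G, μ.Inv ∧
      (∀ F : G → ℝ, Bd F → (∀ x, 0 ≤ F x) → ν (fun n => F (p n)) ≤ p.range.index * μ F) ∧
      (∀ Ψ : G → ℂ, Bd Ψ → ν.c (fun n => Ψ (p n)) =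
        p.range.index * μ.c (fun s => (if s ∈ p.range then 1 else 0) * Ψ s)) := by
  have hfin : Finite (G ⧸ p.range) := AddSubgroup.index_ne_zero_iff_finite.1 hp
  have : Fintype (G ⧸ p.range) := Fintype.ofFinite _
  let μ : Mean G := Mean.avg (Finset.univ : Finset (G ⧸ p.range)) ⟨0, Finset.mem_univ _⟩
    (fun q => ν.map (fun n => p n + q.out))
  have hcard : ((Finset.univ : Finset (G ⧸ p.range)).card : ℝ) = p.range.index := by
    rw [Finset.card_univ, AddSubgroup.index_eq_card, Nat.card_eq_fintype_card]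
  have hcardC : ((Finset.univ : Finset (G ⧸ p.range)).card : ℂ) = p.range.index := by
    rw [Finset.card_univ, AddSubgroup.index_eq_card, Nat.card_eq_fintype_card]
  have hμ : ∀ F : G → ℝ, μ F = (p.range.index : ℝ)⁻¹ *
      ∑ q : G ⧸ p.range, ν (fun n => F (p n + q.out)) := by
    intro F
    rw [← hcard]
    exact Mean.avg_apply _ _ _ _
  have hμc : ∀ F : G → ℂ, μ.c F = (p.range.index : ℂ)⁻¹ *
      ∑ q : G ⧸ p.range, ν.c (fun n => F (p n + q.out)) := by
    intro F
    rw [← hcardC]
    exact Mean.avg_c _ _ _ _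
  have hI : (0 : ℝ) < p.range.index := by exact_mod_cast Nat.pos_of_ne_zero hp
  have hIC : (p.range.index : ℂ) ≠ 0 := by exact_mod_cast hp
  -- the coset of zero
  obtain ⟨n0, hn0⟩ : ∃ n0, p n0 = (0 : G ⧸ p.range).out := by
    have h1 : ((0 : G ⧸ p.range).out : G ⧸ p.range) = 0 := QuotientAddGroup.out_eq' _
    exact (QuotientAddGroup.eq_zero_iff _).1 h1
  refine ⟨μ, fun k F hF => ?_, fun F hF hF0 => ?_, fun Ψ hΨ => ?_⟩
  · rw [hμ, hμ]
    congr 1
    have h1 : ∀ q : G ⧸ p.range, ν (fun n => F (p n + q.out + k)) =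
        ν (fun n => F (p n + (q + (k : G ⧸ p.range)).out)) := by
      intro q
      have h2 : ((q.out + k : G) : G ⧸ p.range) =
          (((q + (k : G ⧸ p.range)).out : G) : G ⧸ p.range) := by
        rw [QuotientAddGroup.mk_add, QuotientAddGroup.out_eq', QuotientAddGroup.out_eq']
      have h3 := QuotientAddGroup.eq.1 h2
      obtain ⟨n1, hn1⟩ := h3
      have h4 := hν n1 (fun n => F (p n + (q.out + k))) (hF.comp (fun n => p n + (q.out + k)))
      have e1 : (fun n => F (p n + q.out + k)) = (fun n => F (p n + (q.out + k))) := by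
        funext n
        rw [add_assoc]
      rw [e1, ← h4]
      congr 1
      funext n
      rw [map_add, hn1]
      congr 1
      abel
    simp_rw [h1]
    exact Equiv.sum_comp (Equiv.addRight (k : G ⧸ p.range))
      (fun q : G ⧸ p.range => ν (fun n => F (p n + q.out)))
  · rw [hμ, ← mul_assoc, mul_inv_cancel₀ hI.ne', one_mul]
    have h1 : ν (fun n => F (p n)) = ν (fun n => F (p n + (0 : G ⧸ p.range).out)) := by
      have h4 := hν n0 (fun n => F (p n)) (hF.comp _)
      rw [← h4]
      congr 1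
      funext n
      rw [map_add, hn0]
    rw [h1]
    exact Finset.single_le_sum (f := fun q : G ⧸ p.range => ν (fun n => F (p n + q.out)))
      (fun q _ => ν.nonneg _ (hF.comp _) fun n => hF0 _) (Finset.mem_univ 0)
  · rw [hμc, ← mul_assoc, mul_inv_cancel₀ hIC, one_mul]
    rw [Finset.sum_eq_single (0 : G ⧸ p.range)]
    · have h4 := Mean.c_inv hν (hΨ.comp (fun n => p n)) n0
      rw [← h4]
      congr 1
      funext n
      have h5 : p n + (0 : G ⧸ p.range).out ∈ p.range := by
        rw [← hn0]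
        exact ⟨n + n0, map_add _ _ _⟩
      rw [if_pos h5, one_mul, map_add, hn0]
    · intro q _ hq
      have h5 : ∀ n, ¬ (p n + q.out ∈ p.range) := by
        intro n hn
        apply hq
        have h6 : ((p n + q.out : G) : G ⧸ p.range) = 0 := (QuotientAddGroup.eq_zero_iff _).2 hn
        have h8 : p n ∈ p.range := ⟨n, rfl⟩
        rw [QuotientAddGroup.mk_add, QuotientAddGroup.out_eq',
          (QuotientAddGroup.eq_zero_iff (p n)).2 h8, zero_add] at h6
        exact h6
      have h7 : (fun n => (if p n + q.out ∈ p.range then (1 : ℂ) else 0) * Ψ (p n + q.out)) =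
          fun _ => 0 := by
        funext n
        rw [if_neg (h5 n), zero_mul]
      rw [h7, ν.c_const]
    · intro h
      exact absurd (Finset.mem_univ _) h

/-- averages of correlations along a finite index image -/
theorem corr_push {m : Mean G} (he : m.Erg) (p : N →+ G)
    (hp : p.range.index ≠ 0) [Finite (G ⧸ p.range)] {ν : Mean N} (hν : ν.Inv) {f g : G → ℂ}
    (hf : Bd f) (hg : Bd g) :
    ν.c (fun n => m.c (fun x => g x * f (x + p n))) =
      ∑ ψ : AddChar (G ⧸ p.range) ℂ, m.c (fun x => g x * conj (annF p.range ψ x : ℂ)) *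
        m.c (fun x => f x * (annF p.range ψ x : ℂ)) := by
  classical
  obtain ⟨μ, hμ, -, h2⟩ := exists_push p hp ν hν
  have hb : Bd (fun h => m.c (fun x => g x * f (x + h))) := hf.inner_c hg
  have h3 := h2 _ hb
  rw [h3]
  have h4 : (p.range.index : ℂ) *
      μ.c (fun s => (if s ∈ p.range then 1 else 0) * m.c (fun x => g x * f (x + s))) =
      μ.c (fun s => ∑ ψ : AddChar (G ⧸ p.range) ℂ, (annF p.range ψ s : ℂ) *
        m.c (fun x => g x * f (x + s))) := by
    rw [← μ.c_smul]
    congr 1
    funext s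
    rw [← Finset.sum_mul, sum_annF]
    split_ifs <;> ring
  rw [h4, μ.c_sum]
  refine Finset.sum_congr rfl fun ψ _ => ?_
  exact he.char hμ hf hg _

end FinIndex

section Prod
variable {N G : Type*}

/-- iterated mean -/
def Mean.prod (ν : Mean N) (m : Mean G) : Mean (N × G) where
  I :=
    { toFun := fun F => ν (fun n => m (fun x => F (n, x)))
      map_add' := fun F F' => by
        rw [← ν.add']
        congr 1
        funext n
        exact m.add' _ _
      map_smul' := fun a F => by
        rw [RingHom.id_apply, smul_eq_mul, ← ν.smul']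
        congr 1
        funext n
        exact m.smul' _ _ }
  nonneg F hF h := by
    obtain ⟨C, hC⟩ := hF
    refine ν.nonneg _ ⟨C, fun n => m.abs_le fun x => hC _⟩ fun n => ?_
    exact m.nonneg _ ⟨C, fun x => hC _⟩ fun x => h _
  one := by
    change ν (fun n => m (fun x => 1)) = 1
    rw [m.const', ν.const']

theorem Mean.prod_c (ν : Mean N) (m : Mean G) (F : N × G → ℂ) :
    (ν.prod m).c F = ν.c (fun n => m.c (fun x => F (n, x))) := rfl

theorem Mean.prod_apply (ν : Mean N) (m : Mean G) (F : N × G → ℝ) :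
    (ν.prod m) F = ν (fun n => m (fun x => F (n, x))) := rfl

/-- translation in the first coordinate -/
def prodAct [AddCommGroup N] {ν : Mean N} (hν : ν.Inv) (m : Mean G) : Act (ν.prod m) N where
  σ h z := (z.1 + h, z.2)
  zero' z := by
    change (z.1 + 0, z.2) = z
    rw [add_zero]
  add' g h z := by
    change (z.1 + (g + h), z.2) = (z.1 + h + g, z.2)
    congr 1
    abel
  pres g f hf := by
    rw [Mean.prod_apply, Mean.prod_apply]
    obtain ⟨C, hC⟩ := hf
    exact hν g (fun n => m (fun x => f (n, x))) ⟨C, fun n => m.abs_le fun x => hC _⟩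

end Prod

section Trilinear
variable {N G : Type*} [AddCommGroup N] [AddCommGroup G]

/-- the trilinear estimate -/
theorem trilinear {m : Mean G} (hm : m.Inv) (he : m.Erg) {ν : Mean N} (hν : ν.Inv)
    (p q : N →+ G) (hp : p.range.index ≠ 0) (hqp : (q - p).range.index ≠ 0)
    {f g b : G → ℂ} (hf : Bd f) (hf1 : m (fun x => ‖f x‖ ^ 2) ≤ 1)
    (hg : ∀ x, ‖g x‖ ≤ 1) (hb : ∀ x, ‖b x‖ ≤ 1) {κ : ℝ} (hκ0 : 0 ≤ κ)
    (hκ : ∀ χ : AddChar G Circle, ‖m.coef f χ‖ ^ 2 ≤ κ) :
    ‖ν.c (fun n => m.c (fun x => f (x + p n) * g (x + q n) * b x))‖ ^ 2 ≤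
      (q - p).range.index * Real.sqrt (p.range.index * κ) := by
  classical
  have hfin : Finite (G ⧸ (q - p).range) := AddSubgroup.index_ne_zero_iff_finite.1 hqp
  have hgB : Bd g := ⟨1, hg⟩
  have hbB : Bd b := ⟨1, hb⟩
  let F : N × G → ℂ := fun z => f (z.2 + p z.1) * g (z.2 + q z.1)
  let b' : N × G → ℂ := fun z => b z.2
  have hF : Bd F := (hf.comp (fun z : N × G => z.2 + p z.1)).mul
    (hgB.comp (fun z : N × G => z.2 + q z.1))
  have hb' : Bd b' := hbB.comp _
  have h1 := vdc (prodAct hν m) ν hν hF hb' (fun _ _ => rfl)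
  have e1 : (ν.prod m).c (fun z => F z * b' z) =
      ν.c (fun n => m.c (fun x => f (x + p n) * g (x + q n) * b x)) := rfl
  rw [e1] at h1
  have hb1 : (ν.prod m) (fun z => ‖b' z‖ ^ 2) ≤ 1 := by
    refine Mean.le_of_le _ (hb'.norm.pow 2) fun z => ?_
    exact pow_le_one₀ (norm_nonneg _) (hb _)
  refine h1.trans ((mul_le_of_le_one_left (norm_nonneg _) hb1).trans ?_)
  -- the inner correlation
  have hΔ : ∀ {u : G → ℂ}, Bd u → ∀ s, Bd (fun x => u (x + s) * conj (u x)) :=
    fun hu s => (hu.comp _).mul hu.conj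
  have e2 : ∀ h : N, (ν.prod m).c (fun z => F ((prodAct hν m).σ h z) * conj (F z)) =
      ∑ ψ : AddChar (G ⧸ (q - p).range) ℂ,
        m.c (fun x => (f (x + p h) * conj (f x)) * conj (annF (q - p).range ψ x : ℂ)) *
        m.c (fun x => (g (x + q h) * conj (g x)) * (annF (q - p).range ψ x : ℂ)) := by
    intro h
    rw [← corr_push he (q - p) hqp hν (hΔ hgB (q h)) (hΔ hf (p h)), Mean.prod_c]
    congr 1
    funext n
    have hbd : Bd (fun x => (f (x + p h) * conj (f x)) *
        (g (x + (q - p) n + q h) * conj (g (x + (q - p) n)))) :=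
      (hΔ hf (p h)).mul ((hΔ hgB (q h)).comp (fun x => x + (q - p) n))
    rw [← Mean.c_inv hm hbd (p n)]
    congr 1
    funext x
    change f (x + p (n + h)) * g (x + q (n + h)) * conj (f (x + p n) * g (x + q n)) = _
    have a1 : x + p (n + h) = x + p n + p h := by rw [map_add]; abel
    have a2 : x + q (n + h) = x + p n + (q - p) n + q h := by
      rw [map_add, AddMonoidHom.sub_apply]; abel
    have a3 : x + q n = x + p n + (q - p) n := by
      rw [AddMonoidHom.sub_apply]; abel
    rw [a1, a2, a3, map_mul]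
    ring
  simp_rw [e2]
  -- bound the average
  have hB1 : ∀ ψ : AddChar (G ⧸ (q - p).range) ℂ, Bd (fun h : N =>
      m.c (fun x => (f (x + p h) * conj (f x)) * conj (annF (q - p).range ψ x : ℂ))) := by
    intro ψ
    have h2 : Bd (fun s => m.c (fun x => (conj (f x) * conj (annF (q - p).range ψ x : ℂ)) *
        f (x + s))) := hf.inner_c (hf.conj.mul (Bd.char _).conj)
    have h3 := h2.comp (fun h : N => p h)
    refine h3.of_le fun h => le_of_eq ?_
    congr 2
    funext x
    ring
  have hB2 : ∀ ψ : AddChar (G ⧸ (q - p).range) ℂ, ∀ h : N,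
      ‖m.c (fun x => (g (x + q h) * conj (g x)) * (annF (q - p).range ψ x : ℂ))‖ ≤ 1 := by
    intro ψ h
    refine m.norm_c_le_of_le fun x => ?_
    rw [norm_mul, norm_mul, RCLike.norm_conj, Circle.norm_coe, mul_one]
    exact mul_le_one₀ (hg _) (norm_nonneg _) (hg _)
  have hterm : ∀ ψ : AddChar (G ⧸ (q - p).range) ℂ,
      ν (fun h => ‖m.c (fun x => (f (x + p h) * conj (f x)) *
        conj (annF (q - p).range ψ x : ℂ))‖) ≤ Real.sqrt (p.range.index * κ) := by
    intro ψ
    refine Real.le_sqrt_of_sq_le ?_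
    refine (ν.sq_le (hB1 ψ).norm).trans ?_
    obtain ⟨μ, hμ, h2, -⟩ := exists_push p hp ν hν
    have hgb : Bd (fun x => f x * (annF (q - p).range ψ x : ℂ)) := hf.mul (Bd.char _)
    have h3 := u2_bound hm he hμ hf hgb hκ0 hκ
    have h4 : Bd (fun s => ‖m.c (fun x => f (x + s) *
        conj (f x * (annF (q - p).range ψ x : ℂ)))‖ ^ 2) := by
      have h5 : Bd (fun s => m.c (fun x => (conj (f x * (annF (q - p).range ψ x : ℂ))) *
        f (x + s))) := hf.inner_c hgb.conj
      refine (h5.norm.pow 2).of_le fun s => le_of_eq ?_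
      congr 4
      funext x
      ring
    have h6 := h2 _ h4 (fun s => sq_nonneg _)
    have e3 : (fun n : N => ‖m.c (fun x => f (x + p n) *
        conj (f x * (annF (q - p).range ψ x : ℂ)))‖ ^ 2) =
        (fun h => ‖m.c (fun x => (f (x + p h) * conj (f x)) *
          conj (annF (q - p).range ψ x : ℂ))‖ ^ 2) := by
      funext n
      congr 3
      funext x
      rw [map_mul]
      ring
    rw [e3] at h6
    refine h6.trans ?_
    refine mul_le_mul_of_nonneg_left ?_ (Nat.cast_nonneg _)
    refine h3.trans ?_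
    have e4 : (fun x => ‖f x * (annF (q - p).range ψ x : ℂ)‖ ^ 2) = (fun x => ‖f x‖ ^ 2) := by
      funext x
      rw [norm_mul, Circle.norm_coe, mul_one]
    rw [e4]
    exact mul_le_of_le_one_right hκ0 hf1
  have hB3 : ∀ ψ : AddChar (G ⧸ (q - p).range) ℂ, Bd (fun h : N =>
      m.c (fun x => (f (x + p h) * conj (f x)) * conj (annF (q - p).range ψ x : ℂ)) *
        m.c (fun x => (g (x + q h) * conj (g x)) * (annF (q - p).range ψ x : ℂ))) :=
    fun ψ => (hB1 ψ).mul ⟨1, hB2 ψ⟩
  calc ‖ν.c (fun h => ∑ ψ : AddChar (G ⧸ (q - p).range) ℂ,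
        m.c (fun x => (f (x + p h) * conj (f x)) * conj (annF (q - p).range ψ x : ℂ)) *
        m.c (fun x => (g (x + q h) * conj (g x)) * (annF (q - p).range ψ x : ℂ)))‖
      ≤ ∑ ψ : AddChar (G ⧸ (q - p).range) ℂ, ‖ν.c (fun h =>
        m.c (fun x => (f (x + p h) * conj (f x)) * conj (annF (q - p).range ψ x : ℂ)) *
        m.c (fun x => (g (x + q h) * conj (g x)) * (annF (q - p).range ψ x : ℂ)))‖ := by
        rw [ν.c_sum]
        exact norm_sum_le _ _
    _ ≤ ∑ ψ : AddChar (G ⧸ (q - p).range) ℂ, Real.sqrt (p.range.index * κ) := by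
        refine Finset.sum_le_sum fun ψ _ => ?_
        refine (ν.norm_c_le (hB3 ψ)).trans ((ν.mono (hB3 ψ).norm (hB1 ψ).norm fun h => ?_).trans
          (hterm ψ))
        rw [norm_mul]
        exact mul_le_of_le_one_right (norm_nonneg _) (hB2 ψ h)
    _ = (q - p).range.index * Real.sqrt (p.range.index * κ) := by
        rw [Finset.sum_const, Finset.card_univ, card_annF, nsmul_eq_mul]

end Trilinear

end Pool.Agent.Helper91.Bohr
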