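import Mathlib
import Pool.Agent.Helper91.BohrE

/-!
Ramsey theorem, greedy selection, thresholds, and colour positivity (towards Q2).
-/

namespace Pool.Agent.Helper91.Bohr

open Filter Topology ComplexConjugate

section Ramsey

theorem prehom {r : ℕ} (c : ℕ → ℕ → Fin r) (k : ℕ) :
    ∀ S : Finset ℕ, (r + 1) ^ k ≤ S.card → ∃ (s : ℕ → ℕ) (d : ℕ → Fin r),
      (∀ a, a < k → s a ∈ S) ∧ ∀ a b, a < b → b < k → s a < s b ∧ c (s a) (s b) = d a := by
  classical
  induction k with
  | zero =>
    intro S _
    exact ⟨fun _ => 0, fun _ => c 0 0, fun a ha => absurd ha (Nat.not_lt_zero _),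
      fun a b _ hb => absurd hb (Nat.not_lt_zero _)⟩
  | succ k ih =>
    intro S hS
    have hne : S.Nonempty := by
      rw [← Finset.card_pos]
      exact lt_of_lt_of_le (pow_pos (Nat.succ_pos r) _) hS
    set a0 := S.min' hne with ha0
    have ha0S : a0 ∈ S := S.min'_mem hne
    let S' := S.erase a0
    have hS'c : S'.card = S.card - 1 := Finset.card_erase_of_mem ha0S
    have hS' : (Finset.univ : Finset (Fin r)).card * (r + 1) ^ k ≤ S'.card := by
      rw [Finset.card_univ, Fintype.card_fin, hS'c]
      have h1 : (r + 1) ^ (k + 1) = r * (r + 1) ^ k + (r + 1) ^ k := by ring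
      have h2 : 0 < (r + 1) ^ k := pow_pos (Nat.succ_pos r) _
      omega
    have hnr : (Finset.univ : Finset (Fin r)).Nonempty := ⟨c 0 0, Finset.mem_univ _⟩
    obtain ⟨i, -, hi⟩ := Finset.exists_le_card_fiber_of_mul_le_card_of_maps_to
      (f := fun b => c a0 b) (fun b _ => Finset.mem_univ _) hnr hS'
    obtain ⟨s, d, h1, h2⟩ := ih _ hi
    refine ⟨fun a => Nat.casesOn a a0 s, fun a => Nat.casesOn a i d, ?_, ?_⟩
    · intro a ha
      cases a with
      | zero => exact ha0S
      | succ a =>
        have := h1 a (Nat.lt_of_succ_lt_succ ha)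
        exact Finset.mem_of_mem_erase (Finset.mem_filter.1 this).1
    · intro a b hab hb
      cases b with
      | zero => exact absurd hab (Nat.not_lt_zero _)
      | succ b =>
        have hb' : b < k := Nat.lt_of_succ_lt_succ hb
        cases a with
        | zero =>
          have h3 := Finset.mem_filter.1 (h1 b hb')
          have h4 : s b ∈ S := Finset.mem_of_mem_erase h3.1
          have h5 : s b ≠ a0 := Finset.ne_of_mem_erase h3.1
          have h6 : a0 ≤ s b := S.min'_le _ h4
          exact ⟨lt_of_le_of_ne h6 (Ne.symm h5), h3.2⟩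
        | succ a => exact h2 a b (Nat.lt_of_succ_lt_succ hab) hb'

theorem ramsey (r K : ℕ) : ∃ n : ℕ, 0 < n ∧ ∀ c : ℕ → ℕ → Fin r,
    ∃ (i : Fin r) (s : Fin K → ℕ), StrictMono s ∧ (∀ a, s a < n) ∧
      ∀ a b, a < b → c (s a) (s b) = i := by
  classical
  refine ⟨(r + 1) ^ (r * K), pow_pos (Nat.succ_pos r) _, fun c => ?_⟩
  obtain ⟨s, d, h1, h2⟩ := prehom c (r * K) (Finset.range ((r + 1) ^ (r * K)))
    (by rw [Finset.card_range])
  have hnr : (Finset.univ : Finset (Fin r)).Nonempty := ⟨c 0 0, Finset.mem_univ _⟩
  obtain ⟨i, -, hi⟩ := Finset.exists_le_card_fiber_of_mul_le_card_of_maps_to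
    (s := Finset.range (r * K)) (t := Finset.univ) (f := d) (n := K)
    (fun b _ => Finset.mem_univ _) hnr (by simp)
  obtain ⟨T, hT, hTc⟩ := Finset.exists_subset_card_eq hi
  let e := T.orderEmbOfFin hTc
  have heT : ∀ a, e a ∈ T := fun a => Finset.orderEmbOfFin_mem T hTc a
  have hlt : ∀ a, e a < r * K := fun a =>
    Finset.mem_range.1 (Finset.mem_filter.1 (hT (heT a))).1
  have hd : ∀ a, d (e a) = i := fun a => (Finset.mem_filter.1 (hT (heT a))).2
  refine ⟨i, fun a => s (e a), ?_, ?_, ?_⟩
  · intro a b hab
    exact (h2 _ _ (e.strictMono hab) (hlt b)).1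
  · intro a
    exact Finset.mem_range.1 (h1 _ (hlt a))
  · intro a b hab
    rw [(h2 _ _ (e.strictMono hab) (hlt b)).2]
    exact hd a

/-- greedy selection of a sequence all of whose differences avoid a set of small mean -/
theorem greedy {N : Type*} [AddCommGroup N] {ν : Mean N} (hν : ν.Inv) (h : N → ℝ)
    (hh : ∀ x, h x = 0 ∨ h x = 1) (n : ℕ) (hn : n * ν h < 1) :
    ∃ z : ℕ → N, ∀ a b, a < b → b < n → h (z b - z a) = 0 := by
  classical
  have hB : Bd h := ⟨1, fun x => by rcases hh x with h1 | h1 <;> simp [h1]⟩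
  have h0 : ∀ x, 0 ≤ h x := fun x => by rcases hh x with h1 | h1 <;> simp [h1]
  have hν0 : 0 ≤ ν h := ν.nonneg _ hB h0
  have key : ∀ k, k ≤ n → ∃ z : ℕ → N, ∀ a b, a < b → b < k → h (z b - z a) = 0 := by
    intro k
    induction k with
    | zero => exact fun _ => ⟨fun _ => 0, fun a b _ hb => absurd hb (Nat.not_lt_zero _)⟩
    | succ k ih =>
      intro hk
      obtain ⟨z, hz⟩ := ih (by omega)
      have h1 : ν (fun w => ∑ a ∈ Finset.range k, h (w - z a)) = k * ν h := by
        rw [ν.sum']
        have : ∀ a ∈ Finset.range k, ν (fun w => h (w - z a)) = ν h := by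
          intro a _
          have := hν (- z a) h hB
          simpa [sub_eq_add_neg] using this
        rw [Finset.sum_congr rfl this, Finset.sum_const, Finset.card_range, nsmul_eq_mul]
      have h2 : ν (fun w => ∑ a ∈ Finset.range k, h (w - z a)) < 1 := by
        rw [h1]
        refine lt_of_le_of_lt ?_ hn
        exact mul_le_mul_of_nonneg_right (by exact_mod_cast (by omega : k ≤ n)) hν0
      obtain ⟨w, hw⟩ : ∃ w, ∑ a ∈ Finset.range k, h (w - z a) < 1 := by
        by_contra hcon
        push Not at hcon
        have h3 := ν.ge_of_ge (Bd.sum (Finset.range k) (F := fun a w => h (w - z a))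
          fun a _ => hB.comp _) hcon
        linarith
      have hw0 : ∀ a, a < k → h (w - z a) = 0 := by
        intro a ha
        rcases hh (w - z a) with h3 | h3
        · exact h3
        · exfalso
          have := Finset.single_le_sum (f := fun a => h (w - z a)) (fun a _ => h0 _)
            (Finset.mem_range.2 ha)
          linarith
      refine ⟨Function.update z k w, fun a b hab hb => ?_⟩
      have ha : a ≠ k := by omega
      rw [Function.update_of_ne ha]
      by_cases hbk : b = k
      · subst hbk
        rw [Function.update_self]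
        exact hw0 a hab
      · rw [Function.update_of_ne hbk]
        exact hz a b hab (by omega)
  exact key n le_rfl

/-- threshold selection -/
theorem threshold (r : ℕ) (F : ℝ → ℝ) (hF : ∀ β, 0 < β → 0 < F β ∧ F β ≤ β) :
    ∃ β : ℕ → ℝ, (∀ l, 0 < β l) ∧ ∀ d : Fin r → ℝ, ∃ l ≤ r, ∀ i, β l ≤ d i ∨ d i < F (β l) := by
  classical
  let β : ℕ → ℝ := fun l => F^[l] 1
  have hsucc : ∀ l, β (l + 1) = F (β l) := fun l => Function.iterate_succ_apply' F l 1
  have hpos : ∀ l, 0 < β l := by
    intro l
    induction l with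
    | zero => exact one_pos
    | succ l ih => rw [hsucc]; exact (hF _ ih).1
  have hanti : Antitone β := antitone_nat_of_succ_le fun l => by
    rw [hsucc]; exact (hF _ (hpos l)).2
  refine ⟨β, hpos, fun d => ?_⟩
  by_contra hcon
  push Not at hcon
  have : Nonempty (Fin r) := ⟨(hcon 0 (Nat.zero_le _)).choose⟩
  choose! i hi using hcon
  obtain ⟨l, hl, l', hl', hne, heq⟩ := Finset.exists_ne_map_eq_of_card_lt_of_maps_to
    (s := Finset.range (r + 1)) (t := (Finset.univ : Finset (Fin r))) (f := i)
    (by simp) (fun a _ => Finset.mem_univ _)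
  have hl1 := Finset.mem_range_succ_iff.1 hl
  have hl1' := Finset.mem_range_succ_iff.1 hl'
  have main : ∀ a b, a < b → a ≤ r → b ≤ r → i a = i b → False := by
    intro a b hab ha hb hab'
    have h1 := (hi a ha).2
    have h2 := (hi b hb).1
    rw [hab', ← hsucc] at h1
    have h3 := hanti (show a + 1 ≤ b from hab)
    linarith
  rcases lt_or_gt_of_ne hne with h | h
  · exact main l l' h hl1 hl1' heq
  · exact main l' l h hl1' hl1 heq.symm

end Ramsey

section Delta
variable {G : Type*} [AddCommGroup G]

/-- the autocorrelation -/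
noncomputable def rho (m : Mean G) (f : G → ℝ) (t : G) : ℝ := m (fun x => f (x + t) * f x)

theorem rho_neg {m : Mean G} (hm : m.Inv) {f : G → ℝ} (hf : Bd f) (t : G) :
    rho m f (-t) = rho m f t := by
  unfold rho
  have h1 := hm t (fun x => f (x + -t) * f x) ((hf.comp _).mul hf)
  rw [← h1]
  congr 1
  funext x
  rw [add_neg_cancel_right, mul_comm]

theorem rho_bd {m : Mean G} {f : G → ℝ} (hf : Bd f) : Bd (rho m f) := by
  obtain ⟨C, hC0, hC⟩ := hf.exists_nonneg
  refine ⟨C * C, fun t => m.abs_le fun x => ?_⟩
  rw [abs_mul]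
  exact mul_le_mul (hC _) (hC _) (abs_nonneg _) hC0

theorem rho_nonneg {m : Mean G} {f : G → ℝ} (hf : Bd f) (h0 : ∀ x, 0 ≤ f x) (t : G) :
    0 ≤ rho m f t :=
  m.nonneg _ ((hf.comp _).mul hf) fun x => mul_nonneg (h0 _) (h0 _)

/-- among many elements some difference has large correlation -/
theorem delta_property {m : Mean G} (hm : m.Inv) {f : G → ℝ} (h0 : ∀ x, 0 ≤ f x)
    (h1 : ∀ x, f x ≤ 1) {α : ℝ} (hα : 0 < α) (hmf : α ≤ m f) (K : ℕ) (hK : 2 ≤ K * α)
    (τ : Fin K → G) : ∃ a b, a < b ∧ α ^ 2 / 2 ≤ rho m f (τ b - τ a) := by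
  classical
  have hf : Bd f := ⟨1, fun _ => by rw [Real.norm_eq_abs, abs_of_nonneg (h0 _)]; exact h1 _⟩
  by_contra hcon
  push Not at hcon
  have hterm : ∀ a b, m (fun x => f (x + τ a) * f (x + τ b)) = rho m f (τ a - τ b) := by
    intro a b
    unfold rho
    have h2 := hm (τ b) (fun x => f (x + (τ a - τ b)) * f x) ((hf.comp _).mul hf)
    rw [← h2]
    congr 1
    funext x
    congr 2
    abel
  have hlt : ∀ a b, a ≠ b → m (fun x => f (x + τ a) * f (x + τ b)) < α ^ 2 / 2 := by
    intro a b hab
    rw [hterm]
    rcases lt_or_gt_of_ne hab with h | h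
    · rw [← rho_neg hm hf, neg_sub]
      exact hcon a b h
    · exact hcon b a h
  have hKpos : 0 < K := by
    rcases Nat.eq_zero_or_pos K with h | h
    · rw [h] at hK
      simp at hK
      linarith
    · exact h
  have hS : m (fun x => (∑ a, f (x + τ a)) ^ 2) =
      ∑ a, ∑ b, m (fun x => f (x + τ a) * f (x + τ b)) := by
    have e1 : (fun x => (∑ a, f (x + τ a)) ^ 2) =
        (fun x => ∑ a, ∑ b, f (x + τ a) * f (x + τ b)) := by
      funext x
      rw [sq, Finset.sum_mul_sum]
    rw [e1, m.sum']
    refine Finset.sum_congr rfl fun a _ => ?_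
    rw [m.sum']
  have hlow : (K * α) ^ 2 ≤ m (fun x => (∑ a, f (x + τ a)) ^ 2) := by
    refine le_trans ?_ (m.sq_le (Bd.sum Finset.univ (F := fun a x => f (x + τ a))
      fun a _ => hf.comp _))
    rw [m.sum']
    have e2 : ∀ a ∈ (Finset.univ : Finset (Fin K)), m (fun x => f (x + τ a)) = m f :=
      fun a _ => hm (τ a) f hf
    rw [Finset.sum_congr rfl e2, Finset.sum_const, Finset.card_univ, Fintype.card_fin,
      nsmul_eq_mul]
    refine pow_le_pow_left₀ (by positivity) ?_ 2
    exact mul_le_mul_of_nonneg_left hmf (Nat.cast_nonneg _)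
  have hdiag : ∀ a, m (fun x => f (x + τ a) * f (x + τ a)) ≤ m f := by
    intro a
    have : m (fun x => f (x + τ a) * f (x + τ a)) = m (fun x => f x * f x) :=
      hm (τ a) (fun x => f x * f x) (hf.mul hf)
    rw [this]
    exact m.mono (hf.mul hf) hf fun x => mul_le_of_le_one_right (h0 x) (h1 x)
  have hmf1 : m f ≤ 1 := m.le_of_le hf h1
  -- we need a sharper bound: compare with `m f` instead of `α`
  set β := m f with hβ
  have hlow' : (K * β) ^ 2 ≤ m (fun x => (∑ a, f (x + τ a)) ^ 2) := by
    refine le_trans (le_of_eq ?_) (m.sq_le (Bd.sum Finset.univ (F := fun a x => f (x + τ a))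
      fun a _ => hf.comp _))
    rw [m.sum']
    have e2 : ∀ a ∈ (Finset.univ : Finset (Fin K)), m (fun x => f (x + τ a)) = m f :=
      fun a _ => hm (τ a) f hf
    rw [Finset.sum_congr rfl e2, Finset.sum_const, Finset.card_univ, Fintype.card_fin,
      nsmul_eq_mul]
  have hup : m (fun x => (∑ a, f (x + τ a)) ^ 2) ≤ K * β + (K * K) * (β ^ 2 / 2) := by
    rw [hS]
    have h5 : ∀ a b : Fin K, m (fun x => f (x + τ a) * f (x + τ b)) ≤
        (if a = b then β else 0) + β ^ 2 / 2 := by
      intro a b
      split_ifs with h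
      · subst h
        have := hdiag a
        nlinarith [sq_nonneg β]
      · have := hlt a b h
        have h6 : α ^ 2 ≤ β ^ 2 := pow_le_pow_left₀ hα.le hmf 2
        linarith
    calc ∑ a, ∑ b, m (fun x => f (x + τ a) * f (x + τ b))
        ≤ ∑ a : Fin K, ∑ b : Fin K, ((if a = b then β else 0) + β ^ 2 / 2) :=
          Finset.sum_le_sum fun a _ => Finset.sum_le_sum fun b _ => h5 a b
      _ = K * β + (K * K) * (β ^ 2 / 2) := by
          simp only [Finset.sum_add_distrib, Finset.sum_ite_eq, Finset.mem_univ, if_true,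
            Finset.sum_const, Finset.card_univ, Fintype.card_fin, nsmul_eq_mul]
          ring
  -- strictness: some off-diagonal term or K = 1
  have hKβ : 2 ≤ K * β := hK.trans (mul_le_mul_of_nonneg_left hmf (Nat.cast_nonneg _))
  have hstrict : m (fun x => (∑ a, f (x + τ a)) ^ 2) < K * β + (K * K) * (β ^ 2 / 2) := by
    rw [hS]
    have h5 : ∀ a b : Fin K, m (fun x => f (x + τ a) * f (x + τ b)) <
        (if a = b then β else 0) + β ^ 2 / 2 := by
      intro a b
      have hβ0 : 0 < β := lt_of_lt_of_le hα hmf
      split_ifs with h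
      · subst h
        have := hdiag a
        have : 0 < β ^ 2 := by positivity
        linarith
      · have := hlt a b h
        have h6 : α ^ 2 ≤ β ^ 2 := pow_le_pow_left₀ hα.le hmf 2
        linarith
    have hne : (Finset.univ : Finset (Fin K)).Nonempty := ⟨⟨0, hKpos⟩, Finset.mem_univ _⟩
    calc ∑ a, ∑ b, m (fun x => f (x + τ a) * f (x + τ b))
        < ∑ a : Fin K, ∑ b : Fin K, ((if a = b then β else 0) + β ^ 2 / 2) :=
          Finset.sum_lt_sum_of_nonempty hne fun a _ =>
            Finset.sum_lt_sum_of_nonempty hne fun b _ => h5 a b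
      _ = K * β + (K * K) * (β ^ 2 / 2) := by
          simp only [Finset.sum_add_distrib, Finset.sum_ite_eq, Finset.mem_univ, if_true,
            Finset.sum_const, Finset.card_univ, Fintype.card_fin, nsmul_eq_mul]
          ring
  nlinarith

end Delta

section Compat
variable {N G : Type*} [AddCommGroup N] [AddCommGroup G]

open Classical in
theorem mean_subgroup {m : Mean G} (hm : m.Inv) (L : AddSubgroup G) (hL : L.index ≠ 0) :
    m (fun x => if x ∈ L then 1 else 0) = (L.index : ℝ)⁻¹ := by
  have hfin : Finite (G ⧸ L) := AddSubgroup.index_ne_zero_iff_finite.1 hL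
  have : Fintype (G ⧸ L) := Fintype.ofFinite _
  have hB : Bd (fun x => if x ∈ L then (1 : ℝ) else 0) :=
    ⟨1, fun x => by dsimp only; split_ifs <;> simp⟩
  have h1 : m (fun x => ∑ q : G ⧸ L, if x + q.out ∈ L then (1 : ℝ) else 0) = 1 := by
    have e1 : (fun x => ∑ q : G ⧸ L, if x + q.out ∈ L then (1 : ℝ) else 0) = fun _ => 1 := by
      funext x
      rw [Finset.sum_eq_single (-(x : G ⧸ L))]
      · rw [if_pos]
        rw [← QuotientAddGroup.eq_zero_iff, QuotientAddGroup.mk_add, QuotientAddGroup.out_eq',
          add_neg_cancel]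
      · intro q _ hq
        rw [if_neg]
        intro h
        apply hq
        have h2 := (QuotientAddGroup.eq_zero_iff _).2 h
        rw [QuotientAddGroup.mk_add, QuotientAddGroup.out_eq'] at h2
        exact (neg_eq_of_add_eq_zero_right h2).symm
      · intro h
        exact absurd (Finset.mem_univ _) h
    rw [e1, m.const']
  rw [m.sum'] at h1
  have h2 : ∀ q ∈ (Finset.univ : Finset (G ⧸ L)),
      m (fun x => if x + q.out ∈ L then (1 : ℝ) else 0) =
      m (fun x => if x ∈ L then 1 else 0) := fun q _ => hm q.out _ hB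
  rw [Finset.sum_congr rfl h2, Finset.sum_const, Finset.card_univ, nsmul_eq_mul] at h1
  have h3 : (Fintype.card (G ⧸ L) : ℝ) = L.index := by
    rw [AddSubgroup.index_eq_card, Nat.card_eq_fintype_card]
  rw [h3] at h1
  exact eq_inv_of_mul_eq_one_right h1

open Classical in
/-- an invariant mean whose push forward is dominated by a given one -/
theorem exists_pull (p : N →+ G) (hp : p.range.index ≠ 0) (m : Mean G) (hm : m.Inv) :
    ∃ ν : Mean N, ν.Inv ∧
      ∀ F : G → ℝ, Bd F → (∀ x, 0 ≤ F x) → ν (fun n => F (p n)) ≤ p.range.index * m F := by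
  obtain ⟨κ, hκ⟩ := exists_inv p.ker
  have hs : ∀ y : G, ∃ n : N, y ∈ p.range → p n = y := by
    intro y
    by_cases h : y ∈ p.range
    · obtain ⟨n, hn⟩ := h
      exact ⟨n, fun _ => hn⟩
    · exact ⟨0, fun h' => absurd h' h⟩
  choose s hs using hs
  let H : (N → ℝ) → G → ℝ := fun F y => (if y ∈ p.range then 1 else 0) *
    κ (fun z : p.ker => F (s y + z))
  have hHbd : ∀ F, Bd F → Bd (H F) := by
    intro F hF
    obtain ⟨C, hC0, hC⟩ := hF.exists_nonneg
    refine ⟨C, fun y => ?_⟩
    have h1 : |κ (fun z : p.ker => F (s y + z))| ≤ C := κ.abs_le fun z => hC _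
    simp only [H]
    split_ifs
    · rw [one_mul]; exact h1
    · rw [zero_mul, norm_zero]; exact hC0
  have hI : (0 : ℝ) < p.range.index := by exact_mod_cast Nat.pos_of_ne_zero hp
  let ν : Mean N :=
    { I :=
        { toFun := fun F => p.range.index * m (H F)
          map_add' := fun F F' => by
            rw [← mul_add, ← m.add']
            congr 2
            funext y
            simp only [H]
            have : κ (fun z : p.ker => (F + F') (s y + z)) =
                κ (fun z : p.ker => F (s y + z)) + κ (fun z : p.ker => F' (s y + z)) :=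
              κ.add' _ _
            rw [this]
            ring
          map_smul' := fun a F => by
            have : H (a • F) = fun y => a * H F y := by
              funext y
              simp only [H]
              have : κ (fun z : p.ker => (a • F) (s y + z)) =
                  a * κ (fun z : p.ker => F (s y + z)) := κ.smul' _ _
              rw [this]
              ring
            rw [this, m.smul', RingHom.id_apply, smul_eq_mul]
            ring }
      nonneg := fun F hF hF0 => by
        refine mul_nonneg hI.le (m.nonneg _ (hHbd F hF) fun y => ?_)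
        simp only [H]
        refine mul_nonneg (by split_ifs <;> norm_num) (κ.nonneg _ (hF.comp _) fun z => hF0 _)
      one := by
        change p.range.index * m (H fun _ => 1) = 1
        have : H (fun _ => 1) = fun x => if x ∈ p.range then 1 else 0 := by
          funext y
          simp only [H]
          rw [κ.const', mul_one]
        rw [this, mean_subgroup hm _ hp, mul_inv_cancel₀ hI.ne'] }
  have hν : ∀ F, ν F = p.range.index * m (H F) := fun F => rfl
  refine ⟨ν, fun n0 F hF => ?_, fun F hF hF0 => ?_⟩
  · rw [hν, hν]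
    congr 1
    have h1 : H (fun n => F (n + n0)) = fun y => H F (y + p n0) := by
      funext y
      simp only [H]
      have hiff : (y + p n0 ∈ p.range) ↔ y ∈ p.range := by
        constructor
        · intro h
          have := p.range.sub_mem h ⟨n0, rfl⟩
          rwa [add_sub_cancel_right] at this
        · intro h
          exact p.range.add_mem h ⟨n0, rfl⟩
      by_cases hy : y ∈ p.range
      · rw [if_pos hy, if_pos (hiff.2 hy), one_mul, one_mul]
        have hz0 : s y + n0 - s (y + p n0) ∈ p.ker := by
          rw [AddMonoidHom.mem_ker, map_sub, map_add, hs y hy, hs (y + p n0) (hiff.2 hy), sub_self]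
        have h2 := hκ ⟨_, hz0⟩ (fun z : p.ker => F (s (y + p n0) + z)) (hF.comp _)
        rw [← h2]
        congr 1
        funext z
        congr 1
        push_cast
        abel
      · rw [if_neg hy, if_neg (fun h => hy (hiff.1 h)), zero_mul, zero_mul]
    rw [h1]
    exact hm (p n0) _ (hHbd F hF)
  · rw [hν]
    refine mul_le_mul_of_nonneg_left ?_ hI.le
    have h1 : Bd (fun n => F (p n)) := hF.comp _
    refine m.mono (hHbd _ h1) hF fun y => ?_
    simp only [H]
    by_cases hy : y ∈ p.range
    · rw [if_pos hy, one_mul]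
      have : (fun z : p.ker => F (p (s y + z))) = fun _ => F y := by
        funext z
        rw [map_add, hs y hy, AddMonoidHom.mem_ker.1 z.2, add_zero]
      rw [this, κ.const']
    · rw [if_neg hy, zero_mul]
      exact hF0 y

end Compat

end Pool.Agent.Helper91.Bohr
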