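import Mathlib
import Pool.Agent.Helper91.BohrF

/-!
Large spectrum, truncation, Bohr families, and the main theorem for partitions (Q2).
-/

namespace Pool.Agent.Helper91.Bohr

open Filter Topology ComplexConjugate

universe u

section Spec
variable {G : Type*} [AddCommGroup G]

theorem exists_spec {m : Mean G} (hm : m.Inv) {f : G → ℂ} (hf : Bd f) {ε : ℝ} (hε : 0 < ε) :
    ∃ Γ : Finset (AddChar G Circle), (∀ χ, χ ∈ Γ ↔ ε < ‖m.coef f χ‖) ∧
      (Γ.card : ℝ) * ε ^ 2 ≤ m (fun x => ‖f x‖ ^ 2) := by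
  classical
  have hbound : ∀ S : Finset (AddChar G Circle), (∀ χ ∈ S, ε < ‖m.coef f χ‖) →
      (S.card : ℝ) * ε ^ 2 ≤ m (fun x => ‖f x‖ ^ 2) := by
    intro S hS
    refine le_trans ?_ (bessel hm hf S)
    rw [← nsmul_eq_mul]
    refine Finset.card_nsmul_le_sum _ _ _ fun χ hχ => ?_
    exact pow_le_pow_left₀ hε.le (hS χ hχ).le 2
  have hfin : {χ : AddChar G Circle | ε < ‖m.coef f χ‖}.Finite := by
    by_contra hinf
    obtain ⟨n, hn⟩ := exists_nat_gt (m (fun x => ‖f x‖ ^ 2) / ε ^ 2)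
    obtain ⟨S, hS1, hS2⟩ := Set.Infinite.exists_subset_card_eq hinf n
    have h1 := hbound S (fun χ hχ => hS1 hχ)
    rw [hS2] at h1
    rw [div_lt_iff₀ (by positivity)] at hn
    linarith
  refine ⟨hfin.toFinset, fun χ => by simp, ?_⟩
  exact hbound _ fun χ hχ => by simpa using hχ

/-- the truncated Fourier remainder -/
noncomputable def remainder (m : Mean G) (f : G → ℂ) (Γ : Finset (AddChar G Circle)) (x : G) : ℂ :=
  f x - ∑ θ ∈ Γ, m.coef f θ * (θ x : ℂ)

theorem remainder_bd {m : Mean G} {f : G → ℂ} (hf : Bd f) (Γ : Finset (AddChar G Circle)) :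
    Bd (remainder m f Γ) :=
  hf.sub (Bd.sum Γ fun θ _ => (Bd.char θ).smulC _)

open Classical in
theorem coef_remainder {m : Mean G} (hm : m.Inv) {f : G → ℂ} (Γ : Finset (AddChar G Circle))
    (χ : AddChar G Circle) :
    m.coef (remainder m f Γ) χ = if χ ∈ Γ then 0 else m.coef f χ := by
  unfold remainder
  rw [Mean.coef_sub, Mean.coef_sum]
  have h1 : ∀ θ ∈ Γ, m.coef (fun x => m.coef f θ * (θ x : ℂ)) χ =
      if χ = θ then m.coef f χ else 0 := by
    intro θ _
    rw [Mean.coef_smul, Mean.coef_char hm]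
    split_ifs with h
    · rw [h, mul_one]
    · rw [mul_zero]
  rw [Finset.sum_congr rfl h1, Finset.sum_ite_eq]
  split_ifs
  · rw [sub_self]
  · rw [sub_zero]

/-- a finite set of characters inside the range of a finite family -/
theorem exists_family {α : Type*} [Nonempty α] (S : Finset α) (k : ℕ) (h : S.card ≤ k) :
    ∃ f : Fin k → α, ∀ a ∈ S, ∃ j, f j = a := by
  classical
  let e := S.equivFin
  refine ⟨fun j => if hj : j.1 < S.card then (e.symm ⟨j.1, hj⟩ : α) else Classical.arbitrary α,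
    fun a ha => ?_⟩
  refine ⟨⟨(e ⟨a, ha⟩).1, lt_of_lt_of_le (e ⟨a, ha⟩).2 h⟩, ?_⟩
  simp

theorem bohr_family (φ : G →+ G) (hφ : φ.range.index ≠ 0) (Γ : Finset (AddChar G Circle))
    (k : ℕ) (hk : Γ.card + φ.range.index ≤ k) {η : ℝ} (hη : η ≤ 1) :
    ∃ χ : Fin k → AddChar G Circle, ∀ w, (∀ j, ‖(χ j w : ℂ) - 1‖ < η) →
      ∃ c, φ c = w ∧ ∀ θ ∈ Γ, (∀ z, φ z = 0 → θ z = 1) → ‖(θ c : ℂ) - 1‖ < η := by
  classical
  have hfin : Finite (G ⧸ φ.range) := AddSubgroup.index_ne_zero_iff_finite.1 hφ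
  have hψ : ∀ θ : AddChar G Circle, ∃ ψ : AddChar G Circle,
      (∀ z, φ z = 0 → θ z = 1) → ∀ a, ψ (φ a) = θ a := by
    intro θ
    by_cases h : ∀ z, φ z = 0 → θ z = 1
    · obtain ⟨ψ, hψ⟩ := char_factor φ θ h
      exact ⟨ψ, fun _ => hψ⟩
    · exact ⟨1, fun h' => absurd h' h⟩
  choose Ψ hΨ using hψ
  let S : Finset (AddChar G Circle) := Γ.image Ψ ∪ Finset.univ.image (annF φ.range)
  have hS : S.card ≤ k := by
    refine (Finset.card_union_le _ _).trans (le_trans ?_ hk)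
    refine add_le_add Finset.card_image_le (Finset.card_image_le.trans ?_)
    rw [Finset.card_univ, card_annF]
  obtain ⟨χ, hχ⟩ := exists_family S k hS
  refine ⟨χ, fun w hw => ?_⟩
  have hS' : ∀ ψ ∈ S, ‖(ψ w : ℂ) - 1‖ < η := by
    intro ψ hψ
    obtain ⟨j, hj⟩ := hχ ψ hψ
    rw [← hj]
    exact hw j
  have hw1 : w ∈ φ.range := by
    by_contra hcon
    have h1 := sum_annF φ.range w
    rw [if_neg hcon] at h1
    have h2 : ∀ ψ : AddChar (G ⧸ φ.range) ℂ, 0 < ((annF φ.range ψ w : Circle) : ℂ).re := by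
      intro ψ
      have h3 := hS' (annF φ.range ψ)
        (Finset.mem_union_right _ (Finset.mem_image_of_mem _ (Finset.mem_univ _)))
      have h4 := (Complex.abs_re_le_norm (((annF φ.range ψ w : Circle) : ℂ) - 1)).trans_lt h3
      rw [Complex.sub_re, Complex.one_re] at h4
      have h5 := (abs_lt.1 h4).1
      linarith
    have h6 : 0 < (∑ ψ : AddChar (G ⧸ φ.range) ℂ, ((annF φ.range ψ w : Circle) : ℂ)).re := by
      rw [Complex.re_sum]
      exact Finset.sum_pos (fun ψ _ => h2 ψ) ⟨1, Finset.mem_univ _⟩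
    rw [h1] at h6
    simp at h6
  obtain ⟨c, hc⟩ := hw1
  refine ⟨c, hc, fun θ hθ hθ' => ?_⟩
  have h1 := hS' (Ψ θ) (Finset.mem_union_left _ (Finset.mem_image_of_mem _ hθ))
  rw [← hc, hΨ θ hθ'] at h1
  exact h1

/-- index of the preimage -/
theorem index_comap_range (φ ψ : G →+ G) (h : ψ.range.index ≠ 0) :
    (ψ.range.comap φ).index ≠ 0 ∧ (ψ.range.comap φ).index ≤ ψ.range.index := by
  have h1 : (ψ.range.comap φ).index ∣ ψ.range.index := by
    rw [AddSubgroup.index_comap]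
    exact AddSubgroup.relIndex_dvd_index_of_normal _ _
  exact ⟨fun h2 => h (by rw [h2] at h1; exact Nat.eq_zero_of_zero_dvd h1),
    Nat.le_of_dvd (Nat.pos_of_ne_zero h) h1⟩

end Spec

section Pairs
variable {G : Type*} [AddCommGroup G]

/-- the group of pairs `(y,t)` with `φ y + ψ t = 0` -/
def pairs (φ ψ : G →+ G) : AddSubgroup (G × G) := (φ.coprod ψ).ker

theorem mem_pairs {φ ψ : G →+ G} {z : G × G} : z ∈ pairs φ ψ ↔ φ z.1 + ψ z.2 = 0 := by
  rw [pairs, AddMonoidHom.mem_ker, AddMonoidHom.coprod_apply]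

/-- first projection -/
def pfst (φ ψ : G →+ G) : pairs φ ψ →+ G := (AddMonoidHom.fst G G).comp (pairs φ ψ).subtype

/-- second projection -/
def psnd (φ ψ : G →+ G) : pairs φ ψ →+ G := (AddMonoidHom.snd G G).comp (pairs φ ψ).subtype

theorem pfst_apply (φ ψ : G →+ G) (z : pairs φ ψ) : pfst φ ψ z = z.1.1 := rfl
theorem psnd_apply (φ ψ : G →+ G) (z : pairs φ ψ) : psnd φ ψ z = z.1.2 := rfl

theorem pfst_range (φ ψ : G →+ G) : (pfst φ ψ).range = ψ.range.comap φ := by
  ext y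
  constructor
  · rintro ⟨z, rfl⟩
    rw [AddSubgroup.mem_comap]
    refine ⟨- z.1.2, ?_⟩
    have h := mem_pairs.1 z.2
    rw [map_neg, pfst_apply]
    exact (eq_neg_of_add_eq_zero_left h).symm
  · rintro ⟨t, ht⟩
    refine ⟨⟨(y, -t), mem_pairs.2 ?_⟩, rfl⟩
    change φ y + ψ (-t) = 0
    rw [map_neg, ht, add_neg_cancel]

theorem psnd_range (φ ψ : G →+ G) : (psnd φ ψ).range = φ.range.comap ψ := by
  ext y
  constructor
  · rintro ⟨z, rfl⟩
    rw [AddSubgroup.mem_comap]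
    refine ⟨- z.1.1, ?_⟩
    have h := mem_pairs.1 z.2
    rw [map_neg, psnd_apply]
    exact (eq_neg_of_add_eq_zero_right h).symm
  · rintro ⟨t, ht⟩
    refine ⟨⟨(-t, y), mem_pairs.2 ?_⟩, rfl⟩
    change φ (-t) + ψ y = 0
    rw [map_neg, ht, neg_add_cancel]

end Pairs

section Perturb
variable {G : Type*} [AddCommGroup G]

theorem perturb2 {m : Mean G} (hm : m.Inv) (he : m.Erg) (φ ψ : G →+ G)
    (hφ : φ.range.index ≠ 0) {ν : Mean (pairs φ ψ)} (hν : ν.Inv)
    {f : G → ℝ} (h0 : ∀ x, 0 ≤ f x) (h1 : ∀ x, f x ≤ 1) {ε η : ℝ} (hε : 0 < ε)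
    (hη : 0 < η) {Γ : Finset (AddChar G Circle)}
    (hΓ : ∀ χ, χ ∈ Γ ↔ ε < ‖m.coef (fun x => (f x : ℂ)) χ‖) (c : G)
    (hc : ∀ θ ∈ Γ, (∀ z, ψ z = 0 → θ z = 1) → ‖(θ c : ℂ) - 1‖ < η) :
    |ν (fun n => f (pfst φ ψ n) * rho m f (psnd φ ψ n + c)) -
      ν (fun n => f (pfst φ ψ n) * rho m f (psnd φ ψ n))| ≤
      η + 2 * (φ.range.index * ε) := by
  classical
  set y := pfst φ ψ with hy
  set t := psnd φ ψ with ht
  have hfB : Bd f := ⟨1, fun _ => by rw [Real.norm_eq_abs, abs_of_nonneg (h0 _)]; exact h1 _⟩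
  set fC : G → ℂ := fun x => (f x : ℂ) with hfC
  have hfCB : Bd fC := hfB.ofReal
  have hfC1 : ∀ x, ‖fC x‖ ≤ 1 := fun x => by
    rw [hfC]
    simp only [Complex.norm_real, Real.norm_eq_abs, abs_of_nonneg (h0 x)]
    exact h1 x
  have hfsq : m (fun x => ‖fC x‖ ^ 2) ≤ 1 :=
    m.le_of_le (hfCB.norm.pow 2) fun x => pow_le_one₀ (norm_nonneg _) (hfC1 x)
  set e := remainder m fC Γ with hedef
  have heB : Bd e := remainder_bd hfCB Γ
  have hecoef : ∀ χ, ‖m.coef e χ‖ ^ 2 ≤ ε ^ 2 := by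
    intro χ
    rw [hedef, coef_remainder hm]
    split_ifs with h
    · rw [norm_zero, zero_pow two_ne_zero]; exact sq_nonneg _
    · exact pow_le_pow_left₀ (norm_nonneg _) (not_lt.1 (fun h' => h ((hΓ χ).2 h'))) 2
  let E : G → ℂ := fun s => m.c (fun x => e (x + s) * conj (fC x))
  have hEB : Bd E := by
    have h2 : Bd (fun s => m.c (fun x => conj (fC x) * e (x + s))) := heB.inner_c hfCB.conj
    refine h2.of_le fun s => le_of_eq ?_
    simp only [E]
    congr 2
    funext x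
    ring
  -- decomposition of the correlation
  have hrho : ∀ s, (rho m f s : ℂ) =
      ∑ θ ∈ Γ, ((‖m.coef fC θ‖ ^ 2 : ℝ) : ℂ) * (θ s : ℂ) + E s := by
    intro s
    have e1 : (rho m f s : ℂ) = m.c (fun x => fC (x + s) * conj (fC x)) := by
      rw [rho, ← m.c_ofReal]
      congr 1
      funext x
      simp only [hfC, Complex.conj_ofReal]
      push_cast
      rfl
    have e2 : (fun x => fC (x + s) * conj (fC x)) = (fun x =>
        (∑ θ ∈ Γ, (m.coef fC θ * (θ s : ℂ)) * ((θ x : ℂ) * conj (fC x))) +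
          e (x + s) * conj (fC x)) := by
      funext x
      have : fC (x + s) = ∑ θ ∈ Γ, m.coef fC θ * (θ (x + s) : ℂ) + e (x + s) := by
        rw [hedef, remainder]
        ring
      rw [this, add_mul, Finset.sum_mul]
      congr 1
      refine Finset.sum_congr rfl fun θ _ => ?_
      rw [char_add]
      ring
    rw [e1, e2, m.c_add, m.c_sum]
    congr 1
    refine Finset.sum_congr rfl fun θ _ => ?_
    rw [m.c_smul]
    have e3 : m.c (fun x => (θ x : ℂ) * conj (fC x)) = conj (m.coef fC θ) := by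
      rw [Mean.coef, ← m.c_conj]
      congr 1
      funext x
      rw [map_mul, Complex.conj_conj, mul_comm]
    rw [e3]
    have e4 := Complex.mul_conj (m.coef fC θ)
    rw [Complex.normSq_eq_norm_sq] at e4
    rw [← e4]
    ring
  -- bound for the error terms
  have htI := index_comap_range ψ φ hφ
  rw [← psnd_range] at htI
  have herr : ∀ c : G, ‖ν.c (fun n => fC (y n) * E (t n + c))‖ ≤ φ.range.index * ε := by
    intro c
    obtain ⟨μ, hμ, h2, -⟩ := exists_push t htI.1 ν hν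
    have hb : Bd (fun s => E (s + c)) := hEB.comp _
    have h3 : ‖ν.c (fun n => fC (y n) * E (t n + c))‖ ≤ ν (fun n => ‖E (t n + c)‖) := by
      refine (ν.norm_c_le ((hfCB.comp _).mul (hb.comp (fun n => t n)))).trans ?_
      refine ν.mono ((hfCB.comp _).mul (hb.comp (fun n => t n))).norm
        (hb.comp (fun n => t n)).norm fun n => ?_
      rw [norm_mul]
      exact mul_le_of_le_one_left (norm_nonneg _) (hfC1 _)
    have h4 : ν (fun n => ‖E (t n + c)‖) ^ 2 ≤ (φ.range.index * ε) ^ 2 := by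
      refine (ν.sq_le (hb.comp (fun n => t n)).norm).trans ?_
      refine (h2 (fun s => ‖E (s + c)‖ ^ 2) (hb.norm.pow 2) fun _ => sq_nonneg _).trans ?_
      have h5 : μ (fun s => ‖E (s + c)‖ ^ 2) = μ (fun s => ‖E s‖ ^ 2) :=
        hμ c (fun s => ‖E s‖ ^ 2) (hEB.norm.pow 2)
      rw [h5]
      have h6 := u2_bound hm he hμ heB hfCB (sq_nonneg ε) hecoef
      have h7 : μ (fun s => ‖E s‖ ^ 2) ≤ ε ^ 2 :=
        h6.trans (mul_le_of_le_one_right (sq_nonneg _) hfsq)
      have h8 : ((t.range.index : ℕ) : ℝ) ≤ (φ.range.index : ℝ) := by exact_mod_cast htI.2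
      have h9 : (1 : ℝ) ≤ (φ.range.index : ℝ) := by exact_mod_cast Nat.pos_of_ne_zero hφ
      calc ((t.range.index : ℕ) : ℝ) * μ (fun s => ‖E s‖ ^ 2)
          ≤ (φ.range.index : ℝ) * ε ^ 2 :=
            mul_le_mul h8 h7 (μ.nonneg _ (hEB.norm.pow 2) fun _ => sq_nonneg _) (by positivity)
        _ ≤ (φ.range.index : ℝ) ^ 2 * ε ^ 2 := by
            refine mul_le_mul_of_nonneg_right ?_ (sq_nonneg _)
            nlinarith
        _ = (φ.range.index * ε) ^ 2 := by ring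
    exact h3.trans ((sq_le_sq₀ (ν.nonneg _ (hb.comp (fun n => t n)).norm fun _ => norm_nonneg _)
      (by positivity)).1 h4)
  -- main identity
  have hmain : ((ν (fun n => f (y n) * rho m f (t n + c)) -
      ν (fun n => f (y n) * rho m f (t n)) : ℝ) : ℂ) =
      ∑ θ ∈ Γ, ((‖m.coef fC θ‖ ^ 2 : ℝ) : ℂ) * ((θ c : ℂ) - 1) *
        ν.c (fun n => fC (y n) * (θ (t n) : ℂ)) +
      (ν.c (fun n => fC (y n) * E (t n + c)) - ν.c (fun n => fC (y n) * E (t n + 0))) := by
    rw [← ν.sub', ← ν.c_ofReal, ← ν.c_sub]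
    simp_rw [← ν.c_smul]
    rw [← ν.c_sum, ← ν.c_add]
    congr 1
    funext n
    have e1 := hrho (t n + c)
    have e2 := hrho (t n)
    push_cast at e1 e2 ⊢
    rw [e1, e2, add_zero]
    have e3 : ∑ θ ∈ Γ, (‖m.coef fC θ‖ : ℂ) ^ 2 * (θ (t n + c) : ℂ) =
        ∑ θ ∈ Γ, (‖m.coef fC θ‖ : ℂ) ^ 2 * ((θ (t n) : ℂ) * (θ c : ℂ)) := by
      refine Finset.sum_congr rfl fun θ _ => ?_
      rw [char_add]
    rw [e3]
    simp only [hfC]
    rw [mul_add, mul_add, Finset.mul_sum, Finset.mul_sum]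
    have e4 : ∑ i ∈ Γ, (f (y n) : ℂ) * ((‖m.coef fC i‖ : ℂ) ^ 2 * ((i (t n) : ℂ) * (i c : ℂ))) -
        ∑ i ∈ Γ, (f (y n) : ℂ) * ((‖m.coef fC i‖ : ℂ) ^ 2 * (i (t n) : ℂ)) =
        ∑ i ∈ Γ, (‖m.coef fC i‖ : ℂ) ^ 2 * ((i c : ℂ) - 1) * ((f (y n) : ℂ) * (i (t n) : ℂ)) := by
      rw [← Finset.sum_sub_distrib]
      refine Finset.sum_congr rfl fun θ _ => ?_
      ring
    rw [← e4]
    ring
  have habs : |ν (fun n => f (y n) * rho m f (t n + c)) -
      ν (fun n => f (y n) * rho m f (t n))| = ‖((ν (fun n => f (y n) * rho m f (t n + c)) -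
      ν (fun n => f (y n) * rho m f (t n)) : ℝ) : ℂ)‖ := by
    rw [Complex.norm_real, Real.norm_eq_abs]
  rw [habs, hmain]
  refine (norm_add_le _ _).trans ?_
  have hA : ‖∑ θ ∈ Γ, ((‖m.coef fC θ‖ ^ 2 : ℝ) : ℂ) * ((θ c : ℂ) - 1) *
        ν.c (fun n => fC (y n) * (θ (t n) : ℂ))‖ ≤ η := by
    refine (norm_sum_le _ _).trans ?_
    have hterm : ∀ θ ∈ Γ, ‖((‖m.coef fC θ‖ ^ 2 : ℝ) : ℂ) * ((θ c : ℂ) - 1) *
        ν.c (fun n => fC (y n) * (θ (t n) : ℂ))‖ ≤ ‖m.coef fC θ‖ ^ 2 * η := by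
      intro θ hθ
      by_cases hθ' : ∀ z, ψ z = 0 → θ z = 1
      · rw [norm_mul, norm_mul, Complex.norm_real, Real.norm_of_nonneg (sq_nonneg _)]
        have h2 : ‖ν.c (fun n => fC (y n) * (θ (t n) : ℂ))‖ ≤ 1 := by
          refine ν.norm_c_le_of_le fun n => ?_
          rw [norm_mul, Circle.norm_coe, mul_one]
          exact hfC1 _
        calc ‖m.coef fC θ‖ ^ 2 * ‖(θ c : ℂ) - 1‖ * ‖ν.c (fun n => fC (y n) * (θ (t n) : ℂ))‖
            ≤ ‖m.coef fC θ‖ ^ 2 * ‖(θ c : ℂ) - 1‖ * 1 :=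
              mul_le_mul_of_nonneg_left h2 (by positivity)
          _ ≤ ‖m.coef fC θ‖ ^ 2 * η := by
              rw [mul_one]
              exact mul_le_mul_of_nonneg_left (hc θ hθ hθ').le (sq_nonneg _)
      · push Not at hθ'
        obtain ⟨z, hz, hθz⟩ := hθ'
        have hz0 : ((0, z) : G × G) ∈ pairs φ ψ := mem_pairs.2 (by
          change φ 0 + ψ z = 0
          rw [map_zero, hz, add_zero])
        have h2 : ν.c (fun n => fC (y n) * (θ (t n) : ℂ)) = 0 := by
          have h3 := Mean.c_inv hν ((hfCB.comp (fun n => y n)).mul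
            ((Bd.char θ).comp (fun n => t n))) ⟨(0, z), hz0⟩
          have h4 : (fun n => fC (y (n + ⟨(0, z), hz0⟩)) * (θ (t (n + ⟨(0, z), hz0⟩)) : ℂ)) =
              (fun n => (fC (y n) * (θ (t n) : ℂ)) * (θ z : ℂ)) := by
            funext n
            have a1 : y (n + ⟨(0, z), hz0⟩) = y n := by
              rw [map_add]
              change y n + 0 = y n
              rw [add_zero]
            have a2 : t (n + ⟨(0, z), hz0⟩) = t n + z := by
              rw [map_add]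
              rfl
            rw [a1, a2, char_add]
            ring
          rw [h4, ν.c_smul'] at h3
          have h5 : (θ z : ℂ) ≠ 1 := by
            intro h6
            exact hθz (by ext; simpa using h6)
          have h7 : ν.c (fun n => fC (y n) * (θ (t n) : ℂ)) * ((θ z : ℂ) - 1) = 0 := by
            rw [mul_sub, h3, mul_one, sub_self]
          rcases mul_eq_zero.1 h7 with h8 | h8
          · exact h8
          · exact absurd (sub_eq_zero.1 h8) h5
        rw [h2, mul_zero, norm_zero]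
        positivity
    refine (Finset.sum_le_sum hterm).trans ?_
    rw [← Finset.sum_mul]
    exact mul_le_of_le_one_left hη.le ((bessel hm hfCB Γ).trans hfsq)
  have hB := norm_sub_le (ν.c (fun n => fC (y n) * E (t n + c)))
    (ν.c (fun n => fC (y n) * E (t n + 0)))
  have h2 := herr c
  have h3 := herr 0
  linarith

end Perturb

end Pool.Agent.Helper91.Bohr
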