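import Mathlib
import Pool.Agent.Helper91.BohrG

/-!
Positivity for some colour and the partition theorem.
-/

namespace Pool.Agent.Helper91.Bohr

open Filter Topology ComplexConjugate

universe u

open Classical in
/-- indicator of a colour class -/
noncomputable def ind {G : Type*} {r : ℕ} (col : G → Fin r) (i : Fin r) (x : G) : ℝ :=
  if col x = i then 1 else 0

section
variable {G : Type*} {r : ℕ} (col : G → Fin r)

theorem ind_nonneg (i : Fin r) (x : G) : 0 ≤ ind col i x := by
  unfold ind; split_ifs <;> norm_num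

theorem ind_le_one (i : Fin r) (x : G) : ind col i x ≤ 1 := by
  unfold ind; split_ifs <;> norm_num

theorem ind_bd (i : Fin r) : Bd (ind col i) :=
  ⟨1, fun x => by rw [Real.norm_eq_abs, abs_of_nonneg (ind_nonneg col i x)]
                  exact ind_le_one col i x⟩

theorem ind_self (x : G) : ind col (col x) x = 1 := by
  unfold ind; rw [if_pos rfl]

theorem ind_eq_one {i : Fin r} {x : G} (h : col x = i) : ind col i x = 1 := by
  unfold ind; rw [if_pos h]

theorem ind_pos {i : Fin r} {x : G} (h : 0 < ind col i x) : col x = i := by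
  unfold ind at h
  by_contra hne
  rw [if_neg hne] at h
  exact lt_irrefl _ h

end

theorem colour_positive (r I : ℕ) (hI : I ≠ 0) : ∃ c0 : ℝ, 0 < c0 ∧
    ∀ (G : Type u) [AddCommGroup G] (m : Mean G) (_ : m.Inv) (φ ψ : G →+ G)
      (_ : ψ.range.index ≠ 0) (_ : ψ.range.index ≤ I) (col : G → Fin r),
      ∃ ν : Mean (pairs φ ψ), ν.Inv ∧ ∃ i,
        c0 ≤ ν (fun n => ind col i (pfst φ ψ n) * rho m (ind col i) (psnd φ ψ n)) := by
  classical
  choose nR hnR0 hnR using fun K => ramsey r K
  let Kf : ℝ → ℕ := fun β => ⌈2 / β⌉₊ + 2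
  let nf : ℝ → ℕ := fun β => nR (Kf β)
  have hnf : ∀ β, (0 : ℝ) < nf β := fun β => by exact_mod_cast hnR0 (Kf β)
  have hI' : (0 : ℝ) < I := by exact_mod_cast Nat.pos_of_ne_zero hI
  have hr : (0 : ℝ) < r + 1 := by positivity
  let F : ℝ → ℝ := fun β => min β (1 / (2 * nf β * I * (r + 1)))
  have hF : ∀ β, 0 < β → 0 < F β ∧ F β ≤ β := by
    intro β hβ
    refine ⟨lt_min hβ ?_, min_le_left _ _⟩
    have := hnf β
    positivity
  obtain ⟨β, hβ, hthr⟩ := threshold r F hF
  let cc : ℕ → ℝ := fun l => β l ^ 2 / 2 / (2 * nf (β l)) / (r + 1)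
  have hcc : ∀ l, 0 < cc l := by
    intro l
    have := hnf (β l)
    have := hβ l
    simp only [cc]
    positivity
  obtain ⟨l0, -, hl0⟩ := Finset.exists_min_image (Finset.range (r + 1)) cc
    ⟨0, Finset.mem_range.2 (Nat.succ_pos r)⟩
  refine ⟨cc l0, hcc l0, fun G _ m hm φ ψ hψ0 hψI col => ?_⟩
  have hidx := index_comap_range φ ψ hψ0
  rw [← pfst_range] at hidx
  obtain ⟨ν, hν, hdom⟩ := exists_pull (pfst φ ψ) hidx.1 m hm
  refine ⟨ν, hν, ?_⟩
  obtain ⟨l, hl, hgap⟩ := hthr (fun i => m (ind col i))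
  have hc0 : cc l0 ≤ cc l := hl0 l (Finset.mem_range_succ_iff.2 hl)
  set b := β l with hb
  have hb0 : 0 < b := hβ l
  set n := nf b with hn
  have hn0 : (0 : ℝ) < n := hnf b
  set y := pfst φ ψ with hy
  set t := psnd φ ψ with ht
  -- domination
  have hdom' : ∀ i, ν (fun z => ind col i (y z)) ≤ I * m (ind col i) := by
    intro i
    refine (hdom _ (ind_bd col i) (ind_nonneg col i)).trans ?_
    refine mul_le_mul_of_nonneg_right ?_ (m.nonneg _ (ind_bd col i) (ind_nonneg col i))
    exact_mod_cast hidx.2.trans hψI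
  -- the exceptional set
  let bad : pairs φ ψ → Prop := fun z => m (ind col (col (y z))) < F b
  let good : pairs φ ψ → Prop := fun z => b ^ 2 / 2 ≤ rho m (ind col (col (y z))) (t z)
  let h : pairs φ ψ → ℝ := fun z => if bad z ∨ good z then 1 else 0
  have hh : ∀ z, h z = 0 ∨ h z = 1 := fun z => by
    simp only [h]; split_ifs <;> simp
  have hhB : Bd h := ⟨1, fun z => by rcases hh z with h1 | h1 <;> simp [h1]⟩
  have hlow : 1 ≤ n * ν h := by
    by_contra hcon
    push Not at hcon
    obtain ⟨z, hz⟩ := greedy hν h hh n hcon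
    obtain ⟨i, s, hs, hsn, hsc⟩ := hnR (Kf b) (fun p q => col (y (z q - z p)))
    have hzero : ∀ p q, p < q → h (z (s q) - z (s p)) = 0 := fun p q hpq =>
      hz _ _ (hs hpq) (hsn q)
    have hnot : ∀ p q, p < q → ¬ (bad (z (s q) - z (s p)) ∨ good (z (s q) - z (s p))) := by
      intro p q hpq hor
      have := hzero p q hpq
      simp only [h, if_pos hor] at this
      exact one_ne_zero this
    rcases hgap i with hi | hi
    · -- good colour
      have hK : 2 ≤ ((Kf b : ℕ) : ℝ) * b := by
        have h1 : 2 / b ≤ (⌈2 / b⌉₊ : ℝ) := Nat.le_ceil _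
        have h2 : ((Kf b : ℕ) : ℝ) = (⌈2 / b⌉₊ : ℝ) + 2 := by
          simp only [Kf]; push_cast; ring
        rw [h2]
        have h3 : 2 = 2 / b * b := by field_simp
        nlinarith
      obtain ⟨p, q, hpq, hpq'⟩ := delta_property hm (ind_nonneg col i) (ind_le_one col i) hb0 hi
        (Kf b) hK (fun p => t (z (s p)))
      refine hnot p q hpq (Or.inr ?_)
      change b ^ 2 / 2 ≤ rho m (ind col (col (y (z (s q) - z (s p))))) (t (z (s q) - z (s p)))
      rw [hsc p q hpq, map_sub]
      exact hpq'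
    · -- bad colour
      have h0 : 0 < Kf b := by simp only [Kf]; omega
      have h1 : 1 < Kf b := by simp only [Kf]; omega
      have hpq : (⟨0, h0⟩ : Fin (Kf b)) < ⟨1, h1⟩ := by
        rw [Fin.lt_def]; exact Nat.zero_lt_one
      refine hnot _ _ hpq (Or.inl ?_)
      change m (ind col (col (y (z (s ⟨1, h1⟩) - z (s ⟨0, h0⟩))))) < F b
      rw [hsc _ _ hpq]
      exact hi
  -- upper bound for `ν h`
  have hrB : ∀ i, Bd (fun z => ind col i (y z) * rho m (ind col i) (t z)) := fun i =>
    ((ind_bd col i).comp _).mul ((rho_bd (ind_bd col i)).comp _)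
  have hup : ν h ≤ ∑ i : Fin r, (if m (ind col i) < F b then ν (fun z => ind col i (y z)) else 0) +
      (b ^ 2 / 2)⁻¹ * ∑ i : Fin r, ν (fun z => ind col i (y z) * rho m (ind col i) (t z)) := by
    have e1 : ∑ i : Fin r, (if m (ind col i) < F b then ν (fun z => ind col i (y z)) else 0) +
        (b ^ 2 / 2)⁻¹ * ∑ i : Fin r, ν (fun z => ind col i (y z) * rho m (ind col i) (t z)) =
        ν (fun z => ∑ i : Fin r, (if m (ind col i) < F b then 1 else 0) * ind col i (y z) +
          (b ^ 2 / 2)⁻¹ * ∑ i : Fin r, ind col i (y z) * rho m (ind col i) (t z)) := by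
      rw [ν.add', ν.smul', ν.sum', ν.sum']
      congr 1
      refine Finset.sum_congr rfl fun i _ => ?_
      rw [ν.smul']
      split_ifs <;> simp
    rw [e1]
    have hBB : Bd (fun z => ∑ i : Fin r, (if m (ind col i) < F b then (1 : ℝ) else 0) *
        ind col i (y z) +
        (b ^ 2 / 2)⁻¹ * ∑ i : Fin r, ind col i (y z) * rho m (ind col i) (t z)) := by
      refine Bd.add (Bd.sum _ fun i _ => ((ind_bd col i).comp _).smulR _) ?_
      exact (Bd.sum _ fun i _ => hrB i).smulR _
    refine ν.mono hhB hBB fun z => ?_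
    have hnn1 : 0 ≤ ∑ i : Fin r, (if m (ind col i) < F b then (1 : ℝ) else 0) *
        ind col i (y z) :=
      Finset.sum_nonneg fun i _ => mul_nonneg (by split_ifs <;> norm_num) (ind_nonneg col i _)
    have hnn2' : 0 ≤ ∑ i : Fin r, ind col i (y z) * rho m (ind col i) (t z) :=
      Finset.sum_nonneg fun i _ => mul_nonneg (ind_nonneg col i _)
        (rho_nonneg (ind_bd col i) (ind_nonneg col i) _)
    have hnn2 : 0 ≤ (b ^ 2 / 2)⁻¹ * ∑ i : Fin r, ind col i (y z) * rho m (ind col i) (t z) :=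
      mul_nonneg (by positivity) hnn2'
    simp only [h]
    split_ifs with hor
    · rcases hor with h1 | h1
      · have h2 : (1 : ℝ) ≤ ∑ i : Fin r, (if m (ind col i) < F b then (1 : ℝ) else 0) *
            ind col i (y z) := by
          have h3 := Finset.single_le_sum (f := fun i : Fin r =>
            (if m (ind col i) < F b then (1 : ℝ) else 0) * ind col i (y z))
            (fun i _ => mul_nonneg (by split_ifs <;> norm_num) (ind_nonneg col i _))
            (Finset.mem_univ (col (y z)))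
          have h4 : (if m (ind col (col (y z))) < F b then (1 : ℝ) else 0) *
              ind col (col (y z)) (y z) = 1 := by
            rw [if_pos h1, ind_self, one_mul]
          rw [h4] at h3
          exact h3
        linarith
      · have h2 : b ^ 2 / 2 ≤ ∑ i : Fin r, ind col i (y z) * rho m (ind col i) (t z) := by
          have h3 := Finset.single_le_sum (f := fun i : Fin r =>
            ind col i (y z) * rho m (ind col i) (t z))
            (fun i _ => mul_nonneg (ind_nonneg col i _)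
              (rho_nonneg (ind_bd col i) (ind_nonneg col i) _))
            (Finset.mem_univ (col (y z)))
          have h4 : ind col (col (y z)) (y z) * rho m (ind col (col (y z))) (t z) =
              rho m (ind col (col (y z))) (t z) := by
            rw [ind_self, one_mul]
          rw [h4] at h3
          exact le_trans h1 h3
        have h5 : (1 : ℝ) ≤ (b ^ 2 / 2)⁻¹ *
            ∑ i : Fin r, ind col i (y z) * rho m (ind col i) (t z) := by
          rw [inv_mul_eq_div, le_div_iff₀ (by positivity), one_mul]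
          exact h2
        linarith
    · linarith
  have hbadsum : ∑ i : Fin r, (if m (ind col i) < F b then ν (fun z => ind col i (y z)) else 0) ≤
      1 / (2 * n) := by
    have h1 : ∀ i ∈ (Finset.univ : Finset (Fin r)),
        (if m (ind col i) < F b then ν (fun z => ind col i (y z)) else 0) ≤
        1 / (2 * n * (r + 1)) := by
      intro i _
      split_ifs with h2
      · refine (hdom' i).trans ?_
        have h3 : m (ind col i) ≤ 1 / (2 * n * I * (r + 1)) := h2.le.trans (min_le_right _ _)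
        calc (I : ℝ) * m (ind col i) ≤ I * (1 / (2 * n * I * (r + 1))) :=
              mul_le_mul_of_nonneg_left h3 hI'.le
          _ = 1 / (2 * n * (r + 1)) := by field_simp
      · positivity
    refine (Finset.sum_le_card_nsmul _ _ _ h1).trans ?_
    rw [Finset.card_univ, Fintype.card_fin, nsmul_eq_mul]
    have h2 : (r : ℝ) * (1 / (2 * n * (r + 1))) = 1 / (2 * n) * (r / (r + 1)) := by field_simp
    rw [h2]
    refine mul_le_of_le_one_right (by positivity) ?_
    rw [div_le_one hr]
    linarith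
  have hsum : b ^ 2 / 2 / (2 * n) ≤
      ∑ i : Fin r, ν (fun z => ind col i (y z) * rho m (ind col i) (t z)) := by
    have h1 : 1 / n ≤ ν h := by
      rw [div_le_iff₀ hn0, mul_comm]
      exact hlow
    have h2 : 1 / (2 * (n : ℝ)) ≤ (b ^ 2 / 2)⁻¹ *
        ∑ i : Fin r, ν (fun z => ind col i (y z) * rho m (ind col i) (t z)) := by
      have h3 : 1 / (n : ℝ) = 1 / (2 * n) + 1 / (2 * n) := by field_simp; norm_num
      linarith
    rw [inv_mul_eq_div, le_div_iff₀ (by positivity)] at h2
    calc b ^ 2 / 2 / (2 * n) = 1 / (2 * n) * (b ^ 2 / 2) := by ring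
      _ ≤ _ := h2
  by_contra hcon
  push Not at hcon
  have hlt : ∀ i, ν (fun z => ind col i (y z) * rho m (ind col i) (t z)) ≤ cc l := fun i =>
    (hcon i).le.trans hc0
  have h3 : ∑ i : Fin r, ν (fun z => ind col i (y z) * rho m (ind col i) (t z)) ≤ r * cc l := by
    refine (Finset.sum_le_card_nsmul _ _ _ fun i _ => hlt i).trans (le_of_eq ?_)
    rw [Finset.card_univ, Fintype.card_fin, nsmul_eq_mul]
  have h4 : (r : ℝ) * cc l < b ^ 2 / 2 / (2 * n) := by
    have h5 : (r : ℝ) * cc l = b ^ 2 / 2 / (2 * n) * (r / (r + 1)) := by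
      have h6 : cc l = b ^ 2 / 2 / (2 * n) / (r + 1) := rfl
      rw [h6]
      field_simp
    rw [h5]
    refine mul_lt_of_lt_one_right (by positivity) ?_
    rw [div_lt_one hr]
    linarith
  linarith

/-- the partition theorem -/
theorem q2_core (r I1 I2 : ℕ) (hI1 : I1 ≠ 0) (hI2 : I2 ≠ 0) : ∃ (k : ℕ) (η : ℝ), 0 < η ∧
    ∀ (G : Type u) [AddCommGroup G] (φ ψ : G →+ G), φ.range.index = I1 → ψ.range.index = I2 →
      ∀ col : G → Fin r, ∃ (i : Fin r) (χ : Fin k → AddChar G Circle),
        ∀ w, (∀ j, ‖(χ j w : ℂ) - 1‖ < η) →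
          ∃ a b d, col a = i ∧ col b = i ∧ col d = i ∧ φ a + ψ b - ψ d = w := by
  classical
  obtain ⟨c0, hc0, hpos⟩ := colour_positive.{u} r I2 hI2
  have hI1' : (0 : ℝ) < I1 := by exact_mod_cast Nat.pos_of_ne_zero hI1
  set ε : ℝ := c0 / (8 * I1) with hε
  have hε0 : 0 < ε := by positivity
  set η : ℝ := min (c0 / 4) 1 with hη
  have hη0 : 0 < η := lt_min (by positivity) one_pos
  refine ⟨⌈1 / ε ^ 2⌉₊ + I2, η, hη0, fun G _ φ ψ hφ hψ col => ?_⟩
  have hφ0 : φ.range.index ≠ 0 := by rw [hφ]; exact hI1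
  have hψ0 : ψ.range.index ≠ 0 := by rw [hψ]; exact hI2
  obtain ⟨m0, hm0⟩ := exists_inv G
  obtain ⟨m, hm, he, -⟩ := exists_erg_ge m0 hm0 (fun _ => 0) (Bd.const 0)
  obtain ⟨ν, hν, i, hi⟩ := hpos G m hm φ ψ hψ0 hψ.le col
  have hfB := ind_bd col i
  obtain ⟨Γ, hΓ, hΓc⟩ := exists_spec hm hfB.ofReal hε0
  have hfsq : m (fun x => ‖(ind col i x : ℂ)‖ ^ 2) ≤ 1 := by
    refine m.le_of_le (hfB.ofReal.norm.pow 2) fun x => pow_le_one₀ (norm_nonneg _) ?_
    rw [Complex.norm_real, Real.norm_eq_abs, abs_of_nonneg (ind_nonneg col i x)]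
    exact ind_le_one col i x
  have hcard : Γ.card + ψ.range.index ≤ ⌈1 / ε ^ 2⌉₊ + I2 := by
    rw [hψ]
    refine Nat.add_le_add_right ?_ _
    have h1 : (Γ.card : ℝ) ≤ 1 / ε ^ 2 := by
      rw [le_div_iff₀ (by positivity)]
      exact hΓc.trans hfsq
    exact_mod_cast h1.trans (Nat.le_ceil _)
  obtain ⟨χ, hχ⟩ := bohr_family ψ hψ0 Γ _ hcard (min_le_right (c0 / 4) 1)
  refine ⟨i, χ, fun w hw => ?_⟩
  obtain ⟨c, hcw, hc⟩ := hχ w hw
  have hpert := perturb2 hm he φ ψ hφ0 hν (ind_nonneg col i) (ind_le_one col i) hε0 hη0 hΓ c hc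
  have hlow : 0 < ν (fun n => ind col i (pfst φ ψ n) * rho m (ind col i) (psnd φ ψ n + c)) := by
    have h1 := (abs_le.1 hpert).1
    have h2 : η + 2 * (φ.range.index * ε) ≤ c0 / 2 := by
      rw [hφ]
      have h3 : 2 * ((I1 : ℝ) * ε) = c0 / 4 := by
        rw [hε]; field_simp; norm_num
      rw [h3]
      have := min_le_left (c0 / 4) 1
      linarith
    linarith
  obtain ⟨n, hn⟩ : ∃ n, 0 < ind col i (pfst φ ψ n) * rho m (ind col i) (psnd φ ψ n + c) := by
    by_contra hcon
    push Not at hcon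
    have h1 := ν.le_of_le (((ind_bd col i).comp (fun n => pfst φ ψ n)).mul
      ((rho_bd (m := m) (ind_bd col i)).comp (fun n => psnd φ ψ n + c))) hcon
    linarith
  have hn1 : 0 < ind col i (pfst φ ψ n) := by
    rcases (mul_pos_iff.1 hn) with h | h
    · exact h.1
    · exact absurd h.1 (not_lt.2 (ind_nonneg col i _))
  have hn2 : 0 < rho m (ind col i) (psnd φ ψ n + c) := by
    rcases (mul_pos_iff.1 hn) with h | h
    · exact h.2
    · exact absurd h.1 (not_lt.2 (ind_nonneg col i _))
  obtain ⟨x, hx⟩ : ∃ x, 0 < ind col i (x + (psnd φ ψ n + c)) * ind col i x := by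
    by_contra hcon
    push Not at hcon
    have h1 := m.le_of_le ((hfB.comp (fun x => x + (psnd φ ψ n + c))).mul hfB) hcon
    unfold rho at hn2
    linarith
  have hx1 : 0 < ind col i (x + (psnd φ ψ n + c)) := by
    rcases (mul_pos_iff.1 hx) with h | h
    · exact h.1
    · exact absurd h.1 (not_lt.2 (ind_nonneg col i _))
  have hx2 : 0 < ind col i x := by
    rcases (mul_pos_iff.1 hx) with h | h
    · exact h.2
    · exact absurd h.1 (not_lt.2 (ind_nonneg col i _))
  refine ⟨pfst φ ψ n, x + (psnd φ ψ n + c), x, ind_pos col hn1, ind_pos col hx1,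
    ind_pos col hx2, ?_⟩
  have h1 := mem_pairs.1 n.2
  rw [map_add, map_add, hcw, pfst_apply, psnd_apply]
  have : φ n.1.1 + (ψ x + (ψ n.1.2 + w)) - ψ x = (φ n.1.1 + ψ n.1.2) + w := by abel
  rw [this, h1, zero_add]

end Pool.Agent.Helper91.Bohr
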