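import Mathlib
import Pool.Agent.Helper91.BohrG

/-!
Kernels: nonnegative trigonometric polynomials concentrated near the zero set of `ω - 1`.
-/

namespace Pool.Agent.Helper91.Bohr

open Filter Topology ComplexConjugate

section NN
variable {N : Type*} [AddCommGroup N]

/-- nonnegative combination of at most `K` characters -/
def NN (F : N → ℂ) (K : ℕ) : Prop :=
  ∃ (s : Finset (AddChar N Circle)) (c : AddChar N Circle → ℝ), s.card ≤ K ∧ (∀ ω, 0 ≤ c ω) ∧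
    ∀ x, F x = ∑ ω ∈ s, (c ω : ℂ) * (ω x : ℂ)

theorem NN.char (ω : AddChar N Circle) : NN (fun x => (ω x : ℂ)) 1 :=
  ⟨{ω}, fun _ => 1, by simp, fun _ => zero_le_one, fun x => by simp⟩

theorem NN.one : NN (fun _ : N => (1 : ℂ)) 1 := by
  have := NN.char (1 : AddChar N Circle)
  simpa using this

theorem NN.zero : NN (fun _ : N => (0 : ℂ)) 0 :=
  ⟨∅, fun _ => 0, by simp, fun _ => le_rfl, fun x => by simp⟩

theorem NN.add {F F' : N → ℂ} {K K' : ℕ} (h : NN F K) (h' : NN F' K') :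
    NN (fun x => F x + F' x) (K + K') := by
  classical
  obtain ⟨s, c, hs, hc, hF⟩ := h
  obtain ⟨s', c', hs', hc', hF'⟩ := h'
  refine ⟨s ∪ s', fun ω => (if ω ∈ s then c ω else 0) + (if ω ∈ s' then c' ω else 0),
    (Finset.card_union_le _ _).trans (add_le_add hs hs'), fun ω => ?_, fun x => ?_⟩
  · have := hc ω
    have := hc' ω
    beta_reduce
    split_ifs <;> simp <;> linarith
  · beta_reduce
    rw [hF, hF']
    have e1 : ∑ ω ∈ s, (c ω : ℂ) * (ω x : ℂ) =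
        ∑ ω ∈ s ∪ s', (if ω ∈ s then (c ω : ℂ) else 0) * (ω x : ℂ) := by
      rw [← Finset.sum_subset (Finset.subset_union_left (s₁ := s) (s₂ := s'))]
      · refine Finset.sum_congr rfl fun ω hω => ?_
        rw [if_pos hω]
      · intro ω _ hω
        rw [if_neg hω, zero_mul]
    have e2 : ∑ ω ∈ s', (c' ω : ℂ) * (ω x : ℂ) =
        ∑ ω ∈ s ∪ s', (if ω ∈ s' then (c' ω : ℂ) else 0) * (ω x : ℂ) := by
      rw [← Finset.sum_subset (Finset.subset_union_right (s₁ := s) (s₂ := s'))]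
      · refine Finset.sum_congr rfl fun ω hω => ?_
        rw [if_pos hω]
      · intro ω _ hω
        rw [if_neg hω, zero_mul]
    rw [e1, e2, ← Finset.sum_add_distrib]
    refine Finset.sum_congr rfl fun ω _ => ?_
    split_ifs <;> push_cast <;> ring

theorem NN.mul {F F' : N → ℂ} {K K' : ℕ} (h : NN F K) (h' : NN F' K') :
    NN (fun x => F x * F' x) (K * K') := by
  classical
  obtain ⟨s, c, hs, hc, hF⟩ := h
  obtain ⟨s', c', hs', hc', hF'⟩ := h'
  refine ⟨(s ×ˢ s').image (fun p => p.1 * p.2), fun ω =>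
    ∑ p ∈ (s ×ˢ s').filter (fun p => p.1 * p.2 = ω), c p.1 * c' p.2, ?_, fun ω => ?_, fun x => ?_⟩
  · refine Finset.card_image_le.trans ?_
    rw [Finset.card_product]
    exact Nat.mul_le_mul hs hs'
  · exact Finset.sum_nonneg fun p _ => mul_nonneg (hc _) (hc' _)
  · beta_reduce
    rw [hF, hF', Finset.sum_mul_sum, ← Finset.sum_product']
    rw [← Finset.sum_fiberwise_of_maps_to (g := fun p : AddChar N Circle × AddChar N Circle =>
      p.1 * p.2) (t := (s ×ˢ s').image (fun p => p.1 * p.2))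
      (fun p hp => Finset.mem_image_of_mem _ hp)]
    refine Finset.sum_congr rfl fun ω _ => ?_
    push_cast
    rw [Finset.sum_mul]
    refine Finset.sum_congr rfl fun p hp => ?_
    have h1 := (Finset.mem_filter.1 hp).2
    rw [← h1, AddChar.mul_apply, Circle.coe_mul]
    ring

theorem NN.conj {F : N → ℂ} {K : ℕ} (h : NN F K) : NN (fun x => conj (F x)) K := by
  classical
  obtain ⟨s, c, hs, hc, hF⟩ := h
  refine ⟨s.image (fun ω => ω⁻¹), fun ω => c ω⁻¹, Finset.card_image_le.trans hs,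
    fun ω => hc _, fun x => ?_⟩
  beta_reduce
  rw [hF, map_sum, Finset.sum_image (fun a _ b _ h => inv_injective h)]
  refine Finset.sum_congr rfl fun ω _ => ?_
  rw [map_mul, Complex.conj_ofReal, char_conj, inv_inv]

theorem NN.geom (ω : AddChar N Circle) (n : ℕ) :
    NN (fun x => ∑ j ∈ Finset.range n, (ω x : ℂ) ^ j) n := by
  induction n with
  | zero => simpa using NN.zero
  | succ n ih =>
    have h1 := ih.add (NN.char (ω ^ n))
    have : (fun x => ∑ j ∈ Finset.range (n + 1), (ω x : ℂ) ^ j) =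
        (fun x => ∑ j ∈ Finset.range n, (ω x : ℂ) ^ j + (((ω ^ n) x : Circle) : ℂ)) := by
      funext x
      rw [Finset.sum_range_succ, AddChar.pow_apply, Circle.coe_pow]
    rw [this]
    exact h1

theorem NN.prod (Γ : Finset (AddChar N Circle)) (n : ℕ) :
    NN (fun x => ∏ ω ∈ Γ, ∑ j ∈ Finset.range n, (ω x : ℂ) ^ j) (n ^ Γ.card) := by
  classical
  induction Γ using Finset.induction_on with
  | empty => simpa using NN.one
  | insert a Γ ha ih =>
    have h1 := (NN.geom a n).mul ih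
    rw [Finset.card_insert_of_notMem ha, pow_succ, mul_comm]
    simpa [Finset.prod_insert ha] using h1

theorem NN.bd {F : N → ℂ} {K : ℕ} (h : NN F K) : Bd F := by
  obtain ⟨s, c, hs, hc, hF⟩ := h
  have : F = fun x => ∑ ω ∈ s, (c ω : ℂ) * (ω x : ℂ) := funext hF
  rw [this]
  exact Bd.sum s fun ω _ => (Bd.char ω).smulC _

theorem NN.mean_re_nonneg {F : N → ℂ} {K : ℕ} (h : NN F K) {ν : Mean N} (hν : ν.Inv) :
    0 ≤ (ν.c F).re := by
  obtain ⟨s, c, hs, hc, hF⟩ := h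
  have : F = fun x => ∑ ω ∈ s, (c ω : ℂ) * (ω x : ℂ) := funext hF
  rw [this, ν.c_sum, Complex.re_sum]
  refine Finset.sum_nonneg fun ω _ => ?_
  rw [ν.c_smul, Mean.c_char hν]
  split_ifs
  · rw [mul_one, Complex.ofReal_re]; exact hc ω
  · rw [mul_zero]; exact le_rfl

/-- the product of geometric sums -/
noncomputable def dir (Γ : Finset (AddChar N Circle)) (n : ℕ) (x : N) : ℂ :=
  ∏ ω ∈ Γ, ∑ j ∈ Finset.range n, (ω x : ℂ) ^ j

theorem dir_bd (Γ : Finset (AddChar N Circle)) (n : ℕ) : Bd (dir Γ n) := (NN.prod Γ n).bd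

/-- energy of the product -/
noncomputable def dirE (ν : Mean N) (Γ : Finset (AddChar N Circle)) (n : ℕ) : ℝ :=
  ν (fun x => ‖dir Γ n x‖ ^ 2)

theorem dirE_nonneg (ν : Mean N) (Γ : Finset (AddChar N Circle)) (n : ℕ) : 0 ≤ dirE ν Γ n :=
  ν.nonneg _ ((dir_bd Γ n).norm.pow 2) fun _ => sq_nonneg _

theorem dirE_insert {ν : Mean N} (hν : ν.Inv) {Γ : Finset (AddChar N Circle)}
    {a : AddChar N Circle} (ha : a ∉ Γ) (n : ℕ) :
    n * dirE ν Γ n ≤ dirE ν (insert a Γ) n := by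
  classical
  have h1 : (dirE ν (insert a Γ) n : ℂ) = ∑ j ∈ Finset.range n, ∑ j' ∈ Finset.range n,
      ν.c (fun x => ((a x : ℂ) ^ j * conj ((a x : ℂ) ^ j')) * (dir Γ n x * conj (dir Γ n x))) := by
    simp_rw [← ν.c_sum]
    rw [dirE, ← ν.c_ofReal]
    congr 1
    funext x
    have e1 : (((‖dir (insert a Γ) n x‖ ^ 2 : ℝ)) : ℂ) =
        dir (insert a Γ) n x * conj (dir (insert a Γ) n x) := by
      rw [Complex.mul_conj, Complex.normSq_eq_norm_sq]
    rw [e1]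
    have e2 : dir (insert a Γ) n x = (∑ j ∈ Finset.range n, (a x : ℂ) ^ j) * dir Γ n x := by
      rw [dir, Finset.prod_insert ha]; rfl
    rw [e2, map_mul, map_sum]
    have e3 : (∑ j ∈ Finset.range n, (a x : ℂ) ^ j) * dir Γ n x *
        ((∑ j' ∈ Finset.range n, conj ((a x : ℂ) ^ j')) * conj (dir Γ n x)) =
        ((∑ j ∈ Finset.range n, (a x : ℂ) ^ j) * (∑ j' ∈ Finset.range n, conj ((a x : ℂ) ^ j'))) *
          (dir Γ n x * conj (dir Γ n x)) := by ring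
    rw [e3, Finset.sum_mul_sum, Finset.sum_mul]
    refine Finset.sum_congr rfl fun j _ => ?_
    rw [Finset.sum_mul]
  have h2 : dirE ν (insert a Γ) n = ∑ j ∈ Finset.range n, ∑ j' ∈ Finset.range n,
      (ν.c (fun x => ((a x : ℂ) ^ j * conj ((a x : ℂ) ^ j')) *
        (dir Γ n x * conj (dir Γ n x)))).re := by
    have := congrArg Complex.re h1
    rw [Complex.ofReal_re, Complex.re_sum] at this
    simp_rw [Complex.re_sum] at this
    exact this
  have hnn : ∀ j j' : ℕ, 0 ≤ (ν.c (fun x => ((a x : ℂ) ^ j * conj ((a x : ℂ) ^ j')) *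
        (dir Γ n x * conj (dir Γ n x)))).re := by
    intro j j'
    have a1 : NN (fun x => (a x : ℂ) ^ j) 1 := by
      have := NN.char (a ^ j)
      simpa [AddChar.pow_apply, Circle.coe_pow] using this
    have a2 : NN (fun x => (a x : ℂ) ^ j') 1 := by
      have := NN.char (a ^ j')
      simpa [AddChar.pow_apply, Circle.coe_pow] using this
    exact ((a1.mul a2.conj).mul ((NN.prod Γ n).mul (NN.prod Γ n).conj)).mean_re_nonneg hν
  have hdiag : ∀ j : ℕ, (ν.c (fun x => ((a x : ℂ) ^ j * conj ((a x : ℂ) ^ j)) *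
        (dir Γ n x * conj (dir Γ n x)))).re = dirE ν Γ n := by
    intro j
    have : (fun x => ((a x : ℂ) ^ j * conj ((a x : ℂ) ^ j)) *
        (dir Γ n x * conj (dir Γ n x))) = (fun x => ((‖dir Γ n x‖ ^ 2 : ℝ) : ℂ)) := by
      funext x
      rw [map_pow, ← mul_pow, char_mul_conj, one_pow, one_mul, Complex.mul_conj,
        Complex.normSq_eq_norm_sq]
    rw [this, ν.c_ofReal, Complex.ofReal_re]
    rfl
  rw [h2]
  have h3 : ∀ j ∈ Finset.range n, dirE ν Γ n ≤ ∑ j' ∈ Finset.range n,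
      (ν.c (fun x => ((a x : ℂ) ^ j * conj ((a x : ℂ) ^ j')) *
        (dir Γ n x * conj (dir Γ n x)))).re := by
    intro j hj
    rw [← hdiag j]
    exact Finset.single_le_sum (f := fun j' => (ν.c (fun x =>
      ((a x : ℂ) ^ j * conj ((a x : ℂ) ^ j')) * (dir Γ n x * conj (dir Γ n x)))).re)
      (fun j' _ => hnn j j') hj
  calc n * dirE ν Γ n = ∑ j ∈ Finset.range n, dirE ν Γ n := by
        rw [Finset.sum_const, Finset.card_range, nsmul_eq_mul]
    _ ≤ _ := Finset.sum_le_sum h3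

theorem dirE_ge {ν : Mean N} (hν : ν.Inv) (Γ : Finset (AddChar N Circle)) (n : ℕ) :
    (n : ℝ) ^ Γ.card ≤ dirE ν Γ n := by
  classical
  induction Γ using Finset.induction_on with
  | empty =>
    simp only [Finset.card_empty, pow_zero]
    have : (fun x : N => ‖dir ∅ n x‖ ^ 2) = fun _ => 1 := by
      funext x; simp [dir]
    rw [dirE, this, ν.const']
  | insert a Γ ha ih =>
    rw [Finset.card_insert_of_notMem ha, pow_succ, mul_comm]
    exact (mul_le_mul_of_nonneg_left ih (Nat.cast_nonneg n)).trans (dirE_insert hν ha n)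

theorem dir_norm_le (Γ : Finset (AddChar N Circle)) (n : ℕ) (x : N) :
    ‖dir Γ n x‖ ≤ (n : ℝ) ^ Γ.card := by
  rw [dir, norm_prod]
  have h1 : ∀ ω ∈ Γ, ‖∑ j ∈ Finset.range n, (ω x : ℂ) ^ j‖ ≤ n := by
    intro ω _
    refine (norm_sum_le _ _).trans ?_
    have : ∀ j ∈ Finset.range n, ‖(ω x : ℂ) ^ j‖ ≤ 1 := fun j _ => by
      rw [norm_pow, Circle.norm_coe, one_pow]
    refine (Finset.sum_le_card_nsmul _ _ _ this).trans ?_
    rw [Finset.card_range, nsmul_eq_mul, mul_one]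
  calc ∏ ω ∈ Γ, ‖∑ j ∈ Finset.range n, (ω x : ℂ) ^ j‖ ≤ ∏ ω ∈ Γ, (n : ℝ) :=
        Finset.prod_le_prod (fun ω _ => norm_nonneg _) h1
    _ = (n : ℝ) ^ Γ.card := by rw [Finset.prod_const]

theorem dir_concentrate {ν : Mean N} (hν : ν.Inv) (Γ : Finset (AddChar N Circle)) (n : ℕ)
    {a : AddChar N Circle} (ha : a ∈ Γ) :
    n * ν (fun x => ‖dir Γ n x‖ ^ 2 * ‖(a x : ℂ) - 1‖ ^ 2) ≤ 4 * dirE ν Γ n := by
  classical
  set Γ' := Γ.erase a with hΓ'
  have haΓ' : a ∉ Γ' := Finset.notMem_erase a Γ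
  have hins : insert a Γ' = Γ := Finset.insert_erase ha
  have h1 : ν (fun x => ‖dir Γ n x‖ ^ 2 * ‖(a x : ℂ) - 1‖ ^ 2) ≤ 4 * dirE ν Γ' n := by
    rw [dirE, ← ν.smul']
    have hB : Bd (fun x => ‖dir Γ n x‖ ^ 2 * ‖(a x : ℂ) - 1‖ ^ 2) :=
      ((dir_bd Γ n).norm.pow 2).mul (((Bd.char a).sub (Bd.const 1)).norm.pow 2)
    refine ν.mono hB (((dir_bd Γ' n).norm.pow 2).smulR 4) fun x => ?_
    have e1 : dir Γ n x = (∑ j ∈ Finset.range n, (a x : ℂ) ^ j) * dir Γ' n x := by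
      rw [← hins, dir, Finset.prod_insert haΓ']; rfl
    have e2 : (∑ j ∈ Finset.range n, (a x : ℂ) ^ j) * ((a x : ℂ) - 1) = (a x : ℂ) ^ n - 1 :=
      geom_sum_mul _ _
    have e3 : ‖dir Γ n x‖ ^ 2 * ‖(a x : ℂ) - 1‖ ^ 2 =
        ‖(a x : ℂ) ^ n - 1‖ ^ 2 * ‖dir Γ' n x‖ ^ 2 := by
      rw [← e2, e1, norm_mul, norm_mul]
      ring
    rw [e3]
    refine mul_le_mul_of_nonneg_right ?_ (sq_nonneg _)
    have e4 : ‖(a x : ℂ) ^ n - 1‖ ≤ 2 := by
      refine (norm_sub_le _ _).trans ?_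
      rw [norm_pow, Circle.norm_coe, one_pow, norm_one]
      norm_num
    nlinarith [norm_nonneg ((a x : ℂ) ^ n - 1)]
  have h2 := dirE_insert hν haΓ' n
  rw [hins] at h2
  calc (n : ℝ) * ν (fun x => ‖dir Γ n x‖ ^ 2 * ‖(a x : ℂ) - 1‖ ^ 2)
      ≤ n * (4 * dirE ν Γ' n) := mul_le_mul_of_nonneg_left h1 (Nat.cast_nonneg n)
    _ = 4 * (n * dirE ν Γ' n) := by ring
    _ ≤ 4 * dirE ν Γ n := mul_le_mul_of_nonneg_left h2 (by norm_num)

/-- The weight lemma. -/
theorem exists_weight {ν : Mean N} (hν : ν.Inv) (Γ : Finset (AddChar N Circle)) (n g : ℕ)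
    (hn : 1 ≤ n) (hg : Γ.card ≤ g) :
    ∃ (s : Finset (AddChar N Circle)) (c : AddChar N Circle → ℝ) (W : N → ℝ),
      s.card ≤ n ^ (2 * g) ∧ (∀ θ, 0 ≤ c θ) ∧ (∀ θ, θ ∉ s → c θ = 0) ∧
      (∀ x, (W x : ℂ) = ∑ θ ∈ s, (c θ : ℂ) * (θ x : ℂ)) ∧ (∀ x, 0 ≤ W x) ∧
      (∀ x, W x ≤ (n : ℝ) ^ g) ∧ ∑ θ ∈ s, c θ ≤ (n : ℝ) ^ g ∧ ν W = 1 ∧
      ∀ ω ∈ Γ, ν (fun x => W x * ‖(ω x : ℂ) - 1‖ ^ 2) ≤ 4 / n := by
  classical
  have hn1 : (1 : ℝ) ≤ n := by exact_mod_cast hn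
  have hn0 : (0 : ℝ) < n := by linarith
  set B := dirE ν Γ n with hB
  have hBge : (n : ℝ) ^ Γ.card ≤ B := dirE_ge hν Γ n
  have hBpos : 0 < B := lt_of_lt_of_le (pow_pos hn0 _) hBge
  obtain ⟨s, c, hs, hc, hF⟩ := (NN.prod Γ n).mul (NN.prod Γ n).conj
  have hF' : ∀ x, ((‖dir Γ n x‖ ^ 2 : ℝ) : ℂ) = ∑ ω ∈ s, (c ω : ℂ) * (ω x : ℂ) := by
    intro x
    rw [← hF x]
    rw [← Complex.normSq_eq_norm_sq, ← Complex.mul_conj]
    rfl
  let c' : AddChar N Circle → ℝ := fun θ => if θ ∈ s then c θ / B else 0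
  let W : N → ℝ := fun x => ‖dir Γ n x‖ ^ 2 / B
  have hWexp : ∀ x, (W x : ℂ) = ∑ θ ∈ s, (c' θ : ℂ) * (θ x : ℂ) := by
    intro x
    have : (W x : ℂ) = ((‖dir Γ n x‖ ^ 2 : ℝ) : ℂ) / B := by
      simp only [W]; push_cast; rfl
    rw [this, hF', Finset.sum_div]
    refine Finset.sum_congr rfl fun θ hθ => ?_
    simp only [c', if_pos hθ]
    push_cast
    ring
  have hWle : ∀ x, W x ≤ (n : ℝ) ^ g := by
    intro x
    have h1 : ‖dir Γ n x‖ ^ 2 ≤ ((n : ℝ) ^ Γ.card) ^ 2 :=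
      pow_le_pow_left₀ (norm_nonneg _) (dir_norm_le Γ n x) 2
    have h2 : W x ≤ (n : ℝ) ^ Γ.card := by
      simp only [W]
      rw [div_le_iff₀ hBpos]
      calc ‖dir Γ n x‖ ^ 2 ≤ ((n : ℝ) ^ Γ.card) ^ 2 := h1
        _ = (n : ℝ) ^ Γ.card * (n : ℝ) ^ Γ.card := by ring
        _ ≤ (n : ℝ) ^ Γ.card * B := mul_le_mul_of_nonneg_left hBge (by positivity)
    exact h2.trans (pow_le_pow_right₀ hn1 hg)
  refine ⟨s, c', W, ?_, fun θ => ?_, fun θ hθ => ?_, hWexp, fun x => ?_, hWle, ?_, ?_, ?_⟩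
  · refine hs.trans ?_
    rw [← pow_add, ← two_mul]
    exact Nat.pow_le_pow_right hn (Nat.mul_le_mul_left 2 hg)
  · simp only [c']
    split_ifs
    · exact div_nonneg (hc θ) hBpos.le
    · exact le_rfl
  · simp only [c', if_neg hθ]
  · simp only [W]; positivity
  · have h1 := hWexp 0
    simp only [AddChar.map_zero_eq_one, Circle.coe_one, mul_one] at h1
    have h2 : W 0 = ∑ θ ∈ s, c' θ := by exact_mod_cast h1
    rw [← h2]
    exact hWle 0
  · have : W = fun x => B⁻¹ * ‖dir Γ n x‖ ^ 2 := by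
      funext x
      simp only [W]
      rw [div_eq_inv_mul]
    rw [this, ν.smul']
    exact inv_mul_cancel₀ hBpos.ne'
  · intro ω hω
    have h1 := dir_concentrate hν Γ n hω
    have : (fun x => W x * ‖(ω x : ℂ) - 1‖ ^ 2) =
        fun x => B⁻¹ * (‖dir Γ n x‖ ^ 2 * ‖(ω x : ℂ) - 1‖ ^ 2) := by
      funext x
      simp only [W]
      rw [div_eq_inv_mul]
      ring
    rw [this, ν.smul', le_div_iff₀ hn0, inv_mul_eq_div, div_mul_eq_mul_div, div_le_iff₀ hBpos]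
    linarith

end NN

end Pool.Agent.Helper91.Bohr
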