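import Mathlib
import Pool.Agent.Helper91.BohrI

/-!
Smoothing kernels, Parseval for trigonometric polynomials, energy.
-/

namespace Pool.Agent.Helper91.Bohr

open Filter Topology ComplexConjugate

section Parseval
variable {G : Type*} [AddCommGroup G]

theorem parseval {m : Mean G} (hm : m.Inv) (T : Finset (AddChar G Circle))
    (b : AddChar G Circle → ℂ) :
    m (fun x => ‖∑ θ ∈ T, b θ * (θ x : ℂ)‖ ^ 2) = ∑ θ ∈ T, ‖b θ‖ ^ 2 := by
  classical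
  have h1 : m.c (fun x => (∑ θ ∈ T, b θ * (θ x : ℂ)) * conj (∑ θ ∈ T, b θ * (θ x : ℂ))) =
      ∑ θ ∈ T, ((‖b θ‖ ^ 2 : ℝ) : ℂ) := by
    have e1 : (fun x => (∑ θ ∈ T, b θ * (θ x : ℂ)) * conj (∑ θ ∈ T, b θ * (θ x : ℂ))) =
        (fun x => ∑ θ ∈ T, conj (b θ) * ((∑ χ ∈ T, b χ * (χ x : ℂ)) * conj (θ x : ℂ))) := by
      funext x
      rw [map_sum, Finset.mul_sum]
      refine Finset.sum_congr rfl fun θ _ => ?_
      rw [map_mul]
      ring
    rw [e1, m.c_sum]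
    refine Finset.sum_congr rfl fun θ hθ => ?_
    rw [m.c_smul]
    have e2 : m.c (fun x => (∑ χ ∈ T, b χ * (χ x : ℂ)) * conj (θ x : ℂ)) =
        m.coef (fun x => ∑ χ ∈ T, b χ * (χ x : ℂ)) θ := rfl
    rw [e2, Mean.coef_sum]
    have e3 : ∀ χ ∈ T, m.coef (fun x => b χ * (χ x : ℂ)) θ = if θ = χ then b χ else 0 := by
      intro χ _
      rw [Mean.coef_smul, Mean.coef_char hm]
      split_ifs
      · rw [mul_one]
      · rw [mul_zero]
    rw [Finset.sum_congr rfl e3, Finset.sum_ite_eq, if_pos hθ, mul_comm, Complex.mul_conj,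
      Complex.normSq_eq_norm_sq]
  have h2 : (fun x => (∑ θ ∈ T, b θ * (θ x : ℂ)) * conj (∑ θ ∈ T, b θ * (θ x : ℂ))) =
      (fun x => ((‖∑ θ ∈ T, b θ * (θ x : ℂ)‖ ^ 2 : ℝ) : ℂ)) := by
    funext x
    rw [Complex.mul_conj, Complex.normSq_eq_norm_sq]
  rw [h2, m.c_ofReal] at h1
  exact_mod_cast h1

/-- Pythagoras for the remainder -/
theorem remainder_norm_sq {m : Mean G} (hm : m.Inv) {f : G → ℂ} (hf : Bd f)
    (Γ : Finset (AddChar G Circle)) :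
    m (fun x => ‖remainder m f Γ x‖ ^ 2) ≤ m (fun x => ‖f x‖ ^ 2) := by
  classical
  have hP : Bd (fun x => ∑ θ ∈ Γ, m.coef f θ * (θ x : ℂ)) :=
    Bd.sum Γ fun θ _ => (Bd.char θ).smulC _
  have h1 : m.c (fun x => f x * conj (∑ θ ∈ Γ, m.coef f θ * (θ x : ℂ))) =
      ((∑ θ ∈ Γ, ‖m.coef f θ‖ ^ 2 : ℝ) : ℂ) := by
    have e1 : (fun x => f x * conj (∑ θ ∈ Γ, m.coef f θ * (θ x : ℂ))) =
        (fun x => ∑ θ ∈ Γ, conj (m.coef f θ) * (f x * conj (θ x : ℂ))) := by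
      funext x
      rw [map_sum, Finset.mul_sum]
      refine Finset.sum_congr rfl fun θ _ => ?_
      rw [map_mul]
      ring
    rw [e1, m.c_sum]
    push_cast
    refine Finset.sum_congr rfl fun θ _ => ?_
    rw [m.c_smul]
    have e2 : m.c (fun x => f x * conj (θ x : ℂ)) = m.coef f θ := rfl
    rw [e2, mul_comm, Complex.mul_conj, Complex.normSq_eq_norm_sq]
    push_cast
    rfl
  have h2 : m (fun x => (f x * conj (∑ θ ∈ Γ, m.coef f θ * (θ x : ℂ))).re) =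
      ∑ θ ∈ Γ, ‖m.coef f θ‖ ^ 2 := by
    have := congrArg Complex.re h1
    rwa [Mean.c_re, Complex.ofReal_re] at this
  have h3 := parseval hm Γ (fun θ => m.coef f θ)
  have h4 : (fun x => ‖remainder m f Γ x‖ ^ 2) = (fun x => (‖f x‖ ^ 2 -
      2 * (f x * conj (∑ θ ∈ Γ, m.coef f θ * (θ x : ℂ))).re) +
        ‖∑ θ ∈ Γ, m.coef f θ * (θ x : ℂ)‖ ^ 2) := by
    funext x
    rw [remainder, ← Complex.normSq_eq_norm_sq, ← Complex.normSq_eq_norm_sq,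
      ← Complex.normSq_eq_norm_sq, Complex.normSq_sub]
    ring
  rw [h4, m.add', m.sub', m.smul', h2, h3]
  have h5 : 0 ≤ ∑ θ ∈ Γ, ‖m.coef f θ‖ ^ 2 := Finset.sum_nonneg fun _ _ => sq_nonneg _
  linarith

end Parseval

/-- A smoothing kernel: a nonnegative trigonometric polynomial with constant term one and
nonnegative coefficients. -/
structure Ker (G : Type*) [AddCommGroup G] where
  S : Finset (AddChar G Circle)
  k : AddChar G Circle → ℝ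
  K : G → ℝ
  k0 : ∀ θ, 0 ≤ k θ
  k1 : ∀ θ, k θ ≤ 1
  kS : ∀ θ, θ ∉ S → k θ = 0
  kone : k 1 = 1
  K0 : ∀ x, 0 ≤ K x
  hK : ∀ x, (K x : ℂ) = ∑ θ ∈ S, (k θ : ℂ) * (θ x : ℂ)

namespace Ker
variable {G : Type*} [AddCommGroup G]

/-- the trivial kernel -/
noncomputable def triv : Ker G := by
  classical
  exact
  { S := {1}
    k := fun θ => if θ = 1 then 1 else 0
    K := fun _ => 1
    k0 := fun θ => by split_ifs <;> norm_num
    k1 := fun θ => by split_ifs <;> norm_num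
    kS := fun θ h => by rw [Finset.mem_singleton] at h; simp [h]
    kone := by simp
    K0 := fun _ => zero_le_one
    hK := fun x => by simp }

theorem triv_card : (triv : Ker G).S.card = 1 := by
  simp [triv]

theorem bd (κ : Ker G) : Bd κ.K := by
  have h1 : Bd (fun x => ∑ θ ∈ κ.S, (κ.k θ : ℂ) * (θ x : ℂ)) :=
    Bd.sum _ fun θ _ => (Bd.char θ).smulC _
  refine h1.of_le fun x => ?_
  rw [← κ.hK, Complex.norm_real]

/-- existence of kernels -/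
theorem exists_ker (m : Mean G) (hm : m.Inv) (Γ : Finset (AddChar G Circle)) (n g : ℕ)
    (hn : 1 ≤ n) (hg : Γ.card ≤ g) :
    ∃ κ : Ker G, κ.S.card ≤ n ^ (2 * g) ∧ ∀ θ ∈ Γ, 1 - 2 / n ≤ κ.k θ := by
  classical
  obtain ⟨s, c, W, hs, hc0, hcs, hW, hW0, hWle, hsum, hνW, hconc⟩ := exists_weight hm Γ n g hn hg
  have hWB : Bd W := ⟨(n : ℝ) ^ g, fun x => by
    rw [Real.norm_eq_abs, abs_of_nonneg (hW0 x)]; exact hWle x⟩
  have hcoef : ∀ θ, m.coef (fun x => (W x : ℂ)) θ = c θ := by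
    intro θ
    have e1 : (fun x => (W x : ℂ)) = (fun x => ∑ χ ∈ s, (c χ : ℂ) * (χ x : ℂ)) := funext hW
    rw [e1, Mean.coef_sum]
    have e3 : ∀ χ ∈ s, m.coef (fun x => (c χ : ℂ) * (χ x : ℂ)) θ =
        if θ = χ then (c χ : ℂ) else 0 := by
      intro χ _
      rw [Mean.coef_smul, Mean.coef_char hm]
      split_ifs
      · rw [mul_one]
      · rw [mul_zero]
    rw [Finset.sum_congr rfl e3, Finset.sum_ite_eq]
    split_ifs with h
    · rfl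
    · rw [hcs θ h, Complex.ofReal_zero]
  have hre : ∀ θ, c θ = m (fun x => W x * (θ x : ℂ).re) := by
    intro θ
    have h1 := congrArg Complex.re (hcoef θ)
    rw [Complex.ofReal_re, Mean.coef, Mean.c_re] at h1
    rw [← h1]
    congr 1
    funext x
    rw [Complex.re_ofReal_mul, Complex.conj_re]
  have hB : ∀ θ : AddChar G Circle, Bd (fun x => W x * (θ x : ℂ).re) := fun θ =>
    hWB.mul (Bd.char θ).re
  refine ⟨⟨s, c, W, hc0, fun θ => ?_, hcs, ?_, hW0, hW⟩, hs, fun θ hθ => ?_⟩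
  · rw [hre, ← hνW]
    refine m.mono (hB θ) hWB fun x => ?_
    have h2 : (θ x : ℂ).re ≤ 1 := (Complex.re_le_norm _).trans (Circle.norm_coe _).le
    exact mul_le_of_le_one_right (hW0 x) h2
  · rw [hre, ← hνW]
    congr 1
    funext x
    simp
  · have h3 := hconc θ hθ
    have e2 : (fun x => W x * ‖(θ x : ℂ) - 1‖ ^ 2) =
        (fun x => 2 * W x - 2 * (W x * (θ x : ℂ).re)) := by
      funext x
      have h4 : ‖(θ x : ℂ) - 1‖ ^ 2 = 2 - 2 * (θ x : ℂ).re := by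
        rw [← Complex.normSq_eq_norm_sq, Complex.normSq_sub]
        simp only [Circle.normSq_coe, map_one, mul_one]
        ring
      rw [h4]
      ring
    rw [e2, m.sub', m.smul', m.smul', hνW, ← hre] at h3
    change 1 - 2 / (n : ℝ) ≤ c θ
    have : (4 : ℝ) / n = 2 * (2 / n) := by ring
    linarith

variable (κ : Ker G) (m : Mean G)

/-- smoothing of a function -/
noncomputable def sm (f : G → ℝ) (x : G) : ℝ := m (fun y => f y * κ.K (x - y))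

variable {m}

theorem sm_exp {f : G → ℝ} {T : Finset (AddChar G Circle)} (hT : κ.S ⊆ T) (x : G) :
    (κ.sm m f x : ℂ) = ∑ θ ∈ T, ((κ.k θ : ℂ) * m.coef (fun y => (f y : ℂ)) θ) * (θ x : ℂ) := by
  classical
  rw [← Finset.sum_subset hT (fun θ _ hθ => by rw [κ.kS θ hθ]; simp)]
  rw [sm, ← m.c_ofReal]
  have e1 : (fun y => ((f y * κ.K (x - y) : ℝ) : ℂ)) = (fun y => ∑ θ ∈ κ.S,
      ((κ.k θ : ℂ) * (θ x : ℂ)) * ((f y : ℂ) * conj (θ y : ℂ))) := by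
    funext y
    push_cast
    rw [κ.hK, Finset.mul_sum]
    refine Finset.sum_congr rfl fun θ _ => ?_
    rw [AddChar.map_sub_eq_div, div_eq_mul_inv, Circle.coe_mul, Circle.coe_inv_eq_conj]
    ring
  rw [e1, m.c_sum]
  refine Finset.sum_congr rfl fun θ _ => ?_
  rw [m.c_smul, Mean.coef]
  ring

theorem sm_nonneg {f : G → ℝ} (hf : Bd f) (h0 : ∀ x, 0 ≤ f x) (x : G) : 0 ≤ κ.sm m f x :=
  m.nonneg _ (hf.mul (κ.bd.comp _)) fun _ => mul_nonneg (h0 _) (κ.K0 _)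

theorem mean_shift_K (hm : m.Inv) (x : G) : m (fun y => κ.K (x - y)) = 1 := by
  have h1 := κ.sm_exp (m := m) (f := fun _ => 1) (Finset.Subset.refl _) x
  have h2 : κ.sm m (fun _ => 1) x = m (fun y => κ.K (x - y)) := by
    rw [sm]; congr 1; funext y; rw [one_mul]
  rw [h2] at h1
  have h3 : ∀ θ ∈ κ.S, ((κ.k θ : ℂ) * m.coef (fun y => ((1 : ℝ) : ℂ)) θ) * (θ x : ℂ) =
      if θ = 1 then 1 else 0 := by
    classical
    intro θ _
    have e1 : m.coef (fun y : G => ((1 : ℝ) : ℂ)) θ = if θ = 1 then 1 else 0 := by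
      have := Mean.coef_char hm θ (1 : AddChar G Circle)
      simpa using this
    rw [e1]
    split_ifs with h
    · rw [h, κ.kone]; simp
    · simp
  rw [Finset.sum_congr rfl h3, Finset.sum_ite_eq'] at h1
  have h4 : (1 : AddChar G Circle) ∈ κ.S := by
    by_contra h
    have := κ.kS 1 h
    rw [κ.kone] at this
    exact one_ne_zero this
  rw [if_pos h4] at h1
  exact_mod_cast h1

theorem sm_le_one (hm : m.Inv) {f : G → ℝ} (hf : Bd f) (h1 : ∀ x, f x ≤ 1) (x : G) :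
    κ.sm m f x ≤ 1 := by
  rw [← κ.mean_shift_K hm x]
  refine m.mono (hf.mul (κ.bd.comp _)) (κ.bd.comp _) fun y => ?_
  exact mul_le_of_le_one_left (κ.K0 _) (h1 y)

theorem sm_bd {f : G → ℝ} : Bd (κ.sm m f) := by
  have h1 : Bd (fun x => ∑ θ ∈ κ.S, ((κ.k θ : ℂ) * m.coef (fun y => (f y : ℂ)) θ) * (θ x : ℂ)) :=
    Bd.sum _ fun θ _ => (Bd.char θ).smulC _
  refine h1.of_le fun x => ?_
  rw [← κ.sm_exp (Finset.Subset.refl _), Complex.norm_real]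

theorem coef_sm (hm : m.Inv) {f : G → ℝ} (χ : AddChar G Circle) :
    m.coef (fun x => (κ.sm m f x : ℂ)) χ = (κ.k χ : ℂ) * m.coef (fun y => (f y : ℂ)) χ := by
  classical
  have e1 : (fun x => (κ.sm m f x : ℂ)) = (fun x => ∑ θ ∈ κ.S,
      ((κ.k θ : ℂ) * m.coef (fun y => (f y : ℂ)) θ) * (θ x : ℂ)) :=
    funext fun x => κ.sm_exp (Finset.Subset.refl _) x
  rw [e1, Mean.coef_sum]
  have e3 : ∀ θ ∈ κ.S, m.coef (fun x => ((κ.k θ : ℂ) * m.coef (fun y => (f y : ℂ)) θ) *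
      (θ x : ℂ)) χ = if χ = θ then (κ.k θ : ℂ) * m.coef (fun y => (f y : ℂ)) θ else 0 := by
    intro θ _
    rw [Mean.coef_smul, Mean.coef_char hm]
    split_ifs
    · rw [mul_one]
    · rw [mul_zero]
  rw [Finset.sum_congr rfl e3, Finset.sum_ite_eq]
  split_ifs with h
  · rfl
  · rw [κ.kS χ h]; simp

theorem mean_sm (hm : m.Inv) {f : G → ℝ} : m (κ.sm m f) = m f := by
  have h1 := κ.coef_sm hm (f := f) 1
  rw [Mean.coef_const_one, Mean.coef_const_one, κ.kone, m.c_ofReal, m.c_ofReal] at h1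
  simpa using h1

/-- the energy of a kernel relative to a function -/
noncomputable def en (m : Mean G) (f : G → ℝ) : ℝ :=
  ∑ θ ∈ κ.S, κ.k θ ^ 2 * ‖m.coef (fun y => (f y : ℂ)) θ‖ ^ 2

theorem en_eq {f : G → ℝ} {T : Finset (AddChar G Circle)} (hT : κ.S ⊆ T) :
    κ.en m f = ∑ θ ∈ T, κ.k θ ^ 2 * ‖m.coef (fun y => (f y : ℂ)) θ‖ ^ 2 := by
  rw [en]
  exact Finset.sum_subset hT (fun θ _ hθ => by rw [κ.kS θ hθ]; simp)

theorem en_nonneg {f : G → ℝ} : 0 ≤ κ.en m f :=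
  Finset.sum_nonneg fun _ _ => by positivity

theorem en_le_one (hm : m.Inv) {f : G → ℝ} (hf : Bd f) (h0 : ∀ x, 0 ≤ f x) (h1 : ∀ x, f x ≤ 1) :
    κ.en m f ≤ 1 := by
  have hfC : ∀ x, ‖(f x : ℂ)‖ ≤ 1 := fun x => by
    rw [Complex.norm_real, Real.norm_eq_abs, abs_of_nonneg (h0 x)]; exact h1 x
  have h2 := bessel hm hf.ofReal κ.S
  have h3 : m (fun x => ‖(f x : ℂ)‖ ^ 2) ≤ 1 :=
    m.le_of_le (hf.ofReal.norm.pow 2) fun x => pow_le_one₀ (norm_nonneg _) (hfC x)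
  refine (Finset.sum_le_sum fun θ _ => ?_).trans (h2.trans h3)
  refine mul_le_of_le_one_left (sq_nonneg _) ?_
  exact pow_le_one₀ (κ.k0 θ) (κ.k1 θ)

/-- comparison of two kernels -/
theorem sm_diff (hm : m.Inv) {f : G → ℝ} (hf : Bd f) (h0 : ∀ x, 0 ≤ f x) (h1 : ∀ x, f x ≤ 1)
    (κ' : Ker G) {t : ℝ} (ht : 0 ≤ t) (hκ : ∀ θ ∈ κ.S, 1 - t ≤ κ'.k θ) :
    m (fun x => (κ'.sm m f x - κ.sm m f x) ^ 2) ≤ κ'.en m f - κ.en m f + 2 * t := by
  classical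
  set T := κ.S ∪ κ'.S with hT
  have hT1 : κ.S ⊆ T := Finset.subset_union_left
  have hT2 : κ'.S ⊆ T := Finset.subset_union_right
  have e1 : (fun x => (κ'.sm m f x - κ.sm m f x) ^ 2) = (fun x => ‖∑ θ ∈ T,
      (((κ'.k θ - κ.k θ : ℝ) : ℂ) * m.coef (fun y => (f y : ℂ)) θ) * (θ x : ℂ)‖ ^ 2) := by
    funext x
    have : ∑ θ ∈ T, (((κ'.k θ - κ.k θ : ℝ) : ℂ) * m.coef (fun y => (f y : ℂ)) θ) * (θ x : ℂ) =
        ((κ'.sm m f x - κ.sm m f x : ℝ) : ℂ) := by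
      rw [Complex.ofReal_sub, κ'.sm_exp hT2, κ.sm_exp hT1, ← Finset.sum_sub_distrib]
      refine Finset.sum_congr rfl fun θ _ => ?_
      push_cast
      ring
    rw [this, Complex.norm_real, Real.norm_eq_abs, sq_abs]
  rw [e1, parseval hm T (fun θ => ((κ'.k θ - κ.k θ : ℝ) : ℂ) * m.coef (fun y => (f y : ℂ)) θ)]
  rw [κ'.en_eq hT2, κ.en_eq hT1, ← Finset.sum_sub_distrib]
  have h2 : ∀ θ ∈ T, ‖((κ'.k θ - κ.k θ : ℝ) : ℂ) * m.coef (fun y => (f y : ℂ)) θ‖ ^ 2 ≤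
      (κ'.k θ ^ 2 * ‖m.coef (fun y => (f y : ℂ)) θ‖ ^ 2 -
        κ.k θ ^ 2 * ‖m.coef (fun y => (f y : ℂ)) θ‖ ^ 2) +
      (2 * t) * ‖m.coef (fun y => (f y : ℂ)) θ‖ ^ 2 := by
    intro θ _
    rw [norm_mul, mul_pow, Complex.norm_real, Real.norm_eq_abs, sq_abs]
    have h3 : (κ'.k θ - κ.k θ) ^ 2 ≤ κ'.k θ ^ 2 - κ.k θ ^ 2 + 2 * t := by
      by_cases hθ : θ ∈ κ.S
      · have a1 := hκ θ hθ
        have a2 := κ.k0 θ
        have a3 := κ.k1 θ
        have a4 := κ'.k1 θ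
        nlinarith [mul_nonneg a2 (sub_nonneg.2 a1), mul_nonneg a2 (sub_nonneg.2 a3)]
      · rw [κ.kS θ hθ]
        nlinarith
    have h4 := mul_le_mul_of_nonneg_right h3 (sq_nonneg ‖m.coef (fun y => (f y : ℂ)) θ‖)
    nlinarith
  refine (Finset.sum_le_sum h2).trans ?_
  rw [Finset.sum_add_distrib, ← Finset.mul_sum]
  have hfC : ∀ x, ‖(f x : ℂ)‖ ≤ 1 := fun x => by
    rw [Complex.norm_real, Real.norm_eq_abs, abs_of_nonneg (h0 x)]; exact h1 x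
  have h5 := bessel hm hf.ofReal T
  have h6 : m (fun x => ‖(f x : ℂ)‖ ^ 2) ≤ 1 :=
    m.le_of_le (hf.ofReal.norm.pow 2) fun x => pow_le_one₀ (norm_nonneg _) (hfC x)
  have h7 : (2 * t) * ∑ θ ∈ T, ‖m.coef (fun y => (f y : ℂ)) θ‖ ^ 2 ≤ 2 * t * 1 :=
    mul_le_mul_of_nonneg_left (h5.trans h6) (by linarith)
  linarith

/-- coefficients of `f - smooth f` -/
theorem coef_err (hm : m.Inv) {f : G → ℝ} (hf : Bd f) (h0 : ∀ x, 0 ≤ f x) (h1 : ∀ x, f x ≤ 1)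
    {ε : ℝ} {Γ : Finset (AddChar G Circle)}
    (hΓ : ∀ χ, χ ∈ Γ ↔ ε < ‖m.coef (fun x => (f x : ℂ)) χ‖)
    (hκ : ∀ θ ∈ Γ, 1 - ε ≤ κ.k θ) (χ : AddChar G Circle) :
    ‖m.coef (fun x => ((f x - κ.sm m f x : ℝ) : ℂ)) χ‖ ≤ ε := by
  have hfC : ∀ x, ‖(f x : ℂ)‖ ≤ 1 := fun x => by
    rw [Complex.norm_real, Real.norm_eq_abs, abs_of_nonneg (h0 x)]; exact h1 x
  have e1 : m.coef (fun x => ((f x - κ.sm m f x : ℝ) : ℂ)) χ =
      ((1 - κ.k χ : ℝ) : ℂ) * m.coef (fun x => (f x : ℂ)) χ := by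
    have : (fun x => ((f x - κ.sm m f x : ℝ) : ℂ)) =
        (fun x => (f x : ℂ) - (κ.sm m f x : ℂ)) := by
      funext x; push_cast; rfl
    rw [this, Mean.coef_sub, κ.coef_sm hm]
    push_cast
    ring
  rw [e1, norm_mul, Complex.norm_real, Real.norm_eq_abs, abs_of_nonneg (sub_nonneg.2 (κ.k1 χ))]
  have h2 : ‖m.coef (fun x => (f x : ℂ)) χ‖ ≤ 1 := by
    refine m.norm_c_le_of_le fun x => ?_
    rw [norm_mul, RCLike.norm_conj, Circle.norm_coe, mul_one]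
    exact hfC x
  by_cases h : χ ∈ Γ
  · have h3 := hκ χ h
    calc (1 - κ.k χ) * ‖m.coef (fun x => (f x : ℂ)) χ‖ ≤ (1 - κ.k χ) * 1 :=
          mul_le_mul_of_nonneg_left h2 (sub_nonneg.2 (κ.k1 χ))
      _ ≤ ε := by linarith
  · have h3 : ‖m.coef (fun x => (f x : ℂ)) χ‖ ≤ ε := not_lt.1 fun h' => h ((hΓ χ).2 h')
    have h4 := κ.k0 χ
    refine (mul_le_of_le_one_left (norm_nonneg _) (by linarith)).trans h3

/-- translation error of a smoothed function -/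
theorem sm_translate (hm : m.Inv) {f : G → ℝ} (t : G) :
    m (fun x => (κ.sm m f (x + t) - κ.sm m f x) ^ 2) =
      ∑ θ ∈ κ.S, κ.k θ ^ 2 * ‖m.coef (fun y => (f y : ℂ)) θ‖ ^ 2 * ‖(θ t : ℂ) - 1‖ ^ 2 := by
  have e1 : (fun x => (κ.sm m f (x + t) - κ.sm m f x) ^ 2) = (fun x => ‖∑ θ ∈ κ.S,
      ((κ.k θ : ℂ) * m.coef (fun y => (f y : ℂ)) θ * ((θ t : ℂ) - 1)) * (θ x : ℂ)‖ ^ 2) := by
    funext x
    have : ∑ θ ∈ κ.S, ((κ.k θ : ℂ) * m.coef (fun y => (f y : ℂ)) θ * ((θ t : ℂ) - 1)) *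
        (θ x : ℂ) = ((κ.sm m f (x + t) - κ.sm m f x : ℝ) : ℂ) := by
      rw [Complex.ofReal_sub, κ.sm_exp (Finset.Subset.refl _), κ.sm_exp (Finset.Subset.refl _),
        ← Finset.sum_sub_distrib]
      refine Finset.sum_congr rfl fun θ _ => ?_
      rw [char_add]
      ring
    rw [this, Complex.norm_real, Real.norm_eq_abs, sq_abs]
  rw [e1, parseval hm κ.S
    (fun θ => (κ.k θ : ℂ) * m.coef (fun y => (f y : ℂ)) θ * ((θ t : ℂ) - 1))]
  refine Finset.sum_congr rfl fun θ _ => ?_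
  rw [norm_mul, norm_mul, mul_pow, mul_pow, Complex.norm_real, Real.norm_eq_abs, sq_abs]

theorem mean_cube (hm : m.Inv) {f : G → ℝ} (hf : Bd f) (h0 : ∀ x, 0 ≤ f x) :
    (m f) ^ 3 ≤ m (fun x => κ.sm m f x ^ 3) := by
  set s := κ.sm m f with hs
  set t := m f with ht
  have hsB : Bd s := κ.sm_bd
  have ht0 : 0 ≤ t := m.nonneg _ hf h0
  have hms : m s = t := κ.mean_sm hm
  have h1 : m (fun x => 3 * t ^ 2 * s x - 2 * t ^ 3) ≤ m (fun x => s x ^ 3) := by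
    refine m.mono ((hsB.smulR _).sub (Bd.const _)) (hsB.pow 3) fun x => ?_
    have hx : 0 ≤ s x := κ.sm_nonneg hf h0 x
    nlinarith [mul_nonneg (sq_nonneg (s x - t)) (by linarith : 0 ≤ s x + 2 * t)]
  rw [m.sub', m.smul', m.const', hms] at h1
  nlinarith

end Ker

end Pool.Agent.Helper91.Bohr
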