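import Mathlib
import Pool.Agent.Helper91.BohrJ

/-!
The trilinear form with weights.
-/

namespace Pool.Agent.Helper91.Bohr

open Filter Topology ComplexConjugate

section Lam
variable {G N : Type*} [AddCommGroup G] [AddCommGroup N]

/-- the trilinear form -/
noncomputable def Lam (m : Mean G) (ν : Mean N) (u v : N →+ G) (a b c : G → ℂ) : ℂ :=
  ν.c (fun n => m.c (fun x => a x * b (x + u n) * c (x + v n)))

/-- finite index assumptions -/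
structure IdxLe (u v : N →+ G) (C : ℝ) : Prop where
  u0 : u.range.index ≠ 0
  v0 : v.range.index ≠ 0
  d0 : (v - u).range.index ≠ 0
  uC : (u.range.index : ℝ) ≤ C
  vC : (v.range.index : ℝ) ≤ C
  dC : ((v - u).range.index : ℝ) ≤ C

theorem range_neg_eq (p : N →+ G) : (-p).range = p.range := by
  ext x
  constructor
  · rintro ⟨n, rfl⟩
    exact ⟨-n, by rw [map_neg, AddMonoidHom.neg_apply]⟩
  · rintro ⟨n, rfl⟩
    exact ⟨-n, by rw [AddMonoidHom.neg_apply, map_neg, neg_neg]⟩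

theorem IdxLe.one_le {u v : N →+ G} {C : ℝ} (h : IdxLe u v C) : 1 ≤ C := by
  have h1 : (1 : ℝ) ≤ u.range.index := by exact_mod_cast Nat.pos_of_ne_zero h.u0
  exact h1.trans h.uC

theorem sqrt_bound {i j C ε : ℝ} (hi0 : 0 ≤ i) (hi : i ≤ C) (hj0 : 0 ≤ j) (hj : j ≤ C)
    (hC : 1 ≤ C) (hε : 0 ≤ ε) {y : ℝ} (hy : 0 ≤ y)
    (h : y ^ 2 ≤ i * Real.sqrt (j * ε ^ 2)) : y ≤ C * Real.sqrt ε := by
  have h1 : Real.sqrt (j * ε ^ 2) ≤ C * ε := by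
    rw [Real.sqrt_le_left (by positivity)]
    have : j ≤ C ^ 2 := by nlinarith
    calc j * ε ^ 2 ≤ C ^ 2 * ε ^ 2 := mul_le_mul_of_nonneg_right this (sq_nonneg _)
      _ = (C * ε) ^ 2 := by ring
  have h2 : y ^ 2 ≤ (C * Real.sqrt ε) ^ 2 := by
    rw [mul_pow, Real.sq_sqrt hε]
    calc y ^ 2 ≤ i * Real.sqrt (j * ε ^ 2) := h
      _ ≤ C * (C * ε) := mul_le_mul hi h1 (Real.sqrt_nonneg _) (by linarith)
      _ = C ^ 2 * ε := by ring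
  exact (sq_le_sq₀ hy (by positivity)).1 h2

variable {m : Mean G} {ν : Mean N} {u v : N →+ G} {C ε : ℝ}

theorem Lam_bound2 (hm : m.Inv) (he : m.Erg) (hν : ν.Inv) (hI : IdxLe u v C) (hε : 0 ≤ ε)
    {a b c : G → ℂ} (ha : ∀ x, ‖a x‖ ≤ 1) (hb : Bd b) (hb2 : m (fun x => ‖b x‖ ^ 2) ≤ 1)
    (hc : ∀ x, ‖c x‖ ≤ 1) (hcoef : ∀ χ, ‖m.coef b χ‖ ≤ ε) :
    ‖Lam m ν u v a b c‖ ≤ C * Real.sqrt ε := by
  have h1 := trilinear hm he hν u v hI.u0 hI.d0 hb hb2 hc ha (sq_nonneg ε)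
    (fun χ => pow_le_pow_left₀ (norm_nonneg _) (hcoef χ) 2)
  have e1 : ν.c (fun n => m.c (fun x => b (x + u n) * c (x + v n) * a x)) =
      Lam m ν u v a b c := by
    rw [Lam]
    congr 1
    funext n
    congr 1
    funext x
    ring
  rw [e1] at h1
  exact sqrt_bound (Nat.cast_nonneg _) hI.dC (Nat.cast_nonneg _) hI.uC hI.one_le hε
    (norm_nonneg _) h1

theorem Lam_bound3 (hm : m.Inv) (he : m.Erg) (hν : ν.Inv) (hI : IdxLe u v C) (hε : 0 ≤ ε)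
    {a b c : G → ℂ} (ha : ∀ x, ‖a x‖ ≤ 1) (hb : ∀ x, ‖b x‖ ≤ 1)
    (hc : Bd c) (hc2 : m (fun x => ‖c x‖ ^ 2) ≤ 1) (hcoef : ∀ χ, ‖m.coef c χ‖ ≤ ε) :
    ‖Lam m ν u v a b c‖ ≤ C * Real.sqrt ε := by
  have hr : (u - v).range = (v - u).range := by
    rw [← neg_sub, range_neg_eq]
  have h1 := trilinear hm he hν v u hI.v0 (by rw [hr]; exact hI.d0) hc hc2 hb ha (sq_nonneg ε)
    (fun χ => pow_le_pow_left₀ (norm_nonneg _) (hcoef χ) 2)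
  have e1 : ν.c (fun n => m.c (fun x => c (x + v n) * b (x + u n) * a x)) =
      Lam m ν u v a b c := by
    rw [Lam]
    congr 1
    funext n
    congr 1
    funext x
    ring
  rw [e1, hr] at h1
  exact sqrt_bound (Nat.cast_nonneg _) hI.dC (Nat.cast_nonneg _) hI.vC hI.one_le hε
    (norm_nonneg _) h1

theorem Lam_bound1 (hm : m.Inv) (he : m.Erg) (hν : ν.Inv) (hI : IdxLe u v C) (hε : 0 ≤ ε)
    {a b c : G → ℂ} (ha : Bd a) (ha2 : m (fun x => ‖a x‖ ^ 2) ≤ 1) (hb : ∀ x, ‖b x‖ ≤ 1)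
    (hc : ∀ x, ‖c x‖ ≤ 1) (hcoef : ∀ χ, ‖m.coef a χ‖ ≤ ε) :
    ‖Lam m ν u v a b c‖ ≤ C * Real.sqrt ε := by
  have hr : ((v - u) - (-u)) = v := by abel
  have h1 := trilinear hm he hν (-u) (v - u) (by rw [range_neg_eq]; exact hI.u0)
    (by rw [hr]; exact hI.v0) ha ha2 hc hb (sq_nonneg ε)
    (fun χ => pow_le_pow_left₀ (norm_nonneg _) (hcoef χ) 2)
  have e1 : ν.c (fun n => m.c (fun x => a (x + (-u) n) * c (x + (v - u) n) * b x)) =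
      Lam m ν u v a b c := by
    rw [Lam]
    congr 1
    funext n
    have hB : Bd (fun x => a (x + (-u) n) * c (x + (v - u) n) * b x) :=
      ((ha.comp _).mul ((Bd.of_bound hc).comp _)).mul (Bd.of_bound hb)
    rw [← Mean.c_inv hm hB (u n)]
    congr 1
    funext x
    have a1 : x + u n + (-u) n = x := by rw [AddMonoidHom.neg_apply]; abel
    have a2 : x + u n + (v - u) n = x + v n := by rw [AddMonoidHom.sub_apply]; abel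
    rw [a1, a2]
    ring
  rw [e1, hr, range_neg_eq] at h1
  exact sqrt_bound (Nat.cast_nonneg _) hI.vC (Nat.cast_nonneg _) hI.uC hI.one_le hε
    (norm_nonneg _) h1

/-- weighted form -/
noncomputable def LamW (m : Mean G) (ν : Mean N) (u v : N →+ G) (W : N → ℝ)
    (a b c : G → ℂ) : ℂ :=
  ν.c (fun n => (W n : ℂ) * m.c (fun x => a x * b (x + u n) * c (x + v n)))

theorem LamW_exp {W : N → ℝ} {s : Finset (AddChar N Circle)} {w : AddChar N Circle → ℝ}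
    (hW : ∀ n, (W n : ℂ) = ∑ ω ∈ s, (w ω : ℂ) * (ω n : ℂ))
    {χ₁ χ₂ : AddChar N Circle → AddChar G Circle}
    (hχ : ∀ ω n, ω n = χ₁ ω (u n) * χ₂ ω (v n)) (a b c : G → ℂ) :
    LamW m ν u v W a b c = ∑ ω ∈ s, (w ω : ℂ) *
      Lam m ν u v (fun x => a x * (((χ₁ ω * χ₂ ω)⁻¹ x : Circle) : ℂ))
        (fun x => b x * (χ₁ ω x : ℂ)) (fun x => c x * (χ₂ ω x : ℂ)) := by
  unfold LamW Lam
  simp_rw [← ν.c_smul]
  rw [← ν.c_sum]
  congr 1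
  funext n
  rw [hW, Finset.sum_mul]
  refine Finset.sum_congr rfl fun ω _ => ?_
  rw [mul_assoc, ← m.c_smul]
  congr 2
  funext x
  rw [hχ ω n, char_add, char_add, ← char_conj, AddChar.mul_apply, Circle.coe_mul, Circle.coe_mul,
    map_mul]
  have h1 := char_mul_conj (χ₁ ω) x
  have h2 := char_mul_conj (χ₂ ω) x
  have h3 : ((χ₁ ω x : ℂ) * conj (χ₁ ω x : ℂ)) * ((χ₂ ω x : ℂ) * conj (χ₂ ω x : ℂ)) = 1 := by
    rw [h1, h2, one_mul]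
  linear_combination (-((χ₁ ω (u n) : ℂ) * (χ₂ ω (v n) : ℂ) * (a x * b (x + u n) *
    c (x + v n)))) * h3

theorem norm_mul_char (f : G → ℂ) (χ : AddChar G Circle) (x : G) :
    ‖f x * (χ x : ℂ)‖ = ‖f x‖ := by
  rw [norm_mul, Circle.norm_coe, mul_one]

theorem LamW_le {W : N → ℝ} {s : Finset (AddChar N Circle)} {w : AddChar N Circle → ℝ}
    (hW : ∀ n, (W n : ℂ) = ∑ ω ∈ s, (w ω : ℂ) * (ω n : ℂ)) (hw : ∀ ω, 0 ≤ w ω) {M B : ℝ}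
    (hM : ∑ ω ∈ s, w ω ≤ M) (hB : 0 ≤ B)
    {χ₁ χ₂ : AddChar N Circle → AddChar G Circle}
    (hχ : ∀ ω n, ω n = χ₁ ω (u n) * χ₂ ω (v n)) (a b c : G → ℂ)
    (h : ∀ ψ₁ ψ₂ ψ₃ : AddChar G Circle, ‖Lam m ν u v (fun x => a x * (ψ₁ x : ℂ))
        (fun x => b x * (ψ₂ x : ℂ)) (fun x => c x * (ψ₃ x : ℂ))‖ ≤ B) :
    ‖LamW m ν u v W a b c‖ ≤ M * B := by
  rw [LamW_exp hW hχ]
  refine (norm_sum_le _ _).trans ?_
  calc _ ≤ ∑ ω ∈ s, w ω * B := by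
        refine Finset.sum_le_sum fun ω _ => ?_
        rw [norm_mul, Complex.norm_real, Real.norm_eq_abs, abs_of_nonneg (hw ω)]
        exact mul_le_mul_of_nonneg_left (h _ _ _) (hw ω)
    _ = (∑ ω ∈ s, w ω) * B := by rw [Finset.sum_mul]
    _ ≤ M * B := mul_le_mul_of_nonneg_right hM hB

theorem coef_mul_char_le {b : G → ℂ} (hcoef : ∀ χ, ‖m.coef b χ‖ ≤ ε) (ψ χ : AddChar G Circle) :
    ‖m.coef (fun x => b x * (ψ x : ℂ)) χ‖ ≤ ε := by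
  rw [Mean.coef_mul_char]
  exact hcoef _

theorem LamW_bound1 (hm : m.Inv) (he : m.Erg) (hν : ν.Inv) (hI : IdxLe u v C) (hε : 0 ≤ ε)
    {W : N → ℝ} {s : Finset (AddChar N Circle)} {w : AddChar N Circle → ℝ}
    (hW : ∀ n, (W n : ℂ) = ∑ ω ∈ s, (w ω : ℂ) * (ω n : ℂ)) (hw : ∀ ω, 0 ≤ w ω) {M : ℝ}
    (hM : ∑ ω ∈ s, w ω ≤ M)
    {χ₁ χ₂ : AddChar N Circle → AddChar G Circle}
    (hχ : ∀ ω n, ω n = χ₁ ω (u n) * χ₂ ω (v n))
    {a b c : G → ℂ} (ha : ∀ x, ‖a x‖ ≤ 1) (hb : ∀ x, ‖b x‖ ≤ 1)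
    (hc : ∀ x, ‖c x‖ ≤ 1) (hcoef : ∀ χ, ‖m.coef a χ‖ ≤ ε) :
    ‖LamW m ν u v W a b c‖ ≤ M * (C * Real.sqrt ε) := by
  have hC := hI.one_le
  refine LamW_le hW hw hM (by positivity) hχ a b c fun ψ₁ ψ₂ ψ₃ => ?_
  have haB : Bd (fun x => a x * (ψ₁ x : ℂ)) := ⟨1, fun x => by rw [norm_mul_char]; exact ha x⟩
  refine Lam_bound1 hm he hν hI hε haB ?_ (fun x => ?_) (fun x => ?_)
    (coef_mul_char_le hcoef ψ₁)
  · refine m.le_of_le (haB.norm.pow 2) fun x => ?_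
    rw [norm_mul_char]
    exact pow_le_one₀ (norm_nonneg _) (ha x)
  · rw [norm_mul_char]; exact hb x
  · rw [norm_mul_char]; exact hc x

theorem LamW_bound2 (hm : m.Inv) (he : m.Erg) (hν : ν.Inv) (hI : IdxLe u v C) (hε : 0 ≤ ε)
    {W : N → ℝ} {s : Finset (AddChar N Circle)} {w : AddChar N Circle → ℝ}
    (hW : ∀ n, (W n : ℂ) = ∑ ω ∈ s, (w ω : ℂ) * (ω n : ℂ)) (hw : ∀ ω, 0 ≤ w ω) {M : ℝ}
    (hM : ∑ ω ∈ s, w ω ≤ M)
    {χ₁ χ₂ : AddChar N Circle → AddChar G Circle}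
    (hχ : ∀ ω n, ω n = χ₁ ω (u n) * χ₂ ω (v n))
    {a b c : G → ℂ} (ha : ∀ x, ‖a x‖ ≤ 1) (hb : ∀ x, ‖b x‖ ≤ 1)
    (hc : ∀ x, ‖c x‖ ≤ 1) (hcoef : ∀ χ, ‖m.coef b χ‖ ≤ ε) :
    ‖LamW m ν u v W a b c‖ ≤ M * (C * Real.sqrt ε) := by
  have hC := hI.one_le
  refine LamW_le hW hw hM (by positivity) hχ a b c fun ψ₁ ψ₂ ψ₃ => ?_
  have hbB : Bd (fun x => b x * (ψ₂ x : ℂ)) := ⟨1, fun x => by rw [norm_mul_char]; exact hb x⟩
  refine Lam_bound2 hm he hν hI hε (fun x => ?_) hbB ?_ (fun x => ?_)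
    (coef_mul_char_le hcoef ψ₂)
  · rw [norm_mul_char]; exact ha x
  · refine m.le_of_le (hbB.norm.pow 2) fun x => ?_
    rw [norm_mul_char]
    exact pow_le_one₀ (norm_nonneg _) (hb x)
  · rw [norm_mul_char]; exact hc x

theorem LamW_bound3 (hm : m.Inv) (he : m.Erg) (hν : ν.Inv) (hI : IdxLe u v C) (hε : 0 ≤ ε)
    {W : N → ℝ} {s : Finset (AddChar N Circle)} {w : AddChar N Circle → ℝ}
    (hW : ∀ n, (W n : ℂ) = ∑ ω ∈ s, (w ω : ℂ) * (ω n : ℂ)) (hw : ∀ ω, 0 ≤ w ω) {M : ℝ}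
    (hM : ∑ ω ∈ s, w ω ≤ M)
    {χ₁ χ₂ : AddChar N Circle → AddChar G Circle}
    (hχ : ∀ ω n, ω n = χ₁ ω (u n) * χ₂ ω (v n))
    {a b c : G → ℂ} (ha : ∀ x, ‖a x‖ ≤ 1) (hb : ∀ x, ‖b x‖ ≤ 1)
    (hc : ∀ x, ‖c x‖ ≤ 1) (hcoef : ∀ χ, ‖m.coef c χ‖ ≤ ε) :
    ‖LamW m ν u v W a b c‖ ≤ M * (C * Real.sqrt ε) := by
  have hC := hI.one_le
  refine LamW_le hW hw hM (by positivity) hχ a b c fun ψ₁ ψ₂ ψ₃ => ?_
  have hcB : Bd (fun x => c x * (ψ₃ x : ℂ)) := ⟨1, fun x => by rw [norm_mul_char]; exact hc x⟩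
  refine Lam_bound3 hm he hν hI hε (fun x => ?_) (fun x => ?_) hcB ?_
    (coef_mul_char_le hcoef ψ₃)
  · rw [norm_mul_char]; exact ha x
  · rw [norm_mul_char]; exact hb x
  · refine m.le_of_le (hcB.norm.pow 2) fun x => ?_
    rw [norm_mul_char]
    exact pow_le_one₀ (norm_nonneg _) (hc x)

end Lam

end Pool.Agent.Helper91.Bohr
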