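import Mathlib
import Pool.Agent.Helper91.BohrK

/-!
The increment step and the uniform lower bound for the trilinear form.
-/

namespace Pool.Agent.Helper91.Bohr

open Filter Topology ComplexConjugate

universe u

section Real
variable {G N : Type*} [AddCommGroup G] [AddCommGroup N]

/-- real weighted trilinear form -/
noncomputable def LR (m : Mean G) (ν : Mean N) (u v : N →+ G) (W : N → ℝ)
    (a b c : G → ℝ) : ℝ :=
  ν (fun n => W n * m (fun x => a x * b (x + u n) * c (x + v n)))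

variable {m : Mean G} {ν : Mean N} {u v : N →+ G} {C ε : ℝ}

theorem LR_cast (W : N → ℝ) (a b c : G → ℝ) :
    (LR m ν u v W a b c : ℂ) =
      LamW m ν u v W (fun x => (a x : ℂ)) (fun x => (b x : ℂ)) (fun x => (c x : ℂ)) := by
  rw [LR, LamW, ← ν.c_ofReal]
  congr 1
  funext n
  push_cast
  rw [← m.c_ofReal]
  congr 2
  funext x
  push_cast
  rfl

theorem LR_abs (W : N → ℝ) (a b c : G → ℝ) :
    |LR m ν u v W a b c| =
      ‖LamW m ν u v W (fun x => (a x : ℂ)) (fun x => (b x : ℂ)) (fun x => (c x : ℂ))‖ := by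
  rw [← LR_cast, Complex.norm_real, Real.norm_eq_abs]

theorem LR_sub1 (W : N → ℝ) (a a' b c : G → ℝ) :
    LR m ν u v W (fun x => a x - a' x) b c = LR m ν u v W a b c - LR m ν u v W a' b c := by
  rw [LR, LR, LR, ← ν.sub']
  congr 1
  funext n
  rw [← mul_sub, ← m.sub']
  congr 2
  funext x
  ring

theorem LR_sub2 (W : N → ℝ) (a b b' c : G → ℝ) :
    LR m ν u v W a (fun x => b x - b' x) c = LR m ν u v W a b c - LR m ν u v W a b' c := by
  rw [LR, LR, LR, ← ν.sub']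
  congr 1
  funext n
  rw [← mul_sub, ← m.sub']
  congr 2
  funext x
  ring

theorem LR_sub3 (W : N → ℝ) (a b c c' : G → ℝ) :
    LR m ν u v W a b (fun x => c x - c' x) = LR m ν u v W a b c - LR m ν u v W a b c' := by
  rw [LR, LR, LR, ← ν.sub']
  congr 1
  funext n
  rw [← mul_sub, ← m.sub']
  congr 2
  funext x
  ring

theorem abs_le_norm_ofReal {a : G → ℝ} (h0 : ∀ x, 0 ≤ a x) (h1 : ∀ x, a x ≤ 1) (x : G) :
    ‖(a x : ℂ)‖ ≤ 1 := by
  rw [Complex.norm_real, Real.norm_eq_abs, abs_of_nonneg (h0 x)]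
  exact h1 x

/-- replacing `f` by `s'` -/
theorem LR_uniform (hm : m.Inv) (he : m.Erg) (hν : ν.Inv) (hI : IdxLe u v C) (hε : 0 ≤ ε)
    {W : N → ℝ} {s : Finset (AddChar N Circle)} {w : AddChar N Circle → ℝ}
    (hW : ∀ n, (W n : ℂ) = ∑ ω ∈ s, (w ω : ℂ) * (ω n : ℂ)) (hw : ∀ ω, 0 ≤ w ω) {M : ℝ}
    (hM : ∑ ω ∈ s, w ω ≤ M)
    (hχ : ∀ ω : AddChar N Circle, ∃ χ₁ χ₂ : AddChar G Circle, ∀ n, ω n = χ₁ (u n) * χ₂ (v n))
    {f g : G → ℝ} (f0 : ∀ x, 0 ≤ f x) (f1 : ∀ x, f x ≤ 1) (g0 : ∀ x, 0 ≤ g x) (g1 : ∀ x, g x ≤ 1)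
    (hcoef : ∀ χ, ‖m.coef (fun x => ((f x - g x : ℝ) : ℂ)) χ‖ ≤ ε) :
    |LR m ν u v W f f f - LR m ν u v W g g g| ≤ 3 * (M * (C * Real.sqrt ε)) := by
  choose χ₁ χ₂ hχ using hχ
  have e1 : LR m ν u v W f f f - LR m ν u v W g g g =
      LR m ν u v W (fun x => f x - g x) f f + LR m ν u v W g (fun x => f x - g x) f +
        LR m ν u v W g g (fun x => f x - g x) := by
    rw [LR_sub1, LR_sub2, LR_sub3]
    ring
  have hd : ∀ x, ‖((f x - g x : ℝ) : ℂ)‖ ≤ 1 := by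
    intro x
    rw [Complex.norm_real, Real.norm_eq_abs, abs_le]
    constructor
    · linarith [f0 x, g1 x]
    · linarith [f1 x, g0 x]
  have hf := abs_le_norm_ofReal f0 f1
  have hg := abs_le_norm_ofReal g0 g1
  have h1 : |LR m ν u v W (fun x => f x - g x) f f| ≤ M * (C * Real.sqrt ε) := by
    rw [LR_abs]
    exact LamW_bound1 hm he hν hI hε hW hw hM hχ hd hf hf hcoef
  have h2 : |LR m ν u v W g (fun x => f x - g x) f| ≤ M * (C * Real.sqrt ε) := by
    rw [LR_abs]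
    exact LamW_bound2 hm he hν hI hε hW hw hM hχ hg hd hf hcoef
  have h3 : |LR m ν u v W g g (fun x => f x - g x)| ≤ M * (C * Real.sqrt ε) := by
    rw [LR_abs]
    exact LamW_bound3 hm he hν hI hε hW hw hM hχ hg hg hd hcoef
  rw [e1]
  have h4 := abs_add_le (LR m ν u v W (fun x => f x - g x) f f +
    LR m ν u v W g (fun x => f x - g x) f) (LR m ν u v W g g (fun x => f x - g x))
  have h5 := abs_add_le (LR m ν u v W (fun x => f x - g x) f f)
    (LR m ν u v W g (fun x => f x - g x) f)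
  linarith

theorem bd01 {X : Type*} {a : X → ℝ} (h0 : ∀ x, 0 ≤ a x) (h1 : ∀ x, a x ≤ 1) : Bd a :=
  ⟨1, fun x => by rw [Real.norm_eq_abs, abs_of_nonneg (h0 x)]; exact h1 x⟩

/-- the inner mean is a bounded function of the parameter -/
theorem bd_inner3 {a b c : G → ℝ} (ha : Bd a) (hb : Bd b) (hc : Bd c) :
    Bd (fun n => m (fun x => a x * b (x + u n) * c (x + v n))) := by
  obtain ⟨A, hA0, hA⟩ := ha.exists_nonneg
  obtain ⟨B, hB0, hB⟩ := hb.exists_nonneg
  obtain ⟨D, hD0, hD⟩ := hc.exists_nonneg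
  refine ⟨A * B * D, fun n => m.abs_le fun x => ?_⟩
  rw [abs_mul, abs_mul]
  exact mul_le_mul (mul_le_mul (hA x) (hB _) (abs_nonneg _) hA0) (hD _) (abs_nonneg _)
    (by positivity)

/-- replacing `s'` by `s` -/
theorem LR_close (hm : m.Inv) {W : N → ℝ} (hWB : Bd W) (hW0 : ∀ n, 0 ≤ W n) (hW1 : ν W = 1)
    {f g : G → ℝ} (f0 : ∀ x, 0 ≤ f x) (f1 : ∀ x, f x ≤ 1) (g0 : ∀ x, 0 ≤ g x) (g1 : ∀ x, g x ≤ 1)
    {t : ℝ} (ht : 0 ≤ t) (hd : m (fun x => (f x - g x) ^ 2) ≤ t ^ 2) :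
    LR m ν u v W g g g - 3 * t ≤ LR m ν u v W f f f := by
  have hfB := bd01 f0 f1
  have hgB := bd01 g0 g1
  have hdB : Bd (fun x => f x - g x) := hfB.sub hgB
  have habs : Bd (fun x => |f x - g x|) := hdB.norm
  have h1 : m (fun x => |f x - g x|) ≤ t := by
    have h2 := m.sq_le habs
    have e1 : (fun x => |f x - g x| ^ 2) = (fun x => (f x - g x) ^ 2) := by
      funext x; rw [sq_abs]
    rw [e1] at h2
    exact (sq_le_sq₀ (m.nonneg _ habs fun _ => abs_nonneg _) ht).1 (h2.trans hd)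
  have h2 : ∀ n, m (fun x => g x * g (x + u n) * g (x + v n)) - 3 * t ≤
      m (fun x => f x * f (x + u n) * f (x + v n)) := by
    intro n
    have h3 : m (fun x => g x * g (x + u n) * g (x + v n) -
        ((|f x - g x| + |f (x + u n) - g (x + u n)|) + |f (x + v n) - g (x + v n)|)) ≤
        m (fun x => f x * f (x + u n) * f (x + v n)) := by
      refine m.mono (((hgB.mul (hgB.comp _)).mul (hgB.comp _)).sub
        ((habs.add (habs.comp (fun x => x + u n))).add (habs.comp (fun x => x + v n))))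
        ((hfB.mul (hfB.comp _)).mul (hfB.comp _)) fun x => ?_
      set a := f x
      set b := f (x + u n)
      set c := f (x + v n)
      set a' := g x
      set b' := g (x + u n)
      set c' := g (x + v n)
      have a0 : 0 ≤ a := f0 _
      have b0 : 0 ≤ b := f0 _
      have c0 : 0 ≤ c := f0 _
      have a1 : a ≤ 1 := f1 _
      have b1 : b ≤ 1 := f1 _
      have c1 : c ≤ 1 := f1 _
      have a0' : 0 ≤ a' := g0 _
      have b0' : 0 ≤ b' := g0 _
      have c0' : 0 ≤ c' := g0 _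
      have a1' : a' ≤ 1 := g1 _
      have b1' : b' ≤ 1 := g1 _
      have c1' : c' ≤ 1 := g1 _
      have e : a' * b' * c' - a * b * c = (a' - a) * (b' * c') + a * ((b' - b) * c') +
          (a * b) * (c' - c) := by ring
      have k1 : (a' - a) * (b' * c') ≤ |a - a'| := by
        have q0 : 0 ≤ b' * c' := mul_nonneg b0' c0'
        have q1 : b' * c' ≤ 1 := mul_le_one₀ b1' c0' c1'
        calc (a' - a) * (b' * c') ≤ |a - a'| * (b' * c') :=
              mul_le_mul_of_nonneg_right (by rw [abs_sub_comm]; exact le_abs_self _) q0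
          _ ≤ |a - a'| := mul_le_of_le_one_right (abs_nonneg _) q1
      have k2 : a * ((b' - b) * c') ≤ |b - b'| := by
        have q0 : 0 ≤ a * c' := mul_nonneg a0 c0'
        have q1 : a * c' ≤ 1 := mul_le_one₀ a1 c0' c1'
        calc a * ((b' - b) * c') = (b' - b) * (a * c') := by ring
          _ ≤ |b - b'| * (a * c') :=
              mul_le_mul_of_nonneg_right (by rw [abs_sub_comm]; exact le_abs_self _) q0
          _ ≤ |b - b'| := mul_le_of_le_one_right (abs_nonneg _) q1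
      have k3 : (a * b) * (c' - c) ≤ |c - c'| := by
        have q0 : 0 ≤ a * b := mul_nonneg a0 b0
        have q1 : a * b ≤ 1 := mul_le_one₀ a1 b0 b1
        calc (a * b) * (c' - c) = (c' - c) * (a * b) := by ring
          _ ≤ |c - c'| * (a * b) :=
              mul_le_mul_of_nonneg_right (by rw [abs_sub_comm]; exact le_abs_self _) q0
          _ ≤ |c - c'| := mul_le_of_le_one_right (abs_nonneg _) q1
      linarith
    rw [m.sub', m.add', m.add'] at h3
    have h4 : m (fun x => |f (x + u n) - g (x + u n)|) = m (fun x => |f x - g x|) :=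
      hm (u n) (fun x => |f x - g x|) habs
    have h5 : m (fun x => |f (x + v n) - g (x + v n)|) = m (fun x => |f x - g x|) :=
      hm (v n) (fun x => |f x - g x|) habs
    rw [h4, h5] at h3
    linarith
  have hBg : Bd (fun n => m (fun x => g x * g (x + u n) * g (x + v n))) :=
    bd_inner3 hgB hgB hgB
  have hBf : Bd (fun n => m (fun x => f x * f (x + u n) * f (x + v n))) :=
    bd_inner3 hfB hfB hfB
  have h3 : ν (fun n => W n * m (fun x => g x * g (x + u n) * g (x + v n)) - (3 * t) * W n) ≤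
      ν (fun n => W n * m (fun x => f x * f (x + u n) * f (x + v n))) := by
    refine ν.mono ((hWB.mul hBg).sub (hWB.smulR _)) (hWB.mul hBf) fun n => ?_
    have := mul_le_mul_of_nonneg_left (h2 n) (hW0 n)
    linarith
  rw [ν.sub', ν.smul', hW1] at h3
  rw [LR, LR]
  linarith

/-- the weighted form of the smoothed function -/
theorem LR_smooth (hm : m.Inv) {W : N → ℝ} (hWB : Bd W) (hW0 : ∀ n, 0 ≤ W n) (hW1 : ν W = 1)
    {f : G → ℝ} (f0 : ∀ x, 0 ≤ f x) (f1 : ∀ x, f x ≤ 1) (κ : Ker G) {n₀ : ℝ} (hn₀ : 0 < n₀)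
    (hu : ∀ θ ∈ κ.S, ν (fun n => W n * ‖(θ (u n) : ℂ) - 1‖ ^ 2) ≤ 4 / n₀ ^ 2)
    (hv : ∀ θ ∈ κ.S, ν (fun n => W n * ‖(θ (v n) : ℂ) - 1‖ ^ 2) ≤ 4 / n₀ ^ 2) :
    (m f) ^ 3 - 4 / n₀ ≤ LR m ν u v W (κ.sm m f) (κ.sm m f) (κ.sm m f) := by
  have hfB := bd01 f0 f1
  set s := κ.sm m f with hs
  have s0 : ∀ x, 0 ≤ s x := κ.sm_nonneg hfB f0
  have s1 : ∀ x, s x ≤ 1 := κ.sm_le_one hm hfB f1
  have hsB := bd01 s0 s1
  have hcube := κ.mean_cube hm hfB f0
  rw [← hs] at hcube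
  set b := 2 / n₀ with hb
  have hb0 : 0 < b := by positivity
  have hDB : ∀ t : G, Bd (fun x => (s (x + t) - s x) ^ 2) := fun t => ((hsB.comp _).sub hsB).pow 2
  -- pointwise in n
  have h2 : ∀ n, m (fun x => s x ^ 3) - b - (1 / (2 * b)) * (m (fun x => (s (x + u n) - s x) ^ 2) +
      m (fun x => (s (x + v n) - s x) ^ 2)) ≤ m (fun x => s x * s (x + u n) * s (x + v n)) := by
    intro n
    have h3 : m (fun x => (s x ^ 3 - b) - (1 / (2 * b)) * ((s (x + u n) - s x) ^ 2 +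
        (s (x + v n) - s x) ^ 2)) ≤ m (fun x => s x * s (x + u n) * s (x + v n)) := by
      refine m.mono (((hsB.pow 3).sub (Bd.const _)).sub (((hDB _).add (hDB _)).smulR _))
        ((hsB.mul (hsB.comp _)).mul (hsB.comp _)) fun x => ?_
      have x0 := s0 x
      have x1 := s1 x
      have y0 := s0 (x + u n)
      have y1 := s1 (x + u n)
      have z0 := s0 (x + v n)
      have z1 := s1 (x + v n)
      set p := s x
      set q := s (x + u n)
      set r := s (x + v n)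
      have amgm : ∀ d : ℝ, |d| ≤ b / 2 + (1 / (2 * b)) * d ^ 2 := by
        intro d
        have : b / 2 + (1 / (2 * b)) * d ^ 2 - |d| = (|d| - b) ^ 2 / (2 * b) := by
          rw [← sq_abs d]
          field_simp
          ring
        have h5 : 0 ≤ (|d| - b) ^ 2 / (2 * b) := by positivity
        linarith
      have k1 := amgm (q - p)
      have k2 := amgm (r - p)
      have e : p * q * r - p ^ 3 = (p * r) * (q - p) + (p * p) * (r - p) := by ring
      have l1 : -|q - p| ≤ (p * r) * (q - p) := by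
        have q0 : 0 ≤ p * r := mul_nonneg x0 z0
        have q1 : p * r ≤ 1 := mul_le_one₀ x1 z0 z1
        have := mul_le_of_le_one_left (abs_nonneg (q - p)) q1
        have h6 : -((p * r) * |q - p|) ≤ (p * r) * (q - p) := by
          rw [← mul_neg]
          exact mul_le_mul_of_nonneg_left (neg_abs_le _) q0
        linarith
      have l2 : -|r - p| ≤ (p * p) * (r - p) := by
        have q0 : 0 ≤ p * p := mul_nonneg x0 x0
        have q1 : p * p ≤ 1 := mul_le_one₀ x1 x0 x1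
        have := mul_le_of_le_one_left (abs_nonneg (r - p)) q1
        have h6 : -((p * p) * |r - p|) ≤ (p * p) * (r - p) := by
          rw [← mul_neg]
          exact mul_le_mul_of_nonneg_left (neg_abs_le _) q0
        linarith
      rw [mul_add]
      linarith
    rw [m.sub', m.sub', m.smul', m.add', m.const'] at h3
    exact h3
  have hen : κ.en m f ≤ 1 := κ.en_le_one hm hfB f0 f1
  -- averaged translation error
  have hD : ∀ (w : N →+ G), (∀ θ ∈ κ.S, ν (fun n => W n * ‖(θ (w n) : ℂ) - 1‖ ^ 2) ≤ 4 / n₀ ^ 2) →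
      ν (fun n => W n * m (fun x => (s (x + w n) - s x) ^ 2)) ≤ 4 / n₀ ^ 2 := by
    intro w hw
    have e1 : (fun n => W n * m (fun x => (s (x + w n) - s x) ^ 2)) = (fun n => ∑ θ ∈ κ.S,
        (κ.k θ ^ 2 * ‖m.coef (fun y => (f y : ℂ)) θ‖ ^ 2) *
          (W n * ‖(θ (w n) : ℂ) - 1‖ ^ 2)) := by
      funext n
      rw [hs, κ.sm_translate hm, Finset.mul_sum]
      refine Finset.sum_congr rfl fun θ _ => ?_
      ring
    rw [e1, ν.sum']
    calc ∑ θ ∈ κ.S, ν (fun n => (κ.k θ ^ 2 * ‖m.coef (fun y => (f y : ℂ)) θ‖ ^ 2) *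
          (W n * ‖(θ (w n) : ℂ) - 1‖ ^ 2))
        ≤ ∑ θ ∈ κ.S, (κ.k θ ^ 2 * ‖m.coef (fun y => (f y : ℂ)) θ‖ ^ 2) * (4 / n₀ ^ 2) := by
          refine Finset.sum_le_sum fun θ hθ => ?_
          rw [ν.smul']
          exact mul_le_mul_of_nonneg_left (hw θ hθ) (by positivity)
      _ = κ.en m f * (4 / n₀ ^ 2) := by rw [← Finset.sum_mul]; rfl
      _ ≤ 4 / n₀ ^ 2 := mul_le_of_le_one_left (by positivity) hen
  have hDu := hD u hu
  have hDv := hD v hv
  have hBD : ∀ w : N →+ G, Bd (fun n => m (fun x => (s (x + w n) - s x) ^ 2)) := by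
    intro w
    refine ⟨1, fun n => m.abs_le fun x => ?_⟩
    rw [abs_of_nonneg (sq_nonneg _), ← sq_abs]
    refine pow_le_one₀ (abs_nonneg _) ?_
    rw [abs_le]
    constructor <;> linarith [s0 x, s1 x, s0 (x + w n), s1 (x + w n)]
  have h3 : ν (fun n => (m (fun x => s x ^ 3) - b) * W n - (1 / (2 * b)) *
      (W n * m (fun x => (s (x + u n) - s x) ^ 2) + W n * m (fun x => (s (x + v n) - s x) ^ 2))) ≤
      ν (fun n => W n * m (fun x => s x * s (x + u n) * s (x + v n))) := by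
    refine ν.mono ((hWB.smulR _).sub (((hWB.mul (hBD u)).add (hWB.mul (hBD v))).smulR _))
      (hWB.mul (bd_inner3 hsB hsB hsB)) fun n => ?_
    have := mul_le_mul_of_nonneg_left (h2 n) (hW0 n)
    calc _ = W n * (m (fun x => s x ^ 3) - b - (1 / (2 * b)) *
        (m (fun x => (s (x + u n) - s x) ^ 2) + m (fun x => (s (x + v n) - s x) ^ 2))) := by ring
      _ ≤ _ := this
  rw [ν.sub', ν.smul', ν.smul', ν.add', hW1] at h3
  have h4 : (1 / (2 * b)) * (ν (fun n => W n * m (fun x => (s (x + u n) - s x) ^ 2)) +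
      ν (fun n => W n * m (fun x => (s (x + v n) - s x) ^ 2))) ≤ 2 / n₀ := by
    calc _ ≤ (1 / (2 * b)) * (4 / n₀ ^ 2 + 4 / n₀ ^ 2) :=
          mul_le_mul_of_nonneg_left (add_le_add hDu hDv) (by positivity)
      _ = 2 / n₀ := by
          rw [hb]
          field_simp
          ring
  have h5 : (4 : ℝ) / n₀ = b + 2 / n₀ := by rw [hb]; ring
  rw [LR]
  linarith

end Real

/-- the increment step -/
theorem step (C δ : ℝ) (hC : 1 ≤ C) (hδ : 0 < δ) (hδ1 : δ ≤ 1) (γ : ℕ) :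
    ∃ (c : ℝ) (γ' : ℕ), 0 < c ∧ ∀ (G N : Type u) [AddCommGroup G] [AddCommGroup N] (m : Mean G)
      (ν : Mean N) (u v : N →+ G) (f : G → ℝ), m.Inv → m.Erg → ν.Inv → IdxLe u v C →
      (∀ ω : AddChar N Circle, ∃ χ₁ χ₂ : AddChar G Circle, ∀ n, ω n = χ₁ (u n) * χ₂ (v n)) →
      (∀ x, 0 ≤ f x) → (∀ x, f x ≤ 1) → δ ≤ m f → ∀ κ : Ker G, κ.S.card ≤ γ →
      c ≤ ν (fun n => m (fun x => f x * f (x + u n) * f (x + v n))) ∨
      ∃ κ' : Ker G, κ'.S.card ≤ γ' ∧ κ.en m f + δ ^ 6 / 1152 ≤ κ'.en m f := by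
  -- constants
  obtain ⟨n₀, hn₀⟩ := exists_nat_gt (32 / δ ^ 3)
  have hδ3 : 0 < δ ^ 3 := by positivity
  have hn₀pos : (0 : ℝ) < n₀ := lt_trans (by positivity) hn₀
  have hn₀1 : 1 ≤ n₀ := by exact_mod_cast hn₀pos
  have hn₀' : 4 / (n₀ : ℝ) ≤ δ ^ 3 / 8 := by
    rw [div_le_iff₀ hn₀pos]
    rw [div_lt_iff₀ hδ3] at hn₀
    linarith
  set M : ℝ := ((n₀ ^ 2 : ℕ) : ℝ) ^ (2 * γ) with hM
  have hM1 : 1 ≤ M := by
    have : (1 : ℝ) ≤ ((n₀ ^ 2 : ℕ) : ℝ) := by exact_mod_cast Nat.one_le_pow _ _ hn₀1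
    exact one_le_pow₀ this
  have hM0 : 0 < M := by linarith
  set ε : ℝ := (δ ^ 3 / (24 * M * C)) ^ 2 with hε
  have hε0 : 0 < ε := by positivity
  have hsqrt : Real.sqrt ε = δ ^ 3 / (24 * M * C) := by
    rw [hε, Real.sqrt_sq (by positivity)]
  set t : ℝ := δ ^ 3 / 24 with ht
  have ht0 : 0 < t := by positivity
  set q : ℝ := min ε (t ^ 2 / 4) with hq
  have hq0 : 0 < q := lt_min hε0 (by positivity)
  obtain ⟨n', hn'⟩ := exists_nat_gt (2 / q)
  have hn'pos : (0 : ℝ) < n' := lt_trans (by positivity) hn'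
  have hn'1 : 1 ≤ n' := by exact_mod_cast hn'pos
  have hn'q : 2 / (n' : ℝ) ≤ q := by
    rw [div_le_iff₀ hn'pos]
    rw [div_lt_iff₀ hq0] at hn'
    linarith
  set g' : ℕ := γ + ⌊1 / ε ^ 2⌋₊ with hg'
  refine ⟨5 * δ ^ 3 / (8 * M), n' ^ (2 * g'), by positivity, ?_⟩
  intro G N _ _ m ν u v f hm he hν hI hχ f0 f1 hmf κ hκ
  classical
  have hfB := bd01 f0 f1
  obtain ⟨Γ, hΓ, hΓc⟩ := exists_spec hm hfB.ofReal hε0
  have hΓcard : Γ.card ≤ ⌊1 / ε ^ 2⌋₊ := by
    refine Nat.le_floor ?_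
    rw [le_div_iff₀ (by positivity)]
    refine hΓc.trans (m.le_of_le (hfB.ofReal.norm.pow 2) fun x => ?_)
    exact pow_le_one₀ (norm_nonneg _) (abs_le_norm_ofReal f0 f1 x)
  obtain ⟨κ', hκ'c, hκ'⟩ := Ker.exists_ker m hm (κ.S ∪ Γ) n' g' hn'1
    ((Finset.card_union_le _ _).trans (add_le_add hκ hΓcard))
  have hκS : ∀ θ ∈ κ.S, 1 - t ^ 2 / 4 ≤ κ'.k θ := by
    intro θ hθ
    have := hκ' θ (Finset.mem_union_left _ hθ)
    have h2 := hn'q.trans (min_le_right _ _)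
    linarith
  have hκΓ : ∀ θ ∈ Γ, 1 - ε ≤ κ'.k θ := by
    intro θ hθ
    have := hκ' θ (Finset.mem_union_right _ hθ)
    have h2 := hn'q.trans (min_le_left _ _)
    linarith
  have hdiff := κ.sm_diff hm hfB f0 f1 κ' (by positivity) hκS
  by_cases hcase : m (fun x => (κ'.sm m f x - κ.sm m f x) ^ 2) ≤ t ^ 2
  · left
    -- the weight
    let Ω : Finset (AddChar N Circle) := κ.S.image (fun θ => θ.compAddMonoidHom u) ∪
      κ.S.image (fun θ => θ.compAddMonoidHom v)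
    have hΩ : Ω.card ≤ 2 * γ := by
      refine (Finset.card_union_le _ _).trans ?_
      have h1 : (κ.S.image (fun θ => θ.compAddMonoidHom u)).card ≤ γ :=
        Finset.card_image_le.trans hκ
      have h2 : (κ.S.image (fun θ => θ.compAddMonoidHom v)).card ≤ γ :=
        Finset.card_image_le.trans hκ
      omega
    obtain ⟨sW, w, W, -, hw0, -, hW, hW0, hWle, hsum, hνW, hconc⟩ :=
      exists_weight hν Ω (n₀ ^ 2) (2 * γ) (Nat.one_le_pow _ _ hn₀1) hΩ
    rw [← hM] at hsum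
    have hWle' : ∀ n, W n ≤ M := hWle
    have hWB : Bd W := ⟨M, fun n => by
      rw [Real.norm_eq_abs, abs_of_nonneg (hW0 n)]; exact hWle' n⟩
    have hu : ∀ θ ∈ κ.S, ν (fun n => W n * ‖(θ (u n) : ℂ) - 1‖ ^ 2) ≤ 4 / (n₀ : ℝ) ^ 2 := by
      intro θ hθ
      have := hconc (θ.compAddMonoidHom u) (Finset.mem_union_left _ (Finset.mem_image_of_mem _ hθ))
      push_cast at this
      exact this
    have hv : ∀ θ ∈ κ.S, ν (fun n => W n * ‖(θ (v n) : ℂ) - 1‖ ^ 2) ≤ 4 / (n₀ : ℝ) ^ 2 := by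
      intro θ hθ
      have := hconc (θ.compAddMonoidHom v) (Finset.mem_union_right _ (Finset.mem_image_of_mem _ hθ))
      push_cast at this
      exact this
    have a1 := LR_smooth (ν := ν) (u := u) (v := v) hm hWB hW0 hνW f0 f1 κ hn₀pos hu hv
    have s0 : ∀ x, 0 ≤ κ.sm m f x := κ.sm_nonneg hfB f0
    have s1 : ∀ x, κ.sm m f x ≤ 1 := κ.sm_le_one hm hfB f1
    have s0' : ∀ x, 0 ≤ κ'.sm m f x := κ'.sm_nonneg hfB f0
    have s1' : ∀ x, κ'.sm m f x ≤ 1 := κ'.sm_le_one hm hfB f1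
    have a2 := LR_close (ν := ν) (u := u) (v := v) hm hWB hW0 hνW s0' s1' s0 s1 ht0.le hcase
    have a3 := LR_uniform hm he hν hI hε0.le hW hw0 hsum hχ f0 f1 s0' s1'
      (κ'.coef_err hm hfB f0 f1 hΓ hκΓ)
    have a4 : M * (C * Real.sqrt ε) = δ ^ 3 / 24 := by
      rw [hsqrt]
      have : C ≠ 0 := by linarith
      field_simp
    rw [a4] at a3
    have a5 := (_root_.abs_le.1 a3).1
    have a6 : δ ^ 3 ≤ (m f) ^ 3 := pow_le_pow_left₀ hδ.le hmf 3
    have a7 : 5 * δ ^ 3 / 8 ≤ LR m ν u v W f f f := by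
      rw [ht] at a2
      linarith
    have hin0 : ∀ n, 0 ≤ m (fun x => f x * f (x + u n) * f (x + v n)) := fun n =>
      m.nonneg _ ((hfB.mul (hfB.comp _)).mul (hfB.comp _)) fun x =>
        mul_nonneg (mul_nonneg (f0 _) (f0 _)) (f0 _)
    have a8 : LR m ν u v W f f f ≤ M * ν (fun n => m (fun x => f x * f (x + u n) * f (x + v n))) := by
      rw [LR, ← ν.smul']
      refine ν.mono (hWB.mul (bd_inner3 hfB hfB hfB)) ((bd_inner3 hfB hfB hfB).smulR M) fun n => ?_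
      exact mul_le_mul_of_nonneg_right (hWle' n) (hin0 n)
    rw [div_le_iff₀ (by positivity)]
    linarith
  · right
    refine ⟨κ', hκ'c, ?_⟩
    have h1 : t ^ 2 < κ'.en m f - κ.en m f + 2 * (t ^ 2 / 4) := lt_of_lt_of_le (not_le.1 hcase) hdiff
    have h2 : t ^ 2 / 2 = δ ^ 6 / 1152 := by rw [ht]; ring
    linarith

/-- iteration of the increment step -/
theorem iterate (C δ : ℝ) (hC : 1 ≤ C) (hδ : 0 < δ) (hδ1 : δ ≤ 1) (J : ℕ) : ∀ γ : ℕ,
    ∃ c : ℝ, 0 < c ∧ ∀ (G N : Type u) [AddCommGroup G] [AddCommGroup N] (m : Mean G)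
      (ν : Mean N) (u v : N →+ G) (f : G → ℝ), m.Inv → m.Erg → ν.Inv → IdxLe u v C →
      (∀ ω : AddChar N Circle, ∃ χ₁ χ₂ : AddChar G Circle, ∀ n, ω n = χ₁ (u n) * χ₂ (v n)) →
      (∀ x, 0 ≤ f x) → (∀ x, f x ≤ 1) → δ ≤ m f → ∀ κ : Ker G, κ.S.card ≤ γ →
      1 - J * (δ ^ 6 / 1152) ≤ κ.en m f →
      c ≤ ν (fun n => m (fun x => f x * f (x + u n) * f (x + v n))) := by
  have hτ : 0 < δ ^ 6 / 1152 := by positivity
  induction J with
  | zero =>
    intro γ
    obtain ⟨c, γ', hc, H⟩ := step.{u} C δ hC hδ hδ1 γ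
    refine ⟨c, hc, fun G N _ _ m ν u v f hm he hν hI hχ f0 f1 hmf κ hκ hen => ?_⟩
    rcases H G N m ν u v f hm he hν hI hχ f0 f1 hmf κ hκ with h | ⟨κ', -, h⟩
    · exact h
    · have h2 := κ'.en_le_one hm (bd01 f0 f1) f0 f1
      simp only [Nat.cast_zero, zero_mul, sub_zero] at hen
      linarith
  | succ J ih =>
    intro γ
    obtain ⟨c, γ', hc, H⟩ := step.{u} C δ hC hδ hδ1 γ
    obtain ⟨c', hc', H'⟩ := ih γ'
    refine ⟨min c c', lt_min hc hc', fun G N _ _ m ν u v f hm he hν hI hχ f0 f1 hmf κ hκ hen => ?_⟩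
    rcases H G N m ν u v f hm he hν hI hχ f0 f1 hmf κ hκ with h | ⟨κ', hκ', h⟩
    · exact (min_le_left _ _).trans h
    · refine (min_le_right _ _).trans (H' G N m ν u v f hm he hν hI hχ f0 f1 hmf κ' hκ' ?_)
      push_cast at hen
      linarith

/-- the uniform lower bound -/
theorem lower_bound (C δ : ℝ) (hC : 1 ≤ C) (hδ : 0 < δ) (hδ1 : δ ≤ 1) :
    ∃ c : ℝ, 0 < c ∧ ∀ (G N : Type u) [AddCommGroup G] [AddCommGroup N] (m : Mean G)
      (ν : Mean N) (u v : N →+ G) (f : G → ℝ), m.Inv → m.Erg → ν.Inv → IdxLe u v C →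
      (∀ ω : AddChar N Circle, ∃ χ₁ χ₂ : AddChar G Circle, ∀ n, ω n = χ₁ (u n) * χ₂ (v n)) →
      (∀ x, 0 ≤ f x) → (∀ x, f x ≤ 1) → δ ≤ m f →
      c ≤ ν (fun n => m (fun x => f x * f (x + u n) * f (x + v n))) := by
  have hτ : 0 < δ ^ 6 / 1152 := by positivity
  obtain ⟨J, hJ⟩ := exists_nat_gt (1 / (δ ^ 6 / 1152))
  obtain ⟨c, hc, H⟩ := iterate.{u} C δ hC hδ hδ1 J 1
  refine ⟨c, hc, fun G N _ _ m ν u v f hm he hν hI hχ f0 f1 hmf => ?_⟩
  refine H G N m ν u v f hm he hν hI hχ f0 f1 hmf Ker.triv Ker.triv_card.le ?_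
  have h1 : 0 ≤ (Ker.triv : Ker G).en m f := Ker.en_nonneg _
  rw [div_lt_iff₀ hτ] at hJ
  linarith

end Pool.Agent.Helper91.Bohr
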