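import Mathlib
import Pool.Agent.Helper91.BohrL

/-!
The perturbation argument and the core of Q1.
-/

namespace Pool.Agent.Helper91.Bohr

open Filter Topology ComplexConjugate

universe u

section Pert
variable {G : Type*} [AddCommGroup G]

theorem pairs_split (φ ψ : G →+ G) (ω : AddChar (pairs φ ψ) Circle) :
    ∃ χ₁ χ₂ : AddChar G Circle, ∀ n, ω n = χ₁ (pfst φ ψ n) * χ₂ (psnd φ ψ n) := by
  obtain ⟨Ψ, hΨ⟩ := char_extend (pairs φ ψ).subtype (Subtype.val_injective) ω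
  refine ⟨Ψ.compAddMonoidHom (AddMonoidHom.inl G G), Ψ.compAddMonoidHom (AddMonoidHom.inr G G),
    fun n => ?_⟩
  rw [AddChar.compAddMonoidHom_apply, AddChar.compAddMonoidHom_apply, ← AddChar.map_add_eq_mul,
    ← hΨ n]
  congr 1
  rw [pfst_apply, psnd_apply]
  simp

theorem diff_range (φ₁ φ₂ φ₃ : G →+ G) (h : φ₁ + φ₂ + φ₃ = 0) :
    (psnd φ₂ φ₃ - pfst φ₂ φ₃).range = φ₁.range.comap φ₃ := by
  have hsum : ∀ x, φ₁ x + φ₂ x + φ₃ x = 0 := fun x => by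
    have := DFunLike.congr_fun h x
    simpa using this
  ext d
  constructor
  · rintro ⟨n, rfl⟩
    rw [AddSubgroup.mem_comap]
    refine ⟨n.1.1, ?_⟩
    have h1 := mem_pairs.1 n.2
    have h2 := hsum n.1.1
    rw [AddMonoidHom.sub_apply, psnd_apply, pfst_apply, map_sub]
    have : φ₃ n.1.2 = - φ₂ n.1.1 := eq_neg_of_add_eq_zero_right h1
    rw [this]
    have h3 : φ₁ n.1.1 = - φ₂ n.1.1 - φ₃ n.1.1 := by
      rw [← sub_eq_zero]
      calc φ₁ n.1.1 - (- φ₂ n.1.1 - φ₃ n.1.1) = φ₁ n.1.1 + φ₂ n.1.1 + φ₃ n.1.1 := by abel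
        _ = 0 := h2
    exact h3
  · rintro ⟨a, ha⟩
    have h2 := hsum a
    refine ⟨⟨(a, a + d), mem_pairs.2 ?_⟩, ?_⟩
    · change φ₂ a + φ₃ (a + d) = 0
      rw [map_add, ← ha]
      calc φ₂ a + (φ₃ a + φ₁ a) = φ₁ a + φ₂ a + φ₃ a := by abel
        _ = 0 := h2
    · rw [AddMonoidHom.sub_apply, psnd_apply, pfst_apply]
      change a + d - a = d
      abel

theorem pairs_idx (φ₁ φ₂ φ₃ : G →+ G) (h : φ₁ + φ₂ + φ₃ = 0) (h1 : φ₁.range.index ≠ 0)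
    (h2 : φ₂.range.index ≠ 0) (h3 : φ₃.range.index ≠ 0) {C : ℝ}
    (c1 : (φ₁.range.index : ℝ) ≤ C) (c2 : (φ₂.range.index : ℝ) ≤ C)
    (c3 : (φ₃.range.index : ℝ) ≤ C) : IdxLe (pfst φ₂ φ₃) (psnd φ₂ φ₃) C := by
  have a1 := index_comap_range φ₂ φ₃ h3
  have a2 := index_comap_range φ₃ φ₂ h2
  have a3 := index_comap_range φ₃ φ₁ h1
  rw [← pfst_range] at a1
  rw [← psnd_range] at a2
  rw [← diff_range φ₁ φ₂ φ₃ h] at a3
  refine ⟨a1.1, a2.1, a3.1, ?_, ?_, ?_⟩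
  · exact le_trans (by exact_mod_cast a1.2) c3
  · exact le_trans (by exact_mod_cast a2.2) c2
  · exact le_trans (by exact_mod_cast a3.2) c1

/-- vanishing of the form on characters which are nontrivial on the kernel -/
theorem Lam_vanish {m : Mean G} (hm : m.Inv) {N : Type*} [AddCommGroup N] {ν : Mean N}
    (hν : ν.Inv) {u v : N →+ G} {b c : G → ℂ} (hb : Bd b) (hc : Bd c) {θ : AddChar G Circle}
    {z : G} (hz : θ z ≠ 1) {n₁ : N} (hu : u n₁ = -z) (hv : v n₁ = -z) :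
    Lam m ν u v (fun x => (θ x : ℂ)) b c = 0 := by
  have hB : ∀ n, Bd (fun x => (θ x : ℂ) * b (x + u n) * c (x + v n)) := fun n =>
    ((Bd.char θ).mul (hb.comp _)).mul (hc.comp _)
  have hBB : Bd (fun n => m.c (fun x => (θ x : ℂ) * b (x + u n) * c (x + v n))) := by
    obtain ⟨B, hB0, hB⟩ := hb.exists_nonneg
    obtain ⟨D, hD0, hD⟩ := hc.exists_nonneg
    refine ⟨B * D, fun n => m.norm_c_le_of_le fun x => ?_⟩
    rw [norm_mul, norm_mul, Circle.norm_coe, one_mul]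
    exact mul_le_mul (hB _) (hD _) (norm_nonneg _) hB0
  have h1 := Mean.c_inv hν hBB n₁
  have h2 : ∀ n, m.c (fun x => (θ x : ℂ) * b (x + u (n + n₁)) * c (x + v (n + n₁))) =
      (θ z : ℂ) * m.c (fun x => (θ x : ℂ) * b (x + u n) * c (x + v n)) := by
    intro n
    rw [← Mean.c_inv hm (hB (n + n₁)) z, ← m.c_smul]
    congr 1
    funext x
    have e1 : x + z + u (n + n₁) = x + u n := by rw [map_add, hu]; abel
    have e2 : x + z + v (n + n₁) = x + v n := by rw [map_add, hv]; abel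
    rw [e1, e2, char_add]
    ring
  simp_rw [h2] at h1
  rw [ν.c_smul] at h1
  have h3 : ((θ z : ℂ) - 1) * Lam m ν u v (fun x => (θ x : ℂ)) b c = 0 := by
    rw [Lam, sub_mul, h1, one_mul, sub_self]
  rcases mul_eq_zero.1 h3 with h4 | h4
  · exfalso
    apply hz
    have := sub_eq_zero.1 h4
    ext
    simpa using this
  · exact h4

/-- the perturbation estimate -/
theorem perturb1 {m : Mean G} (hm : m.Inv) (he : m.Erg) (φ₁ φ₂ φ₃ : G →+ G)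
    (h : φ₁ + φ₂ + φ₃ = 0) {ν : Mean (pairs φ₂ φ₃)} (hν : ν.Inv) {C : ℝ}
    (hI : IdxLe (pfst φ₂ φ₃) (psnd φ₂ φ₃) C) {f : G → ℝ} (f0 : ∀ x, 0 ≤ f x)
    (f1 : ∀ x, f x ≤ 1) {ε η : ℝ} (hε : 0 < ε) (hη : 0 < η) {Γ : Finset (AddChar G Circle)}
    (hΓ : ∀ χ, χ ∈ Γ ↔ ε < ‖m.coef (fun x => (f x : ℂ)) χ‖) (c : G)
    (hc : ∀ θ ∈ Γ, (∀ z, φ₁ z = 0 → θ z = 1) → ‖(θ c : ℂ) - 1‖ < η) :
    ν (fun n => m (fun x => f x * f (x + pfst φ₂ φ₃ n) * f (x + psnd φ₂ φ₃ n))) -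
      (Γ.card * η + 2 * (C * Real.sqrt ε)) ≤
    ν (fun n => m (fun x => f (x + c) * f (x + pfst φ₂ φ₃ n) * f (x + psnd φ₂ φ₃ n))) := by
  classical
  set y := pfst φ₂ φ₃ with hy
  set t := psnd φ₂ φ₃ with ht
  have hfB := bd01 f0 f1
  set fC : G → ℂ := fun x => (f x : ℂ) with hfC
  have hfCB : Bd fC := hfB.ofReal
  have hfC1 : ∀ x, ‖fC x‖ ≤ 1 := abs_le_norm_ofReal f0 f1
  have hfsq : m (fun x => ‖fC x‖ ^ 2) ≤ 1 :=
    m.le_of_le (hfCB.norm.pow 2) fun x => pow_le_one₀ (norm_nonneg _) (hfC1 x)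
  set e := remainder m fC Γ with hedef
  have heB : Bd e := remainder_bd hfCB Γ
  have hecoef : ∀ χ, ‖m.coef e χ‖ ≤ ε := by
    intro χ
    rw [hedef, coef_remainder hm]
    split_ifs with h
    · rw [norm_zero]; exact hε.le
    · exact not_lt.1 (fun h' => h ((hΓ χ).2 h'))
  have hesq : m (fun x => ‖e x‖ ^ 2) ≤ 1 := (remainder_norm_sq hm hfCB Γ).trans hfsq
  -- expansion
  have hexp : ∀ d : G, ((ν (fun n => m (fun x => f (x + d) * f (x + y n) * f (x + t n))) : ℝ) : ℂ) =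
      ∑ θ ∈ Γ, m.coef fC θ * (θ d : ℂ) * Lam m ν y t (fun x => (θ x : ℂ)) fC fC +
        Lam m ν y t (fun x => e (x + d)) fC fC := by
    intro d
    unfold Lam
    simp_rw [← ν.c_smul]
    rw [← ν.c_sum, ← ν.c_add, ← ν.c_ofReal]
    congr 1
    funext n
    simp_rw [← m.c_smul]
    rw [← m.c_sum, ← m.c_add, ← m.c_ofReal]
    congr 1
    funext x
    have h1 : fC (x + d) = ∑ θ ∈ Γ, m.coef fC θ * (θ (x + d) : ℂ) + e (x + d) := by
      rw [hedef, remainder]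
      ring
    have h2 : ((f (x + d) * f (x + y n) * f (x + t n) : ℝ) : ℂ) =
        fC (x + d) * fC (x + y n) * fC (x + t n) := by
      simp only [hfC]
      push_cast
      rfl
    rw [h2, h1, add_mul, add_mul, Finset.sum_mul, Finset.sum_mul]
    congr 1
    refine Finset.sum_congr rfl fun θ _ => ?_
    rw [char_add]
    ring
  have hE : ∀ d : G, ‖Lam m ν y t (fun x => e (x + d)) fC fC‖ ≤ C * Real.sqrt ε := by
    intro d
    refine Lam_bound1 hm he hν hI hε.le (heB.comp _) ?_ hfC1 hfC1 fun χ => ?_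
    · have := hm d (fun x => ‖e x‖ ^ 2) (heB.norm.pow 2)
      rw [this]
      exact hesq
    · rw [Mean.coef_translate hm heB, norm_mul, Circle.norm_coe, one_mul]
      exact hecoef χ
  have hd : ((ν (fun n => m (fun x => f (x + c) * f (x + y n) * f (x + t n))) -
      ν (fun n => m (fun x => f (x + 0) * f (x + y n) * f (x + t n))) : ℝ) : ℂ) =
      ∑ θ ∈ Γ, m.coef fC θ * ((θ c : ℂ) - 1) * Lam m ν y t (fun x => (θ x : ℂ)) fC fC +
        (Lam m ν y t (fun x => e (x + c)) fC fC - Lam m ν y t (fun x => e (x + 0)) fC fC) := by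
    rw [Complex.ofReal_sub, hexp, hexp]
    have h1 : ∑ θ ∈ Γ, m.coef fC θ * ((θ c : ℂ) - 1) * Lam m ν y t (fun x => (θ x : ℂ)) fC fC =
        ∑ θ ∈ Γ, m.coef fC θ * (θ c : ℂ) * Lam m ν y t (fun x => (θ x : ℂ)) fC fC -
        ∑ θ ∈ Γ, m.coef fC θ * ((θ (0 : G) : Circle) : ℂ) *
          Lam m ν y t (fun x => (θ x : ℂ)) fC fC := by
      rw [← Finset.sum_sub_distrib]
      refine Finset.sum_congr rfl fun θ _ => ?_
      rw [AddChar.map_zero_eq_one, Circle.coe_one]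
      ring
    rw [h1]
    ring
  have hA : ‖∑ θ ∈ Γ, m.coef fC θ * ((θ c : ℂ) - 1) *
      Lam m ν y t (fun x => (θ x : ℂ)) fC fC‖ ≤ Γ.card * η := by
    refine (norm_sum_le _ _).trans ?_
    have hterm : ∀ θ ∈ Γ, ‖m.coef fC θ * ((θ c : ℂ) - 1) *
        Lam m ν y t (fun x => (θ x : ℂ)) fC fC‖ ≤ η := by
      intro θ hθ
      by_cases hθ' : ∀ z, φ₁ z = 0 → θ z = 1
      · rw [norm_mul, norm_mul]
        have h1 : ‖m.coef fC θ‖ ≤ 1 := by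
          refine m.norm_c_le_of_le fun x => ?_
          rw [norm_mul, RCLike.norm_conj, Circle.norm_coe, mul_one]
          exact hfC1 x
        have h2 : ‖Lam m ν y t (fun x => (θ x : ℂ)) fC fC‖ ≤ 1 := by
          refine ν.norm_c_le_of_le fun n => m.norm_c_le_of_le fun x => ?_
          rw [norm_mul, norm_mul, Circle.norm_coe, one_mul]
          exact mul_le_one₀ (hfC1 _) (norm_nonneg _) (hfC1 _)
        calc ‖m.coef fC θ‖ * ‖(θ c : ℂ) - 1‖ * ‖Lam m ν y t (fun x => (θ x : ℂ)) fC fC‖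
            ≤ 1 * η * 1 := mul_le_mul (mul_le_mul h1 (hc θ hθ hθ').le (norm_nonneg _) zero_le_one)
              h2 (norm_nonneg _) (by linarith)
          _ = η := by ring
      · push Not at hθ'
        obtain ⟨z, hz, hθz⟩ := hθ'
        have hsum : φ₁ z + φ₂ z + φ₃ z = 0 := by
          have := DFunLike.congr_fun h z
          simpa using this
        rw [hz, zero_add] at hsum
        have hmem : ((-z, -z) : G × G) ∈ pairs φ₂ φ₃ := mem_pairs.2 (by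
          change φ₂ (-z) + φ₃ (-z) = 0
          rw [map_neg, map_neg, ← neg_add, hsum, neg_zero])
        rw [Lam_vanish hm hν hfCB hfCB hθz (n₁ := ⟨(-z, -z), hmem⟩) rfl rfl, mul_zero, norm_zero]
        exact hη.le
    refine (Finset.sum_le_card_nsmul _ _ _ hterm).trans ?_
    rw [nsmul_eq_mul]
  have habs : |ν (fun n => m (fun x => f (x + c) * f (x + y n) * f (x + t n))) -
      ν (fun n => m (fun x => f (x + 0) * f (x + y n) * f (x + t n)))| ≤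
      Γ.card * η + 2 * (C * Real.sqrt ε) := by
    rw [← Real.norm_eq_abs, ← Complex.norm_real, hd]
    refine (norm_add_le _ _).trans ?_
    have h1 := norm_sub_le (Lam m ν y t (fun x => e (x + c)) fC fC)
      (Lam m ν y t (fun x => e (x + 0)) fC fC)
    have h2 := hE c
    have h3 := hE 0
    linarith
  simp only [add_zero] at habs
  have := (_root_.abs_le.1 habs).1
  linarith

end Pert

/-- the core of Q1 -/
theorem q1_core (δ : ℝ) (hδ : 0 < δ) (hδ1 : δ ≤ 1) (I₁ I₂ I₃ : ℕ) (h₁ : I₁ ≠ 0) (h₂ : I₂ ≠ 0)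
    (h₃ : I₃ ≠ 0) :
    ∃ (k : ℕ) (η : ℝ), 0 < η ∧
      ∀ (G : Type u) [AddCommGroup G] (φ₁ φ₂ φ₃ : G →+ G), φ₁ + φ₂ + φ₃ = 0 →
        φ₁.range.index = I₁ → φ₂.range.index = I₂ → φ₃.range.index = I₃ →
        ∀ (f : G → ℝ), (∀ x, 0 ≤ f x) → (∀ x, f x ≤ 1) →
        ∀ m₀ : Mean G, m₀.Inv → δ ≤ m₀ f →
          ∃ χ : Fin k → AddChar G Circle, ∀ w, (∀ j, ‖(χ j w : ℂ) - 1‖ < η) →
            ∃ a b c : G, f a ≠ 0 ∧ f b ≠ 0 ∧ f c ≠ 0 ∧ φ₁ a + φ₂ b + φ₃ c = w := by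
  set C : ℝ := I₁ + I₂ + I₃ with hC
  have hI1 : (1 : ℝ) ≤ I₁ := by exact_mod_cast Nat.pos_of_ne_zero h₁
  have hI2 : (1 : ℝ) ≤ I₂ := by exact_mod_cast Nat.pos_of_ne_zero h₂
  have hI3 : (1 : ℝ) ≤ I₃ := by exact_mod_cast Nat.pos_of_ne_zero h₃
  have hC1 : 1 ≤ C := by rw [hC]; linarith
  obtain ⟨c₀, hc₀, H⟩ := lower_bound.{u} C δ hC1 hδ hδ1
  set ε : ℝ := (c₀ / (8 * C)) ^ 2 with hε
  have hε0 : 0 < ε := by positivity
  have hsq : Real.sqrt ε = c₀ / (8 * C) := by rw [hε, Real.sqrt_sq (by positivity)]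
  set η : ℝ := min 1 (c₀ * ε ^ 2 / 4) with hη
  have hη0 : 0 < η := lt_min one_pos (by positivity)
  refine ⟨⌊1 / ε ^ 2⌋₊ + I₁, η, hη0, ?_⟩
  intro G _ φ₁ φ₂ φ₃ hsum hφ₁ hφ₂ hφ₃ f f0 f1 m₀ hm₀ hm₀f
  have hfB := bd01 f0 f1
  obtain ⟨m, hm, he, hmf⟩ := exists_erg_ge m₀ hm₀ f hfB
  have hmf' : δ ≤ m f := hm₀f.trans hmf
  obtain ⟨ν, hν⟩ := exists_inv (pairs φ₂ φ₃)
  have hI : IdxLe (pfst φ₂ φ₃) (psnd φ₂ φ₃) C := by
    refine pairs_idx φ₁ φ₂ φ₃ hsum (by rw [hφ₁]; exact h₁) (by rw [hφ₂]; exact h₂)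
      (by rw [hφ₃]; exact h₃) ?_ ?_ ?_
    · rw [hφ₁, hC]; linarith
    · rw [hφ₂, hC]; linarith
    · rw [hφ₃, hC]; linarith
  have hlow := H G (pairs φ₂ φ₃) m ν (pfst φ₂ φ₃) (psnd φ₂ φ₃) f hm he hν hI
    (pairs_split φ₂ φ₃) f0 f1 hmf'
  obtain ⟨Γ, hΓ, hΓc⟩ := exists_spec hm hfB.ofReal hε0
  have hfsq : m (fun x => ‖(f x : ℂ)‖ ^ 2) ≤ 1 :=
    m.le_of_le (hfB.ofReal.norm.pow 2) fun x =>
      pow_le_one₀ (norm_nonneg _) (abs_le_norm_ofReal f0 f1 x)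
  have hΓle : (Γ.card : ℝ) ≤ 1 / ε ^ 2 := by
    rw [le_div_iff₀ (by positivity)]
    exact hΓc.trans hfsq
  have hΓcard : Γ.card ≤ ⌊1 / ε ^ 2⌋₊ := Nat.le_floor hΓle
  obtain ⟨χ, hχ⟩ := bohr_family φ₁ (by rw [hφ₁]; exact h₁) Γ (⌊1 / ε ^ 2⌋₊ + I₁)
    (by rw [hφ₁]; omega) (min_le_left 1 (c₀ * ε ^ 2 / 4))
  refine ⟨χ, fun w hw => ?_⟩
  obtain ⟨c, hcw, hc⟩ := hχ w hw
  have hpert := perturb1 hm he φ₁ φ₂ φ₃ hsum hν hI f0 f1 hε0 hη0 hΓ c hc
  have h1 : (Γ.card : ℝ) * η ≤ c₀ / 4 := by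
    calc (Γ.card : ℝ) * η ≤ (1 / ε ^ 2) * (c₀ * ε ^ 2 / 4) :=
          mul_le_mul hΓle (min_le_right _ _) hη0.le (by positivity)
      _ = c₀ / 4 := by field_simp
  have h2 : 2 * (C * Real.sqrt ε) = c₀ / 4 := by
    rw [hsq]
    have : C ≠ 0 := by linarith
    field_simp
    norm_num
  have hpos : 0 < ν (fun n => m (fun x => f (x + c) * f (x + pfst φ₂ φ₃ n) *
      f (x + psnd φ₂ φ₃ n))) := by linarith
  -- extract a point
  obtain ⟨n, hn⟩ : ∃ n, m (fun x => f (x + c) * f (x + pfst φ₂ φ₃ n) *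
      f (x + psnd φ₂ φ₃ n)) ≠ 0 := by
    by_contra hcon
    push Not at hcon
    simp_rw [hcon] at hpos
    rw [ν.const'] at hpos
    exact lt_irrefl _ hpos
  obtain ⟨x, hx⟩ : ∃ x, f (x + c) * f (x + pfst φ₂ φ₃ n) * f (x + psnd φ₂ φ₃ n) ≠ 0 := by
    by_contra hcon
    push Not at hcon
    simp_rw [hcon] at hn
    exact hn (m.const' 0)
  refine ⟨x + c, x + pfst φ₂ φ₃ n, x + psnd φ₂ φ₃ n, ?_, ?_, ?_, ?_⟩
  · exact fun h => hx (by rw [h]; ring)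
  · exact fun h => hx (by rw [h]; ring)
  · exact fun h => hx (by rw [h]; ring)
  · have h3 : φ₁ x + φ₂ x + φ₃ x = 0 := by
      have := DFunLike.congr_fun hsum x
      simpa using this
    have h4 : φ₂ (pfst φ₂ φ₃ n) + φ₃ (psnd φ₂ φ₃ n) = 0 := mem_pairs.1 n.2
    rw [map_add, map_add, map_add, hcw]
    calc φ₁ x + w + (φ₂ x + φ₂ (pfst φ₂ φ₃ n)) + (φ₃ x + φ₃ (psnd φ₂ φ₃ n))
        = (φ₁ x + φ₂ x + φ₃ x) + (φ₂ (pfst φ₂ φ₃ n) + φ₃ (psnd φ₂ φ₃ n)) + w := by abel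
      _ = w := by rw [h3, h4, zero_add, zero_add]

end Pool.Agent.Helper91.Bohr
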