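import Mathlib
import Pool.Agent.Helper91.BohrM

/-!
Invariant means from Folner sequences.
-/

namespace Pool.Agent.Helper91.Bohr

open Filter Topology ComplexConjugate

open Classical in
theorem exists_mean_of_folner {G : Type*} [AddCommGroup G] (F : ℕ → Finset G)
    (hF : ∀ N, (F N).Nonempty)
    (hinv : ∀ g : G, Tendsto (fun N => ((symmDiff (F N) ((F N).image (fun x => g + x))).card : ℝ) /
      ((F N).card : ℝ)) atTop (𝓝 0)) (A : Set G) (d : ℝ)
    (hd : ∃ᶠ N in atTop, d < (((F N).filter (fun x => x ∈ A)).card : ℝ) / ((F N).card : ℝ)) :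
    ∃ m₀ : Mean G, m₀.Inv ∧ d ≤ m₀ (fun x => if x ∈ A then 1 else 0) := by
  set u : ℕ → ℝ := fun N => (((F N).filter (fun x => x ∈ A)).card : ℝ) / ((F N).card : ℝ) with hu
  have hne : (atTop ⊓ 𝓟 {N | d < u N}).NeBot := frequently_mem_iff_neBot.1 hd
  let 𝒰 : Ultrafilter ℕ := Ultrafilter.of (atTop ⊓ 𝓟 {N | d < u N})
  have h𝒰 : (𝒰 : Filter ℕ) ≤ atTop ⊓ 𝓟 {N | d < u N} := Ultrafilter.of_le _
  have h𝒰1 : (𝒰 : Filter ℕ) ≤ atTop := h𝒰.trans inf_le_left
  have h𝒰2 : ∀ᶠ N in (𝒰 : Filter ℕ), d < u N := by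
    have : (𝒰 : Filter ℕ) ≤ 𝓟 {N | d < u N} := h𝒰.trans inf_le_right
    exact this (mem_principal_self _)
  let M : ℕ → Mean G := fun N => Mean.avg (F N) (hF N) (fun x => Mean.dirac x)
  have hM : ∀ N (f : G → ℝ), M N f = ((F N).card : ℝ)⁻¹ * ∑ x ∈ F N, f x := by
    intro N f
    exact Mean.avg_apply _ _ _ _
  obtain ⟨m₀, hm₀⟩ := exists_ultralimit M 𝒰
  refine ⟨m₀, fun h f hf => ?_, ?_⟩
  · -- invariance
    obtain ⟨B, hB0, hB⟩ := hf.exists_nonneg
    have h1 := hm₀ _ (hf.comp (fun x => x + h))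
    have h2 := hm₀ f hf
    have h3 := h1.sub h2
    have h4 : Tendsto (fun N => M N (fun x => f (x + h)) - M N f) 𝒰 (𝓝 0) := by
      have h5 := ((hinv h).const_mul B).mono_left h𝒰1
      rw [mul_zero] at h5
      refine squeeze_zero_norm (fun N => ?_) h5
      rw [hM, hM, ← mul_sub, Real.norm_eq_abs, abs_mul]
      have hc : (0 : ℝ) < (F N).card := by exact_mod_cast (hF N).card_pos
      rw [abs_of_pos (inv_pos.2 hc), inv_mul_eq_div, ← mul_div_assoc]
      refine div_le_div_of_nonneg_right ?_ hc.le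
      have e1 : ∑ x ∈ F N, f (x + h) = ∑ y ∈ (F N).image (fun x => h + x), f y := by
        rw [Finset.sum_image (fun a _ b _ hab => add_left_cancel hab)]
        exact Finset.sum_congr rfl fun x _ => by rw [add_comm]
      set P := (F N).image (fun x => h + x) with hP
      have e2 : ∑ y ∈ P, f y - ∑ y ∈ F N, f y = ∑ y ∈ P \ F N, f y - ∑ y ∈ F N \ P, f y := by
        have a1 := Finset.sum_inter_add_sum_sdiff P (F N) f
        have a2 := Finset.sum_inter_add_sum_sdiff (F N) P f
        rw [Finset.inter_comm] at a2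
        linarith
      rw [e1, e2]
      have e3 : (symmDiff (F N) P).card = (F N \ P).card + (P \ F N).card := by
        rw [symmDiff_def, Finset.sup_eq_union, Finset.card_union_of_disjoint]
        exact disjoint_sdiff_sdiff
      have k1 : |∑ y ∈ P \ F N, f y| ≤ B * (P \ F N).card := by
        refine (Finset.abs_sum_le_sum_abs _ _).trans ?_
        refine (Finset.sum_le_card_nsmul _ _ B fun x _ => hB x).trans ?_
        rw [nsmul_eq_mul, mul_comm]
      have k2 : |∑ y ∈ F N \ P, f y| ≤ B * (F N \ P).card := by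
        refine (Finset.abs_sum_le_sum_abs _ _).trans ?_
        refine (Finset.sum_le_card_nsmul _ _ B fun x _ => hB x).trans ?_
        rw [nsmul_eq_mul, mul_comm]
      rw [e3]
      push_cast
      have k3 := abs_sub (∑ y ∈ P \ F N, f y) (∑ y ∈ F N \ P, f y)
      linarith
    have h5 := tendsto_nhds_unique h3 h4
    linarith
  · have hfB : Bd (fun x : G => if x ∈ A then (1 : ℝ) else 0) := ⟨1, fun x => by
      beta_reduce
      split_ifs <;> simp⟩
    have h1 := hm₀ _ hfB
    refine ge_of_tendsto h1 ?_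
    filter_upwards [h𝒰2] with N hN
    rw [hM]
    have e1 : ((F N).card : ℝ)⁻¹ * ∑ x ∈ F N, (if x ∈ A then (1 : ℝ) else 0) = u N := by
      rw [hu, Finset.sum_boole, inv_mul_eq_div]
    rw [e1]
    exact hN.le

end Pool.Agent.Helper91.Bohr
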