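import Mathlib

set_option autoImplicit false

open MeasureTheory Filter
open scoped Topology ENNReal

namespace Pool.Agent.Helper91.DoubleONS

variable {Ω : Type*} [MeasurableSpace Ω]

/-- bounded measurable real functions -/
def Bdd (f : Ω → ℝ) : Prop := Measurable f ∧ ∃ C : ℝ, ∀ ω, |f ω| ≤ C

namespace Bdd

theorem const (c : ℝ) : Bdd (fun _ : Ω => c) := ⟨measurable_const, |c|, fun _ => le_rfl⟩

theorem neg {f : Ω → ℝ} (hf : Bdd f) : Bdd (fun ω => - f ω) :=
  ⟨hf.1.neg, by simpa [abs_neg] using hf.2⟩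

theorem add {f g : Ω → ℝ} (hf : Bdd f) (hg : Bdd g) : Bdd (fun ω => f ω + g ω) := by
  obtain ⟨hfm, C, hC⟩ := hf
  obtain ⟨hgm, D, hD⟩ := hg
  exact ⟨hfm.add hgm, C + D, fun ω => (abs_add_le _ _).trans (add_le_add (hC ω) (hD ω))⟩

theorem sub {f g : Ω → ℝ} (hf : Bdd f) (hg : Bdd g) : Bdd (fun ω => f ω - g ω) := by
  simpa [sub_eq_add_neg] using hf.add hg.neg

theorem mul {f g : Ω → ℝ} (hf : Bdd f) (hg : Bdd g) : Bdd (fun ω => f ω * g ω) := by
  obtain ⟨hfm, C, hC⟩ := hf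
  obtain ⟨hgm, D, hD⟩ := hg
  refine ⟨hfm.mul hgm, C * D, fun ω => ?_⟩
  rw [abs_mul]
  exact mul_le_mul (hC ω) (hD ω) (abs_nonneg _) ((abs_nonneg _).trans (hC ω))

theorem const_mul {f : Ω → ℝ} (c : ℝ) (hf : Bdd f) : Bdd (fun ω => c * f ω) :=
  (const c).mul hf

theorem abs {f : Ω → ℝ} (hf : Bdd f) : Bdd (fun ω => |f ω|) := by
  obtain ⟨hfm, C, hC⟩ := hf
  exact ⟨hfm.abs, C, fun ω => by simpa using hC ω⟩

theorem max {f g : Ω → ℝ} (hf : Bdd f) (hg : Bdd g) : Bdd (fun ω => max (f ω) (g ω)) := by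
  obtain ⟨hfm, C, hC⟩ := hf
  obtain ⟨hgm, D, hD⟩ := hg
  refine ⟨hfm.max hgm, Max.max C D, fun ω => ?_⟩
  exact (abs_max_le_max_abs_abs).trans (max_le_max (hC ω) (hD ω))

theorem pow {f : Ω → ℝ} (hf : Bdd f) (n : ℕ) : Bdd (fun ω => f ω ^ n) := by
  induction n with
  | zero => simpa using const (Ω := Ω) 1
  | succ n ih => simpa [pow_succ] using ih.mul hf

theorem sum {ι : Type*} {f : ι → Ω → ℝ} (s : Finset ι) (hf : ∀ i ∈ s, Bdd (f i)) :
    Bdd (fun ω => ∑ i ∈ s, f i ω) := by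
  classical
  induction s using Finset.induction_on with
  | empty => simpa using const (Ω := Ω) 0
  | insert a s ha ih =>
    simp only [Finset.sum_insert ha]
    exact (hf a (Finset.mem_insert_self _ _)).add
      (ih fun i hi => hf i (Finset.mem_insert_of_mem hi))

theorem comp {Ω' : Type*} [MeasurableSpace Ω'] {f : Ω → ℝ} (hf : Bdd f) {σ : Ω' → Ω}
    (hσ : Measurable σ) : Bdd (fun ω => f (σ ω)) := by
  obtain ⟨hfm, C, hC⟩ := hf
  exact ⟨hfm.comp hσ, C, fun ω => hC _⟩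

theorem sqrt {f : Ω → ℝ} (hf : Bdd f) : Bdd (fun ω => Real.sqrt (f ω)) := by
  obtain ⟨hfm, C, hC⟩ := hf
  refine ⟨hfm.sqrt, Real.sqrt C, fun ω => ?_⟩
  rw [abs_of_nonneg (Real.sqrt_nonneg _)]
  exact Real.sqrt_le_sqrt ((le_abs_self _).trans (hC ω))

theorem integrable {f : Ω → ℝ} (hf : Bdd f) {P : Measure Ω} [IsFiniteMeasure P] :
    Integrable f P := by
  obtain ⟨hfm, C, hC⟩ := hf
  exact Integrable.of_bound hfm.aestronglyMeasurable C (Eventually.of_forall fun ω => by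
    simpa [Real.norm_eq_abs] using hC ω)

theorem memLp {f : Ω → ℝ} (hf : Bdd f) {P : Measure Ω} [IsFiniteMeasure P] (p : ℝ≥0∞) :
    MemLp f p P := by
  obtain ⟨hfm, C, hC⟩ := hf
  exact MemLp.of_bound hfm.aestronglyMeasurable C (Eventually.of_forall fun ω => by
    simpa [Real.norm_eq_abs] using hC ω)

end Bdd

theorem integral_comp_mp {P : Measure Ω} {σ : Ω → Ω} (hσ : MeasurePreserving σ P P)
    {f : Ω → ℝ} (hf : Measurable f) : ∫ ω, f (σ ω) ∂P = ∫ ω, f ω ∂P := by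
  have h := integral_map (μ := P) hσ.measurable.aemeasurable (f := f)
    (by rw [hσ.map_eq]; exact hf.aestronglyMeasurable)
  rw [hσ.map_eq] at h
  exact h.symm

/-- running maximum of a sequence -/
def rmax (x : ℕ → ℝ) : ℕ → ℝ
  | 0 => x 0
  | (n+1) => max (rmax x n) (x (n+1))

theorem le_rmax (x : ℕ → ℝ) (M : ℕ) : ∀ k ≤ M, x k ≤ rmax x M := by
  induction M with
  | zero => intro k hk; obtain rfl : k = 0 := by omega
            exact le_rfl
  | succ M ih =>
    intro k hk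
    rcases Nat.lt_or_ge k (M+1) with h | h
    · exact (ih k (by omega)).trans (le_max_left _ _)
    · obtain rfl : k = M + 1 := by omega
      exact le_max_right _ _

theorem rmax_nonneg (x : ℕ → ℝ) (hx : ∀ k, 0 ≤ x k) (M : ℕ) : 0 ≤ rmax x M :=
  (hx 0).trans (le_rmax x M 0 (Nat.zero_le _))

theorem rmax_congr {x y : ℕ → ℝ} (M : ℕ) (h : ∀ k ≤ M, x k = y k) : rmax x M = rmax y M := by
  induction M with
  | zero => exact h 0 le_rfl
  | succ M ih =>
    simp only [rmax]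
    rw [ih fun k hk => h k (by omega), h (M+1) le_rfl]

theorem rmax_pathwise (x : ℕ → ℝ) (M : ℕ) :
    2 * ∑ k ∈ Finset.range M, rmax x k * (x (k+1) - x k) ≤ 2 * rmax x M * x M - rmax x M ^ 2 := by
  induction M with
  | zero => simp only [Finset.range_zero, Finset.sum_empty, rmax]; nlinarith [sq_nonneg (x 0)]
  | succ M ih =>
    rw [Finset.sum_range_succ, mul_add]
    simp only [rmax]
    rcases le_total (x (M+1)) (rmax x M) with h | h
    · rw [max_eq_left h]; nlinarith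
    · rw [max_eq_right h]; nlinarith [sq_nonneg (x (M+1) - rmax x M)]

theorem rmax_sq_le (x : ℕ → ℝ) (M : ℕ) :
    rmax x M ^ 2 ≤ 4 * x M ^ 2 - 4 * ∑ k ∈ Finset.range M, rmax x k * (x (k+1) - x k) := by
  have h := rmax_pathwise x M
  nlinarith [sq_nonneg (rmax x M - 2 * x M)]

theorem Bdd.rmax {X : ℕ → Ω → ℝ} (hX : ∀ k, Bdd (X k)) (M : ℕ) :
    Bdd (fun ω => rmax (fun k => X k ω) M) := by
  induction M with
  | zero => exact hX 0
  | succ M ih => exact ih.max (hX (M+1))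

/-- Doob's `L²` maximal inequality, in the form given by measure preserving symmetries. -/
theorem doob {P : Measure Ω} [IsProbabilityMeasure P] (X : ℕ → Ω → ℝ) (M : ℕ)
    (hX : ∀ k, Bdd (X k)) (hnn : ∀ k ω, 0 ≤ X k ω)
    (hσ : ∀ k < M, ∃ σ : Ω → Ω, MeasurePreserving σ P P ∧ (∀ j ≤ k, ∀ ω, X j (σ ω) = X j ω) ∧
      ∀ ω, 2 * X k ω ≤ X (k+1) ω + X (k+1) (σ ω)) :
    ∫ ω, (rmax (fun k => X k ω) M) ^ 2 ∂P ≤ 4 * ∫ ω, (X M ω) ^ 2 ∂P := by
  have key : ∀ k < M, 0 ≤ ∫ ω, rmax (fun k => X k ω) k * (X (k+1) ω - X k ω) ∂P := by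
    intro k hk
    obtain ⟨σ, hmp, h1, h2⟩ := hσ k hk
    have hR := Bdd.rmax hX k
    have hA : Bdd (fun ω => rmax (fun k => X k ω) k * (X (k+1) ω - X k ω)) :=
      hR.mul ((hX (k+1)).sub (hX k))
    have e := integral_comp_mp hmp hA.1
    have hinv : ∀ ω, rmax (fun k => X k (σ ω)) k = rmax (fun k => X k ω) k := fun ω =>
      rmax_congr k fun j hj => h1 j hj ω
    have hB := hA.comp hmp.measurable
    have : 0 ≤ ∫ ω, (rmax (fun k => X k ω) k * (X (k+1) ω - X k ω)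
        + rmax (fun k => X k (σ ω)) k * (X (k+1) (σ ω) - X k (σ ω))) ∂P := by
      apply integral_nonneg
      intro ω
      have hr := rmax_nonneg (fun k => X k ω) (fun k => hnn k ω) k
      have hh := h2 ω
      simp only [hinv, h1 k le_rfl ω, Pi.zero_apply]
      nlinarith
    rw [integral_add hA.integrable hB.integrable, e] at this
    linarith
  have hR := (Bdd.rmax hX M).pow 2
  have hS : Bdd (fun ω => 4 * X M ω ^ 2 - 4 * ∑ k ∈ Finset.range M,
      rmax (fun k => X k ω) k * (X (k+1) ω - X k ω)) :=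
    (((hX M).pow 2).const_mul 4).sub ((Bdd.sum _ fun k _ =>
      (Bdd.rmax hX k).mul ((hX (k+1)).sub (hX k))).const_mul 4)
  have h1 := integral_mono (μ := P) hR.integrable hS.integrable
    (fun ω => rmax_sq_le (fun k => X k ω) M)
  refine h1.trans ?_
  rw [integral_sub (((hX M).pow 2).const_mul 4).integrable
    ((Bdd.sum _ fun k _ => (Bdd.rmax hX k).mul ((hX (k+1)).sub (hX k))).const_mul 4).integrable,
    integral_const_mul, integral_const_mul, integral_finsetSum]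
  · have : 0 ≤ ∑ k ∈ Finset.range M, ∫ ω, rmax (fun k => X k ω) k * (X (k+1) ω - X k ω) ∂P :=
      Finset.sum_nonneg fun k hk => key k (Finset.mem_range.1 hk)
    linarith
  · intro k _
    exact ((Bdd.rmax hX k).mul ((hX (k+1)).sub (hX k))).integrable

end Pool.Agent.Helper91.DoubleONS
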