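import Mathlib
import Pool.Agent.Helper91.DoubA

set_option autoImplicit false
set_option linter.unusedSectionVars false
set_option linter.unusedVariables false

open MeasureTheory Filter
open scoped Topology ENNReal

namespace Pool.Agent.Helper91.DoubleONS

variable {Ω : Type*} [MeasurableSpace Ω]

/-- `r` is a sequence of measurable sign functions which can be flipped one at a time by
measure preserving maps. -/
structure Flippable (P : Measure Ω) (r : ℕ → Ω → ℝ) : Prop where
  meas : ∀ n, Measurable (r n)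
  sq : ∀ n ω, r n ω = 1 ∨ r n ω = -1
  flip : ∀ n, ∃ σ : Ω → Ω, MeasurePreserving σ P P ∧
    ∀ m ω, r m (σ ω) = (if m = n then -1 else 1) * r m ω

variable {P : Measure Ω} {r : ℕ → Ω → ℝ}

namespace Flippable

theorem bdd (h : Flippable P r) (n : ℕ) : Bdd (r n) :=
  ⟨h.meas n, 1, fun ω => by rcases h.sq n ω with h | h <;> simp [h]⟩

theorem sq_eq (h : Flippable P r) (n : ℕ) (ω : Ω) : r n ω * r n ω = 1 := by
  rcases h.sq n ω with h | h <;> simp [h]

theorem abs_eq (h : Flippable P r) (n : ℕ) (ω : Ω) : |r n ω| = 1 := by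
  rcases h.sq n ω with h | h <;> simp [h]

theorem flips (h : Flippable P r) (U : Finset ℕ) : ∃ σ : Ω → Ω, MeasurePreserving σ P P ∧
    ∀ m ω, r m (σ ω) = (if m ∈ U then -1 else 1) * r m ω := by
  classical
  induction U using Finset.induction_on with
  | empty => exact ⟨id, MeasurePreserving.id P, fun m ω => by simp⟩
  | insert a s ha ih =>
    obtain ⟨σ, hσ, h1⟩ := ih
    obtain ⟨ρ, hρ, h2⟩ := h.flip a
    refine ⟨ρ ∘ σ, hρ.comp hσ, fun m ω => ?_⟩
    simp only [Function.comp, h2, h1, Finset.mem_insert]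
    by_cases hm : m = a
    · subst hm; simp [ha]
    · simp [hm]

end Flippable

theorem integral_eq_zero_of_odd {f : Ω → ℝ} (hf : Bdd f)
    {σ : Ω → Ω} (hσ : MeasurePreserving σ P P) (h : ∀ ω, f (σ ω) = - f ω) : ∫ ω, f ω ∂P = 0 := by
  have e := integral_comp_mp hσ hf.1
  simp only [h, integral_neg] at e
  linarith

/-- The code of the first `n` signs. -/
noncomputable def code (r : ℕ → Ω → ℝ) (n : ℕ) (ω : Ω) : ℕ :=
  ∑ j ∈ Finset.range n, if r j ω = 1 then 0 else 2 ^ j

theorem code_zero (ω : Ω) : code r 0 ω = 0 := by simp [code]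

theorem code_succ (n : ℕ) (ω : Ω) :
    code r (n+1) ω = code r n ω + if r n ω = 1 then 0 else 2 ^ n := by
  simp [code, Finset.sum_range_succ]

theorem code_lt (n : ℕ) (ω : Ω) : code r n ω < 2 ^ n := by
  induction n with
  | zero => simp [code_zero]
  | succ n ih => rw [code_succ, pow_succ]; split_ifs <;> omega

theorem code_congr {n : ℕ} {ω ω' : Ω} (h : ∀ j < n, r j ω = r j ω') : code r n ω = code r n ω' := by
  unfold code
  refine Finset.sum_congr rfl fun j hj => ?_
  rw [h j (Finset.mem_range.1 hj)]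

theorem measurable_code (h : Flippable P r) (n : ℕ) : Measurable (code r n) := by
  unfold code
  refine Finset.measurable_sum _ fun j _ => ?_
  exact Measurable.ite (measurableSet_eq_fun (h.meas j) measurable_const) measurable_const
    measurable_const

/-- Indicator of the atom number `l` of generation `n`. -/
noncomputable def At (r : ℕ → Ω → ℝ) (n l : ℕ) (ω : Ω) : ℝ := if code r n ω = l then 1 else 0

theorem bdd_At (h : Flippable P r) (n l : ℕ) : Bdd (At r n l) := by
  refine ⟨?_, 1, fun ω => ?_⟩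
  · unfold At
    exact Measurable.ite (measurable_code h n (measurableSet_singleton l)) measurable_const
      measurable_const
  · unfold At; split_ifs <;> simp

theorem At_congr {n l : ℕ} {ω ω' : Ω} (h : ∀ j < n, r j ω = r j ω') : At r n l ω = At r n l ω' := by
  unfold At; rw [code_congr h]

theorem At_mul_self (n l : ℕ) (ω : Ω) : At r n l ω * At r n l ω = At r n l ω := by
  unfold At; split_ifs <;> simp

theorem At_mul_ne (n : ℕ) {l l' : ℕ} (hl : l ≠ l') (ω : Ω) : At r n l ω * At r n l' ω = 0 := by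
  unfold At
  split_ifs with h1 h2
  · exact absurd (h1.symm.trans h2) hl
  all_goals simp

theorem At_nonneg (n l : ℕ) (ω : Ω) : 0 ≤ At r n l ω := by
  unfold At; split_ifs <;> simp

theorem At_le_one (n l : ℕ) (ω : Ω) : At r n l ω ≤ 1 := by
  unfold At; split_ifs <;> simp

theorem At_succ_low (h : Flippable P r) {n l : ℕ} (hl : l < 2 ^ n) (ω : Ω) :
    At r (n+1) l ω = At r n l ω * (1 + r n ω) / 2 := by
  unfold At
  rw [code_succ]
  have := code_lt (r := r) n ω
  rcases h.sq n ω with h1 | h1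
  · simp [h1]; split_ifs <;> norm_num
  · simp only [h1]
    norm_num
    intro h2; omega

theorem At_succ_high (h : Flippable P r) {n l : ℕ} (hl : 2 ^ n ≤ l) (hl2 : l < 2 ^ (n + 1)) (ω : Ω) :
    At r (n+1) l ω = At r n (l - 2 ^ n) ω * (1 - r n ω) / 2 := by
  unfold At
  rw [code_succ]
  have := code_lt (r := r) n ω
  rcases h.sq n ω with h1 | h1
  · simp only [h1]
    norm_num
    intro h2; omega
  · simp only [h1]
    have : (code r n ω + (if (-1:ℝ) = 1 then 0 else 2 ^ n) = l) ↔ code r n ω = l - 2 ^ n := by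
      norm_num
      omega
    simp only [this]
    split_ifs <;> norm_num

theorem At_eq_zero {n l : ℕ} (hl : 2 ^ n ≤ l) (ω : Ω) : At r n l ω = 0 := by
  unfold At
  have := code_lt (r := r) n ω
  rw [if_neg]; omega

theorem sum_At (n : ℕ) (f : ℕ → ℝ) (ω : Ω) :
    ∑ l ∈ Finset.range (2 ^ n), f l * At r n l ω = f (code r n ω) := by
  unfold At
  rw [Finset.sum_eq_single (code r n ω)]
  · simp
  · intro b _ hb; simp [Ne.symm hb]
  · intro hh; exact absurd (Finset.mem_range.2 (code_lt n ω)) hh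

theorem integral_At_mul_r (h : Flippable P r) (n l : ℕ) : ∫ ω, At r n l ω * r n ω ∂P = 0 := by
  obtain ⟨σ, hσ, h1⟩ := h.flip n
  refine integral_eq_zero_of_odd ((bdd_At h n l).mul (h.bdd n)) hσ fun ω => ?_
  rw [h1 n ω, At_congr (ω := σ ω) (ω' := ω) fun j hj => by rw [h1 j ω, if_neg (by omega), one_mul]]
  simp

theorem integral_At [IsProbabilityMeasure P] (h : Flippable P r) (n : ℕ) :
    ∀ l < 2 ^ n, ∫ ω, At r n l ω ∂P = (1 / 2) ^ n := by
  induction n with
  | zero =>
    intro l hl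
    obtain rfl : l = 0 := by simpa using hl
    simp [At, code_zero]
  | succ n ih =>
    intro l hl
    rcases Nat.lt_or_ge l (2 ^ n) with h1 | h1
    · simp_rw [At_succ_low h h1]
      have : (fun ω => At r n l ω * (1 + r n ω) / 2)
        = fun ω => (1/2) * (At r n l ω + At r n l ω * r n ω) := by ext ω; ring
      rw [this, integral_const_mul, integral_add (bdd_At h n l).integrable
        ((bdd_At h n l).mul (h.bdd n)).integrable, integral_At_mul_r h, ih l h1]
      ring
    · simp_rw [At_succ_high h h1 hl]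
      have : (fun ω => At r n (l - 2^n) ω * (1 - r n ω) / 2)
        = fun ω => (1/2) * (At r n (l - 2^n) ω - At r n (l - 2^n) ω * r n ω) := by ext ω; ring
      rw [this, integral_const_mul, integral_sub (bdd_At h n _).integrable
        ((bdd_At h n _).mul (h.bdd n)).integrable, integral_At_mul_r h,
        ih (l - 2^n) (by rw [pow_succ] at hl; omega)]
      ring

/-- Haar functions -/
noncomputable def Hf (r : ℕ → Ω → ℝ) (n l : ℕ) (ω : Ω) : ℝ := √(2 ^ n) * At r n l ω * r n ω

theorem bdd_Hf (h : Flippable P r) (n l : ℕ) : Bdd (Hf r n l) :=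
  ((bdd_At h n l).const_mul _).mul (h.bdd n)

theorem sqrt_pow_sq (n : ℕ) : √((2:ℝ) ^ n) * √(2 ^ n) = 2 ^ n :=
  Real.mul_self_sqrt (by positivity)

theorem Hf_mul_self (h : Flippable P r) (n l : ℕ) (ω : Ω) :
    Hf r n l ω * Hf r n l ω = 2 ^ n * At r n l ω := by
  unfold Hf
  have h1 := sqrt_pow_sq n
  have h2 := At_mul_self (r := r) n l ω
  have h3 := h.sq_eq n ω
  calc √(2 ^ n) * At r n l ω * r n ω * (√(2 ^ n) * At r n l ω * r n ω)
      = (√(2 ^ n) * √(2 ^ n)) * (At r n l ω * At r n l ω) * (r n ω * r n ω) := by ring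
    _ = _ := by rw [h1, h2, h3]; ring

theorem Hf_mul_ne (n : ℕ) {l l' : ℕ} (hl : l ≠ l') (ω : Ω) :
    Hf r n l ω * Hf r n l' ω = 0 := by
  unfold Hf
  have h2 := At_mul_ne (r := r) n hl ω
  calc √(2 ^ n) * At r n l ω * r n ω * (√(2 ^ n) * At r n l' ω * r n ω)
      = (√(2 ^ n) * √(2 ^ n)) * (At r n l ω * At r n l' ω) * (r n ω * r n ω) := by ring
    _ = _ := by rw [h2]; ring

theorem Hf_mul_r (h : Flippable P r) (n l : ℕ) (ω : Ω) :
    Hf r n l ω * r n ω = √(2 ^ n) * At r n l ω := by
  unfold Hf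
  have h3 := h.sq_eq n ω
  calc √(2 ^ n) * At r n l ω * r n ω * r n ω = √(2 ^ n) * At r n l ω * (r n ω * r n ω) := by ring
    _ = _ := by rw [h3]; ring

theorem integral_Hf_self [IsProbabilityMeasure P] (h : Flippable P r) {n l : ℕ} (hl : l < 2 ^ n) :
    ∫ ω, Hf r n l ω * Hf r n l ω ∂P = 1 := by
  simp_rw [Hf_mul_self h]
  rw [integral_const_mul, integral_At h n l hl, ← mul_pow]; norm_num

theorem integral_Hf_ne {n l l' : ℕ} (hl : l ≠ l') :
    ∫ ω, Hf r n l ω * Hf r n l' ω ∂P = 0 := by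
  simp_rw [Hf_mul_ne n hl]; simp

theorem integral_Hf_r [IsProbabilityMeasure P] (h : Flippable P r) {n l : ℕ} (hl : l < 2 ^ n) :
    ∫ ω, Hf r n l ω * r n ω ∂P = 1 / √(2 ^ n) := by
  simp_rw [Hf_mul_r h]
  rw [integral_const_mul, integral_At h n l hl]
  have h1 := sqrt_pow_sq n
  have h2 : 0 < √((2:ℝ) ^ n) := Real.sqrt_pos.2 (by positivity)
  field_simp
  rw [sq, h1, ← mul_pow]; norm_num

theorem integral_r_r [IsProbabilityMeasure P] (h : Flippable P r) (n : ℕ) :
    ∫ ω, r n ω * r n ω ∂P = 1 := by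
  simp_rw [h.sq_eq]; simp

theorem integral_r_r_ne (h : Flippable P r) {m n : ℕ} (hmn : m ≠ n) :
    ∫ ω, r m ω * r n ω ∂P = 0 := by
  obtain ⟨σ, hσ, h1⟩ := h.flip n
  refine integral_eq_zero_of_odd ((h.bdd m).mul (h.bdd n)) hσ fun ω => ?_
  rw [h1 n ω, h1 m ω, if_neg hmn]; simp

end Pool.Agent.Helper91.DoubleONS
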