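import Mathlib
import Pool.Agent.Helper91.DoubB

set_option autoImplicit false
set_option linter.unusedSectionVars false
set_option linter.unusedVariables false

open MeasureTheory Filter
open scoped Topology ENNReal

namespace Pool.Agent.Helper91.DoubleONS

variable {Ω : Type*} [MeasurableSpace Ω] {P : Measure Ω} {r : ℕ → Ω → ℝ}

/-- Householder coefficient -/
noncomputable def hc (n : ℕ) : ℝ := 1 / (√(2 ^ n) - 1)

/-- The Householder corrected Haar functions of generation `n` (`1 ≤ l < 2 ^ n`). -/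
noncomputable def Ef (r : ℕ → Ω → ℝ) (n l : ℕ) (ω : Ω) : ℝ :=
  Hf r n l ω + hc n * (Hf r n 0 ω - r n ω)

theorem bdd_Ef (h : Flippable P r) (n l : ℕ) : Bdd (Ef r n l) :=
  (bdd_Hf h n l).add (((bdd_Hf h n 0).sub (h.bdd n)).const_mul _)

theorem one_lt_sqrt {n : ℕ} (hn : 1 ≤ n) : 1 < √((2:ℝ) ^ n) := by
  rw [Real.lt_sqrt (by norm_num)]
  calc (1:ℝ) ^ 2 = 1 := by norm_num
    _ < 2 := by norm_num
    _ = 2 ^ 1 := by norm_num
    _ ≤ 2 ^ n := pow_le_pow_right₀ (by norm_num) hn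

theorem hc_mul {n : ℕ} (hn : 1 ≤ n) : hc n * (√(2 ^ n) - 1) = 1 := by
  have := one_lt_sqrt hn
  unfold hc
  field_simp [sub_ne_zero.2 this.ne']

theorem one_le_n_of_l {n l : ℕ} (hl0 : l ≠ 0) (hl : l < 2 ^ n) : 1 ≤ n := by
  rcases Nat.eq_zero_or_pos n with h | h
  · subst h; simp at hl; omega
  · exact h

/-- integral of the difference -/
theorem integral_diff_sq [IsProbabilityMeasure P] (h : Flippable P r) (n : ℕ) :
    ∫ ω, (Hf r n 0 ω - r n ω) * (Hf r n 0 ω - r n ω) ∂P = 2 - 2 / √(2 ^ n) := by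
  have e : ∀ ω, (Hf r n 0 ω - r n ω) * (Hf r n 0 ω - r n ω)
      = (Hf r n 0 ω * Hf r n 0 ω + r n ω * r n ω) - 2 * (Hf r n 0 ω * r n ω) := fun ω => by ring
  simp_rw [e]
  rw [integral_sub (((bdd_Hf h n 0).mul (bdd_Hf h n 0)).add ((h.bdd n).mul (h.bdd n))).integrable
      (((bdd_Hf h n 0).mul (h.bdd n)).const_mul 2).integrable,
    integral_add ((bdd_Hf h n 0).mul (bdd_Hf h n 0)).integrable
      ((h.bdd n).mul (h.bdd n)).integrable, integral_const_mul,
    integral_Hf_self h (by positivity), integral_r_r h, integral_Hf_r h (by positivity)]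
  ring

theorem integral_Hf_diff [IsProbabilityMeasure P] (h : Flippable P r) {n l : ℕ}
    (hl0 : l ≠ 0) (hl : l < 2 ^ n) :
    ∫ ω, Hf r n l ω * (Hf r n 0 ω - r n ω) ∂P = - (1 / √(2 ^ n)) := by
  have e : ∀ ω, Hf r n l ω * (Hf r n 0 ω - r n ω)
      = (Hf r n l ω * Hf r n 0 ω) - (Hf r n l ω * r n ω) := fun ω => by ring
  simp_rw [e]
  rw [integral_sub ((bdd_Hf h n l).mul (bdd_Hf h n 0)).integrable
      ((bdd_Hf h n l).mul (h.bdd n)).integrable,
    integral_Hf_ne hl0, integral_Hf_r h hl]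
  ring

theorem integral_Ef_Ef [IsProbabilityMeasure P] (h : Flippable P r) {n l l' : ℕ}
    (hl0 : l ≠ 0) (hl : l < 2 ^ n) (hl0' : l' ≠ 0) (hl' : l' < 2 ^ n) :
    ∫ ω, Ef r n l ω * Ef r n l' ω ∂P = if l = l' then 1 else 0 := by
  have hn := one_le_n_of_l hl0 hl
  have hlt := one_lt_sqrt hn
  have hcm := hc_mul hn
  have e : ∀ ω, Ef r n l ω * Ef r n l' ω
      = Hf r n l ω * Hf r n l' ω + (hc n * (Hf r n l ω * (Hf r n 0 ω - r n ω))
        + (hc n * (Hf r n l' ω * (Hf r n 0 ω - r n ω))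
        + hc n ^ 2 * ((Hf r n 0 ω - r n ω) * (Hf r n 0 ω - r n ω)))) := fun ω => by
    unfold Ef; ring
  have hd : Bdd (fun ω => Hf r n 0 ω - r n ω) := (bdd_Hf h n 0).sub (h.bdd n)
  have b1 := (bdd_Hf h n l).mul (bdd_Hf h n l')
  have b2 := ((bdd_Hf h n l).mul hd).const_mul (hc n)
  have b3 := ((bdd_Hf h n l').mul hd).const_mul (hc n)
  have b4 := (hd.mul hd).const_mul (hc n ^ 2)
  simp_rw [e]
  rw [integral_add b1.integrable (b2.add (b3.add b4)).integrable,
    integral_add b2.integrable (b3.add b4).integrable,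
    integral_add b3.integrable b4.integrable, integral_const_mul, integral_const_mul,
    integral_const_mul, integral_Hf_diff h hl0 hl, integral_Hf_diff h hl0' hl',
    integral_diff_sq h]
  have hI : ∫ ω, Hf r n l ω * Hf r n l' ω ∂P = if l = l' then 1 else 0 := by
    split_ifs with hh
    · subst hh; exact integral_Hf_self h hl
    · exact integral_Hf_ne hh
  rw [hI]
  set s := √((2:ℝ) ^ n) with hs
  have hs0 : s ≠ 0 := by positivity
  have hs1 : s - 1 ≠ 0 := sub_ne_zero.2 hlt.ne'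
  have hh : hc n = 1 / (s - 1) := rfl
  rw [hh]
  have : 1 / (s - 1) * -(1 / s) + (1 / (s - 1) * -(1 / s) + (1 / (s - 1)) ^ 2 * (2 - 2 / s)) = 0 := by
    field_simp
    ring
  rw [this, add_zero]

theorem integral_Ef_r [IsProbabilityMeasure P] (h : Flippable P r) {n l : ℕ}
    (hl0 : l ≠ 0) (hl : l < 2 ^ n) : ∫ ω, Ef r n l ω * r n ω ∂P = 0 := by
  have hn := one_le_n_of_l hl0 hl
  have hlt := one_lt_sqrt hn
  have e : ∀ ω, Ef r n l ω * r n ω
      = Hf r n l ω * r n ω + hc n * (Hf r n 0 ω * r n ω - r n ω * r n ω) := fun ω => by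
    unfold Ef; ring
  have b1 := (bdd_Hf h n l).mul (h.bdd n)
  have b2 := (bdd_Hf h n 0).mul (h.bdd n)
  have b3 := (h.bdd n).mul (h.bdd n)
  simp_rw [e]
  rw [integral_add b1.integrable ((b2.sub b3).const_mul _).integrable, integral_const_mul,
    integral_sub b2.integrable b3.integrable, integral_Hf_r h hl, integral_Hf_r h (by positivity),
    integral_r_r h]
  set s := √((2:ℝ) ^ n) with hs
  have hs0 : s ≠ 0 := by positivity
  have hs1 : s - 1 ≠ 0 := sub_ne_zero.2 hlt.ne'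
  have hh : hc n = 1 / (s - 1) := rfl
  rw [hh]
  field_simp
  ring

/-- the sup bound of the functions -/
theorem abs_Ef_le (h : Flippable P r) {n l : ℕ}
    (hl0 : l ≠ 0) (hl : l < 2 ^ n) (ω : Ω) : |Ef r n l ω| ≤ 2 * √(2 ^ n) := by
  have hn := one_le_n_of_l hl0 hl
  have hlt := one_lt_sqrt hn
  have hss := sqrt_pow_sq n
  have h2 : (2:ℝ) ≤ 2 ^ n := by
    calc (2:ℝ) = 2 ^ 1 := by norm_num
      _ ≤ 2 ^ n := pow_le_pow_right₀ (by norm_num) hn
  unfold Ef Hf At
  set s := √((2:ℝ) ^ n) with hs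
  have hcm : hc n * (s - 1) = 1 := hc_mul hn
  have hc0 : 0 < hc n := by
    have : 0 < s - 1 := by linarith
    by_contra hneg
    nlinarith
  have hcs : hc n * s = 1 + hc n := by linarith
  have hc3 : hc n ≤ 2 * s := by
    have : 1 ≤ (2 * s) * (s - 1) := by nlinarith
    have h0 : 0 < s - 1 := by linarith
    by_contra hneg
    push Not at hneg
    nlinarith [mul_lt_mul_of_pos_right hneg h0]
  by_cases h1 : code r n ω = l
  · have h3 : code r n ω ≠ 0 := by omega
    have h4 : |s * 1 * r n ω + hc n * (s * 0 * r n ω - r n ω)| = |s - hc n| := by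
      rw [show s * 1 * r n ω + hc n * (s * 0 * r n ω - r n ω) = (s - hc n) * r n ω by ring, abs_mul,
        h.abs_eq, mul_one]
    rw [if_pos h1, if_neg h3, h4, abs_le]
    constructor <;> linarith
  · by_cases h3 : code r n ω = 0
    · have h4 : |s * 0 * r n ω + hc n * (s * 1 * r n ω - r n ω)| = |hc n * (s - 1)| := by
        rw [show s * 0 * r n ω + hc n * (s * 1 * r n ω - r n ω) = (hc n * (s - 1)) * r n ω by ring,
          abs_mul, h.abs_eq, mul_one]
      rw [if_neg h1, if_pos h3, h4, hcm, abs_one]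
      linarith
    · have h4 : |s * 0 * r n ω + hc n * (s * 0 * r n ω - r n ω)| = hc n := by
        rw [show s * 0 * r n ω + hc n * (s * 0 * r n ω - r n ω) = - (hc n * r n ω) by ring,
          abs_neg, abs_mul, h.abs_eq, mul_one, abs_of_pos hc0]
      rw [if_neg h1, if_neg h3, h4]
      exact hc3

/-- The whole system `e'`: the constant, the functions `Ef`, and `0` at the indices `2 ^ n`. -/
noncomputable def eN (r : ℕ → Ω → ℝ) (k : ℕ) (ω : Ω) : ℝ :=
  if k = 0 then 1 else if k = 2 ^ (Nat.log 2 k) then 0 else Ef r (Nat.log 2 k) (k - 2 ^ (Nat.log 2 k)) ω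

theorem bdd_eN (h : Flippable P r) (k : ℕ) : Bdd (eN r k) := by
  unfold eN
  split_ifs
  · exact Bdd.const 1
  · exact Bdd.const 0
  · exact bdd_Ef h _ _

theorem log_bounds {k : ℕ} (hk : k ≠ 0) : 2 ^ (Nat.log 2 k) ≤ k ∧ k < 2 ^ (Nat.log 2 k + 1) :=
  ⟨Nat.pow_log_le_self 2 hk, Nat.lt_pow_succ_log_self (by norm_num) k⟩

theorem abs_eN_le (h : Flippable P r) (k : ℕ) (ω : Ω) : |eN r k ω| ≤ 2 ^ k := by
  unfold eN
  split_ifs with h1 h2
  · subst h1; simp
  · simp
  · obtain ⟨h3, h4⟩ := log_bounds h1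
    set n := Nat.log 2 k with hn
    have h5 : k - 2 ^ n ≠ 0 := by omega
    have h6 : k - 2 ^ n < 2 ^ n := by rw [pow_succ] at h4; omega
    refine (abs_Ef_le h h5 h6 ω).trans ?_
    have h7 : √((2:ℝ) ^ n) ≤ 2 ^ n := by
      rw [Real.sqrt_le_left (by positivity)]
      have : (1:ℝ) ≤ 2 ^ n := one_le_pow₀ (by norm_num)
      nlinarith
    have h8 : n < 2 ^ n := Nat.lt_two_pow_self
    calc 2 * √((2:ℝ) ^ n) ≤ 2 * 2 ^ n := by linarith
      _ = 2 ^ (n + 1) := by ring
      _ ≤ 2 ^ k := pow_le_pow_right₀ (by norm_num) (by omega)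

theorem log_two_pow_add {n l : ℕ} (hl : l < 2 ^ n) : Nat.log 2 (2 ^ n + l) = n := by
  rw [Nat.log_eq_iff (Or.inr ⟨by norm_num, by positivity⟩)]
  constructor
  · omega
  · rw [pow_succ]; omega

theorem eN_pow_add {n l : ℕ} (hl0 : l ≠ 0) (hl : l < 2 ^ n) (ω : Ω) :
    eN r (2 ^ n + l) ω = Ef r n l ω := by
  unfold eN
  rw [log_two_pow_add hl, if_neg (by positivity), if_neg (by omega)]
  congr 1; omega

theorem eN_pow (n : ℕ) (ω : Ω) : eN r (2 ^ n) ω = 0 := by
  unfold eN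
  have : Nat.log 2 (2 ^ n) = n := Nat.log_pow (by norm_num) n
  rw [this, if_neg (by positivity), if_pos rfl]

theorem Hf_congr {n l : ℕ} {ω ω' : Ω} (h : ∀ j ≤ n, r j ω = r j ω') :
    Hf r n l ω = Hf r n l ω' := by
  unfold Hf
  rw [At_congr fun j hj => h j hj.le, h n le_rfl]

theorem Ef_congr {n l : ℕ} {ω ω' : Ω} (h : ∀ j ≤ n, r j ω = r j ω') :
    Ef r n l ω = Ef r n l ω' := by
  unfold Ef
  rw [Hf_congr h, Hf_congr h, h n le_rfl]

theorem eN_congr {k : ℕ} {ω ω' : Ω} (h : ∀ j ≤ Nat.log 2 k, r j ω = r j ω') :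
    eN r k ω = eN r k ω' := by
  unfold eN
  split_ifs
  · rfl
  · rfl
  · exact Ef_congr h

theorem Hf_odd {n l : ℕ} {ω ω' : Ω} (h : ∀ j < n, r j ω = r j ω') (h2 : r n ω = - r n ω') :
    Hf r n l ω = - Hf r n l ω' := by
  unfold Hf
  rw [At_congr h, h2]; ring

theorem Ef_odd {n l : ℕ} {ω ω' : Ω} (h : ∀ j < n, r j ω = r j ω') (h2 : r n ω = - r n ω') :
    Ef r n l ω = - Ef r n l ω' := by
  unfold Ef
  rw [Hf_odd h h2, Hf_odd h h2, h2]; ring

theorem eN_odd {k : ℕ} (hk : k ≠ 0) {ω ω' : Ω} (h : ∀ j < Nat.log 2 k, r j ω = r j ω')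
    (h2 : r (Nat.log 2 k) ω = - r (Nat.log 2 k) ω') : eN r k ω = - eN r k ω' := by
  unfold eN
  split_ifs with h3 h4
  · exact absurd h3 hk
  · simp
  · exact Ef_odd h h2

/-- Orthogonality of `e'_k` and `r_j`. -/
theorem integral_eN_r [IsProbabilityMeasure P] (h : Flippable P r) (k j : ℕ) :
    ∫ ω, eN r k ω * r j ω ∂P = 0 := by
  by_cases hk : k = 0
  · obtain ⟨σ, hσ, h1⟩ := h.flip j
    refine integral_eq_zero_of_odd ((bdd_eN h k).mul (h.bdd j)) hσ fun ω => ?_
    rw [h1 j ω]; simp [eN, hk]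
  · rcases lt_trichotomy j (Nat.log 2 k) with hj | hj | hj
    · obtain ⟨σ, hσ, h1⟩ := h.flip (Nat.log 2 k)
      refine integral_eq_zero_of_odd ((bdd_eN h k).mul (h.bdd j)) hσ fun ω => ?_
      rw [h1 j ω, if_neg (by omega),
        eN_odd (ω := σ ω) (ω' := ω) hk (fun i hi => by rw [h1 i ω, if_neg (by omega), one_mul])
          (by rw [h1 _ ω, if_pos rfl]; ring)]
      ring
    · subst hj
      by_cases h2 : k = 2 ^ (Nat.log 2 k)
      · have : ∀ ω, eN r k ω = 0 := fun ω => by unfold eN; rw [if_neg hk, if_pos h2]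
        simp [this]
      · obtain ⟨h3, h4⟩ := log_bounds hk
        have : ∀ ω, eN r k ω = Ef r (Nat.log 2 k) (k - 2 ^ (Nat.log 2 k)) ω := fun ω => by
          unfold eN; rw [if_neg hk, if_neg h2]
        simp_rw [this]
        exact integral_Ef_r h (by omega) (by rw [pow_succ] at h4; omega)
    · obtain ⟨σ, hσ, h1⟩ := h.flip j
      refine integral_eq_zero_of_odd ((bdd_eN h k).mul (h.bdd j)) hσ fun ω => ?_
      rw [h1 j ω, if_pos rfl,
        eN_congr (ω := σ ω) (ω' := ω) (fun i hi => by rw [h1 i ω, if_neg (by omega), one_mul])]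
      ring

theorem integral_eN_eN_ne_lt [IsProbabilityMeasure P] (h : Flippable P r) {k k' : ℕ} (hk : k < k') :
    ∫ ω, eN r k ω * eN r k' ω ∂P = 0 := by
  have hk' : k' ≠ 0 := by omega
  rcases Nat.lt_or_ge (Nat.log 2 k) (Nat.log 2 k') with hlt | hge
  · obtain ⟨σ, hσ, h1⟩ := h.flip (Nat.log 2 k')
    refine integral_eq_zero_of_odd ((bdd_eN h k).mul (bdd_eN h k')) hσ fun ω => ?_
    rw [eN_odd (ω := σ ω) (ω' := ω) hk' (fun i hi => by rw [h1 i ω, if_neg (by omega), one_mul])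
          (by rw [h1 _ ω, if_pos rfl]; ring),
        eN_congr (ω := σ ω) (ω' := ω) (fun i hi => by rw [h1 i ω, if_neg (by omega), one_mul])]
    ring
  · have heq : Nat.log 2 k = Nat.log 2 k' := le_antisymm (Nat.log_mono_right hk.le) hge
    by_cases h0 : k = 0
    · have h10 : Nat.log 2 k' = 0 := by rw [← heq, h0]; simp
      obtain ⟨h3, h4⟩ := log_bounds hk'
      rw [h10] at h3 h4
      have : k' = 1 := by omega
      have h5 : ∀ ω, eN r k' ω = 0 := fun ω => by rw [this]; exact eN_pow 0 ω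
      simp [h5]
    · obtain ⟨h3, h4⟩ := log_bounds h0
      obtain ⟨h3', h4'⟩ := log_bounds hk'
      by_cases h2 : k = 2 ^ (Nat.log 2 k)
      · have : ∀ ω, eN r k ω = 0 := fun ω => by unfold eN; rw [if_neg h0, if_pos h2]
        simp [this]
      · have h2' : k' ≠ 2 ^ (Nat.log 2 k') := by rw [heq] at h3; omega
        have e1 : ∀ ω, eN r k ω = Ef r (Nat.log 2 k) (k - 2 ^ (Nat.log 2 k)) ω := fun ω => by
          unfold eN; rw [if_neg h0, if_neg h2]
        have e2 : ∀ ω, eN r k' ω = Ef r (Nat.log 2 k) (k' - 2 ^ (Nat.log 2 k)) ω := fun ω => by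
          unfold eN; rw [if_neg hk', if_neg h2', heq]
        simp_rw [e1, e2]
        rw [heq] at h3 h4 h2 ⊢
        rw [pow_succ] at h4 h4'
        rw [integral_Ef_Ef h (by omega) (by omega) (by omega) (by omega), if_neg (by omega)]

theorem integral_eN_eN_ne [IsProbabilityMeasure P] (h : Flippable P r) {k k' : ℕ} (hk : k ≠ k') :
    ∫ ω, eN r k ω * eN r k' ω ∂P = 0 := by
  rcases lt_or_gt_of_ne hk with h1 | h1
  · exact integral_eN_eN_ne_lt h h1
  · simp_rw [mul_comm (eN r k _)]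
    exact integral_eN_eN_ne_lt h h1

theorem integral_eN_self [IsProbabilityMeasure P] (h : Flippable P r) (k : ℕ) :
    ∫ ω, eN r k ω * eN r k ω ∂P = if k = 2 ^ (Nat.log 2 k) then 0 else 1 := by
  by_cases h0 : k = 0
  · subst h0; simp [eN]
  · split_ifs with h2
    · have : ∀ ω, eN r k ω = 0 := fun ω => by unfold eN; rw [if_neg h0, if_pos h2]
      simp [this]
    · obtain ⟨h3, h4⟩ := log_bounds h0
      have e1 : ∀ ω, eN r k ω = Ef r (Nat.log 2 k) (k - 2 ^ (Nat.log 2 k)) ω := fun ω => by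
        unfold eN; rw [if_neg h0, if_neg h2]
      simp_rw [e1]
      rw [pow_succ] at h4
      rw [integral_Ef_Ef h (by omega) (by omega) (by omega) (by omega), if_pos rfl]

end Pool.Agent.Helper91.DoubleONS
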