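import Mathlib
import Pool.Agent.Helper91.DoubC

set_option autoImplicit false
set_option linter.unusedSectionVars false
set_option linter.unusedVariables false

open MeasureTheory Filter
open scoped Topology ENNReal

namespace Pool.Agent.Helper91.DoubleONS

variable {Ω : Type*} [MeasurableSpace Ω] {P : Measure Ω} {r : ℕ → Ω → ℝ}

theorem integrable_mul_bdd {g f : Ω → ℝ} (hg : Integrable g P) (hf : Bdd f) :
    Integrable (fun ω => g ω * f ω) P := by
  obtain ⟨hfm, C, hC⟩ := hf
  exact hg.mul_bdd (c := C) hfm.aestronglyMeasurable (Eventually.of_forall fun ω => by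
    simpa [Real.norm_eq_abs] using hC ω)

theorem sum_Hf (n : ℕ) (ω : Ω) :
    ∑ l ∈ Finset.range (2 ^ n), Hf r n l ω = √(2 ^ n) * r n ω := by
  have := sum_At (r := r) n (fun _ => √(2 ^ n) * r n ω) ω
  rw [← this]
  refine Finset.sum_congr rfl fun l _ => ?_
  unfold Hf; ring

theorem base_Hf_zero [IsProbabilityMeasure P] (h : Flippable P r) {g : Ω → ℝ} (hg : Integrable g P)
    (h0 : ∀ k, ∫ ω, g ω * eN r k ω ∂P = 0) (h1 : ∀ j, ∫ ω, g ω * r j ω ∂P = 0) (n l : ℕ)
    (hl : l < 2 ^ n) : ∫ ω, g ω * Hf r n l ω ∂P = 0 := by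
  have hE : ∀ l ≠ 0, l < 2 ^ n → ∫ ω, g ω * Hf r n l ω ∂P = - hc n * ∫ ω, g ω * Hf r n 0 ω ∂P := by
    intro l hl0 hl
    have e := h0 (2 ^ n + l)
    have e1 : ∀ ω, g ω * eN r (2 ^ n + l) ω
        = g ω * Hf r n l ω + hc n * (g ω * Hf r n 0 ω - g ω * r n ω) := fun ω => by
      rw [eN_pow_add hl0 hl]; unfold Ef; ring
    simp_rw [e1] at e
    have hI : Integrable (fun ω => hc n * (g ω * Hf r n 0 ω - g ω * r n ω)) P :=
      ((integrable_mul_bdd hg (bdd_Hf h n 0)).sub (integrable_mul_bdd hg (h.bdd n))).const_mul _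
    rw [integral_add (integrable_mul_bdd hg (bdd_Hf h n l)) hI,
      integral_const_mul, integral_sub (integrable_mul_bdd hg (bdd_Hf h n 0))
        (integrable_mul_bdd hg (h.bdd n)), h1 n] at e
    linarith
  have hsum : ∑ l ∈ Finset.range (2 ^ n), ∫ ω, g ω * Hf r n l ω ∂P = 0 := by
    rw [← integral_finsetSum _ fun l _ => integrable_mul_bdd hg (bdd_Hf h n l)]
    simp_rw [← Finset.mul_sum, sum_Hf]
    have : ∀ ω, g ω * (√(2 ^ n) * r n ω) = √(2 ^ n) * (g ω * r n ω) := fun ω => by ring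
    simp_rw [this]
    rw [integral_const_mul, h1 n, mul_zero]
  have hH0 : ∫ ω, g ω * Hf r n 0 ω ∂P = 0 := by
    obtain ⟨m, hm⟩ : ∃ m, 2 ^ n = m + 1 := by
      have : 0 < 2 ^ n := by positivity
      exact ⟨2 ^ n - 1, by omega⟩
    rw [hm, Finset.sum_range_succ'] at hsum
    have hs2 : ∑ l ∈ Finset.range m, ∫ ω, g ω * Hf r n (l + 1) ω ∂P
        = ∑ l ∈ Finset.range m, (- hc n * ∫ ω, g ω * Hf r n 0 ω ∂P) := by
      refine Finset.sum_congr rfl fun l hl => hE (l+1) (by omega) ?_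
      have := Finset.mem_range.1 hl
      omega
    rw [hs2, Finset.sum_const, Finset.card_range, nsmul_eq_mul] at hsum
    rcases Nat.eq_zero_or_pos n with hn | hn
    · subst hn
      have : m = 0 := by simpa using hm.symm
      subst this
      simpa using hsum
    · have hlt := one_lt_sqrt hn
      have hcm := hc_mul hn
      have hss := sqrt_pow_sq n
      have hmr : (m : ℝ) + 1 = 2 ^ n := by exact_mod_cast hm.symm
      set s := √((2:ℝ) ^ n) with hs
      set I := ∫ ω, g ω * Hf r n 0 ω ∂P with hI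
      have hfac : (m : ℝ) * hc n = s + 1 := by
        have : (m : ℝ) = (s + 1) * (s - 1) := by nlinarith
        rw [this]
        calc (s + 1) * (s - 1) * hc n = (s + 1) * (hc n * (s - 1)) := by ring
          _ = s + 1 := by rw [hcm, mul_one]
      have : s * I = 0 := by
        have h2 : (m:ℝ) * (-hc n * I) + I = - (((m : ℝ) * hc n) * I) + I := by ring
        rw [h2, hfac] at hsum
        linarith
      rcases mul_eq_zero.1 this with h3 | h3
      · linarith
      · exact h3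
  by_cases hl0 : l = 0
  · rw [hl0]; exact hH0
  · rw [hE l hl0 hl, hH0, mul_zero]

theorem base_At_zero [IsProbabilityMeasure P] (h : Flippable P r) {g : Ω → ℝ} (hg : Integrable g P)
    (h0 : ∀ k, ∫ ω, g ω * eN r k ω ∂P = 0) (h1 : ∀ j, ∫ ω, g ω * r j ω ∂P = 0) (n : ℕ) :
    ∀ l, ∫ ω, g ω * At r n l ω ∂P = 0 := by
  induction n with
  | zero =>
    intro l
    by_cases hl : l = 0
    · subst hl
      have : ∀ ω, g ω * At r 0 0 ω = g ω * eN r 0 ω := fun ω => by simp [At, code_zero, eN]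
      simp_rw [this]
      exact h0 0
    · have : ∀ ω, At r 0 l ω = 0 := fun ω => At_eq_zero (by simp; omega) ω
      simp [this]
  | succ n ih =>
    intro l
    have hAr : ∀ l < 2 ^ n, ∫ ω, g ω * (At r n l ω * r n ω) ∂P = 0 := by
      intro l hl
      have e := base_Hf_zero h hg h0 h1 n l hl
      have e1 : ∀ ω, g ω * Hf r n l ω = √(2 ^ n) * (g ω * (At r n l ω * r n ω)) := fun ω => by
        unfold Hf; ring
      simp_rw [e1] at e
      rw [integral_const_mul] at e
      rcases mul_eq_zero.1 e with h3 | h3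
      · have : 0 < √((2:ℝ) ^ n) := Real.sqrt_pos.2 (by positivity)
        linarith
      · exact h3
    rcases Nat.lt_or_ge l (2 ^ n) with hl | hl
    · have e1 : ∀ ω, g ω * At r (n+1) l ω
          = (1/2) * (g ω * At r n l ω + g ω * (At r n l ω * r n ω)) := fun ω => by
        rw [At_succ_low h hl]; ring
      simp_rw [e1]
      rw [integral_const_mul, integral_add (integrable_mul_bdd hg (bdd_At h n l))
        (integrable_mul_bdd hg ((bdd_At h n l).mul (h.bdd n))), ih l, hAr l hl]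
      ring
    · rcases Nat.lt_or_ge l (2 ^ (n+1)) with hl2 | hl2
      · have e1 : ∀ ω, g ω * At r (n+1) l ω
            = (1/2) * (g ω * At r n (l - 2^n) ω - g ω * (At r n (l - 2^n) ω * r n ω)) := fun ω => by
          rw [At_succ_high h hl hl2]; ring
        simp_rw [e1]
        rw [integral_const_mul, integral_sub (integrable_mul_bdd hg (bdd_At h n _))
          (integrable_mul_bdd hg ((bdd_At h n _).mul (h.bdd n))), ih _,
          hAr _ (by rw [pow_succ] at hl2; omega)]
        ring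
      · simp [At_eq_zero hl2]

/-! ### Maximal inequality for `e'` -/

/-- the square of the in-level maximal function is at most this. -/
noncomputable def Qf (r : ℕ → Ω → ℝ) (c : ℕ → ℝ) (n : ℕ) (ω : Ω) : ℝ :=
  2 * ∑ l ∈ Finset.range (2 ^ n), c (2 ^ n + l) ^ 2 * (2 ^ n * At r n l ω)
    + 2 * (hc n ^ 2 * 2 ^ n * ∑ l ∈ Finset.range (2 ^ n), c (2 ^ n + l) ^ 2)
      * ((Hf r n 0 ω - r n ω) * (Hf r n 0 ω - r n ω))

theorem bdd_Qf (h : Flippable P r) (c : ℕ → ℝ) (n : ℕ) : Bdd (Qf r c n) := by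
  unfold Qf
  have hd : Bdd (fun ω => Hf r n 0 ω - r n ω) := (bdd_Hf h n 0).sub (h.bdd n)
  exact ((Bdd.sum _ fun l _ => ((bdd_At h n l).const_mul _).const_mul _).const_mul _).add
    ((hd.mul hd).const_mul _)

theorem Qf_nonneg (c : ℕ → ℝ) (n : ℕ) (ω : Ω) : 0 ≤ Qf r c n ω := by
  unfold Qf
  have h1 : 0 ≤ ∑ l ∈ Finset.range (2 ^ n), c (2 ^ n + l) ^ 2 * (2 ^ n * At r n l ω) :=
    Finset.sum_nonneg fun l _ => mul_nonneg (sq_nonneg _) (mul_nonneg (by positivity)
      (At_nonneg n l ω))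
  have h2 : 0 ≤ ∑ l ∈ Finset.range (2 ^ n), c (2 ^ n + l) ^ 2 :=
    Finset.sum_nonneg fun l _ => sq_nonneg _
  have h3 : 0 ≤ (Hf r n 0 ω - r n ω) * (Hf r n 0 ω - r n ω) := mul_self_nonneg _
  positivity

theorem integral_Qf [IsProbabilityMeasure P] (h : Flippable P r) (c : ℕ → ℝ) (n : ℕ) :
    ∫ ω, Qf r c n ω ∂P ≤ 18 * ∑ l ∈ Finset.range (2 ^ n), c (2 ^ n + l) ^ 2 := by
  have hd : Bdd (fun ω => Hf r n 0 ω - r n ω) := (bdd_Hf h n 0).sub (h.bdd n)
  have hS0 : 0 ≤ ∑ l ∈ Finset.range (2 ^ n), c (2 ^ n + l) ^ 2 :=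
    Finset.sum_nonneg fun l _ => sq_nonneg _
  set S := ∑ l ∈ Finset.range (2 ^ n), c (2 ^ n + l) ^ 2 with hS
  have e1 : ∫ ω, ∑ l ∈ Finset.range (2 ^ n), c (2 ^ n + l) ^ 2 * (2 ^ n * At r n l ω) ∂P = S := by
    rw [integral_finsetSum _ fun l _ => (((bdd_At h n l).const_mul _).const_mul _).integrable]
    refine Finset.sum_congr rfl fun l hl => ?_
    rw [integral_const_mul, integral_const_mul, integral_At h n l (Finset.mem_range.1 hl),
      ← mul_pow]
    norm_num
  unfold Qf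
  rw [integral_add ((Bdd.sum _ fun l _ => ((bdd_At h n l).const_mul _).const_mul _).const_mul
      _).integrable ((hd.mul hd).const_mul _).integrable, integral_const_mul, e1,
      integral_const_mul, integral_diff_sq h, ← hS]
  rcases Nat.eq_zero_or_pos n with hn | hn
  · subst hn
    simp [hc]
    nlinarith
  · have hlt := one_lt_sqrt hn
    have hcm := hc_mul hn
    have hss := sqrt_pow_sq n
    have h14 : 1.4 ≤ √((2:ℝ) ^ n) := by
      rw [Real.le_sqrt (by norm_num) (by positivity)]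
      calc (1.4:ℝ) ^ 2 ≤ 2 ^ 1 := by norm_num
        _ ≤ 2 ^ n := pow_le_pow_right₀ (by norm_num) hn
    set s := √((2:ℝ) ^ n) with hs
    have hs0 : s ≠ 0 := by positivity
    have hs1 : s - 1 ≠ 0 := sub_ne_zero.2 hlt.ne'
    have hkey : hc n ^ 2 * 2 ^ n * (2 - 2 / s) = 2 * (s / (s - 1)) := by
      rw [← hss]
      have hh : hc n = 1 / (s - 1) := rfl
      rw [hh]
      field_simp
    have hle : s / (s - 1) ≤ 4 := by
      rw [div_le_iff₀ (by linarith)]
      linarith
    have : 2 * (hc n ^ 2 * 2 ^ n * S) * (2 - 2 / s) = 2 * S * (2 * (s / (s - 1))) := by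
      rw [← hkey]; ring
    rw [this]
    nlinarith

end Pool.Agent.Helper91.DoubleONS
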