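import Mathlib
import Pool.Agent.Helper91.DoubD

set_option autoImplicit false
set_option linter.unusedSectionVars false
set_option linter.unusedVariables false

open MeasureTheory Filter
open scoped Topology ENNReal

namespace Pool.Agent.Helper91.DoubleONS

variable {Ω : Type*} [MeasurableSpace Ω] {P : Measure Ω} {r : ℕ → Ω → ℝ}

theorem abs_Hf (h : Flippable P r) (n l : ℕ) (ω : Ω) : |Hf r n l ω| = √(2 ^ n) * At r n l ω := by
  unfold Hf
  rw [abs_mul, abs_mul, h.abs_eq, abs_of_nonneg (Real.sqrt_nonneg _),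
    abs_of_nonneg (At_nonneg n l ω), mul_one]

theorem level_bound (h : Flippable P r) (c : ℕ → ℝ) (n L : ℕ) (hL : L ≤ 2 ^ n) (ω : Ω) :
    (∑ l ∈ Finset.range L, c (2 ^ n + l) * eN r (2 ^ n + l) ω) ^ 2 ≤ Qf r c n ω := by
  set A := ∑ l ∈ Finset.range (2 ^ n), |c (2 ^ n + l)| * (√(2 ^ n) * At r n l ω) with hA
  set S := ∑ l ∈ Finset.range (2 ^ n), |c (2 ^ n + l)| with hS
  set D := |hc n| * |Hf r n 0 ω - r n ω| * S with hD
  have hS0 : 0 ≤ S := Finset.sum_nonneg fun l _ => abs_nonneg _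
  have hA0 : 0 ≤ A := Finset.sum_nonneg fun l _ => mul_nonneg (abs_nonneg _)
    (mul_nonneg (Real.sqrt_nonneg _) (At_nonneg n l ω))
  have hD0 : 0 ≤ D := by positivity
  have hterm : ∀ l ∈ Finset.range L, |c (2 ^ n + l) * eN r (2 ^ n + l) ω|
      ≤ |c (2 ^ n + l)| * (√(2 ^ n) * At r n l ω)
        + |hc n| * |Hf r n 0 ω - r n ω| * |c (2 ^ n + l)| := by
    intro l hl
    have hl := Finset.mem_range.1 hl
    by_cases hl0 : l = 0
    · subst hl0
      rw [add_zero, eN_pow, mul_zero, abs_zero]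
      have := mul_nonneg (abs_nonneg (c (2 ^ n))) (mul_nonneg (Real.sqrt_nonneg ((2:ℝ) ^ n))
        (At_nonneg (r := r) n 0 ω))
      positivity
    · rw [eN_pow_add hl0 (by omega), abs_mul]
      have : |Ef r n l ω| ≤ √(2 ^ n) * At r n l ω + |hc n| * |Hf r n 0 ω - r n ω| := by
        unfold Ef
        refine (abs_add_le _ _).trans ?_
        rw [abs_Hf h, abs_mul]
      calc |c (2 ^ n + l)| * |Ef r n l ω|
          ≤ |c (2 ^ n + l)| * (√(2 ^ n) * At r n l ω + |hc n| * |Hf r n 0 ω - r n ω|) :=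
            mul_le_mul_of_nonneg_left this (abs_nonneg _)
        _ = _ := by ring
  have hsub : Finset.range L ⊆ Finset.range (2 ^ n) := Finset.range_subset_range.2 hL
  have h1 : |∑ l ∈ Finset.range L, c (2 ^ n + l) * eN r (2 ^ n + l) ω| ≤ A + D := by
    refine (Finset.abs_sum_le_sum_abs _ _).trans ((Finset.sum_le_sum hterm).trans ?_)
    rw [Finset.sum_add_distrib, ← Finset.mul_sum]
    have h2 : ∑ l ∈ Finset.range L, |c (2 ^ n + l)| * (√(2 ^ n) * At r n l ω) ≤ A :=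
      Finset.sum_le_sum_of_subset_of_nonneg hsub fun l _ _ => mul_nonneg (abs_nonneg _)
        (mul_nonneg (Real.sqrt_nonneg _) (At_nonneg n l ω))
    have h3 : ∑ l ∈ Finset.range L, |c (2 ^ n + l)| ≤ S :=
      Finset.sum_le_sum_of_subset_of_nonneg hsub fun l _ _ => abs_nonneg _
    have h4 : |hc n| * |Hf r n 0 ω - r n ω| * ∑ l ∈ Finset.range L, |c (2 ^ n + l)| ≤ D :=
      mul_le_mul_of_nonneg_left h3 (by positivity)
    linarith
  have hA2 : A ^ 2 = ∑ l ∈ Finset.range (2 ^ n), c (2 ^ n + l) ^ 2 * (2 ^ n * At r n l ω) := by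
    have e1 : A = √(2 ^ n) * |c (2 ^ n + code r n ω)| := by
      rw [hA, ← sum_At n (fun l => √(2 ^ n) * |c (2 ^ n + l)|) ω]
      exact Finset.sum_congr rfl fun l _ => by ring
    have e2 : ∑ l ∈ Finset.range (2 ^ n), c (2 ^ n + l) ^ 2 * (2 ^ n * At r n l ω)
        = 2 ^ n * c (2 ^ n + code r n ω) ^ 2 := by
      rw [← sum_At n (fun l => 2 ^ n * c (2 ^ n + l) ^ 2) ω]
      exact Finset.sum_congr rfl fun l _ => by ring
    rw [e1, e2, mul_pow, sq_abs, sq (√((2:ℝ) ^ n)), sqrt_pow_sq]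
  have hS2 : S ^ 2 ≤ 2 ^ n * ∑ l ∈ Finset.range (2 ^ n), c (2 ^ n + l) ^ 2 := by
    have := sq_sum_le_card_mul_sum_sq (s := Finset.range (2 ^ n)) (f := fun l => |c (2 ^ n + l)|)
    simpa [sq_abs] using this
  have hD2 : D ^ 2 ≤ (hc n ^ 2 * 2 ^ n * ∑ l ∈ Finset.range (2 ^ n), c (2 ^ n + l) ^ 2)
      * ((Hf r n 0 ω - r n ω) * (Hf r n 0 ω - r n ω)) := by
    rw [hD, mul_pow, mul_pow, sq_abs, sq_abs]
    calc hc n ^ 2 * (Hf r n 0 ω - r n ω) ^ 2 * S ^ 2
        ≤ hc n ^ 2 * (Hf r n 0 ω - r n ω) ^ 2 *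
          (2 ^ n * ∑ l ∈ Finset.range (2 ^ n), c (2 ^ n + l) ^ 2) :=
          mul_le_mul_of_nonneg_left hS2 (by positivity)
      _ = _ := by ring
  have h5 : (∑ l ∈ Finset.range L, c (2 ^ n + l) * eN r (2 ^ n + l) ω) ^ 2 ≤ (A + D) ^ 2 := by
    rw [← sq_abs]
    exact pow_le_pow_left₀ (abs_nonneg _) h1 2
  refine h5.trans ?_
  unfold Qf
  nlinarith [sq_nonneg (A - D)]

/-- Partial sums of `e'`. -/
noncomputable def Zs (r : ℕ → Ω → ℝ) (c : ℕ → ℝ) (K : ℕ) (ω : Ω) : ℝ :=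
  ∑ k ∈ Finset.range K, c k * eN r k ω

theorem bdd_Zs (h : Flippable P r) (c : ℕ → ℝ) (K : ℕ) : Bdd (Zs r c K) :=
  Bdd.sum _ fun k _ => (bdd_eN h k).const_mul _

/-- Pythagoras for a family of orthogonal bounded functions. -/
theorem integral_sq_sum {ι : Type*} [IsProbabilityMeasure P] (s : Finset ι) (f : ι → Ω → ℝ) (c : ι → ℝ)
    (hf : ∀ i ∈ s, Bdd (f i)) (ho : ∀ i ∈ s, ∀ j ∈ s, i ≠ j → ∫ ω, f i ω * f j ω ∂P = 0) :
    ∫ ω, (∑ i ∈ s, c i * f i ω) ^ 2 ∂P = ∑ i ∈ s, c i ^ 2 * ∫ ω, f i ω * f i ω ∂P := by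
  classical
  have e : ∀ ω, (∑ i ∈ s, c i * f i ω) ^ 2
      = ∑ i ∈ s, ∑ j ∈ s, (c i * c j) * (f i ω * f j ω) := fun ω => by
    rw [sq, Finset.sum_mul_sum]
    refine Finset.sum_congr rfl fun i _ => Finset.sum_congr rfl fun j _ => by ring
  simp_rw [e]
  rw [integral_finsetSum _ fun i hi => (Bdd.sum _ fun j hj =>
    ((hf i hi).mul (hf j hj)).const_mul _).integrable]
  refine Finset.sum_congr rfl fun i hi => ?_
  rw [integral_finsetSum _ fun j hj => (((hf i hi).mul (hf j hj)).const_mul _).integrable]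
  rw [Finset.sum_eq_single i]
  · rw [integral_const_mul]; ring
  · intro j hj hji
    rw [integral_const_mul, ho i hi j hj (Ne.symm hji), mul_zero]
  · intro hh; exact absurd hi hh

theorem integral_Zs_sq [IsProbabilityMeasure P] (h : Flippable P r) (c : ℕ → ℝ) (K : ℕ) :
    ∫ ω, Zs r c K ω ^ 2 ∂P ≤ ∑ k ∈ Finset.range K, c k ^ 2 := by
  unfold Zs
  rw [integral_sq_sum _ _ _ (fun i _ => bdd_eN h i) fun i _ j _ hij => integral_eN_eN_ne h hij]
  refine Finset.sum_le_sum fun k _ => ?_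
  rw [integral_eN_self h]
  split_ifs
  · nlinarith [sq_nonneg (c k)]
  · linarith

/-- Maximal inequality for the system `e'`. -/
theorem maximal_eN [IsProbabilityMeasure P] (h : Flippable P r) (c : ℕ → ℝ) (N : ℕ)
    (hc0 : ∀ k, 2 ^ N ≤ k → c k = 0) :
    ∃ G : Ω → ℝ, Bdd G ∧ (∀ K ω, |Zs r c K ω| ≤ G ω) ∧
      ∫ ω, G ω ^ 2 ∂P ≤ 44 * ∑ k ∈ Finset.range (2 ^ N), c k ^ 2 := by
  set S := ∑ k ∈ Finset.range (2 ^ N), c k ^ 2 with hS
  -- martingale part
  have hX : ∀ n, Bdd (fun ω => |Zs r c (2 ^ n) ω|) := fun n => (bdd_Zs h c _).abs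
  have hmart := doob (P := P) (fun n ω => |Zs r c (2 ^ n) ω|) N hX (fun n ω => abs_nonneg _) (by
    intro n _
    obtain ⟨σ, hσ, h1⟩ := h.flip n
    have hlog : ∀ k < 2 ^ n, Nat.log 2 k < n ∨ k = 0 := fun k hk => by
      by_cases h0 : k = 0
      · exact Or.inr h0
      · left
        exact (Nat.log_lt_iff_lt_pow (by norm_num) h0).2 hk
    have hinv : ∀ j ≤ n, ∀ ω, Zs r c (2 ^ j) (σ ω) = Zs r c (2 ^ j) ω := by
      intro j hj ω
      unfold Zs
      refine Finset.sum_congr rfl fun k hk => ?_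
      have hk := Finset.mem_range.1 hk
      have hk2 : k < 2 ^ n := lt_of_lt_of_le hk (Nat.pow_le_pow_right (by norm_num) hj)
      congr 1
      rcases hlog k hk2 with h3 | h3
      · exact eN_congr fun i hi => by rw [h1 i ω, if_neg (by omega), one_mul]
      · subst h3; simp [eN]
    refine ⟨σ, hσ, fun j hj ω => by rw [hinv j hj ω], fun ω => ?_⟩
    have hsplit : ∀ ω, Zs r c (2 ^ (n+1)) ω = Zs r c (2 ^ n) ω
        + ∑ l ∈ Finset.range (2 ^ n), c (2 ^ n + l) * eN r (2 ^ n + l) ω := fun ω => by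
      unfold Zs
      rw [pow_succ, mul_two, Finset.sum_range_add]
    have hodd : ∀ l ∈ Finset.range (2 ^ n), c (2 ^ n + l) * eN r (2 ^ n + l) (σ ω)
        = - (c (2 ^ n + l) * eN r (2 ^ n + l) ω) := fun l hl => by
      have hl := Finset.mem_range.1 hl
      have hlg := log_two_pow_add hl
      rw [eN_odd (ω := σ ω) (ω' := ω) (by positivity)
        (fun i hi => by rw [hlg] at hi; rw [h1 i ω, if_neg (by omega), one_mul])
          (by rw [hlg, h1 _ ω, if_pos rfl]; ring)]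
      ring
    simp only [hsplit]
    rw [hinv n le_rfl ω, Finset.sum_congr rfl hodd, Finset.sum_neg_distrib]
    set z := Zs r c (2 ^ n) ω
    set d := ∑ l ∈ Finset.range (2 ^ n), c (2 ^ n + l) * eN r (2 ^ n + l) ω
    have : 2 * |z| = |(z + d) + (z + -d)| := by
      rw [show (z + d) + (z + -d) = 2 * z by ring, abs_mul]; norm_num
    rw [this]
    exact abs_add_le _ _)
  set R : Ω → ℝ := fun ω => rmax (fun n => |Zs r c (2 ^ n) ω|) N with hR
  have hRb : Bdd R := Bdd.rmax hX N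
  set Q : Ω → ℝ := fun ω => ∑ n ∈ Finset.range N, Qf r c n ω with hQ
  have hQb : Bdd Q := Bdd.sum _ fun n _ => bdd_Qf h c n
  have hQ0 : ∀ ω, 0 ≤ Q ω := fun ω => Finset.sum_nonneg fun n _ => Qf_nonneg c n ω
  have hsqrtQ : Bdd (fun ω => √(Q ω)) := hQb.sqrt
  refine ⟨fun ω => R ω + √(Q ω), hRb.add hsqrtQ, ?_, ?_⟩
  · intro K ω
    have hRn : ∀ n ≤ N, |Zs r c (2 ^ n) ω| ≤ R ω := fun n hn =>
      le_rmax (fun n => |Zs r c (2 ^ n) ω|) N n hn
    have hRnn : 0 ≤ R ω := (abs_nonneg _).trans (hRn 0 (Nat.zero_le _))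
    by_cases hK : K = 0
    · subst hK
      simp only [Zs, Finset.range_zero, Finset.sum_empty, abs_zero]
      positivity
    · rcases Nat.lt_or_ge K (2 ^ N) with hKN | hKN
      · obtain ⟨h3, h4⟩ := log_bounds hK
        set n := Nat.log 2 K with hn
        have hnN : n < N := (Nat.log_lt_iff_lt_pow (by norm_num) hK).2 hKN
        obtain ⟨L, hLK⟩ := Nat.exists_eq_add_of_le h3
        have hL : L ≤ 2 ^ n := by rw [pow_succ] at h4; omega
        have e : Zs r c K ω = Zs r c (2 ^ n) ω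
            + ∑ l ∈ Finset.range L, c (2 ^ n + l) * eN r (2 ^ n + l) ω := by
          unfold Zs
          rw [hLK, Finset.sum_range_add]
        have hb := level_bound h c n L hL ω
        have hQn : Qf r c n ω ≤ Q ω :=
          Finset.single_le_sum (f := fun n => Qf r c n ω) (fun n _ => Qf_nonneg c n ω)
            (Finset.mem_range.2 hnN)
        have hb2 : |∑ l ∈ Finset.range L, c (2 ^ n + l) * eN r (2 ^ n + l) ω| ≤ √(Q ω) := by
          rw [← Real.sqrt_sq_eq_abs]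
          exact Real.sqrt_le_sqrt (hb.trans hQn)
        rw [e]
        exact (abs_add_le _ _).trans (add_le_add (hRn n hnN.le) hb2)
      · have e : Zs r c K ω = Zs r c (2 ^ N) ω := by
          unfold Zs
          symm
          refine Finset.sum_subset (Finset.range_subset_range.2 hKN) fun k _ hk => ?_
          rw [hc0 k (by simpa using hk), zero_mul]
        rw [e]
        have := hRn N le_rfl
        have := Real.sqrt_nonneg (Q ω)
        linarith
  · have h1 : ∀ ω, (R ω + √(Q ω)) ^ 2 ≤ 2 * R ω ^ 2 + 2 * Q ω := fun ω => by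
      have := Real.sq_sqrt (hQ0 ω)
      nlinarith [sq_nonneg (R ω - √(Q ω))]
    have h2 : ∫ ω, (R ω + √(Q ω)) ^ 2 ∂P ≤ ∫ ω, (2 * R ω ^ 2 + 2 * Q ω) ∂P :=
      integral_mono ((hRb.add hsqrtQ).pow 2).integrable
        (((hRb.pow 2).const_mul 2).add (hQb.const_mul 2)).integrable h1
    refine h2.trans ?_
    rw [integral_add ((hRb.pow 2).const_mul 2).integrable (hQb.const_mul 2).integrable,
      integral_const_mul, integral_const_mul]
    have h3 : ∫ ω, R ω ^ 2 ∂P ≤ 4 * S := by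
      refine hmart.trans ?_
      simp only [sq_abs]
      have := integral_Zs_sq h c (2 ^ N)
      linarith
    have h4 : ∫ ω, Q ω ∂P ≤ 18 * S := by
      rw [hQ, integral_finsetSum _ fun n _ => (bdd_Qf h c n).integrable]
      refine (Finset.sum_le_sum fun n _ => integral_Qf h c n).trans ?_
      rw [← Finset.mul_sum]
      have : ∑ n ∈ Finset.range N, ∑ l ∈ Finset.range (2 ^ n), c (2 ^ n + l) ^ 2 ≤ S := by
        rw [hS]
        have : ∀ N, ∑ n ∈ Finset.range N, ∑ l ∈ Finset.range (2 ^ n), c (2 ^ n + l) ^ 2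
            + c 0 ^ 2 = ∑ k ∈ Finset.range (2 ^ N), c k ^ 2 := by
          intro N
          induction N with
          | zero => simp
          | succ N ih =>
            have e2 : 2 ^ (N + 1) = 2 ^ N + 2 ^ N := by ring
            rw [Finset.sum_range_succ, e2, Finset.sum_range_add, ← ih]
            ring
        have h5 := this N
        nlinarith [sq_nonneg (c 0)]
      linarith
    linarith

end Pool.Agent.Helper91.DoubleONS
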