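import Mathlib
import Pool.Agent.Helper91.DoubE

set_option autoImplicit false
set_option linter.unusedSectionVars false
set_option linter.unusedVariables false

open MeasureTheory Filter
open scoped Topology ENNReal

namespace Pool.Agent.Helper91.DoubleONS

variable {Ω : Type*} [MeasurableSpace Ω] {P : Measure Ω} {r : ℕ → Ω → ℝ}

/-- mixing coefficients -/
noncomputable def cf (i k : ℕ) : ℝ := if i < 4 ^ k then (1/2) ^ k else 0

/-- normalised sums of the sign functions of column `k` -/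
noncomputable def Ff (r : ℕ → Ω → ℝ) (k : ℕ) (ω : Ω) : ℝ :=
  ∑ i ∈ Finset.range (4 ^ k), (1/2) ^ k * r (Nat.pair i k) ω

/-- `Fp (2 ^ n) = Ff n`, and `Fp k = 0` if `k` is not a power of two. -/
noncomputable def Fp (r : ℕ → Ω → ℝ) (k : ℕ) (ω : Ω) : ℝ :=
  if k = 2 ^ (Nat.log 2 k) then Ff r (Nat.log 2 k) ω else 0

/-- The functions to be flattened in column `k`. -/
noncomputable def Bf (r : ℕ → Ω → ℝ) (k : ℕ) (ω : Ω) : ℝ := eN r k ω + Fp r k ω

/-- The double orthonormal system. -/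
noncomputable def phi (r : ℕ → Ω → ℝ) (i k : ℕ) (ω : Ω) : ℝ :=
  r (Nat.pair i k) ω - cf i k * (Bf r k ω + Ff r k ω)

theorem bdd_Ff (h : Flippable P r) (k : ℕ) : Bdd (Ff r k) :=
  Bdd.sum _ fun i _ => (h.bdd _).const_mul _

theorem bdd_Fp (h : Flippable P r) (k : ℕ) : Bdd (Fp r k) := by
  unfold Fp
  split_ifs
  · exact bdd_Ff h _
  · exact Bdd.const 0

theorem bdd_Bf (h : Flippable P r) (k : ℕ) : Bdd (Bf r k) := (bdd_eN h k).add (bdd_Fp h k)

theorem bdd_phi (h : Flippable P r) (i k : ℕ) : Bdd (phi r i k) :=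
  (h.bdd _).sub (((bdd_Bf h k).add (bdd_Ff h k)).const_mul _)

theorem half_mul (k : ℕ) : ((1:ℝ)/2) ^ k * 2 ^ k = 1 := by
  rw [← mul_pow]; norm_num

theorem four_mul_half (k : ℕ) : (4:ℝ) ^ k * (1/2) ^ k = 2 ^ k := by
  rw [← mul_pow]; norm_num

theorem abs_Ff_le (h : Flippable P r) (k : ℕ) (ω : Ω) : |Ff r k ω| ≤ 2 ^ k := by
  unfold Ff
  refine (Finset.abs_sum_le_sum_abs _ _).trans ?_
  have : ∀ i ∈ Finset.range (4 ^ k), |(1/2:ℝ) ^ k * r (Nat.pair i k) ω| = (1/2) ^ k := fun i _ => by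
    rw [abs_mul, h.abs_eq, mul_one, abs_of_nonneg (by positivity)]
  rw [Finset.sum_congr rfl this, Finset.sum_const, Finset.card_range, nsmul_eq_mul]
  push_cast
  rw [four_mul_half]

theorem abs_Bf_le (h : Flippable P r) (k : ℕ) (ω : Ω) : |Bf r k ω| ≤ 2 ^ k := by
  unfold Bf Fp
  split_ifs with h1
  · have : eN r k ω = 0 := by rw [h1]; exact eN_pow _ ω
    rw [this, zero_add]
    refine (abs_Ff_le h _ ω).trans (pow_le_pow_right₀ (by norm_num) ?_)
    have : Nat.log 2 k < 2 ^ Nat.log 2 k := Nat.lt_two_pow_self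
    omega
  · rw [add_zero]; exact abs_eN_le h k ω

theorem cf_nonneg (i k : ℕ) : 0 ≤ cf i k := by
  unfold cf; split_ifs <;> positivity

theorem cf_le (i k : ℕ) : cf i k ≤ (1/2) ^ k := by
  unfold cf; split_ifs
  · exact le_rfl
  · positivity

theorem abs_phi_le (h : Flippable P r) (i k : ℕ) (ω : Ω) : |phi r i k ω| ≤ 3 := by
  unfold phi
  refine (abs_sub _ _).trans ?_
  rw [h.abs_eq, abs_mul, abs_of_nonneg (cf_nonneg i k)]
  have h1 := abs_Bf_le h k ω
  have h2 := abs_Ff_le h k ω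
  have h3 : |Bf r k ω + Ff r k ω| ≤ 2 * 2 ^ k := (abs_add_le _ _).trans (by linarith)
  have h4 : cf i k * |Bf r k ω + Ff r k ω| ≤ (1/2) ^ k * (2 * 2 ^ k) :=
    mul_le_mul (cf_le i k) h3 (abs_nonneg _) (by positivity)
  have h5 : ((1:ℝ)/2) ^ k * (2 * 2 ^ k) = 2 := by
    rw [mul_left_comm, half_mul]; norm_num
  linarith

theorem integral_f_f [IsProbabilityMeasure P] (h : Flippable P r) (i k j l : ℕ) :
    ∫ ω, r (Nat.pair i k) ω * r (Nat.pair j l) ω ∂P = if i = j ∧ k = l then 1 else 0 := by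
  split_ifs with h1
  · rw [h1.1, h1.2]; exact integral_r_r h _
  · refine integral_r_r_ne h fun h2 => h1 ?_
    rwa [Nat.pair_eq_pair] at h2

theorem integral_f_F [IsProbabilityMeasure P] (h : Flippable P r) (i k l : ℕ) :
    ∫ ω, r (Nat.pair i k) ω * Ff r l ω ∂P = if k = l then cf i k else 0 := by
  unfold Ff
  simp_rw [Finset.mul_sum]
  rw [integral_finsetSum _ fun j _ => ((h.bdd _).mul ((h.bdd _).const_mul _)).integrable]
  have : ∀ j, ∫ ω, r (Nat.pair i k) ω * ((1/2) ^ l * r (Nat.pair j l) ω) ∂P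
      = if j = i then (if k = l then (1/2) ^ l else 0) else 0 := fun j => by
    have e : ∀ ω, r (Nat.pair i k) ω * ((1/2) ^ l * r (Nat.pair j l) ω)
      = (1/2) ^ l * (r (Nat.pair i k) ω * r (Nat.pair j l) ω) := fun ω => by ring
    simp_rw [e]
    rw [integral_const_mul, integral_f_f h]
    by_cases h1 : i = j
    · subst h1; by_cases h2 : k = l
      · simp [h2]
      · simp [h2]
    · simp [h1, Ne.symm h1]
  simp_rw [this]
  rw [Finset.sum_ite_eq' (Finset.range (4 ^ l)) i]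
  unfold cf
  by_cases h2 : k = l
  · subst h2; simp [Finset.mem_range]
  · simp [h2]

theorem integral_F_F [IsProbabilityMeasure P] (h : Flippable P r) (k l : ℕ) :
    ∫ ω, Ff r k ω * Ff r l ω ∂P = if k = l then 1 else 0 := by
  have e : ∀ ω, Ff r k ω * Ff r l ω
      = ∑ i ∈ Finset.range (4 ^ k), (1/2) ^ k * (r (Nat.pair i k) ω * Ff r l ω) := fun ω => by
    conv_lhs => unfold Ff
    rw [Finset.sum_mul]
    refine Finset.sum_congr rfl fun i _ => ?_
    rw [mul_assoc]; rfl
  simp_rw [e]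
  rw [integral_finsetSum _ fun j _ => (((h.bdd _).mul (bdd_Ff h l)).const_mul _).integrable]
  simp_rw [integral_const_mul, integral_f_F h]
  by_cases h2 : k = l
  · subst h2
    have : ∀ i ∈ Finset.range (4 ^ k), (1/2:ℝ) ^ k * (if k = k then cf i k else 0)
        = (1/2) ^ k * (1/2) ^ k := fun i hi => by
      unfold cf; simp [Finset.mem_range.1 hi]
    rw [Finset.sum_congr rfl this, Finset.sum_const, Finset.card_range, nsmul_eq_mul]
    push_cast
    rw [← mul_assoc, four_mul_half, mul_comm, half_mul]; simp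
  · simp [h2]

theorem integral_eN_F [IsProbabilityMeasure P] (h : Flippable P r) (k l : ℕ) :
    ∫ ω, eN r k ω * Ff r l ω ∂P = 0 := by
  unfold Ff
  simp_rw [Finset.mul_sum]
  rw [integral_finsetSum _ fun j _ => ((bdd_eN h k).mul ((h.bdd _).const_mul _)).integrable]
  refine Finset.sum_eq_zero fun i _ => ?_
  have e : ∀ ω, eN r k ω * ((1/2) ^ l * r (Nat.pair i l) ω)
      = (1/2) ^ l * (eN r k ω * r (Nat.pair i l) ω) := fun ω => by ring
  simp_rw [e]
  rw [integral_const_mul, integral_eN_r h, mul_zero]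

/-- the incidence `theta k l = 1` if `k = 2 ^ l` -/
noncomputable def theta (k l : ℕ) : ℝ := if k = 2 ^ l then 1 else 0

theorem log_eq_iff_pow {k l : ℕ} : (k = 2 ^ Nat.log 2 k ∧ Nat.log 2 k = l) ↔ k = 2 ^ l := by
  constructor
  · rintro ⟨h1, h2⟩; rw [← h2]; exact h1
  · intro h1
    have : Nat.log 2 k = l := by rw [h1]; exact Nat.log_pow (by norm_num) l
    exact ⟨by rw [this]; exact h1, this⟩

theorem integral_Fp_F [IsProbabilityMeasure P] (h : Flippable P r) (k l : ℕ) :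
    ∫ ω, Fp r k ω * Ff r l ω ∂P = theta k l := by
  unfold Fp theta
  by_cases h1 : k = 2 ^ Nat.log 2 k
  · simp only [if_pos h1]
    rw [integral_F_F h]
    by_cases h2 : Nat.log 2 k = l
    · rw [if_pos h2, if_pos (log_eq_iff_pow.1 ⟨h1, h2⟩)]
    · rw [if_neg h2, if_neg fun h3 => h2 (log_eq_iff_pow.2 h3).2]
  · simp only [if_neg h1]
    rw [if_neg fun h3 => h1 (log_eq_iff_pow.2 h3).1]
    simp

theorem integral_B_F [IsProbabilityMeasure P] (h : Flippable P r) (k l : ℕ) :
    ∫ ω, Bf r k ω * Ff r l ω ∂P = theta k l := by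
  unfold Bf
  simp_rw [add_mul]
  rw [integral_add ((bdd_eN h k).mul (bdd_Ff h l)).integrable
    ((bdd_Fp h k).mul (bdd_Ff h l)).integrable, integral_eN_F h, integral_Fp_F h, zero_add]

theorem integral_f_B [IsProbabilityMeasure P] (h : Flippable P r) (i k l : ℕ) :
    ∫ ω, r (Nat.pair i k) ω * Bf r l ω ∂P = cf i k * theta l k := by
  unfold Bf
  simp_rw [mul_add]
  rw [integral_add ((h.bdd _).mul (bdd_eN h l)).integrable
    ((h.bdd _).mul (bdd_Fp h l)).integrable]
  have : ∫ ω, r (Nat.pair i k) ω * eN r l ω ∂P = 0 := by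
    simp_rw [mul_comm (r (Nat.pair i k) _)]
    exact integral_eN_r h l _
  rw [this, zero_add]
  unfold Fp theta
  by_cases h1 : l = 2 ^ Nat.log 2 l
  · simp only [if_pos h1]
    rw [integral_f_F h]
    by_cases h2 : k = Nat.log 2 l
    · rw [if_pos h2, if_pos (log_eq_iff_pow.1 ⟨h1, h2.symm⟩), mul_one]
    · rw [if_neg h2, if_neg fun h3 => h2 (log_eq_iff_pow.2 h3).2.symm, mul_zero]
  · simp only [if_neg h1]
    rw [if_neg fun h3 => h1 (log_eq_iff_pow.2 h3).1]
    simp

theorem integral_eN_Fp [IsProbabilityMeasure P] (h : Flippable P r) (k l : ℕ) :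
    ∫ ω, eN r k ω * Fp r l ω ∂P = 0 := by
  unfold Fp
  by_cases h1 : l = 2 ^ Nat.log 2 l
  · simp only [if_pos h1]
    exact integral_eN_F h _ _
  · simp only [if_neg h1]; simp

theorem integral_Fp_Fp [IsProbabilityMeasure P] (h : Flippable P r) (k l : ℕ) :
    ∫ ω, Fp r k ω * Fp r l ω ∂P
      = if k = l then (if k = 2 ^ Nat.log 2 k then 1 else 0) else 0 := by
  have e : ∀ l, l = 2 ^ Nat.log 2 l → ∀ ω, Fp r l ω = Ff r (Nat.log 2 l) ω := fun l hl ω => by
    unfold Fp; rw [if_pos hl]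
  have e0 : ∀ l, l ≠ 2 ^ Nat.log 2 l → ∀ ω, Fp r l ω = 0 := fun l hl ω => by
    unfold Fp; rw [if_neg hl]
  by_cases h2 : l = 2 ^ Nat.log 2 l
  · simp_rw [e l h2]
    rw [integral_Fp_F h]
    unfold theta
    by_cases h3 : k = l
    · subst h3; rw [if_pos h2, if_pos rfl]
    · rw [if_neg h3, if_neg (by rw [← h2]; exact h3)]
  · simp_rw [e0 l h2]
    by_cases h3 : k = l
    · subst h3; rw [if_pos rfl, if_neg h2]; simp
    · rw [if_neg h3]; simp

theorem integral_B_B [IsProbabilityMeasure P] (h : Flippable P r) (k l : ℕ) :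
    ∫ ω, Bf r k ω * Bf r l ω ∂P = if k = l then 1 else 0 := by
  have e : ∀ ω, Bf r k ω * Bf r l ω = (eN r k ω * eN r l ω + eN r k ω * Fp r l ω)
      + (eN r l ω * Fp r k ω + Fp r k ω * Fp r l ω) := fun ω => by unfold Bf; ring
  simp_rw [e]
  have b1 := (bdd_eN h k).mul (bdd_eN h l)
  have b2 := (bdd_eN h k).mul (bdd_Fp h l)
  have b3 := (bdd_eN h l).mul (bdd_Fp h k)
  have b4 := (bdd_Fp h k).mul (bdd_Fp h l)
  rw [integral_add (b1.add b2).integrable (b3.add b4).integrable,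
    integral_add b1.integrable b2.integrable, integral_add b3.integrable b4.integrable,
    integral_eN_Fp h, integral_eN_Fp h, integral_Fp_Fp h]
  by_cases hkl : k = l
  · subst hkl
    rw [integral_eN_self h]
    by_cases h2 : k = 2 ^ Nat.log 2 k
    · simp only [if_pos h2]; simp
    · simp only [if_neg h2]; simp
  · rw [integral_eN_eN_ne h hkl, if_neg hkl, if_neg hkl]; simp

theorem orthonormal_phi [IsProbabilityMeasure P] (h : Flippable P r) (i k j l : ℕ) :
    ∫ ω, phi r i k ω * phi r j l ω ∂P = if i = j ∧ k = l then 1 else 0 := by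
  have e : ∀ ω, phi r i k ω * phi r j l ω
      = r (Nat.pair i k) ω * r (Nat.pair j l) ω
        - cf j l * (r (Nat.pair i k) ω * Bf r l ω + r (Nat.pair i k) ω * Ff r l ω)
        - cf i k * (r (Nat.pair j l) ω * Bf r k ω + r (Nat.pair j l) ω * Ff r k ω)
        + cf i k * cf j l * ((Bf r k ω * Bf r l ω + Ff r k ω * Ff r l ω)
          + (Bf r k ω * Ff r l ω + Bf r l ω * Ff r k ω)) := fun ω => by unfold phi; ring
  simp_rw [e]
  have b1 := (h.bdd (Nat.pair i k)).mul (h.bdd (Nat.pair j l))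
  have b2 := (h.bdd (Nat.pair i k)).mul (bdd_Bf h l)
  have b3 := (h.bdd (Nat.pair i k)).mul (bdd_Ff h l)
  have b4 := (h.bdd (Nat.pair j l)).mul (bdd_Bf h k)
  have b5 := (h.bdd (Nat.pair j l)).mul (bdd_Ff h k)
  have b6 := (bdd_Bf h k).mul (bdd_Bf h l)
  have b7 := (bdd_Ff h k).mul (bdd_Ff h l)
  have b8 := (bdd_Bf h k).mul (bdd_Ff h l)
  have b9 := (bdd_Bf h l).mul (bdd_Ff h k)
  have c2 := (b2.add b3).const_mul (cf j l)
  have c3 := (b4.add b5).const_mul (cf i k)
  have c4 := ((b6.add b7).add (b8.add b9)).const_mul (cf i k * cf j l)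
  rw [integral_add ((b1.sub c2).sub c3).integrable c4.integrable,
    integral_sub (b1.sub c2).integrable c3.integrable,
    integral_sub b1.integrable c2.integrable, integral_const_mul, integral_const_mul,
    integral_const_mul, integral_add b2.integrable b3.integrable,
    integral_add b4.integrable b5.integrable,
    integral_add (b6.add b7).integrable (b8.add b9).integrable,
    integral_add b6.integrable b7.integrable, integral_add b8.integrable b9.integrable,
    integral_f_f h, integral_f_B h, integral_f_B h, integral_f_F h, integral_f_F h,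
    integral_B_B h, integral_F_F h, integral_B_F h, integral_B_F h]
  by_cases hkl : k = l
  · subst hkl; simp; ring
  · simp [hkl, Ne.symm hkl]; ring

theorem complete_phi [IsProbabilityMeasure P] (h : Flippable P r) {g : Ω → ℝ} (hg : Integrable g P)
    (h0 : ∀ i k, ∫ ω, g ω * phi r i k ω ∂P = 0) : ∀ n l, ∫ ω, g ω * At r n l ω ∂P = 0 := by
  have hf : ∀ i k, ∫ ω, g ω * r (Nat.pair i k) ω ∂P
      = cf i k * (∫ ω, g ω * Bf r k ω ∂P + ∫ ω, g ω * Ff r k ω ∂P) := by
    intro i k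
    have e := h0 i k
    have e1 : ∀ ω, g ω * phi r i k ω = g ω * r (Nat.pair i k) ω
        - cf i k * (g ω * Bf r k ω + g ω * Ff r k ω) := fun ω => by unfold phi; ring
    simp_rw [e1] at e
    have i1 := integrable_mul_bdd hg (h.bdd (Nat.pair i k))
    have i2 := integrable_mul_bdd hg (bdd_Bf h k)
    have i3 := integrable_mul_bdd hg (bdd_Ff h k)
    have i4 : Integrable (fun ω => cf i k * (g ω * Bf r k ω + g ω * Ff r k ω)) P :=
      (i2.add i3).const_mul _
    rw [integral_sub i1 i4, integral_const_mul, integral_add i2 i3] at e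
    linarith
  have hF : ∀ k, ∫ ω, g ω * Ff r k ω ∂P
      = ∫ ω, g ω * Bf r k ω ∂P + ∫ ω, g ω * Ff r k ω ∂P := by
    intro k
    have e1 : ∀ ω, g ω * Ff r k ω
        = ∑ i ∈ Finset.range (4 ^ k), (1/2) ^ k * (g ω * r (Nat.pair i k) ω) := fun ω => by
      unfold Ff
      rw [Finset.mul_sum]
      exact Finset.sum_congr rfl fun i _ => by ring
    have e2 : ∫ ω, g ω * Ff r k ω ∂P
        = ∑ i ∈ Finset.range (4 ^ k), (1/2) ^ k * ∫ ω, g ω * r (Nat.pair i k) ω ∂P := by
      simp_rw [e1]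
      rw [integral_finsetSum _ fun i _ => (integrable_mul_bdd hg (h.bdd _)).const_mul _]
      simp_rw [integral_const_mul]
    have e3 : ∑ i ∈ Finset.range (4 ^ k), (1/2:ℝ) ^ k * ∫ ω, g ω * r (Nat.pair i k) ω ∂P
        = ∑ i ∈ Finset.range (4 ^ k), (1/2:ℝ) ^ k * ((1/2) ^ k *
          (∫ ω, g ω * Bf r k ω ∂P + ∫ ω, g ω * Ff r k ω ∂P)) := by
      refine Finset.sum_congr rfl fun i hi => ?_
      rw [hf i k, cf, if_pos (Finset.mem_range.1 hi)]
    rw [e3, Finset.sum_const, Finset.card_range, nsmul_eq_mul] at e2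
    push_cast at e2
    have e4 : (4:ℝ) ^ k * ((1/2) ^ k * ((1/2) ^ k *
        (∫ ω, g ω * Bf r k ω ∂P + ∫ ω, g ω * Ff r k ω ∂P)))
        = ∫ ω, g ω * Bf r k ω ∂P + ∫ ω, g ω * Ff r k ω ∂P := by
      rw [← mul_assoc, four_mul_half, ← mul_assoc, mul_comm ((2:ℝ) ^ k), half_mul, one_mul]
    rw [e4] at e2
    exact e2
  have hB : ∀ k, ∫ ω, g ω * Bf r k ω ∂P = 0 := fun k => by
    have := hF k; linarith
  have hF0 : ∀ k, ∫ ω, g ω * Ff r k ω ∂P = 0 := fun k => by
    have e := hB (2 ^ k)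
    have e1 : ∀ ω, Bf r (2 ^ k) ω = Ff r k ω := fun ω => by
      unfold Bf Fp
      have : Nat.log 2 (2 ^ k) = k := Nat.log_pow (by norm_num) k
      rw [eN_pow, this, if_pos rfl, zero_add]
    simp_rw [e1] at e
    exact e
  have hr : ∀ j, ∫ ω, g ω * r j ω ∂P = 0 := fun j => by
    have e := hf (Nat.unpair j).1 (Nat.unpair j).2
    rw [Nat.pair_unpair, hB, hF0, add_zero, mul_zero] at e
    exact e
  have he : ∀ k, ∫ ω, g ω * eN r k ω ∂P = 0 := fun k => by
    by_cases h1 : k = 2 ^ Nat.log 2 k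
    · have : ∀ ω, eN r k ω = 0 := fun ω => by rw [h1]; exact eN_pow _ ω
      simp [this]
    · have e := hB k
      have e1 : ∀ ω, Bf r k ω = eN r k ω := fun ω => by
        unfold Bf Fp; rw [if_neg h1, add_zero]
      simp_rw [e1] at e
      exact e
  exact fun n l => base_At_zero h hg he hr n l

end Pool.Agent.Helper91.DoubleONS
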