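import Mathlib
import Pool.Agent.Helper91.DoubF

set_option autoImplicit false
set_option linter.unusedSectionVars false
set_option linter.unusedVariables false

open MeasureTheory Filter
open scoped Topology ENNReal

namespace Pool.Agent.Helper91.DoubleONS

variable {Ω : Type*} [MeasurableSpace Ω] {P : Measure Ω} {r : ℕ → Ω → ℝ}

theorem two_abs_le (z d : ℝ) : 2 * |z| ≤ |z + d| + |z - d| := by
  have : 2 * |z| = |(z + d) + (z - d)| := by
    rw [show (z + d) + (z - d) = 2 * z by ring, abs_mul]; norm_num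
  rw [this]
  exact abs_add_le _ _

theorem exists_rmax (x : ℕ → ℝ) (M : ℕ) : ∃ k ≤ M, rmax x M = x k := by
  induction M with
  | zero => exact ⟨0, le_rfl, rfl⟩
  | succ M ih =>
    obtain ⟨k, hk, e⟩ := ih
    rcases le_total (rmax x M) (x (M+1)) with h | h
    · exact ⟨M+1, le_rfl, max_eq_right h⟩
    · exact ⟨k, by omega, (max_eq_left h).trans e⟩

theorem rmax_two {x y z : ℕ → ℝ} (N : ℕ) (h : ∀ k ≤ N, 2 * z k ≤ x k + y k) :
    2 * rmax z N ≤ rmax x N + rmax y N := by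
  obtain ⟨k, hk, e⟩ := exists_rmax z N
  rw [e]
  exact (h k hk).trans (add_le_add (le_rmax x N k hk) (le_rmax y N k hk))

/-- rectangular partial sums of the signs -/
noncomputable def Rs (r : ℕ → Ω → ℝ) (a : ℕ → ℕ → ℝ) (m n : ℕ) (ω : Ω) : ℝ :=
  ∑ i ∈ Finset.range m, ∑ k ∈ Finset.range n, a i k * r (Nat.pair i k) ω

theorem bdd_Rs (h : Flippable P r) (a : ℕ → ℕ → ℝ) (m n : ℕ) : Bdd (Rs r a m n) :=
  Bdd.sum _ fun i _ => Bdd.sum _ fun k _ => (h.bdd _).const_mul _

theorem integral_Rs_sq [IsProbabilityMeasure P] (h : Flippable P r) (a : ℕ → ℕ → ℝ) (m n : ℕ) :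
    ∫ ω, Rs r a m n ω ^ 2 ∂P
      = ∑ i ∈ Finset.range m, ∑ k ∈ Finset.range n, a i k ^ 2 := by
  have e : ∀ ω, Rs r a m n ω = ∑ p ∈ Finset.range m ×ˢ Finset.range n,
      a p.1 p.2 * r (Nat.pair p.1 p.2) ω := fun ω => by
    unfold Rs; rw [Finset.sum_product]
  simp_rw [e]
  rw [integral_sq_sum _ (fun p : ℕ × ℕ => fun ω => r (Nat.pair p.1 p.2) ω)
    (fun p => a p.1 p.2) (fun p _ => h.bdd _) ?_]
  · simp_rw [integral_r_r h, mul_one]
    rw [Finset.sum_product]
  · intro p _ q _ hpq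
    refine integral_r_r_ne h fun h2 => hpq ?_
    rw [Nat.pair_eq_pair] at h2
    exact Prod.ext h2.1 h2.2

/-- Two parameter maximal inequality for the signs. -/
theorem maximal_Rs [IsProbabilityMeasure P] (h : Flippable P r) (a : ℕ → ℕ → ℝ) (M N : ℕ) :
    ∃ G : Ω → ℝ, Bdd G ∧ (∀ m ≤ M, ∀ n ≤ N, ∀ ω, |Rs r a m n ω| ≤ G ω) ∧
      ∫ ω, G ω ^ 2 ∂P ≤ 16 * ∑ i ∈ Finset.range M, ∑ k ∈ Finset.range N, a i k ^ 2 := by
  classical
  set X : ℕ → Ω → ℝ := fun m ω => rmax (fun n => |Rs r a m n ω|) N with hX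
  have hXb : ∀ m, Bdd (X m) := fun m => Bdd.rmax (fun n => (bdd_Rs h a m n).abs) N
  have hXnn : ∀ m ω, 0 ≤ X m ω := fun m ω => rmax_nonneg _ (fun _ => abs_nonneg _) N
  have d1 := doob (P := P) X M hXb hXnn (by
    intro m _
    obtain ⟨σ, hσ, h1⟩ := h.flips ((Finset.range N).image (fun k => Nat.pair m k))
    have hinv : ∀ j ≤ m, ∀ n ω, Rs r a j n (σ ω) = Rs r a j n ω := by
      intro j hj n ω
      unfold Rs
      refine Finset.sum_congr rfl fun i hi => Finset.sum_congr rfl fun k _ => ?_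
      have hi := Finset.mem_range.1 hi
      rw [h1, if_neg, one_mul]
      simp only [Finset.mem_image, not_exists, not_and]
      intro k' _ h2
      rw [Nat.pair_eq_pair] at h2
      omega
    refine ⟨σ, hσ, fun j hj ω => ?_, fun ω => ?_⟩
    · simp only [hX]
      exact rmax_congr N fun n _ => by rw [hinv j hj n ω]
    · simp only [hX]
      refine rmax_two N fun n hn => ?_
      have e1 : Rs r a (m+1) n ω = Rs r a m n ω
          + ∑ k ∈ Finset.range n, a m k * r (Nat.pair m k) ω := by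
        unfold Rs; rw [Finset.sum_range_succ]
      have e2 : Rs r a (m+1) n (σ ω) = Rs r a m n ω
          - ∑ k ∈ Finset.range n, a m k * r (Nat.pair m k) ω := by
        have : Rs r a (m+1) n (σ ω) = Rs r a m n (σ ω)
          + ∑ k ∈ Finset.range n, a m k * r (Nat.pair m k) (σ ω) := by
          unfold Rs; rw [Finset.sum_range_succ]
        rw [this, hinv m le_rfl n ω, sub_eq_add_neg, ← Finset.sum_neg_distrib]
        congr 1
        refine Finset.sum_congr rfl fun k hk => ?_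
        have hk := Finset.mem_range.1 hk
        rw [h1, if_pos (Finset.mem_image.2 ⟨k, Finset.mem_range.2 (by omega), rfl⟩)]
        ring
      rw [e1, e2]
      exact two_abs_le _ _)
  have d2 := doob (P := P) (fun n ω => |Rs r a M n ω|) N (fun n => (bdd_Rs h a M n).abs)
    (fun n ω => abs_nonneg _) (by
    intro n _
    obtain ⟨σ, hσ, h1⟩ := h.flips ((Finset.range M).image (fun i => Nat.pair i n))
    have hinv : ∀ j ≤ n, ∀ ω, Rs r a M j (σ ω) = Rs r a M j ω := by
      intro j hj ω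
      unfold Rs
      refine Finset.sum_congr rfl fun i hi => Finset.sum_congr rfl fun k hk => ?_
      have hk := Finset.mem_range.1 hk
      rw [h1, if_neg, one_mul]
      simp only [Finset.mem_image, not_exists, not_and]
      intro k' _ h2
      rw [Nat.pair_eq_pair] at h2
      omega
    have e1 : ∀ ω, Rs r a M (n+1) ω = Rs r a M n ω
        + ∑ i ∈ Finset.range M, a i n * r (Nat.pair i n) ω := fun ω => by
      unfold Rs; rw [← Finset.sum_add_distrib]
      exact Finset.sum_congr rfl fun i _ => by rw [Finset.sum_range_succ]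
    refine ⟨σ, hσ, fun j hj ω => by rw [hinv j hj ω], fun ω => ?_⟩
    have e2 : Rs r a M (n+1) (σ ω) = Rs r a M n ω
        - ∑ i ∈ Finset.range M, a i n * r (Nat.pair i n) ω := by
      rw [e1, hinv n le_rfl ω, sub_eq_add_neg, ← Finset.sum_neg_distrib]
      congr 1
      refine Finset.sum_congr rfl fun i hi => ?_
      rw [h1, if_pos (Finset.mem_image.2 ⟨i, hi, rfl⟩)]
      ring
    rw [e1, e2]
    exact two_abs_le _ _)
  refine ⟨fun ω => rmax (fun m => X m ω) M, Bdd.rmax hXb M, ?_, ?_⟩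
  · intro m hm n hn ω
    exact (le_rmax (fun n => |Rs r a m n ω|) N n hn).trans (le_rmax (fun m => X m ω) M m hm)
  · refine d1.trans ?_
    have := integral_Rs_sq h a M N
    simp only [sq_abs] at d2
    rw [this] at d2
    simp only [hX]
    linarith

/-- General one parameter maximal inequality for functions which can be flipped. -/
theorem maximal_flip [IsProbabilityMeasure P] (f : ℕ → Ω → ℝ) (hf : ∀ k, Bdd (f k))
    (hflip : ∀ k, ∃ σ : Ω → Ω, MeasurePreserving σ P P ∧ (∀ j < k, ∀ ω, f j (σ ω) = f j ω) ∧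
      ∀ ω, f k (σ ω) = - f k ω) (hsq : ∀ k, ∫ ω, f k ω * f k ω ∂P ≤ 1)
    (ho : ∀ k l, k ≠ l → ∫ ω, f k ω * f l ω ∂P = 0) (c : ℕ → ℝ) (N : ℕ)
    (hc : ∀ k, N ≤ k → c k = 0) :
    ∃ G : Ω → ℝ, Bdd G ∧ (∀ K ω, |∑ k ∈ Finset.range K, c k * f k ω| ≤ G ω) ∧
      ∫ ω, G ω ^ 2 ∂P ≤ 4 * ∑ k ∈ Finset.range N, c k ^ 2 := by
  have hb : ∀ K, Bdd (fun ω => ∑ k ∈ Finset.range K, c k * f k ω) := fun K =>
    Bdd.sum _ fun k _ => (hf k).const_mul _
  have d := doob (P := P) (fun n ω => |∑ k ∈ Finset.range n, c k * f k ω|) N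
    (fun n => (hb n).abs) (fun n ω => abs_nonneg _) (by
    intro n _
    obtain ⟨σ, hσ, h1, h2⟩ := hflip n
    have hinv : ∀ j ≤ n, ∀ ω, ∑ k ∈ Finset.range j, c k * f k (σ ω)
        = ∑ k ∈ Finset.range j, c k * f k ω := fun j hj ω =>
      Finset.sum_congr rfl fun k hk => by
        rw [h1 k (lt_of_lt_of_le (Finset.mem_range.1 hk) hj)]
    refine ⟨σ, hσ, fun j hj ω => by rw [hinv j hj ω], fun ω => ?_⟩
    simp only [Finset.sum_range_succ]
    rw [hinv n le_rfl ω, h2, mul_neg, ← sub_eq_add_neg]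
    exact two_abs_le _ _)
  refine ⟨fun ω => rmax (fun n => |∑ k ∈ Finset.range n, c k * f k ω|) N,
    Bdd.rmax (fun n => (hb n).abs) N, ?_, ?_⟩
  · intro K ω
    rcases le_total K N with hK | hK
    · exact le_rmax (fun n => |∑ k ∈ Finset.range n, c k * f k ω|) N K hK
    · have e : ∑ k ∈ Finset.range K, c k * f k ω = ∑ k ∈ Finset.range N, c k * f k ω := by
        symm
        refine Finset.sum_subset (Finset.range_subset_range.2 hK) fun k _ hk => ?_
        rw [hc k (by simpa using hk), zero_mul]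
      rw [e]
      exact le_rmax (fun n => |∑ k ∈ Finset.range n, c k * f k ω|) N N le_rfl
  · refine d.trans ?_
    simp only [sq_abs]
    rw [integral_sq_sum _ _ _ (fun i _ => hf i) fun i _ j _ hij => ho i j hij]
    have : ∑ i ∈ Finset.range N, c i ^ 2 * ∫ ω, f i ω * f i ω ∂P ≤ ∑ i ∈ Finset.range N, c i ^ 2 :=
      Finset.sum_le_sum fun i _ => mul_le_of_le_one_right (sq_nonneg _) (hsq i)
    linarith

theorem Ff_flip (h : Flippable P r) (k : ℕ) : ∃ σ : Ω → Ω, MeasurePreserving σ P P ∧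
    (∀ j ≠ k, ∀ ω, Ff r j (σ ω) = Ff r j ω) ∧ ∀ ω, Ff r k (σ ω) = - Ff r k ω := by
  classical
  obtain ⟨σ, hσ, h1⟩ := h.flips ((Finset.range (4 ^ k)).image (fun i => Nat.pair i k))
  refine ⟨σ, hσ, fun j hj ω => ?_, fun ω => ?_⟩
  · unfold Ff
    refine Finset.sum_congr rfl fun i _ => ?_
    rw [h1, if_neg, one_mul]
    simp only [Finset.mem_image, not_exists, not_and]
    intro k' _ h2
    rw [Nat.pair_eq_pair] at h2
    exact hj h2.2.symm
  · unfold Ff
    rw [← Finset.sum_neg_distrib]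
    refine Finset.sum_congr rfl fun i hi => ?_
    rw [h1, if_pos (Finset.mem_image.2 ⟨i, hi, rfl⟩)]
    ring

theorem maximal_Ff [IsProbabilityMeasure P] (h : Flippable P r) (c : ℕ → ℝ) (N : ℕ)
    (hc : ∀ k, N ≤ k → c k = 0) :
    ∃ G : Ω → ℝ, Bdd G ∧ (∀ K ω, |∑ k ∈ Finset.range K, c k * Ff r k ω| ≤ G ω) ∧
      ∫ ω, G ω ^ 2 ∂P ≤ 4 * ∑ k ∈ Finset.range N, c k ^ 2 :=
  maximal_flip (Ff r) (bdd_Ff h) (fun k => by
    obtain ⟨σ, hσ, h1, h2⟩ := Ff_flip h k
    exact ⟨σ, hσ, fun j hj => h1 j (by omega), h2⟩)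
    (fun k => by rw [integral_F_F h, if_pos rfl])
    (fun k l hkl => by rw [integral_F_F h, if_neg hkl]) c N hc

theorem maximal_Fp [IsProbabilityMeasure P] (h : Flippable P r) (c : ℕ → ℝ) (N : ℕ)
    (hc : ∀ k, N ≤ k → c k = 0) :
    ∃ G : Ω → ℝ, Bdd G ∧ (∀ K ω, |∑ k ∈ Finset.range K, c k * Fp r k ω| ≤ G ω) ∧
      ∫ ω, G ω ^ 2 ∂P ≤ 4 * ∑ k ∈ Finset.range N, c k ^ 2 :=
  maximal_flip (Fp r) (bdd_Fp h) (fun k => by
    by_cases hk : k = 2 ^ Nat.log 2 k
    · obtain ⟨σ, hσ, h1, h2⟩ := Ff_flip h (Nat.log 2 k)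
      refine ⟨σ, hσ, fun j hj ω => ?_, fun ω => ?_⟩
      · unfold Fp
        split_ifs with h3
        · refine h1 _ (fun h4 => ?_) ω
          rw [h4] at h3
          omega
        · rfl
      · unfold Fp
        rw [if_pos hk, if_pos hk]
        exact h2 ω
    · refine ⟨id, MeasurePreserving.id P, fun _ _ _ => rfl, fun ω => ?_⟩
      unfold Fp; rw [if_neg hk, if_neg hk, neg_zero])
    (fun k => by
      rw [integral_Fp_Fp h, if_pos rfl]
      split_ifs <;> norm_num)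
    (fun k l hkl => by rw [integral_Fp_Fp h, if_neg hkl]) c N hc

end Pool.Agent.Helper91.DoubleONS
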