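import Mathlib
import Pool.Agent.Helper91.DoubG

set_option autoImplicit false
set_option linter.unusedSectionVars false
set_option linter.unusedVariables false

open MeasureTheory Filter
open scoped Topology ENNReal

namespace Pool.Agent.Helper91.DoubleONS

variable {Ω : Type*} [MeasurableSpace Ω] {P : Measure Ω} {r : ℕ → Ω → ℝ}

/-- rectangular partial sums of the double series -/
noncomputable def Ss (r : ℕ → Ω → ℝ) (a : ℕ → ℕ → ℝ) (m n : ℕ) (ω : Ω) : ℝ :=
  ∑ i ∈ Finset.range m, ∑ k ∈ Finset.range n, a i k * phi r i k ω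

theorem sum_quarter (J : ℕ) : ∑ j ∈ Finset.range J, ((1:ℝ)/4) ^ j ≤ 2 := by
  have : ∑ j ∈ Finset.range J, ((1:ℝ)/4) ^ j = 4/3 - 4/3 * (1/4) ^ J := by
    induction J with
    | zero => simp
    | succ J ih => rw [Finset.sum_range_succ, ih]; ring
  rw [this]
  have : (0:ℝ) ≤ (1/4) ^ J := by positivity
  linarith

theorem sum_weights (κ n : ℕ) :
    ∑ k ∈ (Finset.range n).filter (fun k => ¬ k < κ), ((2:ℝ) ^ κ * (1/2) ^ k) ^ 2 ≤ 2 := by
  have e : (Finset.range n).filter (fun k => ¬ k < κ) = Finset.Ico κ n := by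
    ext k; simp only [Finset.mem_filter, Finset.mem_range, Finset.mem_Ico, not_lt]; tauto
  rw [e, Finset.sum_Ico_eq_sum_range]
  refine le_trans (le_of_eq (Finset.sum_congr rfl fun j _ => ?_)) (sum_quarter (n - κ))
  rw [pow_add, ← mul_assoc, ← mul_pow]
  norm_num
  rw [← pow_mul, mul_comm j 2, pow_mul]
  norm_num

theorem maximal_phi [IsProbabilityMeasure P] (h : Flippable P r) (a : ℕ → ℕ → ℝ) (M N : ℕ)
    (ha : ∀ i k, (M ≤ i ∨ N ≤ k) → a i k = 0) :
    ∃ G : Ω → ℝ, Bdd G ∧ (∀ m n ω, |Ss r a m n ω| ≤ G ω) ∧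
      ∫ ω, G ω ^ 2 ∂P ≤ 400 * ∑ i ∈ Finset.range M, ∑ k ∈ Finset.range N, a i k ^ 2 := by
  classical
  set T := ∑ i ∈ Finset.range M, ∑ k ∈ Finset.range N, a i k ^ 2 with hT
  set α : ℕ → ℝ := fun k => ∑ i ∈ Finset.range M, a i k ^ 2 with hα
  have hα0 : ∀ k, 0 ≤ α k := fun k => Finset.sum_nonneg fun i _ => sq_nonneg _
  have hαN : ∀ k, N ≤ k → α k = 0 := fun k hk => Finset.sum_eq_zero fun i _ => by
    rw [ha i k (Or.inr hk)]; simp
  have hαT : ∑ k ∈ Finset.range N, α k = T := by rw [hT, Finset.sum_comm]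
  have hsup : ∀ m k, ∑ i ∈ Finset.range m, a i k ^ 2 ≤ α k := by
    intro m k
    rcases le_total m M with hm | hm
    · exact Finset.sum_le_sum_of_subset_of_nonneg (Finset.range_subset_range.2 hm)
        fun i _ _ => sq_nonneg _
    · refine le_of_eq ?_
      symm
      refine Finset.sum_subset (Finset.range_subset_range.2 hm) fun i _ hi => ?_
      rw [ha i k (Or.inl (by simpa using hi))]; simp
  set A : ℕ → ℝ := fun k => (1/2) ^ k * ∑ i ∈ Finset.range (4 ^ k), a i k with hA
  have hA2 : ∀ k, A k ^ 2 ≤ α k := by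
    intro k
    have h1 := sq_sum_le_card_mul_sum_sq (s := Finset.range (4 ^ k)) (f := fun i => a i k)
    rw [Finset.card_range] at h1
    push_cast at h1
    have h2 := hsup (4 ^ k) k
    simp only [hA, mul_pow]
    have h3 : (((1:ℝ)/2) ^ k) ^ 2 * 4 ^ k = 1 := by
      rw [← pow_mul, mul_comm k 2, pow_mul, ← mul_pow]; norm_num
    calc (((1:ℝ)/2) ^ k) ^ 2 * (∑ i ∈ Finset.range (4 ^ k), a i k) ^ 2
        ≤ ((1/2) ^ k) ^ 2 * (4 ^ k * ∑ i ∈ Finset.range (4 ^ k), a i k ^ 2) :=
          mul_le_mul_of_nonneg_left h1 (by positivity)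
      _ = ∑ i ∈ Finset.range (4 ^ k), a i k ^ 2 := by rw [← mul_assoc, h3, one_mul]
      _ ≤ α k := h2
  have hAN : ∀ k, N ≤ k → A k = 0 := fun k hk => by
    have := hA2 k
    rw [hαN k hk] at this
    exact pow_eq_zero_iff (two_ne_zero) |>.1 (le_antisymm this (sq_nonneg _))
  have hAT : ∑ k ∈ Finset.range N, A k ^ 2 ≤ T := by
    rw [← hαT]; exact Finset.sum_le_sum fun k _ => hA2 k
  obtain ⟨G1, b1, m1, i1⟩ := maximal_Rs h a M N
  obtain ⟨G2, b2, m2, i2⟩ := maximal_Ff h A N hAN
  obtain ⟨G5, b5, m5, i5⟩ := maximal_Fp h A N hAN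
  obtain ⟨G4, b4, m4, i4⟩ := maximal_eN h A N (fun k hk => hAN k (Nat.lt_two_pow_self.le.trans hk))
  have i4' : ∫ ω, G4 ω ^ 2 ∂P ≤ 44 * T := by
    refine i4.trans ?_
    have : ∑ k ∈ Finset.range (2 ^ N), A k ^ 2 = ∑ k ∈ Finset.range N, A k ^ 2 := by
      symm
      refine Finset.sum_subset (Finset.range_subset_range.2 Nat.lt_two_pow_self.le)
        fun k _ hk => ?_
      rw [hAN k (by simpa using hk)]; simp
    rw [this]; linarith
  set C : ℕ → Ω → ℝ := fun k ω => Bf r k ω + Ff r k ω with hC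
  have hCb : ∀ k, Bdd (C k) := fun k => (bdd_Bf h k).add (bdd_Ff h k)
  set Q : Ω → ℝ := fun ω => 2 * ∑ k ∈ Finset.range N, α k * (C k ω * C k ω) with hQ
  have hQb : Bdd Q := (Bdd.sum _ fun k _ => ((hCb k).mul (hCb k)).const_mul _).const_mul _
  have hQ0 : ∀ ω, 0 ≤ Q ω := fun ω => mul_nonneg (by norm_num)
    (Finset.sum_nonneg fun k _ => mul_nonneg (hα0 k) (mul_self_nonneg _))
  have hQi : ∫ ω, Q ω ∂P ≤ 4 * T := by
    have hCC : ∀ k, ∫ ω, C k ω * C k ω ∂P ≤ 2 := by
      intro k
      have e : ∀ ω, C k ω * C k ω = (Bf r k ω * Bf r k ω + Ff r k ω * Ff r k ω)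
          + 2 * (Bf r k ω * Ff r k ω) := fun ω => by simp only [hC]; ring
      simp_rw [e]
      rw [integral_add (((bdd_Bf h k).mul (bdd_Bf h k)).add
          ((bdd_Ff h k).mul (bdd_Ff h k))).integrable
          (((bdd_Bf h k).mul (bdd_Ff h k)).const_mul 2).integrable,
        integral_add ((bdd_Bf h k).mul (bdd_Bf h k)).integrable
          ((bdd_Ff h k).mul (bdd_Ff h k)).integrable, integral_const_mul, integral_B_B h,
        integral_F_F h, integral_B_F h, if_pos rfl]
      unfold theta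
      rw [if_neg (by have : k < 2 ^ k := Nat.lt_two_pow_self
                     omega)]
      norm_num
    rw [hQ, integral_const_mul, integral_finsetSum _ fun k _ =>
      (((hCb k).mul (hCb k)).const_mul _).integrable]
    simp_rw [integral_const_mul]
    have : ∑ k ∈ Finset.range N, α k * ∫ ω, C k ω * C k ω ∂P ≤ ∑ k ∈ Finset.range N, α k * 2 :=
      Finset.sum_le_sum fun k _ => mul_le_mul_of_nonneg_left (hCC k) (hα0 k)
    rw [← Finset.sum_mul, hαT] at this
    linarith
  have hG1 : ∀ m n ω, |Rs r a m n ω| ≤ G1 ω := by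
    intro m n ω
    have e1 : Rs r a m n ω = Rs r a (min m M) (min n N) ω := by
      unfold Rs
      have e2 : ∀ i, ∑ k ∈ Finset.range n, a i k * r (Nat.pair i k) ω
          = ∑ k ∈ Finset.range (min n N), a i k * r (Nat.pair i k) ω := fun i => by
        symm
        refine Finset.sum_subset (Finset.range_subset_range.2 (min_le_left _ _)) fun k hk hk2 => ?_
        have h1 := Finset.mem_range.1 hk
        have h2 : N ≤ k := by
          simp only [Finset.mem_range, lt_min_iff, not_and, not_lt] at hk2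
          exact hk2 h1
        rw [ha i k (Or.inr h2), zero_mul]
      simp_rw [e2]
      symm
      refine Finset.sum_subset (Finset.range_subset_range.2 (min_le_left _ _)) fun i hi hi2 => ?_
      have h1 := Finset.mem_range.1 hi
      have h2 : M ≤ i := by
        simp only [Finset.mem_range, lt_min_iff, not_and, not_lt] at hi2
        exact hi2 h1
      refine Finset.sum_eq_zero fun k _ => ?_
      rw [ha i k (Or.inl h2), zero_mul]
    rw [e1]
    exact m1 _ (min_le_right _ _) _ (min_le_right _ _) ω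
  have hsqrtQ : Bdd (fun ω => √(Q ω)) := hQb.sqrt
  refine ⟨fun ω => G1 ω + (G2 ω + (G4 ω + (G5 ω + √(Q ω)))),
    b1.add (b2.add (b4.add (b5.add hsqrtQ))), ?_, ?_⟩
  · intro m n ω
    set D : ℕ → ℝ := fun k => ∑ i ∈ Finset.range m, a i k * cf i k with hD
    have hS : Ss r a m n ω = Rs r a m n ω - ∑ k ∈ Finset.range n, D k * C k ω := by
      unfold Ss Rs
      rw [Finset.sum_comm, Finset.sum_comm (s := Finset.range m), ← Finset.sum_sub_distrib]
      refine Finset.sum_congr rfl fun k _ => ?_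
      rw [hD, Finset.sum_mul, ← Finset.sum_sub_distrib]
      refine Finset.sum_congr rfl fun i _ => ?_
      simp only [phi, hC]; ring
    set κ := Nat.clog 4 (m + 1) with hκ
    have hκ1 : ∀ k, k < κ → 4 ^ k ≤ m := by
      intro k hk
      by_contra hcon
      push Not at hcon
      have h9 : Nat.clog 4 (m + 1) ≤ k := (Nat.clog_le_iff_le_pow (by norm_num)).2 hcon
      omega
    have hκ2 : m < 4 ^ κ := Nat.le_pow_clog (by norm_num) (m + 1)
    have hD1 : ∀ k, k < κ → D k = A k := by
      intro k hk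
      have hm := hκ1 k hk
      simp only [hD, hA]
      rw [Finset.mul_sum]
      symm
      have : ∀ i ∈ Finset.range (4 ^ k), (1/2:ℝ) ^ k * a i k = a i k * cf i k := fun i hi => by
        rw [cf, if_pos (Finset.mem_range.1 hi)]; ring
      rw [Finset.sum_congr rfl this]
      refine Finset.sum_subset (Finset.range_subset_range.2 hm) fun i _ hi => ?_
      rw [cf, if_neg (by simpa using hi), mul_zero]
    have hD2 : ∀ k, ¬ k < κ → |D k| ≤ (2 ^ κ * (1/2) ^ k) * √(α k) := by
      intro k hk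
      have hkm : m < 4 ^ k := hκ2.trans_le (Nat.pow_le_pow_right (by norm_num) (by omega))
      have e1 : D k = (1/2) ^ k * ∑ i ∈ Finset.range m, a i k := by
        simp only [hD]
        rw [Finset.mul_sum]
        refine Finset.sum_congr rfl fun i hi => ?_
        have := Finset.mem_range.1 hi
        rw [cf, if_pos (by omega)]; ring
      have e2 := sq_sum_le_card_mul_sum_sq (s := Finset.range m) (f := fun i => a i k)
      rw [Finset.card_range] at e2
      have e3 : (m:ℝ) ≤ (2 ^ κ) ^ 2 := by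
        rw [← pow_mul, mul_comm κ 2, pow_mul]
        have : (m:ℝ) < (4:ℝ) ^ κ := by exact_mod_cast hκ2
        norm_num
        exact this.le
      have e4 : (∑ i ∈ Finset.range m, a i k) ^ 2 ≤ (2 ^ κ) ^ 2 * α k :=
        e2.trans (mul_le_mul e3 (hsup m k) (Finset.sum_nonneg fun _ _ => sq_nonneg _)
          (by positivity))
      have e5 : |∑ i ∈ Finset.range m, a i k| ≤ 2 ^ κ * √(α k) := by
        rw [← Real.sqrt_sq_eq_abs]
        have : √((2 ^ κ) ^ 2 * α k) = 2 ^ κ * √(α k) := by
          rw [Real.sqrt_mul (by positivity), Real.sqrt_sq (by positivity)]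
        rw [← this]
        exact Real.sqrt_le_sqrt e4
      rw [e1, abs_mul, abs_of_nonneg (by positivity)]
      calc (1/2:ℝ) ^ k * |∑ i ∈ Finset.range m, a i k| ≤ (1/2) ^ k * (2 ^ κ * √(α k)) :=
            mul_le_mul_of_nonneg_left e5 (by positivity)
        _ = _ := by ring
    have hsplit : ∑ k ∈ Finset.range n, D k * C k ω
        = (∑ k ∈ Finset.range (min n κ), A k * eN r k ω
          + (∑ k ∈ Finset.range (min n κ), A k * Fp r k ω
          + ∑ k ∈ Finset.range (min n κ), A k * Ff r k ω))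
          + ∑ k ∈ (Finset.range n).filter (fun k => ¬ k < κ), D k * C k ω := by
      rw [← Finset.sum_filter_add_sum_filter_not (Finset.range n) (fun k => k < κ)]
      congr 1
      have : (Finset.range n).filter (fun k => k < κ) = Finset.range (min n κ) := by
        ext k; simp
      rw [this, ← Finset.sum_add_distrib, ← Finset.sum_add_distrib]
      refine Finset.sum_congr rfl fun k hk => ?_
      have : k < κ := by
        have := Finset.mem_range.1 hk
        omega
      rw [hD1 k this]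
      simp only [hC, Bf]; ring
    have hlast : |∑ k ∈ (Finset.range n).filter (fun k => ¬ k < κ), D k * C k ω| ≤ √(Q ω) := by
      have h1 : |∑ k ∈ (Finset.range n).filter (fun k => ¬ k < κ), D k * C k ω|
          ≤ ∑ k ∈ (Finset.range n).filter (fun k => ¬ k < κ),
            (2 ^ κ * (1/2) ^ k) * (√(α k) * |C k ω|) := by
        refine (Finset.abs_sum_le_sum_abs _ _).trans (Finset.sum_le_sum fun k hk => ?_)
        rw [abs_mul]
        calc |D k| * |C k ω| ≤ ((2 ^ κ * (1/2) ^ k) * √(α k)) * |C k ω| :=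
              mul_le_mul_of_nonneg_right (hD2 k (Finset.mem_filter.1 hk).2) (abs_nonneg _)
          _ = _ := by ring
      have h2 := Finset.sum_mul_sq_le_sq_mul_sq ((Finset.range n).filter (fun k => ¬ k < κ))
        (fun k => (2:ℝ) ^ κ * (1/2) ^ k) (fun k => √(α k) * |C k ω|)
      have h3 := sum_weights κ n
      have h4 : ∑ k ∈ (Finset.range n).filter (fun k => ¬ k < κ), (√(α k) * |C k ω|) ^ 2
          ≤ ∑ k ∈ Finset.range N, α k * (C k ω * C k ω) := by
        have e1 : ∀ k, (√(α k) * |C k ω|) ^ 2 = α k * (C k ω * C k ω) := fun k => by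
          rw [mul_pow, Real.sq_sqrt (hα0 k), sq_abs, sq]
        simp_rw [e1]
        have e2 : ∑ k ∈ (Finset.range n).filter (fun k => ¬ k < κ), α k * (C k ω * C k ω)
            ≤ ∑ k ∈ Finset.range n, α k * (C k ω * C k ω) :=
          Finset.sum_le_sum_of_subset_of_nonneg (Finset.filter_subset _ _)
            fun k _ _ => mul_nonneg (hα0 k) (mul_self_nonneg _)
        refine e2.trans ?_
        rcases le_total n N with hn | hn
        · exact Finset.sum_le_sum_of_subset_of_nonneg (Finset.range_subset_range.2 hn)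
            fun k _ _ => mul_nonneg (hα0 k) (mul_self_nonneg _)
        · refine le_of_eq ?_
          symm
          refine Finset.sum_subset (Finset.range_subset_range.2 hn) fun k _ hk => ?_
          rw [hαN k (by simpa using hk), zero_mul]
      have h5 : (∑ k ∈ (Finset.range n).filter (fun k => ¬ k < κ),
            (2 ^ κ * (1/2) ^ k) * (√(α k) * |C k ω|)) ^ 2 ≤ Q ω := by
        refine h2.trans ?_
        simp only [hQ]
        exact mul_le_mul h3 h4 (Finset.sum_nonneg fun _ _ => sq_nonneg _) (by norm_num)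
      refine h1.trans ?_
      exact Real.le_sqrt_of_sq_le h5
    rw [hS, hsplit]
    have t1 := hG1 m n ω
    have t2 := m2 (min n κ) ω
    have t4 := m4 (min n κ) ω
    have t5 := m5 (min n κ) ω
    unfold Zs at t4
    rw [abs_le] at t1 t2 t4 t5 hlast ⊢
    constructor <;> linarith [t1.1, t1.2, t2.1, t2.2, t4.1, t4.2, t5.1, t5.2, hlast.1, hlast.2]
  · have hpt : ∀ ω, (G1 ω + (G2 ω + (G4 ω + (G5 ω + √(Q ω))))) ^ 2
        ≤ 5 * G1 ω ^ 2 + (5 * G2 ω ^ 2 + (5 * G4 ω ^ 2 + (5 * G5 ω ^ 2 + 5 * Q ω))) := fun ω => by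
      have hq := Real.sq_sqrt (hQ0 ω)
      nlinarith [sq_nonneg (G1 ω - G2 ω), sq_nonneg (G1 ω - G4 ω), sq_nonneg (G1 ω - G5 ω),
        sq_nonneg (G1 ω - √(Q ω)), sq_nonneg (G2 ω - G4 ω), sq_nonneg (G2 ω - G5 ω),
        sq_nonneg (G2 ω - √(Q ω)), sq_nonneg (G4 ω - G5 ω), sq_nonneg (G4 ω - √(Q ω)),
        sq_nonneg (G5 ω - √(Q ω))]
    have c1 := (b1.pow 2).const_mul 5
    have c2 := (b2.pow 2).const_mul 5
    have c4 := (b4.pow 2).const_mul 5
    have c5 := (b5.pow 2).const_mul 5
    have c6 := hQb.const_mul 5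
    refine (integral_mono ((b1.add (b2.add (b4.add (b5.add hsqrtQ)))).pow 2).integrable
      (c1.add (c2.add (c4.add (c5.add c6)))).integrable hpt).trans ?_
    rw [integral_add c1.integrable (c2.add (c4.add (c5.add c6))).integrable,
      integral_add c2.integrable (c4.add (c5.add c6)).integrable,
      integral_add c4.integrable (c5.add c6).integrable,
      integral_add c5.integrable c6.integrable]
    simp_rw [integral_const_mul]
    have hT0 : 0 ≤ T := Finset.sum_nonneg fun i _ => Finset.sum_nonneg fun k _ => sq_nonneg _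
    linarith

end Pool.Agent.Helper91.DoubleONS
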