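import Mathlib
import Pool.Agent.Helper91.DoubH

set_option autoImplicit false
set_option linter.unusedSectionVars false
set_option linter.unusedVariables false

open MeasureTheory Filter
open scoped Topology ENNReal

namespace Pool.Agent.Helper91.DoubleONS

variable {Ω : Type*} [MeasurableSpace Ω] {P : Measure Ω} {r : ℕ → Ω → ℝ}

theorem bdd_Ss (h : Flippable P r) (a : ℕ → ℕ → ℝ) (m n : ℕ) : Bdd (Ss r a m n) :=
  Bdd.sum _ fun i _ => Bdd.sum _ fun k _ => (bdd_phi h i k).const_mul _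

/-- the tail array -/
noncomputable def tl (a : ℕ → ℕ → ℝ) (K : ℕ) (i k : ℕ) : ℝ := if K ≤ i ∨ K ≤ k then a i k else 0

theorem Ss_tail (a : ℕ → ℕ → ℝ) (K m n : ℕ) (hm : K ≤ m) (hn : K ≤ n) (ω : Ω) :
    Ss r a m n ω - Ss r a K K ω = Ss r (tl a K) m n ω := by
  have e1 : Ss r a K K ω = Ss r (fun i k => a i k - tl a K i k) m n ω := by
    unfold Ss
    have e2 : ∀ i, ∑ k ∈ Finset.range n, (a i k - tl a K i k) * phi r i k ω
        = ∑ k ∈ Finset.range K, (a i k - tl a K i k) * phi r i k ω := fun i => by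
      symm
      refine Finset.sum_subset (Finset.range_subset_range.2 hn) fun k _ hk => ?_
      have : K ≤ k := by simpa using hk
      simp [tl, this]
    simp_rw [e2]
    have e3 : ∑ i ∈ Finset.range m, ∑ k ∈ Finset.range K, (a i k - tl a K i k) * phi r i k ω
        = ∑ i ∈ Finset.range K, ∑ k ∈ Finset.range K, (a i k - tl a K i k) * phi r i k ω := by
      symm
      refine Finset.sum_subset (Finset.range_subset_range.2 hm) fun i _ hi => ?_
      have : K ≤ i := by simpa using hi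
      refine Finset.sum_eq_zero fun k _ => ?_
      simp [tl, this]
    rw [e3]
    refine Finset.sum_congr rfl fun i hi => Finset.sum_congr rfl fun k hk => ?_
    have hi := Finset.mem_range.1 hi
    have hk := Finset.mem_range.1 hk
    rw [tl, if_neg (by omega), sub_zero]
  rw [e1]
  unfold Ss
  rw [← Finset.sum_sub_distrib]
  refine Finset.sum_congr rfl fun i _ => ?_
  rw [← Finset.sum_sub_distrib]
  refine Finset.sum_congr rfl fun k _ => ?_
  ring

/-- the finite maximal function of the tail -/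
noncomputable def HL (r : ℕ → Ω → ℝ) (a : ℕ → ℕ → ℝ) (L : ℕ) (ω : Ω) : ℝ≥0∞ :=
  (Finset.range (L+1) ×ˢ Finset.range (L+1)).sup
    (fun p => ENNReal.ofReal ((Ss r a p.1 p.2 ω) ^ 2))

theorem measurable_HL (h : Flippable P r) (a : ℕ → ℕ → ℝ) (L : ℕ) : Measurable (HL r a L) := by
  classical
  unfold HL
  have hm : ∀ p : ℕ × ℕ, Measurable fun ω => ENNReal.ofReal ((Ss r a p.1 p.2 ω) ^ 2) := fun p =>
    ((bdd_Ss h a p.1 p.2).pow 2).1.ennreal_ofReal
  generalize Finset.range (L+1) ×ˢ Finset.range (L+1) = s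
  induction s using Finset.induction_on with
  | empty => simp only [Finset.sup_empty]; exact measurable_const
  | insert p s _ ih =>
    simp only [Finset.sup_insert]
    exact (hm p).sup ih

theorem lintegral_HL [IsProbabilityMeasure P] (h : Flippable P r) (a : ℕ → ℕ → ℝ)
    (hs : Summable (fun p : ℕ × ℕ => a p.1 p.2 ^ 2)) (L : ℕ) :
    ∫⁻ ω, HL r a L ω ∂P ≤ ENNReal.ofReal (400 * ∑' p : ℕ × ℕ, a p.1 p.2 ^ 2) := by
  set b : ℕ → ℕ → ℝ := fun i k => if i < L ∧ k < L then a i k else 0 with hb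
  obtain ⟨G, hG, hG1, hG2⟩ := maximal_phi h b L L (fun i k hik => by
    simp only [hb]; rw [if_neg]; omega)
  have hle : ∀ ω, HL r a L ω ≤ ENNReal.ofReal (G ω ^ 2) := by
    intro ω
    unfold HL
    refine Finset.sup_le fun p hp => ?_
    rw [Finset.mem_product, Finset.mem_range, Finset.mem_range] at hp
    have e : Ss r a p.1 p.2 ω = Ss r b p.1 p.2 ω := by
      unfold Ss
      refine Finset.sum_congr rfl fun i hi => Finset.sum_congr rfl fun k hk => ?_
      have hi := Finset.mem_range.1 hi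
      have hk := Finset.mem_range.1 hk
      simp only [hb]
      rw [if_pos (by omega)]
    rw [e]
    refine ENNReal.ofReal_le_ofReal ?_
    rw [← sq_abs]
    exact pow_le_pow_left₀ (abs_nonneg _) (hG1 p.1 p.2 ω) 2
  refine (lintegral_mono hle).trans ?_
  rw [← ofReal_integral_eq_lintegral_ofReal (hG.pow 2).integrable
    (Eventually.of_forall fun ω => sq_nonneg _)]
  refine ENNReal.ofReal_le_ofReal (hG2.trans ?_)
  have : ∑ i ∈ Finset.range L, ∑ k ∈ Finset.range L, b i k ^ 2 ≤ ∑' p : ℕ × ℕ, a p.1 p.2 ^ 2 := by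
    rw [← Finset.sum_product' (Finset.range L) (Finset.range L) (fun i k => b i k ^ 2)]
    refine le_trans (Finset.sum_le_sum fun p hp => ?_)
      (hs.sum_le_tsum (Finset.range L ×ˢ Finset.range L) fun p _ => sq_nonneg _)
    rw [Finset.mem_product, Finset.mem_range, Finset.mem_range] at hp
    simp only [hb]
    rw [if_pos hp]
  linarith

theorem lintegral_iSup_HL [IsProbabilityMeasure P] (h : Flippable P r) (a : ℕ → ℕ → ℝ)
    (hs : Summable (fun p : ℕ × ℕ => a p.1 p.2 ^ 2)) :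
    ∫⁻ ω, ⨆ L, HL r a L ω ∂P ≤ ENNReal.ofReal (400 * ∑' p : ℕ × ℕ, a p.1 p.2 ^ 2) := by
  rw [lintegral_iSup (fun L => measurable_HL h a L)]
  · exact iSup_le fun L => lintegral_HL h a hs L
  · intro L L' hL ω
    unfold HL
    refine Finset.sup_mono (Finset.product_subset_product ?_ ?_) <;>
    exact Finset.range_subset_range.2 (by omega)

theorem summable_tl {a : ℕ → ℕ → ℝ} (hs : Summable (fun p : ℕ × ℕ => a p.1 p.2 ^ 2)) (K : ℕ) :
    Summable (fun p : ℕ × ℕ => tl a K p.1 p.2 ^ 2) := by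
  refine Summable.of_nonneg_of_le (fun p => sq_nonneg _) (fun p => ?_) hs
  unfold tl
  split_ifs
  · exact le_rfl
  · simp only [ne_eq, OfNat.ofNat_ne_zero, not_false_eq_true, zero_pow]; exact sq_nonneg _

theorem tendsto_tl {a : ℕ → ℕ → ℝ} (hs : Summable (fun p : ℕ × ℕ => a p.1 p.2 ^ 2)) :
    Tendsto (fun K => ∑' p : ℕ × ℕ, tl a K p.1 p.2 ^ 2) atTop (𝓝 0) := by
  have := tendsto_tsum_of_dominated_convergence (𝓕 := atTop)
    (f := fun K (p : ℕ × ℕ) => tl a K p.1 p.2 ^ 2) (g := fun _ => (0:ℝ))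
    (bound := fun p : ℕ × ℕ => a p.1 p.2 ^ 2) hs
    (fun p => by
      refine tendsto_const_nhds.congr' ?_
      filter_upwards [eventually_gt_atTop (p.1 + p.2)] with K hK
      rw [tl, if_neg (by omega)]; simp)
    (Eventually.of_forall fun K p => by
      rw [Real.norm_eq_abs, abs_of_nonneg (sq_nonneg _)]
      unfold tl
      split_ifs
      · exact le_rfl
      · simp only [ne_eq, OfNat.ofNat_ne_zero, not_false_eq_true, zero_pow]; exact sq_nonneg _)
  simpa using this

/-- **Almost everywhere Pringsheim convergence** -/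
theorem ae_converge [IsProbabilityMeasure P] (h : Flippable P r) (a : ℕ → ℕ → ℝ)
    (hs : Summable (fun p : ℕ × ℕ => a p.1 p.2 ^ 2)) :
    ∀ᵐ ω ∂P, ∃ s, Tendsto (fun p : ℕ × ℕ => Ss r a p.1 p.2 ω) atTop (𝓝 s) := by
  set H : ℕ → Ω → ℝ≥0∞ := fun K ω => ⨆ L, HL r (tl a K) L ω with hH
  have hHm : ∀ K, Measurable (H K) := fun K => Measurable.iSup fun L => measurable_HL h _ L
  have hinf : ∫⁻ ω, ⨅ K, H K ω ∂P = 0 := by
    have h1 : ∀ K, ∫⁻ ω, ⨅ K, H K ω ∂P ≤ ENNReal.ofReal (400 * ∑' p : ℕ × ℕ, tl a K p.1 p.2 ^ 2) :=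
      fun K => (lintegral_mono fun ω => iInf_le _ K).trans
        (lintegral_iSup_HL h (tl a K) (summable_tl hs K))
    have h2 : Tendsto (fun K => ENNReal.ofReal (400 * ∑' p : ℕ × ℕ, tl a K p.1 p.2 ^ 2)) atTop
        (𝓝 0) := by
      have := ENNReal.tendsto_ofReal ((tendsto_tl hs).const_mul 400)
      simpa using this
    exact le_antisymm (ge_of_tendsto' h2 h1) zero_le
  rw [lintegral_eq_zero_iff (Measurable.iInf hHm)] at hinf
  filter_upwards [hinf] with ω hω
  refine cauchySeq_tendsto_of_complete ?_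
  rw [Metric.cauchySeq_iff']
  intro ε hε
  have hω' : ⨅ K, H K ω < ENNReal.ofReal (ε ^ 2) := by
    have : ⨅ K, H K ω = 0 := hω
    rw [this]
    exact ENNReal.ofReal_pos.2 (by positivity)
  obtain ⟨K, hK⟩ := iInf_lt_iff.1 hω'
  refine ⟨(K, K), fun p hp => ?_⟩
  have hp1 : K ≤ p.1 := hp.1
  have hp2 : K ≤ p.2 := hp.2
  rw [Real.dist_eq, Ss_tail a K p.1 p.2 hp1 hp2 ω]
  have h1 : ENNReal.ofReal ((Ss r (tl a K) p.1 p.2 ω) ^ 2) ≤ H K ω := by
    simp only [hH]
    refine le_trans ?_ (le_iSup (fun L => HL r (tl a K) L ω) (p.1 + p.2))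
    unfold HL
    refine Finset.le_sup (f := fun p : ℕ × ℕ => ENNReal.ofReal ((Ss r (tl a K) p.1 p.2 ω) ^ 2))
      (b := p) ?_
    rw [Finset.mem_product, Finset.mem_range, Finset.mem_range]
    omega
  have h2 := h1.trans_lt hK
  rw [ENNReal.ofReal_lt_ofReal_iff (by positivity)] at h2
  exact abs_lt_of_sq_lt_sq h2 hε.le

end Pool.Agent.Helper91.DoubleONS
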