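import Mathlib
import Pool.Agent.Helper91.DoubI

set_option autoImplicit false
set_option linter.unusedSectionVars false
set_option linter.unusedVariables false

open MeasureTheory Filter
open scoped Topology ENNReal

namespace Pool.Agent.Helper91.DoubleONS

/-- the one dimensional sign functions -/
noncomputable def sgn (n : ℕ) (x : ℝ) : ℝ := if Even ⌊(2:ℝ) ^ (n+1) * x⌋ then 1 else -1

theorem sgn_cases (n : ℕ) (x : ℝ) : sgn n x = 1 ∨ sgn n x = -1 := by
  unfold sgn; split_ifs <;> simp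

theorem measurable_sgn (n : ℕ) : Measurable (sgn n) := by
  unfold sgn
  refine Measurable.ite ?_ measurable_const measurable_const
  have h1 : Measurable fun x : ℝ => ⌊(2:ℝ) ^ (n+1) * x⌋ :=
    Int.measurable_floor.comp (measurable_const.mul measurable_id)
  exact h1 (MeasurableSet.of_discrete (s := {z : ℤ | Even z}))

/-- one dimensional flips -/
noncomputable def fl (n : ℕ) (x : ℝ) : ℝ := x + sgn n x / 2 ^ (n+1)

theorem measurable_fl (n : ℕ) : Measurable (fl n) :=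
  measurable_id.add ((measurable_sgn n).div_const _)

theorem floor_fl_self (n : ℕ) (x : ℝ) :
    ⌊(2:ℝ) ^ (n+1) * fl n x⌋ = ⌊(2:ℝ) ^ (n+1) * x⌋ + if Even ⌊(2:ℝ) ^ (n+1) * x⌋ then 1 else -1 := by
  have h2 : (2:ℝ) ^ (n+1) ≠ 0 := by positivity
  unfold fl sgn
  split_ifs with h
  · rw [mul_add, mul_div_cancel₀ _ h2]
    exact_mod_cast Int.floor_add_one _
  · rw [mul_add, mul_div_cancel₀ _ h2]
    have := Int.floor_add_intCast ((2:ℝ) ^ (n+1) * x) (-1)
    push_cast at this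
    exact this

theorem floor_div_pow (x : ℝ) (j : ℕ) : ⌊x / 2 ^ j⌋ = ⌊x⌋ / 2 ^ j := by
  have h2 : (0:ℝ) < 2 ^ j := by positivity
  have h3 : (0:ℤ) < 2 ^ j := by positivity
  rw [Int.floor_eq_iff]
  constructor
  · rw [le_div_iff₀ h2]
    have : (⌊x⌋ / 2 ^ j) * 2 ^ j ≤ ⌊x⌋ := Int.ediv_mul_le _ h3.ne'
    have h4 : (((⌊x⌋ / 2 ^ j) * 2 ^ j : ℤ) : ℝ) ≤ (⌊x⌋ : ℝ) := by exact_mod_cast this
    push_cast at h4
    exact h4.trans (Int.floor_le x)
  · rw [div_lt_iff₀ h2]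
    have : ⌊x⌋ + 1 ≤ (⌊x⌋ / 2 ^ j + 1) * 2 ^ j := by
      have := Int.lt_ediv_add_one_mul_self ⌊x⌋ h3
      omega
    have h4 : ((⌊x⌋ + 1 : ℤ) : ℝ) ≤ (((⌊x⌋ / 2 ^ j + 1) * 2 ^ j : ℤ) : ℝ) := by exact_mod_cast this
    push_cast at h4
    exact (Int.lt_floor_add_one x).trans_le h4

theorem div_two_pow_flip (N : ℤ) (j : ℕ) (hj : 1 ≤ j) :
    (N + if Even N then 1 else -1) / 2 ^ j = N / 2 ^ j := by
  obtain ⟨i, rfl⟩ := Nat.exists_eq_add_of_le hj
  have h1 : (N + if Even N then 1 else -1) / 2 = N / 2 := by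
    split_ifs with h
    · rw [Int.even_iff] at h; omega
    · rw [Int.even_iff] at h; omega
  rw [pow_add, pow_one, ← Int.ediv_ediv_of_nonneg (by norm_num),
    ← Int.ediv_ediv_of_nonneg (by norm_num), h1]

theorem sgn_fl (m n : ℕ) (x : ℝ) : sgn m (fl n x) = (if m = n then -1 else 1) * sgn m x := by
  rcases lt_trichotomy m n with h | h | h
  · rw [if_neg (by omega), one_mul]
    unfold sgn
    have e : ∀ y : ℝ, (2:ℝ) ^ (m+1) * y = (2 ^ (n+1) * y) / 2 ^ (n - m) := fun y => by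
      have : (2:ℝ) ^ (n+1) = 2 ^ (m+1) * 2 ^ (n-m) := by rw [← pow_add]; congr 1; omega
      rw [this]; field_simp
    rw [e, e, floor_div_pow, floor_div_pow, floor_fl_self, div_two_pow_flip _ _ (by omega)]
  · subst h
    rw [if_pos rfl]
    unfold sgn
    rw [floor_fl_self]
    by_cases h : Even ⌊(2:ℝ) ^ (m+1) * x⌋
    · rw [if_pos h, if_pos h, if_neg]
      · norm_num
      · rw [Int.even_iff] at h ⊢; omega
    · rw [if_neg h, if_neg h, if_pos]
      · norm_num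
      · rw [Int.even_iff] at h ⊢; omega
  · rw [if_neg (by omega), one_mul]
    have e : ∃ z : ℤ, (2:ℝ) ^ (m+1) * fl n x = 2 ^ (m+1) * x + ((2 * z : ℤ) : ℝ) := by
      obtain ⟨j, rfl⟩ := Nat.exists_eq_add_of_lt h
      have e1 : (2:ℝ) ^ (n + j + 1 + 1) = 2 ^ (n+1) * (2 * 2 ^ j) := by ring
      rcases sgn_cases n x with h1 | h1
      · refine ⟨2 ^ j, ?_⟩
        unfold fl
        rw [h1, e1]
        push_cast
        field_simp
      · refine ⟨- 2 ^ j, ?_⟩
        unfold fl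
        rw [h1, e1]
        push_cast
        field_simp
    obtain ⟨z, hz⟩ := e
    unfold sgn
    rw [hz, Int.floor_add_intCast]
    have : Even (⌊(2:ℝ) ^ (m+1) * x⌋ + 2 * z) ↔ Even ⌊(2:ℝ) ^ (m+1) * x⌋ := by
      rw [Int.even_iff, Int.even_iff]; omega
    simp only [this]

theorem fl_measurePreserving (n : ℕ) : MeasurePreserving (fl n) volume volume := by
  refine ⟨measurable_fl n, ?_⟩
  ext E hE
  rw [Measure.map_apply (measurable_fl n) hE]
  set A : Set ℝ := {x | sgn n x = 1} with hA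
  have hAm : MeasurableSet A := measurable_sgn n (measurableSet_singleton 1)
  set δ : ℝ := 1 / 2 ^ (n+1) with hδ
  have hflA : ∀ x ∈ A, fl n x = x + δ := fun x hx => by
    have : sgn n x = 1 := hx
    unfold fl; rw [this]
  have hflA' : ∀ x ∉ A, fl n x = x + -δ := fun x hx => by
    have : sgn n x = -1 := (sgn_cases n x).resolve_left hx
    unfold fl; rw [this, hδ]; ring
  have hmem : ∀ x, fl n x ∈ A ↔ x ∉ A := fun x => by
    simp only [hA, Set.mem_ofPred_eq]
    rw [sgn_fl, if_pos rfl]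
    rcases sgn_cases n x with h1 | h1 <;> rw [h1] <;> norm_num
  -- involution
  have hinv : ∀ x, fl n (fl n x) = x := fun x => by
    by_cases hx : x ∈ A
    · rw [hflA' _ (by rw [hmem]; simpa using hx), hflA x hx]; ring
    · rw [hflA _ (by rw [hmem]; exact hx), hflA' x hx]; ring
  have h1 : fl n ⁻¹' E ∩ A = (fun x => x + δ) ⁻¹' (E ∩ Aᶜ) := by
    ext x
    simp only [Set.mem_inter_iff, Set.mem_preimage, Set.mem_compl_iff]
    constructor
    · rintro ⟨h2, h3⟩
      rw [← hflA x h3]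
      exact ⟨h2, by rw [hmem]; simpa using h3⟩
    · rintro ⟨h2, h3⟩
      have h4 : x ∈ A := by
        have h5 : fl n (x + δ) = x + δ + -δ := hflA' _ h3
        have h6 : fl n (x + δ) = x := by rw [h5]; ring
        rw [← h6, hmem]; exact h3
      exact ⟨by rw [hflA x h4]; exact h2, h4⟩
  have h1' : fl n ⁻¹' E ∩ Aᶜ = (fun x => x + -δ) ⁻¹' (E ∩ A) := by
    ext x
    simp only [Set.mem_inter_iff, Set.mem_preimage, Set.mem_compl_iff]
    constructor
    · rintro ⟨h2, h3⟩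
      rw [← hflA' x h3]
      exact ⟨h2, by rw [hmem]; exact h3⟩
    · rintro ⟨h2, h3⟩
      have h4 : x ∉ A := by
        have h5 : fl n (x + -δ) = x + -δ + δ := hflA _ h3
        have h6 : fl n (x + -δ) = x := by rw [h5]; ring
        rw [← h6, hmem]; simpa using h3
      exact ⟨by rw [hflA' x h4]; exact h2, h4⟩
  rw [← measure_inter_add_sdiff (fl n ⁻¹' E) hAm, Set.sdiff_eq, h1, h1',
    measure_preimage_add_right, measure_preimage_add_right, add_comm,
    ← Set.sdiff_eq, measure_inter_add_sdiff E hAm]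

theorem fl_mem_Ico (n : ℕ) (x : ℝ) (hx : x ∈ Set.Ico (0:ℝ) 1) : fl n x ∈ Set.Ico (0:ℝ) 1 := by
  have h2 : (0:ℝ) < 2 ^ (n+1) := by positivity
  have hN := floor_fl_self n x
  have h0 : 0 ≤ ⌊(2:ℝ) ^ (n+1) * x⌋ := Int.floor_nonneg.2 (mul_nonneg h2.le hx.1)
  have h1 : ⌊(2:ℝ) ^ (n+1) * x⌋ < 2 ^ (n+1) := by
    rw [Int.floor_lt]; push_cast
    nlinarith [hx.2]
  have h3 : 0 ≤ ⌊(2:ℝ) ^ (n+1) * fl n x⌋ := by
    rw [hN]
    split_ifs with h
    · omega
    · rw [Int.even_iff] at h; omega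
  have h4 : ⌊(2:ℝ) ^ (n+1) * fl n x⌋ < 2 ^ (n+1) := by
    rw [hN]
    split_ifs with h
    · rw [Int.even_iff] at h
      have : (2:ℤ) ^ (n+1) = 2 * 2 ^ n := by ring
      omega
    · omega
  constructor
  · rw [Int.floor_nonneg] at h3
    exact nonneg_of_mul_nonneg_right h3 h2
  · rw [Int.floor_lt] at h4
    push_cast at h4
    by_contra hcon
    push Not at hcon
    nlinarith

theorem fl_fl (n : ℕ) (x : ℝ) : fl n (fl n x) = x := by
  have h := sgn_fl n n x
  rw [if_pos rfl] at h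
  unfold fl at h ⊢
  rw [h]; ring

theorem fl_preimage_Ico (n : ℕ) : fl n ⁻¹' (Set.Ico (0:ℝ) 1) = Set.Ico (0:ℝ) 1 := by
  ext x
  constructor
  · intro h
    have := fl_mem_Ico n _ h
    rwa [fl_fl] at this
  · exact fl_mem_Ico n x

/-- if two points of `[0,1)` have the same signs then they coincide. -/
theorem eq_of_sgn {x y : ℝ} (hx : x ∈ Set.Ico (0:ℝ) 1) (hy : y ∈ Set.Ico (0:ℝ) 1)
    (h : ∀ n, sgn n x = sgn n y) : x = y := by
  have hfl : ∀ m : ℕ, ⌊(2:ℝ) ^ m * x⌋ = ⌊(2:ℝ) ^ m * y⌋ := by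
    intro m
    induction m with
    | zero =>
      simp only [pow_zero, one_mul]
      rw [Int.floor_eq_zero_iff.2 hx, Int.floor_eq_zero_iff.2 hy]
    | succ m ih =>
      have e1 : ∀ z : ℝ, (2:ℝ) ^ m * z = (2 ^ (m+1) * z) / 2 ^ 1 := fun z => by
        rw [pow_succ]; field_simp
      rw [e1, e1, floor_div_pow, floor_div_pow, pow_one] at ih
      have h1 := h m
      unfold sgn at h1
      have h2 : Even ⌊(2:ℝ) ^ (m+1) * x⌋ ↔ Even ⌊(2:ℝ) ^ (m+1) * y⌋ := by
        by_cases hx2 : Even ⌊(2:ℝ) ^ (m+1) * x⌋ <;> by_cases hy2 : Even ⌊(2:ℝ) ^ (m+1) * y⌋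
        · simp [hx2, hy2]
        · rw [if_pos hx2, if_neg hy2] at h1; norm_num at h1
        · rw [if_neg hx2, if_pos hy2] at h1; norm_num at h1
        · simp [hx2, hy2]
      rw [Int.even_iff, Int.even_iff] at h2
      omega
  by_contra hne
  have hpos : 0 < |x - y| := abs_pos.2 (sub_ne_zero.2 hne)
  obtain ⟨m, hm⟩ := exists_nat_gt (1 / |x - y|)
  have h2m : (m:ℝ) < 2 ^ m := by exact_mod_cast Nat.lt_two_pow_self
  have h3 : 1 < 2 ^ m * |x - y| := by
    rw [div_lt_iff₀ hpos] at hm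
    nlinarith
  have h4 := Int.abs_sub_lt_one_of_floor_eq_floor (hfl m)
  rw [← mul_sub, abs_mul, abs_of_pos (by positivity : (0:ℝ) < 2 ^ m)] at h4
  linarith

end Pool.Agent.Helper91.DoubleONS
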