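import Mathlib
import Pool.Agent.Helper91.DoubJ

set_option autoImplicit false
set_option linter.unusedSectionVars false
set_option linter.unusedVariables false

open MeasureTheory Filter
open scoped Topology ENNReal

namespace Pool.Agent.Helper91.DoubleONS

/-- half open unit square -/
def Sq : Set (ℝ × ℝ) := Set.Ico (0:ℝ) 1 ×ˢ Set.Ico (0:ℝ) 1

theorem measurableSet_Sq : MeasurableSet Sq := measurableSet_Ico.prod measurableSet_Ico

/-- Lebesgue measure on the half open unit square -/
noncomputable def muS : Measure (ℝ × ℝ) := volume.restrict Sq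

theorem muS_eq : muS = volume.restrict (Set.Icc (0:ℝ) 1 ×ˢ Set.Icc (0:ℝ) 1) := by
  unfold muS Sq
  refine Measure.restrict_congr_set ?_
  rw [Measure.volume_eq_prod]
  exact Measure.set_prod_ae_eq Ico_ae_eq_Icc Ico_ae_eq_Icc

instance : IsProbabilityMeasure muS := by
  constructor
  unfold muS Sq
  rw [Measure.restrict_apply_univ, Measure.volume_eq_prod, Measure.prod_prod, Real.volume_Ico]
  norm_num

/-- the sign functions of the square -/
noncomputable def rr (n : ℕ) (p : ℝ × ℝ) : ℝ := if n % 2 = 0 then sgn (n/2) p.1 else sgn (n/2) p.2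

theorem measurable_rr (n : ℕ) : Measurable (rr n) := by
  unfold rr
  split_ifs
  · exact (measurable_sgn _).comp measurable_fst
  · exact (measurable_sgn _).comp measurable_snd

theorem flippable_rr : Flippable muS rr where
  meas := measurable_rr
  sq n p := by unfold rr; split_ifs <;> exact sgn_cases _ _
  flip n := by
    by_cases hn : n % 2 = 0
    · refine ⟨Prod.map (fl (n/2)) id, ?_, fun m p => ?_⟩
      · have h1 : MeasurePreserving (Prod.map (fl (n/2)) (id : ℝ → ℝ))
            (volume : Measure (ℝ × ℝ)) volume := by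
          rw [Measure.volume_eq_prod]
          exact (fl_measurePreserving (n/2)).prod (MeasurePreserving.id _)
        have h2 := h1.restrict_preimage measurableSet_Sq
        have h3 : Prod.map (fl (n/2)) (id : ℝ → ℝ) ⁻¹' Sq = Sq := by
          ext p
          unfold Sq
          simp only [Set.mem_preimage, Set.mem_prod, Prod.map_fst, Prod.map_snd, id]
          rw [← Set.mem_preimage (f := fl (n/2)), fl_preimage_Ico]
        rw [h3] at h2
        exact h2
      · unfold rr
        simp only [Prod.map_fst, Prod.map_snd, id]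
        by_cases hm : m % 2 = 0
        · rw [if_pos hm, if_pos hm, sgn_fl]
          have : m / 2 = n / 2 ↔ m = n := by omega
          simp only [this]
        · rw [if_neg hm, if_neg hm, if_neg (by rintro rfl; exact hm hn), one_mul]
    · refine ⟨Prod.map id (fl (n/2)), ?_, fun m p => ?_⟩
      · have h1 : MeasurePreserving (Prod.map (id : ℝ → ℝ) (fl (n/2)))
            (volume : Measure (ℝ × ℝ)) volume := by
          rw [Measure.volume_eq_prod]
          exact (MeasurePreserving.id _).prod (fl_measurePreserving (n/2))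
        have h2 := h1.restrict_preimage measurableSet_Sq
        have h3 : Prod.map (id : ℝ → ℝ) (fl (n/2)) ⁻¹' Sq = Sq := by
          ext p
          unfold Sq
          simp only [Set.mem_preimage, Set.mem_prod, Prod.map_fst, Prod.map_snd, id]
          rw [← Set.mem_preimage (f := fl (n/2)), fl_preimage_Ico]
        rw [h3] at h2
        exact h2
      · unfold rr
        simp only [Prod.map_fst, Prod.map_snd, id]
        by_cases hm : m % 2 = 0
        · rw [if_pos hm, if_pos hm, if_neg (by rintro rfl; exact hn hm), one_mul]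
        · rw [if_neg hm, if_neg hm, sgn_fl]
          have : m / 2 = n / 2 ↔ m = n := by omega
          simp only [this]

theorem code_mod {Ω : Type*} [MeasurableSpace Ω] (r : ℕ → Ω → ℝ) (n j : ℕ) (ω : Ω) :
    code r (n + j) ω % 2 ^ n = code r n ω := by
  induction j with
  | zero => exact Nat.mod_eq_of_lt (code_lt n ω)
  | succ j ih =>
    rw [← add_assoc, code_succ]
    split_ifs
    · simpa using ih
    · rw [pow_add, Nat.add_mul_mod_self_left]; exact ih

theorem rr_eq_of_code {p q : ℝ × ℝ} (h : ∀ n, code rr n p = code rr n q) (n : ℕ) :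
    rr n p = rr n q := by
  have h1 := h (n+1)
  rw [code_succ, code_succ, h n] at h1
  have hp := flippable_rr.sq n p
  have hq := flippable_rr.sq n q
  have h2 : 0 < 2 ^ n := by positivity
  rcases hp with hp | hp <;> rcases hq with hq | hq
  · rw [hp, hq]
  · rw [hp, hq] at h1; norm_num at h1
  · rw [hp, hq] at h1; norm_num at h1
  · rw [hp, hq]

/-- the full code -/
noncomputable def fullcode (p : ℝ × ℝ) (n : ℕ) : ℕ := code rr n p

theorem measurable_fullcode : Measurable fullcode :=
  measurable_pi_lambda _ fun n => measurable_code flippable_rr n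

theorem fullcode_injOn : Set.InjOn fullcode Sq := by
  intro p hp q hq h
  have h1 : ∀ n, rr n p = rr n q := rr_eq_of_code fun n => congrFun h n
  refine Prod.ext (eq_of_sgn hp.1 hq.1 fun n => ?_) (eq_of_sgn hp.2 hq.2 fun n => ?_)
  · have := h1 (2 * n)
    unfold rr at this
    rw [if_pos (by omega), if_pos (by omega)] at this
    rwa [Nat.mul_div_cancel_left _ (by norm_num)] at this
  · have := h1 (2 * n + 1)
    unfold rr at this
    rw [if_neg (by omega), if_neg (by omega)] at this
    have e : (2 * n + 1) / 2 = n := by omega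
    rwa [e] at this

/-- cylinders -/
def Cyl : Set (Set (ℝ × ℝ)) := {S | ∃ n l, S = {p | code rr n p = l}}

theorem isPiSystem_Cyl : IsPiSystem Cyl := by
  rintro S ⟨n, l, rfl⟩ T ⟨n', l', rfl⟩ ⟨p0, hp0⟩
  have h1 : code rr n p0 = l := hp0.1
  have h2 : code rr n' p0 = l' := hp0.2
  rcases le_total n n' with h | h
  · obtain ⟨j, rfl⟩ := Nat.exists_eq_add_of_le h
    refine ⟨n + j, l', ?_⟩
    ext p
    constructor
    · exact fun hp => hp.2
    · intro hp
      refine ⟨?_, hp⟩
      have hp' : code rr (n+j) p = l' := hp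
      show code rr n p = l
      rw [← code_mod rr n j p, hp', ← h2, code_mod, h1]
  · obtain ⟨j, rfl⟩ := Nat.exists_eq_add_of_le h
    refine ⟨n' + j, l, ?_⟩
    ext p
    constructor
    · exact fun hp => hp.1
    · intro hp
      refine ⟨hp, ?_⟩
      have hp' : code rr (n'+j) p = l := hp
      show code rr n' p = l'
      rw [← code_mod rr n' j p, hp', ← h1, code_mod, h2]

theorem setIntegral_gen {g : ℝ × ℝ → ℝ} (hg : Integrable g muS)
    (h : ∀ n l, ∫ p, g p * At rr n l p ∂muS = 0) (S : Set (ℝ × ℝ))
    (hS : MeasurableSet[MeasurableSpace.generateFrom Cyl] S) : ∫ p in S, g p ∂muS = 0 := by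
  have hle : MeasurableSpace.generateFrom Cyl ≤ (inferInstance : MeasurableSpace (ℝ × ℝ)) := by
    refine MeasurableSpace.generateFrom_le ?_
    rintro S ⟨n, l, rfl⟩
    exact measurable_code flippable_rr n (measurableSet_singleton l)
  have hbasic : ∀ n l, ∫ p in {p | code rr n p = l}, g p ∂muS = 0 := by
    intro n l
    have hms : MeasurableSet {p | code rr n p = l} :=
      measurable_code flippable_rr n (measurableSet_singleton l)
    rw [← integral_indicator hms, ← h n l]
    congr 1
    ext p
    unfold At Set.indicator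
    simp only [Set.mem_ofPred_eq]
    split_ifs <;> simp
  have htot : ∫ p, g p ∂muS = 0 := by
    rw [← h 0 0]
    congr 1
    ext p
    simp [At, code_zero]
  induction S, hS using MeasurableSpace.induction_on_inter (h_eq := rfl)
    (h_inter := isPiSystem_Cyl) with
  | empty => simp
  | basic t ht => obtain ⟨n, l, rfl⟩ := ht; exact hbasic n l
  | compl t ht ih =>
    have := integral_add_compl (μ := muS) (hle t ht) hg
    linarith
  | iUnion f hd hf ih =>
    rw [integral_iUnion (fun i => hle _ (hf i)) hd hg.integrableOn]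
    simp [ih]

theorem gen_rr {g : ℝ × ℝ → ℝ} (hg : Integrable g muS)
    (h : ∀ n l, ∫ p, g p * At rr n l p ∂muS = 0) : g =ᵐ[muS] 0 := by
  refine Integrable.ae_eq_zero_of_forall_setIntegral_eq_zero hg fun B hB _ => ?_
  have hfc : @Measurable _ _ (MeasurableSpace.generateFrom Cyl) _ fullcode := by
    refine @measurable_pi_lambda _ _ _ (MeasurableSpace.generateFrom Cyl) _ _ fun n => ?_
    refine @measurable_to_countable' _ _ _ _ (MeasurableSpace.generateFrom Cyl) _ fun l => ?_
    exact MeasurableSpace.measurableSet_generateFrom ⟨n, l, rfl⟩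
  have himg : MeasurableSet (fullcode '' (B ∩ Sq)) :=
    (hB.inter measurableSet_Sq).image_of_measurable_injOn measurable_fullcode
      (fullcode_injOn.mono Set.inter_subset_right)
  have h1 := setIntegral_gen hg h _ (hfc himg)
  rw [← h1]
  have e1 : ∀ S : Set (ℝ × ℝ), MeasurableSet S → ∫ p in S, g p ∂muS = ∫ p in S ∩ Sq, g p := by
    intro S hS
    unfold muS
    rw [Measure.restrict_restrict hS]
  rw [e1 B hB, e1 _ (measurable_fullcode himg)]
  congr 2
  ext p
  constructor
  · rintro ⟨h2, h3⟩
    exact ⟨⟨p, ⟨h2, h3⟩, rfl⟩, h3⟩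
  · rintro ⟨⟨q, ⟨hq1, hq2⟩, hq3⟩, h3⟩
    have : q = p := fullcode_injOn hq2 h3 hq3
    subst this
    exact ⟨hq1, h3⟩

/-- A double series `∑ u i k` converges in Pringsheim's sense if its rectangular partial sums
converge as the minimum of both indices tends to infinity. -/
theorem main : ∃ φ : ℕ → ℕ → ℝ × ℝ → ℝ,
    (∀ i k, MemLp (φ i k) 2 (volume.restrict (Set.Icc (0:ℝ) 1 ×ˢ Set.Icc (0:ℝ) 1))) ∧
    (∀ i k p, |φ i k p| ≤ 3) ∧
    (∀ i k j l, ∫ p, φ i k p * φ j l p ∂(volume.restrict (Set.Icc (0:ℝ) 1 ×ˢ Set.Icc (0:ℝ) 1))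
      = if i = j ∧ k = l then 1 else 0) ∧
    (∀ g : ℝ × ℝ → ℝ, MemLp g 2 (volume.restrict (Set.Icc (0:ℝ) 1 ×ˢ Set.Icc (0:ℝ) 1)) →
      (∀ i k, ∫ p, g p * φ i k p ∂(volume.restrict (Set.Icc (0:ℝ) 1 ×ˢ Set.Icc (0:ℝ) 1)) = 0) →
      g =ᵐ[volume.restrict (Set.Icc (0:ℝ) 1 ×ˢ Set.Icc (0:ℝ) 1)] 0) ∧
    (∀ a : ℕ → ℕ → ℝ, Summable (fun p : ℕ × ℕ => a p.1 p.2 ^ 2) →
      ∀ᵐ p ∂(volume.restrict (Set.Icc (0:ℝ) 1 ×ˢ Set.Icc (0:ℝ) 1)), ∃ s,
        Tendsto (fun q : ℕ × ℕ => ∑ i ∈ Finset.range q.1, ∑ k ∈ Finset.range q.2, a i k * φ i k p)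
          atTop (𝓝 s)) := by
  rw [← muS_eq]
  refine ⟨phi rr, fun i k => (bdd_phi flippable_rr i k).memLp 2,
    fun i k p => abs_phi_le flippable_rr i k p, fun i k j l => orthonormal_phi flippable_rr i k j l,
    fun g hg h0 => ?_, fun a ha => ae_converge flippable_rr a ha⟩
  have hgi : Integrable g muS := hg.integrable (by norm_num)
  exact gen_rr hgi (complete_phi flippable_rr hgi h0)

end Pool.Agent.Helper91.DoubleONS
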